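import Mathlib

/-!
# Smoothing kernels: flat integrals in dimension four
-/

set_option autoImplicit false

open Set Filter Topology Metric Function MeasureTheory
open scoped ContDiff RealInnerProductSpace

noncomputable section

namespace Pool.Agent.T2H18

/-- Euclidean space of dimension `n`. -/
abbrev E (n : ℕ) := EuclideanSpace ℝ (Fin n)

/-- radial profile of a smoothing kernel -/
structure Ker (e : ℝ) (k : ℝ → ℝ) : Prop where
  smooth : ContDiff ℝ ∞ k
  one : ∀ t, t ≤ 1 - e → k t = 1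
  zero : ∀ t, 1 ≤ t → k t = 0
  anti : Antitone k

theorem exists_ker {e : ℝ} (he : 0 < e) : ∃ k, Ker e k := by
  refine ⟨fun t => Real.smoothTransition ((1 - t) / e), ?_, ?_, ?_, ?_⟩
  · have h1 : ContDiff ℝ ∞ Real.smoothTransition := Real.smoothTransition.contDiff
    exact h1.comp ((contDiff_const.sub contDiff_id).div_const e)
  · intro t ht
    apply Real.smoothTransition.one_of_one_le
    rw [le_div_iff₀ he]
    linarith
  · intro t ht
    apply Real.smoothTransition.zero_of_nonpos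
    apply div_nonpos_of_nonpos_of_nonneg _ he.le
    linarith
  · intro s t hst
    apply Real.smoothTransition.monotone
    gcongr

variable {e : ℝ} {k : ℝ → ℝ}

theorem Ker.nonneg (hk : Ker e k) (t : ℝ) : 0 ≤ k t := by
  rcases le_total t 1 with h | h
  · rw [← hk.zero 1 le_rfl]
    exact hk.anti h
  · rw [hk.zero t h]

theorem Ker.le_one (hk : Ker e k) (t : ℝ) : k t ≤ 1 := by
  rcases le_total t (1 - e) with h | h
  · rw [hk.one t h]
  · rw [← hk.one (1 - e) le_rfl]
    exact hk.anti h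

theorem Ker.diff (hk : Ker e k) : Differentiable ℝ k := hk.smooth.differentiable (by simp)

theorem Ker.deriv_nonpos (hk : Ker e k) (t : ℝ) : deriv k t ≤ 0 := hk.anti.deriv_nonpos

theorem Ker.deriv_cont (hk : Ker e k) : Continuous (deriv k) :=
  hk.smooth.continuous_deriv (by simp)

theorem Ker.deriv_zero (hk : Ker e k) {t : ℝ} (ht : 1 ≤ t) : deriv k t = 0 := by
  have h1 : closure (Ioi (1:ℝ)) ⊆ {t | deriv k t = 0} := by
    apply closure_minimal _ (isClosed_eq hk.deriv_cont continuous_const)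
    intro s hs
    have h2 : k =ᶠ[𝓝 s] fun _ => 0 := by
      filter_upwards [isOpen_Ioi.mem_nhds hs] with u hu
      exact hk.zero u (le_of_lt hu)
    simpa using h2.deriv_eq
  rw [closure_Ioi] at h1
  exact h1 ht

theorem Ker.integrable (_ : Ker e k) {n : ℕ} {f : E n → ℝ} (hf : Continuous f)
    (hf0 : ∀ z, 1 ≤ ‖z‖ → f z = 0) : Integrable f := by
  apply hf.integrable_of_hasCompactSupport
  apply HasCompactSupport.intro (isCompact_closedBall (0 : E n) 1)
  intro x hx
  apply hf0
  simp only [mem_closedBall, dist_zero_right, not_le] at hx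
  exact hx.le

theorem one_le_sq {n : ℕ} {z : E n} (hz : 1 ≤ ‖z‖) : 1 ≤ ‖z‖ ^ 2 := by nlinarith

theorem Ker.integrable_k (hk : Ker e k) {n : ℕ} : Integrable (fun z : E n => k (‖z‖ ^ 2)) := by
  apply hk.integrable
  · exact hk.diff.continuous.comp (by fun_prop)
  · intro z hz
    exact hk.zero _ (one_le_sq hz)

theorem Ker.integral_k_ge (hk : Ker e k) (he1 : e ≤ 1) :
    Real.pi ^ 2 / 2 * (1 - e) ^ 2 ≤ ∫ z : E 4, k (‖z‖ ^ 2) := by
  have h0 : 0 ≤ 1 - e := by linarith
  have h1 : ∫ z : E 4, (ball (0 : E 4) (√(1 - e))).indicator (fun _ => (1:ℝ)) z ≤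
      ∫ z : E 4, k (‖z‖ ^ 2) := by
    apply integral_mono_of_nonneg
    · exact Eventually.of_forall fun z => indicator_nonneg (fun _ _ => zero_le_one) _
    · exact hk.integrable_k
    · refine Eventually.of_forall fun z => ?_
      by_cases hz : z ∈ ball (0 : E 4) (√(1 - e))
      · simp only [hz, indicator_of_mem]
        rw [hk.one]
        simp only [mem_ball, dist_zero_right] at hz
        have h2 : ‖z‖ ^ 2 < √(1 - e) ^ 2 := by
          gcongr
        rw [Real.sq_sqrt h0] at h2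
        exact h2.le
      · simp only [hz, not_false_eq_true, indicator_of_notMem]
        exact hk.nonneg _
  refine le_trans (le_of_eq ?_) h1
  rw [integral_indicator measurableSet_ball]
  simp only [integral_const, MeasurableSet.univ, measureReal_restrict_apply, univ_inter,
    smul_eq_mul, mul_one]
  have h3 := InnerProductSpace.volume_ball_of_dim_even (E := E 4) (k := 2) (by simp) (0 : E 4) (√(1 - e))
  rw [Measure.real, h3]
  simp only [finrank_euclideanSpace, Fintype.card_fin]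
  rw [← ENNReal.ofReal_pow (Real.sqrt_nonneg _), ← ENNReal.ofReal_mul (by positivity),
    ENNReal.toReal_ofReal (by positivity)]
  have h5 : √(1 - e) ^ 4 = (1 - e) ^ 2 := by
    have : √(1 - e) ^ 4 = (√(1 - e) ^ 2) ^ 2 := by ring
    rw [this, Real.sq_sqrt h0]
  rw [h5]
  norm_num [Nat.factorial]
  ring

theorem Ker.cont1 (hk : Ker e k) {n : ℕ} (w : E n) :
    Continuous (fun z : E n => -2 * deriv k (‖z‖ ^ 2) * ⟪z, w⟫) := by
  have := hk.deriv_cont
  fun_prop

theorem Ker.integral_odd (w : E 4) :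
    ∫ z : E 4, -2 * deriv k (‖z‖ ^ 2) * ⟪z, w⟫ = 0 := by
  have h1 := integral_neg_eq_self (fun z : E 4 => -2 * deriv k (‖z‖ ^ 2) * ⟪z, w⟫) volume
  have h2 : (fun z : E 4 => -2 * deriv k (‖-z‖ ^ 2) * ⟪-z, w⟫) =
      fun z => - (-2 * deriv k (‖z‖ ^ 2) * ⟪z, w⟫) := by
    funext z
    rw [norm_neg, inner_neg_left]
    ring
  rw [h2, integral_neg] at h1
  linarith

theorem Ker.hasFDerivAt (hk : Ker e k) {n : ℕ} (z : E n) :
    HasFDerivAt (fun z : E n => k (‖z‖ ^ 2)) ((2 * deriv k (‖z‖ ^ 2)) • innerSL ℝ z) z := by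
  have h1 : HasFDerivAt (fun z : E n => ‖z‖ ^ 2) (2 • innerSL ℝ z) z :=
    (hasStrictFDerivAt_norm_sq z).hasFDerivAt
  have h2 := (hk.diff (‖z‖ ^ 2)).hasDerivAt.comp_hasFDerivAt z h1
  refine h2.congr_fderiv ?_
  ext w
  simp [two_smul]
  ring

theorem Ker.integral_two (hk : Ker e k) {w : E 4} (hw : ‖w‖ = 1) :
    ∫ z : E 4, -2 * deriv k (‖z‖ ^ 2) * ⟪z, w⟫ * ⟪z, w⟫ = ∫ z : E 4, k (‖z‖ ^ 2) := by
  have h1 := integral_mul_fderiv_eq_neg_fderiv_mul_of_integrable (μ := (volume : Measure (E 4)))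
    (f := fun z : E 4 => ⟪w, z⟫) (g := fun z : E 4 => k (‖z‖ ^ 2)) (v := w)
  have hf : ∀ z : E 4, fderiv ℝ (fun z : E 4 => ⟪w, z⟫) z w = 1 := by
    intro z
    have : fderiv ℝ (fun z : E 4 => ⟪w, z⟫) z = innerSL ℝ w := (innerSL ℝ w).fderiv
    rw [this]
    simp [hw]
  have hg : ∀ z : E 4, fderiv ℝ (fun z : E 4 => k (‖z‖ ^ 2)) z w = 2 * deriv k (‖z‖ ^ 2) * ⟪z, w⟫ := by
    intro z
    rw [(hk.hasFDerivAt z).fderiv]
    simp
  have hdc := hk.deriv_cont
  have hkc := hk.diff.continuous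
  specialize h1 ?_ ?_ ?_ ?_ ?_
  · simp only [hf]
    apply hk.integrable (by fun_prop)
    intro z hz
    rw [hk.zero _ (one_le_sq hz)]
    simp
  · simp only [hg]
    apply hk.integrable (by fun_prop)
    intro z hz
    rw [hk.deriv_zero (one_le_sq hz)]
    simp
  · apply hk.integrable (by fun_prop)
    intro z hz
    rw [hk.zero _ (one_le_sq hz)]
    simp
  · intro z _
    exact (innerSL ℝ w).differentiableAt
  · intro z _
    exact (hk.hasFDerivAt z).differentiableAt
  simp only [hf, hg, one_mul] at h1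
  rw [← neg_eq_iff_eq_neg] at h1
  rw [← h1, ← integral_neg]
  congr 1
  funext z
  rw [real_inner_comm w z]
  ring

/-- the one-dimensional integral -/
theorem Ker.integral_line (hk : Ker e k) {c : ℝ} (hc : 0 ≤ c) :
    ∫ s : ℝ, |-2 * deriv k (s ^ 2 + c) * s| = 2 * k c := by
  have hdc := hk.deriv_cont
  have h1 : ∀ s : ℝ, |-2 * deriv k (s ^ 2 + c) * s| =
      (fun s : ℝ => -2 * deriv k (s ^ 2 + c) * s) |s| := by
    intro s
    simp only
    rw [abs_mul, sq_abs, abs_of_nonneg]
    have := hk.deriv_nonpos (s ^ 2 + c)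
    linarith
  rw [integral_congr_ae (Eventually.of_forall h1),
    integral_comp_abs (f := fun s : ℝ => -2 * deriv k (s ^ 2 + c) * s)]
  have h2 := integral_Ioi_of_hasDerivAt_of_tendsto' (a := (0:ℝ)) (m := 0)
    (f := fun s : ℝ => -k (s ^ 2 + c)) (f' := fun s : ℝ => -2 * deriv k (s ^ 2 + c) * s) ?_ ?_ ?_
  · rw [h2]
    simp
  · intro s _
    have h3 : HasDerivAt (fun s : ℝ => s ^ 2 + c) (2 * s) s := by
      simpa using (hasDerivAt_pow 2 s).add_const c
    have h4 := ((hk.diff (s ^ 2 + c)).hasDerivAt.comp s h3).neg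
    have h5 : -(deriv k (s ^ 2 + c) * (2 * s)) = -2 * deriv k (s ^ 2 + c) * s := by ring
    rw [← h5]
    exact h4
  · apply Integrable.integrableOn
    apply Continuous.integrable_of_hasCompactSupport (by fun_prop)
    apply HasCompactSupport.intro (isCompact_closedBall (0 : ℝ) 1)
    intro x hx
    simp only [mem_closedBall, dist_zero_right, not_le, Real.norm_eq_abs] at hx
    have h5 : 1 ≤ x ^ 2 := by
      rw [← sq_abs]
      nlinarith
    rw [hk.deriv_zero (by linarith)]
    simp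
  · apply tendsto_const_nhds.congr'
    filter_upwards [eventually_ge_atTop (1:ℝ)] with s hs
    have h5 : 1 ≤ s ^ 2 := by nlinarith
    rw [hk.zero _ (by linarith)]
    simp

theorem Ker.integral_abs_zero (hk : Ker e k) :
    ∫ z : E 4, |-2 * deriv k (‖z‖ ^ 2) * z 0| ≤ 8 * Real.pi / 3 := by
  have hdc := hk.deriv_cont
  have hkc := hk.diff.continuous
  have h1 := (PiLp.volume_preserving_toLp (Fin 4)).integral_comp
    (MeasurableEquiv.toLp 2 (Fin 4 → ℝ)).measurableEmbedding
    (fun z : E 4 => |-2 * deriv k (‖z‖ ^ 2) * z 0|)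
  rw [← h1]
  have h2 := ((volume_preserving_piFinSuccAbove (fun _ : Fin 4 => ℝ) 0).symm).integral_comp
    (MeasurableEquiv.piFinSuccAbove (fun _ : Fin 4 => ℝ) 0).symm.measurableEmbedding
    (fun z : Fin 4 → ℝ => |-2 * deriv k (‖(WithLp.toLp 2 z : E 4)‖ ^ 2) * (WithLp.toLp 2 z : E 4) 0|)
  rw [← h2]
  have h3 : ∀ z : ℝ × (Fin 3 → ℝ),
      |-2 * deriv k (‖(WithLp.toLp 2 ((MeasurableEquiv.piFinSuccAbove (fun _ : Fin 4 => ℝ) 0).symm z) : E 4)‖ ^ 2) *
        (WithLp.toLp 2 ((MeasurableEquiv.piFinSuccAbove (fun _ : Fin 4 => ℝ) 0).symm z) : E 4) 0| =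
      |-2 * deriv k (z.1 ^ 2 + ‖(WithLp.toLp 2 z.2 : E 3)‖ ^ 2) * z.1| := by
    intro z
    rw [EuclideanSpace.norm_sq_eq, EuclideanSpace.norm_sq_eq, Fin.sum_univ_succ]
    simp [MeasurableEquiv.piFinSuccAbove, Fin.insertNthEquiv]
  rw [integral_congr_ae (Eventually.of_forall h3)]
  rw [Measure.volume_eq_prod]
  rw [integral_prod_symm]
  · simp only
    have h4 : ∀ y : Fin 3 → ℝ, ∫ x : ℝ, |-2 * deriv k (x ^ 2 + ‖(WithLp.toLp 2 y : E 3)‖ ^ 2) * x| =
        2 * k (‖(WithLp.toLp 2 y : E 3)‖ ^ 2) := fun y => hk.integral_line (by positivity)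
    simp_rw [h4]
    have h5 := (PiLp.volume_preserving_toLp (Fin 3)).integral_comp
      (MeasurableEquiv.toLp 2 (Fin 3 → ℝ)).measurableEmbedding
      (fun z : E 3 => 2 * k (‖z‖ ^ 2))
    rw [h5]
    have h6 : ∫ z : E 3, 2 * k (‖z‖ ^ 2) ≤ ∫ z : E 3, (ball (0 : E 3) 1).indicator (fun _ => (2:ℝ)) z := by
      apply integral_mono_of_nonneg
      · exact Eventually.of_forall fun z => mul_nonneg (by norm_num) (hk.nonneg _)
      · apply (integrable_indicator_iff measurableSet_ball).2
        exact integrableOn_const (measure_ball_lt_top.ne)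
      · refine Eventually.of_forall fun z => ?_
        by_cases hz : z ∈ ball (0 : E 3) 1
        · simp only [hz, indicator_of_mem]
          have := hk.le_one (‖z‖ ^ 2)
          linarith
        · simp only [hz, not_false_eq_true, indicator_of_notMem]
          simp only [mem_ball, dist_zero_right, not_lt] at hz
          rw [hk.zero _ (one_le_sq hz)]
          simp
    refine h6.trans (le_of_eq ?_)
    rw [integral_indicator measurableSet_ball]
    simp only [integral_const, MeasurableSet.univ, measureReal_restrict_apply, univ_inter,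
      smul_eq_mul]
    rw [Measure.real, EuclideanSpace.volume_ball_fin_three]
    simp only [ENNReal.ofReal_one, one_pow, one_mul]
    rw [ENNReal.toReal_ofReal (by positivity)]
    ring
  · apply Continuous.integrable_of_hasCompactSupport
    · have : Continuous fun y : Fin 3 → ℝ => (WithLp.toLp 2 y : E 3) := PiLp.continuous_toLp 2 _
      fun_prop
    · apply HasCompactSupport.intro (isCompact_closedBall (0 : ℝ × (Fin 3 → ℝ)) 1)
      intro x hx
      simp only [mem_closedBall, dist_zero_right, not_le] at hx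
      have h7 : 1 ≤ x.1 ^ 2 + ‖(WithLp.toLp 2 x.2 : E 3)‖ ^ 2 := by
        rw [Prod.norm_def, lt_max_iff] at hx
        rcases hx with hx | hx
        · have : 1 ≤ x.1 ^ 2 := by
            rw [← sq_abs, ← Real.norm_eq_abs]
            nlinarith
          have := sq_nonneg ‖(WithLp.toLp 2 x.2 : E 3)‖
          linarith
        · have h8 : ‖x.2‖ ≤ ‖(WithLp.toLp 2 x.2 : E 3)‖ := by
            rw [pi_norm_le_iff_of_nonneg (norm_nonneg _)]
            intro i
            exact PiLp.norm_apply_le (WithLp.toLp 2 x.2 : E 3) i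
          have : 1 ≤ ‖(WithLp.toLp 2 x.2 : E 3)‖ ^ 2 := by nlinarith
          have := sq_nonneg x.1
          linarith
      rw [hk.deriv_zero h7]
      simp

theorem Ker.integral_abs (hk : Ker e k) {w : E 4} (hw : ‖w‖ = 1) :
    ∫ z : E 4, |-2 * deriv k (‖z‖ ^ 2) * ⟪z, w⟫| ≤ 8 * Real.pi / 3 := by
  set e0 : E 4 := EuclideanSpace.single 0 1 with he0
  have h0 : ‖w‖ = ‖e0‖ := by rw [hw, he0]; simp
  set R : E 4 ≃ₗᵢ[ℝ] E 4 := Submodule.reflection (ℝ ∙ (w - e0))ᗮ with hR
  have hRw : R w = e0 := Submodule.reflection_sub h0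
  have h1 := (R.measurePreserving).integral_comp R.toHomeomorph.measurableEmbedding
    (fun z : E 4 => |-2 * deriv k (‖z‖ ^ 2) * z 0|)
  have h2 : ∀ z : E 4, |-2 * deriv k (‖R z‖ ^ 2) * (R z) 0| = |-2 * deriv k (‖z‖ ^ 2) * ⟪z, w⟫| := by
    intro z
    have h3 : ⟪R z, e0⟫ = (R z) 0 := by
      rw [he0, EuclideanSpace.inner_single_right]
      simp
    rw [R.norm_map, ← R.inner_map_map z w, hRw, h3]
  rw [integral_congr_ae (Eventually.of_forall h2)] at h1
  rw [h1]
  exact hk.integral_abs_zero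

end Pool.Agent.T2H18
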