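import Mathlib
import Pool.Agent.T2H18.Flat

/-!
# The quadratic estimate
-/

set_option autoImplicit false

open Set Filter Topology Metric Function MeasureTheory
open scoped ContDiff RealInnerProductSpace

noncomputable section

namespace Pool.Agent.T2H18

/-- `f` is integrable with integral `c` -/
structure HI {T : Type*} [MeasurableSpace T] (ν : Measure T) (f : T → ℝ) (c : ℝ) : Prop where
  int : Integrable f ν
  eq : ∫ t, f t ∂ν = c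

section HI
variable {T : Type*} [MeasurableSpace T] {ν : Measure T} {f g : T → ℝ} {a b : ℝ}

theorem HI.add (hf : HI ν f a) (hg : HI ν g b) : HI ν (fun t => f t + g t) (a + b) :=
  ⟨hf.int.add hg.int, by rw [integral_add hf.int hg.int, hf.eq, hg.eq]⟩

theorem HI.sub (hf : HI ν f a) (hg : HI ν g b) : HI ν (fun t => f t - g t) (a - b) :=
  ⟨hf.int.sub hg.int, by rw [integral_sub hf.int hg.int, hf.eq, hg.eq]⟩

theorem HI.cmul (hf : HI ν f a) (c : ℝ) : HI ν (fun t => c * f t) (c * a) :=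
  ⟨hf.int.const_mul c, by rw [integral_const_mul, hf.eq]⟩

theorem HI.mulc (hf : HI ν f a) (c : ℝ) : HI ν (fun t => f t * c) (a * c) :=
  ⟨hf.int.mul_const c, by rw [integral_mul_const, hf.eq]⟩

theorem HI.nonneg (hf : HI ν f a) (h : ∀ᵐ t ∂ν, 0 ≤ f t) : 0 ≤ a := by
  rw [← hf.eq]
  exact integral_nonneg_of_ae h

theorem HI.mono (hf : HI ν f a) (hg : HI ν g b) (h : ∀ᵐ t ∂ν, f t ≤ g t) : a ≤ b := by
  rw [← hf.eq, ← hg.eq]
  exact integral_mono_ae hf.int hg.int h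

theorem HI.inner {n : ℕ} {u : T → E n} (hu : Integrable u ν) (c : E n) :
    HI ν (fun t => ⟪c, u t⟫) ⟪c, ∫ t, u t ∂ν⟫ :=
  ⟨hu.const_inner c, integral_inner hu c⟩

theorem HI.inner' {n : ℕ} {u : T → E n} (hu : Integrable u ν) (c : E n) :
    HI ν (fun t => ⟪u t, c⟫) ⟪∫ t, u t ∂ν, c⟫ := by
  have h := HI.inner hu c
  rw [real_inner_comm]
  refine ⟨?_, ?_⟩
  · simpa only [real_inner_comm] using h.int
  · simpa only [real_inner_comm] using h.eq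

end HI

/-- the pairwise inequality -/
theorem pair_ineq {m n : ℕ} {lam κ : ℝ} (hlam : 1 ≤ lam) (hκ : 0 ≤ κ) (s : ℝ) {z z' : E m} {u u' : E n}
    (hz : ‖z‖ ≤ 1) (hz' : ‖z'‖ ≤ 1) (h1 : ‖z - z'‖ - κ ≤ ‖u - u'‖)
    (h2 : ‖u - u'‖ ≤ lam * ‖z - z'‖ + κ) :
    0 ≤ s * (2 * ⟪u, u'⟫ - ‖u‖ ^ 2 - ‖u'‖ ^ 2) +
      ((lam ^ 2 + 1) / 2) * s * (‖z‖ ^ 2 + ‖z'‖ ^ 2 - 2 * ⟪z, z'⟫) +
      ((lam ^ 2 - 1) / 2) * |s| * (‖z‖ ^ 2 + ‖z'‖ ^ 2 - 2 * ⟪z, z'⟫) +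
      κ * (4 * lam + κ + 4) * |s| := by
  have e1 : ‖u - u'‖ ^ 2 = ‖u‖ ^ 2 - 2 * ⟪u, u'⟫ + ‖u'‖ ^ 2 := norm_sub_sq_real u u'
  have e2 : ‖z - z'‖ ^ 2 = ‖z‖ ^ 2 - 2 * ⟪z, z'⟫ + ‖z'‖ ^ 2 := norm_sub_sq_real z z'
  have e3 : 2 * ⟪u, u'⟫ - ‖u‖ ^ 2 - ‖u'‖ ^ 2 = - ‖u - u'‖ ^ 2 := by rw [e1]; ring
  have e4 : ‖z‖ ^ 2 + ‖z'‖ ^ 2 - 2 * ⟪z, z'⟫ = ‖z - z'‖ ^ 2 := by rw [e2]; ring
  rw [e3, e4]
  have hd : ‖z - z'‖ ≤ 2 := (norm_sub_le _ _).trans (by linarith)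
  set d := ‖z - z'‖ with hd'
  set x := ‖u - u'‖ with hx'
  have hd0 : 0 ≤ d := norm_nonneg _
  have hx0 : 0 ≤ x := norm_nonneg _
  rcases le_total 0 s with hs | hs
  · rw [abs_of_nonneg hs]
    have h3 : x ^ 2 ≤ (lam * d + κ) ^ 2 := by
      apply pow_le_pow_left₀ hx0 h2
    have h4 : (lam * d + κ) ^ 2 ≤ lam ^ 2 * d ^ 2 + κ * (4 * lam + κ) := by
      have : 0 ≤ lam * κ * (2 - d) := by
        apply mul_nonneg (mul_nonneg (by linarith) hκ)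
        linarith
      nlinarith
    have h5 : 0 ≤ κ * 4 := by linarith
    have h6 : 0 ≤ s * (lam ^ 2 * d ^ 2 + κ * (4 * lam + κ + 4) - x ^ 2) := by
      apply mul_nonneg hs
      linarith
    calc (0:ℝ) ≤ s * (lam ^ 2 * d ^ 2 + κ * (4 * lam + κ + 4) - x ^ 2) := h6
      _ = _ := by ring
  · rw [abs_of_nonpos hs]
    have h4 : d ^ 2 - κ * 4 ≤ x ^ 2 := by
      rcases le_total d κ with h | h
      · have : d ^ 2 ≤ κ * 4 := by nlinarith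
        nlinarith [sq_nonneg x]
      · have h5 : (d - κ) ^ 2 ≤ x ^ 2 := by
          apply pow_le_pow_left₀ (by linarith) h1
        nlinarith [sq_nonneg κ]
    have h5 : 0 ≤ κ * (4 * lam + κ) := by
      apply mul_nonneg hκ
      linarith
    have h6 : 0 ≤ (-s) * (x ^ 2 - d ^ 2 + κ * (4 * lam + κ + 4)) := by
      apply mul_nonneg (by linarith)
      linarith
    calc (0:ℝ) ≤ (-s) * (x ^ 2 - d ^ 2 + κ * (4 * lam + κ + 4)) := h6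
      _ = _ := by ring

/-- **The quadratic estimate.** -/
theorem est {T : Type*} [MeasurableSpace T] (ν : Measure T) {m n : ℕ}
    {lam κ : ℝ} (hlam : 1 ≤ lam) (hκ : 0 ≤ κ) (ρ : T → ℝ) (z : T → E m) (u : T → E n)
    (G : Set T) (hG : ∀ᵐ t ∂ν, t ∈ G)
    (hz : ∀ t ∈ G, ‖z t‖ ≤ 1) (hu : ∀ t ∈ G, ‖u t‖ ≤ lam + κ)
    (h : ∀ t ∈ G, ∀ t' ∈ G, ‖z t - z t'‖ - κ ≤ ‖u t - u t'‖ ∧
      ‖u t - u t'‖ ≤ lam * ‖z t - z t'‖ + κ)
    (i1 : Integrable ρ ν) (i2 : Integrable (fun t => ρ t * ‖u t‖ ^ 2) ν)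
    (i3 : Integrable (fun t => ρ t * ‖z t‖ ^ 2) ν) (i4 : Integrable (fun t => ρ t • u t) ν)
    (i5 : Integrable (fun t => ρ t • z t) ν) (i6 : Integrable (fun t => |ρ t| • z t) ν)
    (i7 : Integrable (fun t => |ρ t| * ‖z t‖ ^ 2) ν) :
    (lam ^ 2 + 1) / 2 * ‖∫ t, ρ t • z t ∂ν‖ ^ 2 - (lam ^ 2 - 1) / 2 * (∫ t, |ρ t| ∂ν) ^ 2
      - |∫ t, ρ t ∂ν| * (∫ t, |ρ t| ∂ν) * ((lam + κ) ^ 2 + (lam ^ 2 + 1) / 2)
      - κ * (4 * lam + κ + 4) / 2 * (∫ t, |ρ t| ∂ν) ^ 2 ≤ ‖∫ t, ρ t • u t ∂ν‖ ^ 2 := by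
  set Y := ∫ t, ρ t • u t ∂ν with hY
  set Z := ∫ t, ρ t • z t ∂ν with hZ
  set Z' := ∫ t, |ρ t| • z t ∂ν with hZ'
  set r1 := ∫ t, ρ t ∂ν with hr1
  set ra := ∫ t, |ρ t| ∂ν with hra
  set U := ∫ t, ρ t * ‖u t‖ ^ 2 ∂ν with hU
  set q := ∫ t, ρ t * ‖z t‖ ^ 2 ∂ν with hq
  set qa := ∫ t, |ρ t| * ‖z t‖ ^ 2 ∂ν with hqa
  have H1 : HI ν ρ r1 := ⟨i1, rfl⟩
  have Ha : HI ν (fun t => |ρ t|) ra := ⟨i1.abs, rfl⟩
  have HU : HI ν (fun t => ρ t * ‖u t‖ ^ 2) U := ⟨i2, rfl⟩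
  have Hq : HI ν (fun t => ρ t * ‖z t‖ ^ 2) q := ⟨i3, rfl⟩
  have Hqa : HI ν (fun t => |ρ t| * ‖z t‖ ^ 2) qa := ⟨i7, rfl⟩
  set a := (lam ^ 2 + 1) / 2 with ha
  set b := (lam ^ 2 - 1) / 2 with hb
  set c := κ * (4 * lam + κ + 4) with hc
  have hb0 : 0 ≤ b := by
    rw [hb]
    nlinarith
  have ha0 : 0 ≤ a := by
    rw [ha]
    nlinarith
  have hc0 : 0 ≤ c := by
    rw [hc]
    apply mul_nonneg hκ
    linarith
  -- first integration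
  have step1 : ∀ t ∈ G, 0 ≤ 2 * (ρ t * ⟪u t, Y⟫) - (ρ t * ‖u t‖ ^ 2) * r1 - ρ t * U +
      a * ((ρ t * ‖z t‖ ^ 2) * r1 + ρ t * q - 2 * (ρ t * ⟪z t, Z⟫)) +
      b * ((|ρ t| * ‖z t‖ ^ 2) * ra + |ρ t| * qa - 2 * (|ρ t| * ⟪z t, Z'⟫)) +
      c * (|ρ t| * ra) := by
    intro t ht
    have HI1 := ((((((HI.inner i4 (u t)).cmul (ρ t)).cmul 2).sub (H1.cmul (ρ t * ‖u t‖ ^ 2))).sub
      (HU.cmul (ρ t))).add ((((H1.cmul (ρ t * ‖z t‖ ^ 2)).add (Hq.cmul (ρ t))).sub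
      (((HI.inner i5 (z t)).cmul (ρ t)).cmul 2)).cmul a)).add
      ((((Ha.cmul (|ρ t| * ‖z t‖ ^ 2)).add (Hqa.cmul (|ρ t|))).sub
      (((HI.inner i6 (z t)).cmul (|ρ t|)).cmul 2)).cmul b) |>.add ((Ha.cmul (|ρ t|)).cmul c)
    refine HI1.nonneg ?_
    filter_upwards [hG] with t' ht'
    have h1 := pair_ineq hlam hκ (ρ t * ρ t') (hz t ht) (hz t' ht') (h t ht t' ht').1
      (h t ht t' ht').2
    rw [← ha, ← hb, ← hc, abs_mul] at h1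
    simp only [inner_smul_right]
    refine h1.trans (le_of_eq ?_)
    ring
  -- second integration
  have step2 : 0 ≤ 2 * ⟪Y, Y⟫ - U * r1 - r1 * U + a * (q * r1 + r1 * q - 2 * ⟪Z, Z⟫) +
      b * (qa * ra + ra * qa - 2 * ⟪Z', Z'⟫) + c * (ra * ra) := by
    have HI2 := (((((HI.inner' i4 Y).cmul 2).sub (HU.mulc r1)).sub
      (H1.mulc U)).add ((((Hq.mulc r1).add (H1.mulc q)).sub
      ((HI.inner' i5 Z).cmul 2)).cmul a)).add
      ((((Hqa.mulc ra).add (Ha.mulc qa)).sub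
      ((HI.inner' i6 Z').cmul 2)).cmul b) |>.add ((Ha.mulc ra).cmul c)
    refine HI2.nonneg ?_
    filter_upwards [hG] with t ht
    have h1 := step1 t ht
    simp only [real_inner_smul_left]
    exact h1
  rw [real_inner_self_eq_norm_sq, real_inner_self_eq_norm_sq, real_inner_self_eq_norm_sq] at step2
  have hra0 : 0 ≤ ra := Ha.nonneg (Eventually.of_forall fun t => abs_nonneg _)
  have hUb : |U| ≤ (lam + κ) ^ 2 * ra := by
    rw [abs_le]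
    constructor
    · have := ((Ha.cmul ((lam + κ) ^ 2)).add HU).nonneg ?_
      · linarith
      · filter_upwards [hG] with t ht
        have h1 : ‖u t‖ ^ 2 ≤ (lam + κ) ^ 2 := pow_le_pow_left₀ (norm_nonneg _) (hu t ht) 2
        have h2 := neg_abs_le (ρ t)
        nlinarith [abs_nonneg (ρ t), sq_nonneg ‖u t‖]
    · have := ((Ha.cmul ((lam + κ) ^ 2)).sub HU).nonneg ?_
      · linarith
      · filter_upwards [hG] with t ht
        have h1 : ‖u t‖ ^ 2 ≤ (lam + κ) ^ 2 := pow_le_pow_left₀ (norm_nonneg _) (hu t ht) 2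
        have h2 := le_abs_self (ρ t)
        nlinarith [abs_nonneg (ρ t), sq_nonneg ‖u t‖]
  have hqb : |q| ≤ ra := by
    rw [abs_le]
    constructor
    · have := (Ha.add Hq).nonneg ?_
      · linarith
      · filter_upwards [hG] with t ht
        have h1 : ‖z t‖ ^ 2 ≤ 1 ^ 2 := pow_le_pow_left₀ (norm_nonneg _) (hz t ht) 2
        have h2 := neg_abs_le (ρ t)
        nlinarith [abs_nonneg (ρ t), sq_nonneg ‖z t‖]
    · have := (Ha.sub Hq).nonneg ?_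
      · linarith
      · filter_upwards [hG] with t ht
        have h1 : ‖z t‖ ^ 2 ≤ 1 ^ 2 := pow_le_pow_left₀ (norm_nonneg _) (hz t ht) 2
        have h2 := le_abs_self (ρ t)
        nlinarith [abs_nonneg (ρ t), sq_nonneg ‖z t‖]
  have hqab : qa ≤ ra := by
    have := (Ha.sub Hqa).nonneg ?_
    · linarith
    · filter_upwards [hG] with t ht
      have h1 : ‖z t‖ ^ 2 ≤ 1 ^ 2 := pow_le_pow_left₀ (norm_nonneg _) (hz t ht) 2
      nlinarith [abs_nonneg (ρ t), sq_nonneg ‖z t‖]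
  have f1 : - (U * r1) ≤ |r1| * ra * (lam + κ) ^ 2 := by
    calc - (U * r1) ≤ |U * r1| := neg_le_abs _
      _ = |U| * |r1| := abs_mul _ _
      _ ≤ (lam + κ) ^ 2 * ra * |r1| := mul_le_mul_of_nonneg_right hUb (abs_nonneg _)
      _ = _ := by ring
  have f2 : q * r1 ≤ |r1| * ra := by
    calc q * r1 ≤ |q * r1| := le_abs_self _
      _ = |q| * |r1| := abs_mul _ _
      _ ≤ ra * |r1| := mul_le_mul_of_nonneg_right hqb (abs_nonneg _)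
      _ = _ := by ring
  have f3 : qa * ra ≤ ra ^ 2 := by
    rw [sq]
    exact mul_le_mul_of_nonneg_right hqab hra0
  have f4 : 0 ≤ b * ‖Z'‖ ^ 2 := by positivity
  have f5 : a * (q * r1) ≤ a * (|r1| * ra) := mul_le_mul_of_nonneg_left f2 ha0
  have f6 : b * (qa * ra) ≤ b * ra ^ 2 := mul_le_mul_of_nonneg_left f3 hb0
  have f7 : c / 2 * ra ^ 2 = κ * (4 * lam + κ + 4) / 2 * ra ^ 2 := by rw [hc]
  rw [← f7]
  have f8 : |r1| * ra * ((lam + κ) ^ 2 + a) = |r1| * ra * (lam + κ) ^ 2 + a * (|r1| * ra) := by ring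
  rw [f8]
  have f9 : 2 * ‖Y‖ ^ 2 - U * r1 - r1 * U + a * (q * r1 + r1 * q - 2 * ‖Z‖ ^ 2) +
      b * (qa * ra + ra * qa - 2 * ‖Z'‖ ^ 2) + c * (ra * ra) =
      2 * (‖Y‖ ^ 2 - U * r1 + a * (q * r1) - a * ‖Z‖ ^ 2 + b * (qa * ra) - b * ‖Z'‖ ^ 2 +
        c / 2 * ra ^ 2) := by ring
  rw [f9] at step2
  linarith

end Pool.Agent.T2H18
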