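import Mathlib
import Pool.Agent.T2H18.Est

/-!
# Consequences of the quadratic estimate
-/

set_option autoImplicit false

open Set Filter Topology Metric Function MeasureTheory
open scoped ContDiff RealInnerProductSpace

noncomputable section

namespace Pool.Agent.T2H18

/-- the constant in the lower bound -/
def Th (lam κ m₀ η : ℝ) : ℝ :=
  (lam ^ 2 + 1) / 2 * (1 - η) ^ 2 - (lam ^ 2 - 1) / 2 * (m₀ + η) ^ 2
    - η * (m₀ + η) * ((lam + κ) ^ 2 + (lam ^ 2 + 1) / 2)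
    - κ * (4 * lam + κ + 4) / 2 * (m₀ + η) ^ 2

theorem core_a {T : Type*} [MeasurableSpace T] (ν : Measure T) {n : ℕ}
    {m₀ η S c : ℝ} (hS0 : 0 < S) (hη0 : 0 ≤ η) (ρ kk : T → ℝ) (u : T → E n)
    (G : Set T) (hG : ∀ᵐ t ∂ν, t ∈ G)
    (hk0 : ∀ t, 0 ≤ kk t) (i0 : Integrable kk ν) (hS : ∫ t, kk t ∂ν = S)
    (i1 : Integrable ρ ν) (b1 : ∫ t, |ρ t| ∂ν ≤ (m₀ + η) * S) (b2 : |∫ t, ρ t ∂ν| ≤ η * S)
    (i4 : Integrable (fun t => ρ t • u t) ν) (i8 : Integrable (fun t => kk t • u t) ν)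
    (P : E n →L[ℝ] E n) (hc : 0 ≤ c) (hP : ∀ t ∈ G, ‖P (u t)‖ ≤ c) :
    ‖P (S⁻¹ • ∫ t, kk t • u t ∂ν)‖ ≤ c ∧
    ‖P (∫ t, ρ t • u t ∂ν - (∫ t, ρ t ∂ν) • S⁻¹ • ∫ t, kk t • u t ∂ν)‖ ≤ c * (m₀ + 2 * η) * S := by
  have h1 : ‖P (S⁻¹ • ∫ t, kk t • u t ∂ν)‖ ≤ c := by
    rw [map_smul, ← ContinuousLinearMap.integral_comp_comm _ i8, norm_smul, norm_inv,
      Real.norm_eq_abs, abs_of_pos hS0, inv_mul_le_iff₀ hS0]
    have h2 : ‖∫ t, P (kk t • u t) ∂ν‖ ≤ ∫ t, kk t * c ∂ν := by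
      apply norm_integral_le_of_norm_le (i0.mul_const c)
      filter_upwards [hG] with t ht
      rw [map_smul, norm_smul, Real.norm_eq_abs, abs_of_nonneg (hk0 t)]
      exact mul_le_mul_of_nonneg_left (hP t ht) (hk0 t)
    rw [integral_mul_const, hS] at h2
    exact h2
  refine ⟨h1, ?_⟩
  rw [map_sub, map_smul]
  have h3 : ‖P (∫ t, ρ t • u t ∂ν)‖ ≤ (m₀ + η) * S * c := by
    rw [← ContinuousLinearMap.integral_comp_comm _ i4]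
    have h2 : ‖∫ t, P (ρ t • u t) ∂ν‖ ≤ ∫ t, |ρ t| * c ∂ν := by
      apply norm_integral_le_of_norm_le (i1.abs.mul_const c)
      filter_upwards [hG] with t ht
      rw [map_smul, norm_smul, Real.norm_eq_abs]
      exact mul_le_mul_of_nonneg_left (hP t ht) (abs_nonneg _)
    rw [integral_mul_const] at h2
    exact h2.trans (mul_le_mul_of_nonneg_right b1 hc)
  have h4 : ‖(∫ t, ρ t ∂ν) • P (S⁻¹ • ∫ t, kk t • u t ∂ν)‖ ≤ η * S * c := by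
    rw [norm_smul, Real.norm_eq_abs]
    exact mul_le_mul b2 h1 (norm_nonneg _) (by positivity)
  refine (norm_sub_le _ _).trans ?_
  calc _ ≤ (m₀ + η) * S * c + η * S * c := add_le_add h3 h4
    _ = _ := by ring

theorem core_b {T : Type*} [MeasurableSpace T] (ν : Measure T) {m n : ℕ}
    {lam κ m₀ η S s : ℝ} (hlam : 1 ≤ lam) (hκ : 0 ≤ κ) (hη0 : 0 ≤ η) (hη1 : η ≤ 1)
    (hS0 : 0 < S) (hs : 0 < s) (ρ : T → ℝ) (z : T → E m) (u : T → E n)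
    (w : E m) (hw : ‖w‖ = 1)
    (G : Set T) (hG : ∀ᵐ t ∂ν, t ∈ G)
    (hz : ∀ t ∈ G, ‖z t‖ ≤ 1) (hu : ∀ t ∈ G, ‖u t‖ ≤ s * (lam + κ))
    (h : ∀ t ∈ G, ∀ t' ∈ G, s * (‖z t - z t'‖ - κ) ≤ ‖u t - u t'‖ ∧
      ‖u t - u t'‖ ≤ s * (lam * ‖z t - z t'‖ + κ))
    (i1 : Integrable ρ ν) (i2 : Integrable (fun t => ρ t * ‖u t‖ ^ 2) ν)
    (i3 : Integrable (fun t => ρ t * ‖z t‖ ^ 2) ν) (i4 : Integrable (fun t => ρ t • u t) ν)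
    (i5 : Integrable (fun t => ρ t • z t) ν) (i6 : Integrable (fun t => |ρ t| • z t) ν)
    (i7 : Integrable (fun t => |ρ t| * ‖z t‖ ^ 2) ν)
    (b1 : ∫ t, |ρ t| ∂ν ≤ (m₀ + η) * S) (b2 : |∫ t, ρ t ∂ν| ≤ η * S)
    (b3 : (1 - η) * S ≤ ∫ t, ρ t * ⟪z t, w⟫ ∂ν) :
    s ^ 2 * S ^ 2 * Th lam κ m₀ η ≤ ‖∫ t, ρ t • u t ∂ν‖ ^ 2 := by
  have hsc : ∀ x : E n, ‖s⁻¹ • x‖ = s⁻¹ * ‖x‖ := fun x => by
    rw [norm_smul, norm_inv, Real.norm_eq_abs, abs_of_pos hs]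
  have h1 := est ν hlam hκ ρ z (fun t => s⁻¹ • u t) G hG hz ?_ ?_ i1 ?_ i3 ?_ i5 i6 i7
  rotate_left
  · intro t ht
    rw [hsc, inv_mul_le_iff₀ hs]
    exact hu t ht
  · intro t ht t' ht'
    rw [← smul_sub, hsc, inv_mul_le_iff₀ hs, le_inv_mul_iff₀ hs]
    exact h t ht t' ht'
  · have : (fun t => ρ t * ‖s⁻¹ • u t‖ ^ 2) = fun t => (s⁻¹) ^ 2 * (ρ t * ‖u t‖ ^ 2) := by
      funext t
      rw [hsc]
      ring
    rw [this]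
    exact i2.const_mul _
  · have : (fun t => ρ t • s⁻¹ • u t) = fun t => s⁻¹ • (ρ t • u t) := by
      funext t
      rw [smul_comm]
    rw [this]
    exact i4.smul (s⁻¹ : ℝ)
  have h2 : ∫ t, ρ t • s⁻¹ • u t ∂ν = s⁻¹ • ∫ t, ρ t • u t ∂ν := by
    rw [← integral_smul]
    congr 1
    funext t
    rw [smul_comm]
  rw [h2, hsc, mul_pow] at h1
  -- the lower bound for Z
  have hZ : (1 - η) * S ≤ ‖∫ t, ρ t • z t ∂ν‖ := by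
    have h3 : ∫ t, ρ t * ⟪z t, w⟫ ∂ν = ⟪∫ t, ρ t • z t ∂ν, w⟫ := by
      have := (HI.inner' i5 w).eq
      rw [← this]
      congr 1
      funext t
      rw [real_inner_smul_left]
    calc (1 - η) * S ≤ ⟪∫ t, ρ t • z t ∂ν, w⟫ := by rw [← h3]; exact b3
      _ ≤ ‖∫ t, ρ t • z t ∂ν‖ * ‖w‖ := real_inner_le_norm _ _
      _ = _ := by rw [hw, mul_one]
  have hZ2 : ((1 - η) * S) ^ 2 ≤ ‖∫ t, ρ t • z t ∂ν‖ ^ 2 :=
    pow_le_pow_left₀ (mul_nonneg (by linarith) hS0.le) hZ 2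
  set ra := ∫ t, |ρ t| ∂ν with hra
  have hra0 : 0 ≤ ra := integral_nonneg fun t => abs_nonneg _
  have hra2 : ra ^ 2 ≤ ((m₀ + η) * S) ^ 2 := pow_le_pow_left₀ hra0 b1 2
  have hm0 : 0 ≤ (m₀ + η) * S := hra0.trans b1
  have h4 : |∫ t, ρ t ∂ν| * ra ≤ (η * S) * ((m₀ + η) * S) :=
    mul_le_mul b2 b1 hra0 (by positivity)
  have ha : 0 ≤ (lam ^ 2 + 1) / 2 := by positivity
  have hb : 0 ≤ (lam ^ 2 - 1) / 2 := by nlinarith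
  have hc : 0 ≤ κ * (4 * lam + κ + 4) / 2 := by
    have : 0 ≤ 4 * lam + κ + 4 := by linarith
    positivity
  have hd : 0 ≤ (lam + κ) ^ 2 + (lam ^ 2 + 1) / 2 := by positivity
  have h5 : S ^ 2 * Th lam κ m₀ η ≤ s⁻¹ ^ 2 * ‖∫ t, ρ t • u t ∂ν‖ ^ 2 := by
    refine le_trans ?_ h1
    have e1 := mul_le_mul_of_nonneg_left hZ2 ha
    have e2 := mul_le_mul_of_nonneg_left hra2 hb
    have e3 := mul_le_mul_of_nonneg_right h4 hd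
    have e4 := mul_le_mul_of_nonneg_left hra2 hc
    unfold Th
    calc _ = (lam ^ 2 + 1) / 2 * ((1 - η) * S) ^ 2 - (lam ^ 2 - 1) / 2 * ((m₀ + η) * S) ^ 2
        - (η * S) * ((m₀ + η) * S) * ((lam + κ) ^ 2 + (lam ^ 2 + 1) / 2)
        - κ * (4 * lam + κ + 4) / 2 * ((m₀ + η) * S) ^ 2 := by ring
      _ ≤ _ := by linarith
  have h6 := mul_le_mul_of_nonneg_left h5 (sq_nonneg s)
  calc s ^ 2 * S ^ 2 * Th lam κ m₀ η = s ^ 2 * (S ^ 2 * Th lam κ m₀ η) := by ring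
    _ ≤ s ^ 2 * (s⁻¹ ^ 2 * ‖∫ t, ρ t • u t ∂ν‖ ^ 2) := h6
    _ = _ := by
      field_simp

end Pool.Agent.T2H18
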