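import Mathlib
import Pool.Agent.T2H18.Flat

/-!
# Small scale asymptotics of integrals over embedded pieces
-/

set_option autoImplicit false

open Set Filter Topology Metric Function MeasureTheory
open scoped ContDiff RealInnerProductSpace

noncomputable section

namespace Pool.Agent.T2H18

/-- lower bound for an injective linear map -/
theorem exists_lower {n m : ℕ} {J : E n →L[ℝ] E m} (hJ : Injective J) :
    ∃ a : ℝ, 0 < a ∧ ∀ z, a * ‖z‖ ≤ ‖J z‖ := by
  obtain ⟨K, hK, h⟩ := (J : E n →ₗ[ℝ] E m).exists_antilipschitzWith (LinearMap.ker_eq_bot.2 hJ)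
  refine ⟨(K : ℝ)⁻¹, inv_pos.2 hK, fun z => ?_⟩
  have h1 := h.le_mul_dist z 0
  simp only [dist_zero_right, map_zero] at h1
  have hK' : (0:ℝ) < K := hK
  rw [inv_mul_le_iff₀ hK']
  exact h1

/-- strict derivative and injectivity of the differential give a local lower bound -/
theorem local_lower {n m : ℕ} {c : E n → E m} {J : E n →L[ℝ] E m} {p₀ : E n}
    (hc : HasStrictFDerivAt c J p₀) (hJ : Injective J) :
    ∃ a : ℝ, 0 < a ∧ ∃ ρ : ℝ, 0 < ρ ∧ ∀ p ∈ ball p₀ ρ, ∀ q ∈ ball p₀ ρ,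
      a * ‖q - p‖ ≤ ‖c q - c p‖ := by
  obtain ⟨a, ha, hJa⟩ := exists_lower hJ
  have h1 := hc.isLittleO.def (half_pos ha)
  rw [nhds_prod_eq] at h1
  obtain ⟨U, hU, V, hV, hUV⟩ := Filter.eventually_prod_iff.1 h1
  obtain ⟨ρ₁, hρ₁, h₁⟩ := Metric.eventually_nhds_iff.1 hU
  obtain ⟨ρ₂, hρ₂, h₂⟩ := Metric.eventually_nhds_iff.1 hV
  refine ⟨a / 2, half_pos ha, min ρ₁ ρ₂, lt_min hρ₁ hρ₂, ?_⟩
  intro p hp q hq
  have h3 := hUV (h₁ (show dist q p₀ < ρ₁ from lt_of_lt_of_le hq (min_le_left _ _)))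
    (h₂ (show dist p p₀ < ρ₂ from lt_of_lt_of_le hp (min_le_right _ _)))
  simp only at h3
  have h4 := hJa (q - p)
  have h5 : ‖J (q - p)‖ ≤ ‖c q - c p‖ + ‖c q - c p - J (q - p)‖ := by
    have : J (q - p) = (c q - c p) - (c q - c p - J (q - p)) := by abel
    calc ‖J (q - p)‖ = ‖(c q - c p) - (c q - c p - J (q - p))‖ := by rw [← this]
      _ ≤ _ := norm_sub_le _ _
  linarith

/-- The data of a test function with a parameter. -/
structure Test {m : ℕ} (Ψ : E m → E m → ℝ) : Prop where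
  cont : Continuous (fun x : E m × E m => Ψ x.1 x.2)
  supp : ∀ z w, 1 ≤ ‖z‖ → Ψ z w = 0

theorem Test.bdd {m : ℕ} {Ψ : E m → E m → ℝ} (h : Test Ψ) (w₀ : E m) :
    ∃ C : ℝ, 0 ≤ C ∧ ∀ w ∈ closedBall w₀ 1, ∀ z, ‖Ψ z w‖ ≤ C := by
  obtain ⟨C, hC⟩ := ((isCompact_closedBall (0 : E m) 1).prod
    (isCompact_closedBall w₀ 1)).exists_bound_of_continuousOn h.cont.continuousOn
  refine ⟨max C 0, le_max_right _ _, fun w hw z => ?_⟩
  rcases le_total ‖z‖ 1 with hz | hz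
  · exact (hC (z, w) ⟨by simpa using hz, hw⟩).trans (le_max_left _ _)
  · rw [h.supp z w hz]
    simp

/-- asymptotics in one chart -/
theorem tendsto_piece {m : ℕ} {c : E 4 → E m} (hcc : Continuous c) {J : E 4 →L[ℝ] E m} {p₀ : E 4}
    (hc : HasStrictFDerivAt c J p₀) (hJ : Injective J)
    (hinj : ∀ q, ‖q‖ ≤ 2 → c q = c p₀ → q = p₀)
    {θ : E 4 → ℝ} (hθ : Continuous θ) (hθ0 : ∀ q, 2 < ‖q‖ → θ q = 0)
    {Ψ : E m → E m → ℝ} (hΨ : Test Ψ) (w₀ : E m) :
    Tendsto (fun x : ℝ × E 4 × E m => ∫ z : E 4, θ (x.2.1 + x.1 • z) *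
      Ψ (x.1⁻¹ • (c (x.2.1 + x.1 • z) - c x.2.1)) x.2.2)
      (𝓝[>] 0 ×ˢ (𝓝 p₀ ×ˢ 𝓝 w₀)) (𝓝 (∫ z : E 4, θ p₀ * Ψ (J z) w₀)) := by
  obtain ⟨C, hC0, hC⟩ := hΨ.bdd w₀
  obtain ⟨T, hT⟩ : ∃ T : ℝ, ∀ q, ‖θ q‖ ≤ T := by
    obtain ⟨T, hT⟩ := (isCompact_closedBall (0 : E 4) 2).exists_bound_of_continuousOn hθ.continuousOn
    refine ⟨max T 0, fun q => ?_⟩
    rcases le_or_gt ‖q‖ 2 with hq | hq
    · exact (hT q (by simpa using hq)).trans (le_max_left _ _)
    · rw [hθ0 q hq]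
      simp
  have hT0 : 0 ≤ T := (norm_nonneg _).trans (hT 0)
  obtain ⟨a, ha, ρ, hρ, hlow⟩ := local_lower hc hJ
  -- far part
  obtain ⟨β, hβ, hfar⟩ : ∃ β : ℝ, 0 < β ∧ ∀ q, ‖q‖ ≤ 2 → ρ ≤ dist q p₀ → β ≤ ‖c q - c p₀‖ := by
    have hK : IsCompact (closedBall (0 : E 4) 2 \ ball p₀ ρ) :=
      (isCompact_closedBall _ _).diff isOpen_ball
    rcases (closedBall (0 : E 4) 2 \ ball p₀ ρ).eq_empty_or_nonempty with h | h
    · refine ⟨1, one_pos, fun q hq1 hq2 => ?_⟩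
      exfalso
      have : q ∈ closedBall (0 : E 4) 2 \ ball p₀ ρ := ⟨by simpa using hq1, by simpa using hq2⟩
      rw [h] at this
      exact this
    · obtain ⟨q₁, hq₁, hmin⟩ := hK.exists_isMinOn h
        (f := fun q => ‖c q - c p₀‖) (by fun_prop)
      refine ⟨‖c q₁ - c p₀‖, ?_, fun q hq1 hq2 => ?_⟩
      · rw [norm_pos_iff, sub_ne_zero]
        intro h2
        have h3 := hinj q₁ (by simpa using hq₁.1) h2
        apply hq₁.2
        rw [h3]
        exact mem_ball_self hρ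
      · exact hmin (show q ∈ closedBall (0 : E 4) 2 \ ball p₀ ρ from
          ⟨by simpa using hq1, by simpa using hq2⟩)
  -- the filter
  set F : Filter (ℝ × E 4 × E m) := 𝓝[>] 0 ×ˢ (𝓝 p₀ ×ˢ 𝓝 w₀) with hF
  have tr : Tendsto (fun x : ℝ × E 4 × E m => x.1) F (𝓝[>] 0) := tendsto_fst
  have tr0 : Tendsto (fun x : ℝ × E 4 × E m => x.1) F (𝓝 0) := tr.mono_right nhdsWithin_le_nhds
  have tp : Tendsto (fun x : ℝ × E 4 × E m => x.2.1) F (𝓝 p₀) := tendsto_fst.comp tendsto_snd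
  have tw : Tendsto (fun x : ℝ × E 4 × E m => x.2.2) F (𝓝 w₀) := tendsto_snd.comp tendsto_snd
  have er : ∀ᶠ x in F, 0 < x.1 := tr.eventually eventually_mem_nhdsWithin
  have er1 : ∀ᶠ x in F, x.1 < β / 2 := tr0.eventually (gt_mem_nhds (half_pos hβ))
  have ep1 : ∀ᶠ x in F, x.2.1 ∈ ball p₀ ρ := tp.eventually (ball_mem_nhds _ hρ)
  have ep2 : ∀ᶠ x in F, ‖c x.2.1 - c p₀‖ < β / 2 := by
    have h1 : Tendsto (fun x : ℝ × E 4 × E m => ‖c x.2.1 - c p₀‖) F (𝓝 0) := by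
      have h2 : Tendsto (fun x : ℝ × E 4 × E m => ‖c x.2.1 - c p₀‖) F (𝓝 ‖c p₀ - c p₀‖) :=
        (((hcc.tendsto p₀).comp tp).sub_const _).norm
      simpa using h2
    exact h1.eventually (gt_mem_nhds (half_pos hβ))
  have ew : ∀ᶠ x in F, x.2.2 ∈ closedBall w₀ 1 := tw.eventually (closedBall_mem_nhds _ one_pos)
  have : F.IsCountablyGenerated := by
    rw [hF]
    infer_instance
  apply tendsto_integral_filter_of_dominated_convergence
    (fun z => (closedBall (0 : E 4) (1 / a)).indicator (fun _ => T * C) z)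
  · refine Eventually.of_forall fun x => ?_
    apply Continuous.aestronglyMeasurable
    have h1 := hΨ.cont
    have h2 : Continuous (fun z : E 4 => Ψ (x.1⁻¹ • (c (x.2.1 + x.1 • z) - c x.2.1)) x.2.2) := by
      have h3 : Continuous (fun z : E 4 => (x.1⁻¹ • (c (x.2.1 + x.1 • z) - c x.2.1), x.2.2)) := by
        fun_prop
      exact h1.comp h3
    fun_prop
  · filter_upwards [er, er1, ep1, ep2, ew] with x hr hr1 hp1 hp2 hw
    refine Eventually.of_forall fun z => ?_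
    by_cases hz : z ∈ closedBall (0 : E 4) (1 / a)
    · rw [indicator_of_mem hz, norm_mul]
      exact mul_le_mul (hT _) (hC _ hw _) (norm_nonneg _) hT0
    · rw [indicator_of_notMem hz]
      simp only [mem_closedBall, dist_zero_right, not_le] at hz
      rw [norm_le_zero_iff, mul_eq_zero]
      by_contra hcon
      push Not at hcon
      have h1 : ‖x.2.1 + x.1 • z‖ ≤ 2 := by
        by_contra h2
        exact hcon.1 (hθ0 _ (not_le.1 h2))
      have h2 : ‖c (x.2.1 + x.1 • z) - c x.2.1‖ < x.1 := by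
        by_contra h3
        push Not at h3
        apply hcon.2
        apply hΨ.supp
        rw [norm_smul, norm_inv, Real.norm_eq_abs, abs_of_pos hr]
        rw [← div_eq_inv_mul, le_div_iff₀ hr]
        linarith
      by_cases h3 : dist (x.2.1 + x.1 • z) p₀ < ρ
      · have h4 := hlow _ hp1 _ h3
        rw [add_sub_cancel_left, norm_smul, Real.norm_eq_abs, abs_of_pos hr] at h4
        have h5 : a * ‖z‖ < 1 := by
          have : a * ‖z‖ * x.1 < 1 * x.1 := by nlinarith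
          exact lt_of_mul_lt_mul_right this hr.le
        rw [div_lt_iff₀ ha] at hz
        linarith
      · push Not at h3
        have h4 := hfar _ h1 h3
        have h5 : ‖c (x.2.1 + x.1 • z) - c p₀‖ ≤ ‖c (x.2.1 + x.1 • z) - c x.2.1‖ + ‖c x.2.1 - c p₀‖ := by
          have : c (x.2.1 + x.1 • z) - c p₀ = (c (x.2.1 + x.1 • z) - c x.2.1) + (c x.2.1 - c p₀) := by
            abel
          rw [this]
          exact norm_add_le _ _
        linarith
  · apply (integrable_indicator_iff measurableSet_closedBall).2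
    exact integrableOn_const (measure_closedBall_lt_top.ne)
  · refine Eventually.of_forall fun z => ?_
    have h1 : Tendsto (fun x : ℝ × E 4 × E m => x.2.1 + x.1 • z) F (𝓝 p₀) := by
      have := tp.add (tr0.smul_const z)
      simpa using this
    have h2 : Tendsto (fun x : ℝ × E 4 × E m => θ (x.2.1 + x.1 • z)) F (𝓝 (θ p₀)) :=
      (hθ.tendsto p₀).comp h1
    have h3 : Tendsto (fun x : ℝ × E 4 × E m => x.1⁻¹ • (c (x.2.1 + x.1 • z) - c x.2.1)) F
        (𝓝 (J z)) := by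
      have h4 : Tendsto (fun x : ℝ × E 4 × E m => (x.2.1 + x.1 • z, x.2.1)) F (𝓝 (p₀, p₀)) :=
        h1.prodMk_nhds tp
      have h5 := hc.isLittleO.comp_tendsto h4
      rw [Metric.tendsto_nhds]
      intro δ hδ
      have hz1 : 0 < ‖z‖ + 1 := by positivity
      have h6 := h5.def (div_pos hδ hz1)
      filter_upwards [h6, er] with x hx hr
      simp only [Function.comp_apply, add_sub_cancel_left, norm_smul, Real.norm_eq_abs,
        abs_of_pos hr, map_smul] at hx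
      have h7 : x.1⁻¹ • (c (x.2.1 + x.1 • z) - c x.2.1) - J z =
          x.1⁻¹ • (c (x.2.1 + x.1 • z) - c x.2.1 - x.1 • J z) := by
        rw [smul_sub x.1⁻¹ _ (x.1 • J z), smul_smul, inv_mul_cancel₀ hr.ne', one_smul]
      rw [dist_eq_norm, h7, norm_smul, norm_inv, Real.norm_eq_abs, abs_of_pos hr]
      rw [← div_eq_inv_mul, div_lt_iff₀ hr]
      refine lt_of_le_of_lt hx ?_
      have h8 : δ / (‖z‖ + 1) * (x.1 * ‖z‖) = δ * x.1 * (‖z‖ / (‖z‖ + 1)) := by ring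
      rw [h8]
      have h9 : ‖z‖ / (‖z‖ + 1) < 1 := by
        rw [div_lt_one hz1]
        linarith
      have h10 : 0 < δ * x.1 := mul_pos hδ hr
      nlinarith
    have h4 : Tendsto (fun x : ℝ × E 4 × E m =>
        (x.1⁻¹ • (c (x.2.1 + x.1 • z) - c x.2.1), x.2.2)) F (𝓝 (J z, w₀)) := h3.prodMk_nhds tw
    exact h2.mul ((hΨ.cont.tendsto (J z, w₀)).comp h4)

/-- substitution -/
theorem integral_subst (f : E 4 → ℝ) (p : E 4) {r : ℝ} (hr : 0 < r) :
    r⁻¹ ^ 4 * ∫ q : E 4, f q = ∫ z : E 4, f (p + r • z) := by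
  have h1 := Measure.integral_comp_smul (volume : Measure (E 4)) (fun y => f (p + y)) r
  rw [h1, integral_add_left_eq_self (fun y => f y) p]
  simp only [finrank_euclideanSpace, Fintype.card_fin, smul_eq_mul]
  rw [abs_of_pos (by positivity), inv_pow]

/-- the far case -/
theorem eventually_far {m : ℕ} {c : E 4 → E m} (hcc : Continuous c) {v₀ : E m}
    (hv : ∀ q, ‖q‖ ≤ 2 → c q ≠ v₀)
    {θ : E 4 → ℝ} (hθ0 : ∀ q, 2 < ‖q‖ → θ q = 0)
    {Ψ : E m → E m → ℝ} (hΨ : Test Ψ) (w₀ : E m) :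
    ∀ᶠ x : ℝ × E m × E m in 𝓝[>] 0 ×ˢ (𝓝 v₀ ×ˢ 𝓝 w₀),
      ∫ q : E 4, θ q * Ψ (x.1⁻¹ • (c q - x.2.1)) x.2.2 = 0 := by
  obtain ⟨β, hβ, hfar⟩ : ∃ β : ℝ, 0 < β ∧ ∀ q, ‖q‖ ≤ 2 → β ≤ ‖c q - v₀‖ := by
    obtain ⟨q₁, hq₁, hmin⟩ := (isCompact_closedBall (0 : E 4) 2).exists_isMinOn
      ⟨0, by simp⟩ (f := fun q => ‖c q - v₀‖) (by fun_prop)
    refine ⟨‖c q₁ - v₀‖, ?_, fun q hq1 => ?_⟩
    · rw [norm_pos_iff, sub_ne_zero]
      exact hv q₁ (by simpa using hq₁)
    · exact hmin (show q ∈ closedBall (0 : E 4) 2 by simpa using hq1)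
  set F : Filter (ℝ × E m × E m) := 𝓝[>] 0 ×ˢ (𝓝 v₀ ×ˢ 𝓝 w₀) with hF
  have tr : Tendsto (fun x : ℝ × E m × E m => x.1) F (𝓝[>] 0) := tendsto_fst
  have tr0 : Tendsto (fun x : ℝ × E m × E m => x.1) F (𝓝 0) := tr.mono_right nhdsWithin_le_nhds
  have tp : Tendsto (fun x : ℝ × E m × E m => x.2.1) F (𝓝 v₀) := tendsto_fst.comp tendsto_snd
  have er : ∀ᶠ x in F, 0 < x.1 := tr.eventually eventually_mem_nhdsWithin
  have er1 : ∀ᶠ x in F, x.1 < β / 2 := tr0.eventually (gt_mem_nhds (half_pos hβ))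
  have ep1 : ∀ᶠ x in F, x.2.1 ∈ ball v₀ (β / 2) := tp.eventually (ball_mem_nhds _ (half_pos hβ))
  filter_upwards [er, er1, ep1] with x hr hr1 hp
  have h0 : ∀ q : E 4, θ q * Ψ (x.1⁻¹ • (c q - x.2.1)) x.2.2 = 0 := by
    intro q
    rcases le_or_gt ‖q‖ 2 with hq | hq
    · rw [hΨ.supp, mul_zero]
      have h1 := hfar q hq
      have h2 : ‖c q - v₀‖ ≤ ‖c q - x.2.1‖ + ‖x.2.1 - v₀‖ := by
        have : c q - v₀ = (c q - x.2.1) + (x.2.1 - v₀) := by abel
        rw [this]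
        exact norm_add_le _ _
      rw [mem_ball, dist_eq_norm] at hp
      rw [norm_smul, norm_inv, Real.norm_eq_abs, abs_of_pos hr, ← div_eq_inv_mul,
        le_div_iff₀ hr]
      linarith
    · rw [hθ0 q hq, zero_mul]
  simp [h0]

/-- linear change of variables onto an isometric copy -/
theorem exists_scale {m : ℕ} {J : E 4 →L[ℝ] E m} (hJ : Injective J) (L : E 4 →ₗᵢ[ℝ] E m)
    (hL : ∀ z, ∃ y, L y = J z) :
    ∃ d : ℝ, 0 < d ∧ ∀ φ : E m → ℝ, ∫ z : E 4, φ (J z) = d * ∫ z : E 4, φ (L z) := by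
  choose B hB using hL
  have hBadd : ∀ x y, B (x + y) = B x + B y := by
    intro x y
    apply L.injective
    rw [map_add, hB, hB, hB, map_add]
  have hBsmul : ∀ (a : ℝ) x, B (a • x) = a • B x := by
    intro a x
    apply L.injective
    rw [map_smul, hB, hB, map_smul]
  let B' : E 4 →ₗ[ℝ] E 4 :=
    { toFun := B
      map_add' := hBadd
      map_smul' := fun a x => by simpa using hBsmul a x }
  have hB'c : ∀ z, B' z = B z := fun z => rfl
  have hinj : Injective B' := by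
    intro x y hxy
    apply hJ
    rw [← hB, ← hB, ← hB'c, ← hB'c, hxy]
  have hdet : LinearMap.det B' ≠ 0 := by
    intro h
    have h1 := LinearMap.bot_lt_ker_of_det_eq_zero h
    rw [LinearMap.ker_eq_bot.2 hinj] at h1
    exact lt_irrefl _ h1
  refine ⟨|(LinearMap.det B')⁻¹|, by positivity, fun φ => ?_⟩
  let Be : E 4 ≃ₗ[ℝ] E 4 := LinearEquiv.ofInjectiveEndo B' hinj
  have hmap := Measure.map_linearMap_addHaar_eq_smul_addHaar (volume : Measure (E 4)) hdet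
  have hme : MeasurableEmbedding B' := by
    have h1 : (B' : E 4 → E 4) = Be.toContinuousLinearEquiv.toHomeomorph := rfl
    rw [h1]
    exact Be.toContinuousLinearEquiv.toHomeomorph.measurableEmbedding
  have h2 : ∫ z : E 4, φ (J z) = ∫ z : E 4, φ (L (B' z)) := by
    congr 1
    funext z
    rw [hB'c, hB]
  rw [h2, ← hme.integral_map (g := fun z => φ (L z)), hmap, integral_smul_measure,
    ENNReal.toReal_ofReal (abs_nonneg _), smul_eq_mul]

end Pool.Agent.T2H18
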