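import Mathlib
import Pool.Agent.T2H18.Asym
import Pool.Agent.Y522.Basic

/-!
# Charts, embedded manifolds and small scale asymptotics on a closed manifold
-/

set_option autoImplicit false

open Set Filter Topology Metric Function MeasureTheory
open scoped ContDiff RealInnerProductSpace Manifold

noncomputable section

namespace Pool.Agent.T2H18

open Pool.Agent.Y522 (LD)

variable {M : Type*} [TopologicalSpace M] [ChartedSpace (E 4) M]

theorem exists_param [IsManifold (𝓡 4) ∞ M] (x : M) :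
    ∃ A : E 4 → M, Injective A ∧ (∀ p, LD 4 A p) ∧ A 0 = x := by
  set φ := chartAt (E 4) x with hφ
  obtain ⟨r, hr, hball⟩ := Metric.isOpen_iff.1 φ.open_target (φ x) (mem_chart_target (E 4) x)
  set u : OpenPartialHomeomorph (E 4) (E 4) := OpenPartialHomeomorph.univBall (φ x) r with hu
  have hus : u.source = univ := OpenPartialHomeomorph.univBall_source _ _
  have hut : u.target = ball (φ x) r := OpenPartialHomeomorph.univBall_target _ hr
  have humem : ∀ z, u z ∈ φ.target := by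
    intro z
    apply hball
    rw [← hut]
    exact u.map_source (by rw [hus]; trivial)
  refine ⟨fun z => φ.symm (u z), ?_, ?_, ?_⟩
  · intro a b hab
    have h1 := φ.symm.injOn (humem a) (humem b) hab
    exact u.injOn (by rw [hus]; trivial) (by rw [hus]; trivial) h1
  · intro p
    have h1 : LD 4 u p := by
      refine ⟨{ toPartialEquiv := u.toPartialEquiv
                open_source := u.open_source
                open_target := u.open_target
                contMDiffOn_toFun := ?_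
                contMDiffOn_invFun := ?_ }, ?_, fun _ _ => rfl⟩
      · exact (OpenPartialHomeomorph.contDiff_univBall (n := ⊤)).contMDiff.contMDiffOn
      · have h2 := (OpenPartialHomeomorph.contDiffOn_univBall_symm (n := ⊤) (c := φ x) (r := r))
        rw [← hut] at h2
        exact h2.contMDiffOn
      · change p ∈ u.source
        rw [hus]
        trivial
    have h2 : LD 4 φ.symm (u p) := by
      refine ⟨{ toPartialEquiv := φ.symm.toPartialEquiv
                open_source := φ.symm.open_source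
                open_target := φ.symm.open_target
                contMDiffOn_toFun := contMDiffOn_chart_symm
                contMDiffOn_invFun := contMDiffOn_chart }, humem p, fun _ _ => rfl⟩
    exact LD.comp_fun h2 h1
  · simp only [hu, OpenPartialHomeomorph.univBall_apply_zero]
    exact φ.left_inv (mem_chart_source (E 4) x)

/-- a finite family of global parametrisations covering `M` -/
structure Atl {K : ℕ} (A : Fin K → E 4 → M) : Prop where
  inj : ∀ i, Injective (A i)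
  ld : ∀ i p, LD 4 (A i) p
  cov : ∀ x, ∃ i p, ‖p‖ < 1 ∧ A i p = x

theorem exists_atl [IsManifold (𝓡 4) ∞ M] [CompactSpace M] :
    ∃ (K : ℕ) (A : Fin K → E 4 → M), Atl A := by
  choose A hAi hAd hA0 using exists_param (M := M)
  have hopen : ∀ x, A x '' ball 0 1 ∈ 𝓝 x := by
    intro x
    have := (hAd x 0).image_mem_nhds (ball_mem_nhds (0 : E 4) one_pos)
    rwa [hA0] at this
  obtain ⟨t, -, ht⟩ := (isCompact_univ (X := M)).elim_nhds_subcover
    (fun x => A x '' ball 0 1) (fun x _ => hopen x)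
  let e := t.equivFin
  refine ⟨t.card, fun i => A (e.symm i), fun i => hAi _, fun i p => hAd _ _, fun x => ?_⟩
  have hx : x ∈ ⋃ y ∈ t, A y '' ball 0 1 := ht (mem_univ x)
  rw [mem_iUnion₂] at hx
  obtain ⟨y, hy, p, hp, hpx⟩ := hx
  refine ⟨e ⟨y, hy⟩, p, by simpa using hp, ?_⟩
  simp only [Equiv.symm_apply_apply]
  exact hpx

/-- smooth injective immersions into a Euclidean space -/
structure Emb {m : ℕ} (j : M → E m) : Prop where
  smooth : ContMDiff (𝓡 4) 𝓘(ℝ, E m) ∞ j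
  inj : Injective j
  imm : ∀ x, Injective (mfderiv (𝓡 4) 𝓘(ℝ, E m) j x)

/-- the range of the differential, as a submodule of the ambient space -/
def tang {m : ℕ} (j : M → E m) (x : M) : Submodule ℝ (E m) :=
  LinearMap.range (show E 4 →L[ℝ] E m from mfderiv (𝓡 4) 𝓘(ℝ, E m) j x).toLinearMap

theorem LD_mfderiv_injective [IsManifold (𝓡 4) ∞ M] {f : E 4 → M} {x : E 4} (hf : LD 4 f x) :
    Injective (mfderiv (𝓡 4) (𝓡 4) f x) := by
  have h := hf.mfderivToContinuousLinearEquiv_coe (by simp)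
  rw [← h]
  exact (hf.mfderivToContinuousLinearEquiv (by simp)).injective

section emb

variable {m : ℕ} {j : M → E m} {K : ℕ} {A : Fin K → E 4 → M}

theorem Emb.contDiff (hj : Emb j) (hA : Atl A) (i : Fin K) : ContDiff ℝ ∞ (fun q => j (A i q)) := by
  have h1 : ContMDiff (𝓡 4) 𝓘(ℝ, E m) ∞ (fun q => j (A i q)) := by
    intro q
    exact (hj.smooth (A i q)).comp q (hA.ld i q).contMDiffAt
  exact h1.contDiff

theorem Emb.fderiv_comp [IsManifold (𝓡 4) ∞ M] (hj : Emb j) (hA : Atl A) (i : Fin K) (q v : E 4) :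
    fderiv ℝ (fun q => j (A i q)) q v =
      (show E 4 →L[ℝ] E m from mfderiv (𝓡 4) 𝓘(ℝ, E m) j (A i q))
        ((show E 4 →L[ℝ] E 4 from mfderiv (𝓡 4) (𝓡 4) (A i) q) v) := by
  have h1 := mfderiv_comp (I := 𝓡 4) (I' := 𝓡 4) (I'' := 𝓘(ℝ, E m)) q
    ((hj.smooth (A i q)).mdifferentiableAt (by simp))
    ((hA.ld i q).contMDiffAt.mdifferentiableAt (by simp))
  have h2 : mfderiv (𝓡 4) 𝓘(ℝ, E m) (j ∘ A i) q = fderiv ℝ (fun q => j (A i q)) q :=
    mfderiv_eq_fderiv
  rw [h2] at h1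
  exact DFunLike.congr_fun h1 v

theorem Emb.fderiv_inj [IsManifold (𝓡 4) ∞ M] (hj : Emb j) (hA : Atl A) (i : Fin K) (q : E 4) :
    Injective (fderiv ℝ (fun q => j (A i q)) q) := by
  intro v w hvw
  rw [hj.fderiv_comp hA, hj.fderiv_comp hA] at hvw
  exact LD_mfderiv_injective (hA.ld i q) (hj.imm _ hvw)

theorem Emb.fderiv_mem [IsManifold (𝓡 4) ∞ M] (hj : Emb j) (hA : Atl A) (i : Fin K) (q v : E 4) :
    fderiv ℝ (fun q => j (A i q)) q v ∈ tang j (A i q) := by
  rw [hj.fderiv_comp hA]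
  exact ⟨_, rfl⟩

theorem Emb.exists_isom (hj : Emb j) (x : M) :
    ∃ L : E 4 →ₗᵢ[ℝ] E m, ∀ v, v ∈ tang j x ↔ ∃ y, L y = v := by
  have h1 : Module.finrank ℝ (tang j x) = 4 := by
    have h2 := LinearMap.finrank_range_of_inj (f := (show E 4 →L[ℝ] E m from
      mfderiv (𝓡 4) 𝓘(ℝ, E m) j x).toLinearMap) (hj.imm x)
    rw [finrank_euclideanSpace, Fintype.card_fin] at h2
    exact h2
  let b := (stdOrthonormalBasis ℝ (tang j x)).reindex (finCongr h1)
  let L : E 4 →ₗᵢ[ℝ] E m := (tang j x).subtypeₗᵢ.comp b.repr.symm.toLinearIsometry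
  refine ⟨L, fun v => ⟨fun hv => ⟨b.repr ⟨v, hv⟩, ?_⟩, ?_⟩⟩
  · simp [L]
  · rintro ⟨y, rfl⟩
    simp [L]

/-- the weight -/
def wt (q : E 4) : ℝ := max 0 (2 - ‖q‖)

theorem wt_cont : Continuous wt := by
  unfold wt
  fun_prop

theorem wt_nonneg (q : E 4) : 0 ≤ wt q := le_max_left _ _

theorem wt_zero {q : E 4} (hq : 2 < ‖q‖) : wt q = 0 := by
  unfold wt
  apply max_eq_left
  linarith

theorem wt_pos {q : E 4} (hq : ‖q‖ < 2) : 0 < wt q := by
  unfold wt
  apply lt_max_of_lt_right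
  linarith

/-- the sum over the pieces of the weighted integrals of a test function at scale `r` -/
def Q (j : M → E m) (A : Fin K → E 4 → M) (Ψ : E m → E m → ℝ) (r : ℝ) (v w : E m) : ℝ :=
  ∑ i, ∫ q : E 4, wt q * Ψ (r⁻¹ • (j (A i q) - v)) w

theorem LD_exists_inverse {f : E 4 → M} {x : E 4} (hf : LD 4 f x) :
    ∃ p : M → E 4, ContinuousAt p (f x) ∧ p (f x) = x ∧ ∀ᶠ z in 𝓝 (f x), f (p z) = z := by
  obtain ⟨Φ, hx, heq⟩ := hf
  have h0 : f x = Φ.toPartialEquiv x := heq hx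
  have h1 : f x ∈ Φ.target := by
    rw [h0]
    exact Φ.map_source hx
  refine ⟨Φ.symm, ?_, ?_, ?_⟩
  · have h2 : LD 4 Φ.symm (f x) := ⟨Φ.symm, h1, fun _ _ => rfl⟩
    exact h2.contMDiffAt.continuousAt
  · rw [h0]
    exact Φ.left_inv hx
  · filter_upwards [Φ.open_target.mem_nhds h1] with z hz
    have h2 : Φ.symm z ∈ Φ.source := Φ.map_target hz
    rw [heq h2]
    exact Φ.right_inv hz

theorem tendsto_one [IsManifold (𝓡 4) ∞ M] (hj : Emb j) (hA : Atl A) (i : Fin K) (x₀ : M)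
    (L : E 4 →ₗᵢ[ℝ] E m) (hL : ∀ v, v ∈ tang j x₀ ↔ ∃ y, L y = v) :
    ∃ a : ℝ, 0 ≤ a ∧ ((∃ p, ‖p‖ < 2 ∧ A i p = x₀) → 0 < a) ∧
      ∀ Ψ : E m → E m → ℝ, Test Ψ → ∀ w₀ : E m,
        Tendsto (fun x : ℝ × M × E m => x.1⁻¹ ^ 4 *
          ∫ q : E 4, wt q * Ψ (x.1⁻¹ • (j (A i q) - j x.2.1)) x.2.2)
          (𝓝[>] 0 ×ˢ (𝓝 x₀ ×ˢ 𝓝 w₀)) (𝓝 (a * ∫ z : E 4, Ψ (L z) w₀)) := by
  have hcd := hj.contDiff hA i
  by_cases hp : ∃ p₀, A i p₀ = x₀
  · obtain ⟨p₀, rfl⟩ := hp
    obtain ⟨s, hs1, hs2, hs3⟩ := LD_exists_inverse (hA.ld i p₀)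
    obtain ⟨d, hd, hscale⟩ := exists_scale (hj.fderiv_inj hA i p₀) L
      (fun z => (hL _).1 (hj.fderiv_mem hA i p₀ z))
    refine ⟨wt p₀ * d, mul_nonneg (wt_nonneg _) hd.le, ?_, ?_⟩
    · rintro ⟨p, hp, hpe⟩
      have : p = p₀ := hA.inj i hpe
      rw [← this]
      exact mul_pos (wt_pos hp) hd
    · intro Ψ hΨ w₀
      have h1 := tendsto_piece (c := fun q => j (A i q)) hcd.continuous
        (hcd.contDiffAt.hasStrictFDerivAt (by simp)) (hj.fderiv_inj hA i p₀)
        (fun q _ h => hA.inj i (hj.inj h)) wt_cont (fun q hq => wt_zero hq) hΨ w₀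
      rw [integral_const_mul, hscale (fun v => Ψ v w₀), ← mul_assoc] at h1
      set F : Filter (ℝ × M × E m) := 𝓝[>] 0 ×ˢ (𝓝 (A i p₀) ×ˢ 𝓝 w₀) with hF
      have tr : Tendsto (fun x : ℝ × M × E m => x.1) F (𝓝[>] 0) := tendsto_fst
      have tp : Tendsto (fun x : ℝ × M × E m => x.2.1) F (𝓝 (A i p₀)) := tendsto_fst.comp tendsto_snd
      have tw : Tendsto (fun x : ℝ × M × E m => x.2.2) F (𝓝 w₀) := tendsto_snd.comp tendsto_snd
      have er : ∀ᶠ x in F, 0 < x.1 := tr.eventually eventually_mem_nhdsWithin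
      have es : ∀ᶠ x in F, A i (s x.2.1) = x.2.1 := tp.eventually hs3
      have ts : Tendsto (fun x : ℝ × M × E m => s x.2.1) F (𝓝 p₀) := by
        have := hs1.tendsto.comp tp
        rwa [hs2] at this
      have h2 := h1.comp (tr.prodMk (ts.prodMk tw))
      refine h2.congr' ?_
      filter_upwards [er, es] with x hr hx
      simp only [Function.comp_apply, hx]
      rw [integral_subst (fun q => wt q * Ψ (x.1⁻¹ • (j (A i q) - j x.2.1)) x.2.2) (s x.2.1) hr]
  · refine ⟨0, le_rfl, ?_, ?_⟩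
    · rintro ⟨p, -, hpe⟩
      exact absurd ⟨p, hpe⟩ hp
    · intro Ψ hΨ w₀
      rw [zero_mul]
      have h1 := eventually_far (c := fun q => j (A i q)) hcd.continuous (v₀ := j x₀)
        (fun q _ h => hp ⟨q, hj.inj h⟩) (θ := wt) (fun q hq => wt_zero hq) hΨ w₀
      have tj : Tendsto (fun x : ℝ × M × E m => (x.1, (j x.2.1, x.2.2)))
          (𝓝[>] 0 ×ˢ (𝓝 x₀ ×ˢ 𝓝 w₀)) (𝓝[>] 0 ×ˢ (𝓝 (j x₀) ×ˢ 𝓝 w₀)) := by
        apply Tendsto.prodMk tendsto_fst
        apply Tendsto.prodMk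
        · exact (hj.smooth.continuous.tendsto x₀).comp (tendsto_fst.comp tendsto_snd)
        · exact tendsto_snd.comp tendsto_snd
      have h2 := tj.eventually h1
      apply tendsto_const_nhds.congr'
      filter_upwards [h2] with x hx
      rw [hx, mul_zero]

theorem tendsto_Q [IsManifold (𝓡 4) ∞ M] (hj : Emb j) (hA : Atl A) (x₀ : M) :
    ∃ (L : E 4 →ₗᵢ[ℝ] E m) (D : ℝ), 0 < D ∧ (∀ v, v ∈ tang j x₀ ↔ ∃ y, L y = v) ∧
      ∀ Ψ : E m → E m → ℝ, Test Ψ → ∀ w₀ : E m,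
        Tendsto (fun x : ℝ × M × E m => x.1⁻¹ ^ 4 * Q j A Ψ x.1 (j x.2.1) x.2.2)
          (𝓝[>] 0 ×ˢ (𝓝 x₀ ×ˢ 𝓝 w₀)) (𝓝 (D * ∫ z : E 4, Ψ (L z) w₀)) := by
  obtain ⟨L, hL⟩ := hj.exists_isom x₀
  choose a ha hap hat using fun i => tendsto_one hj hA i x₀ L hL
  refine ⟨L, ∑ i, a i, ?_, hL, ?_⟩
  · obtain ⟨i, p, hp, hpx⟩ := hA.cov x₀
    apply Finset.sum_pos' (fun i _ => ha i)
    exact ⟨i, Finset.mem_univ _, hap i ⟨p, by linarith, hpx⟩⟩
  · intro Ψ hΨ w₀
    simp only [Q, Finset.mul_sum, Finset.sum_mul]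
    exact tendsto_finsetSum _ fun i _ => hat i Ψ hΨ w₀

end emb

end Pool.Agent.T2H18
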