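import Mathlib
import Pool.Agent.T2H18.Glob

/-!
# Uniform small scale bounds for the four kernel integrals
-/

set_option autoImplicit false

open Set Filter Topology Metric Function MeasureTheory
open scoped ContDiff RealInnerProductSpace Manifold

noncomputable section

namespace Pool.Agent.T2H18

open Pool.Agent.Y522 (LD)

variable {M : Type*} [TopologicalSpace M] [ChartedSpace (E 4) M]

/-- the weight of the differentiated kernel -/
def rho {m : ℕ} (k : ℝ → ℝ) (z w : E m) : ℝ := -2 * deriv k (‖z‖ ^ 2) * ⟪z, w⟫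

variable {e : ℝ} {k : ℝ → ℝ} {m : ℕ}

theorem Ker.test0 (hk : Ker e k) : Test (fun z _ : E m => k (‖z‖ ^ 2)) := by
  refine ⟨?_, fun z w hz => hk.zero _ (one_le_sq hz)⟩
  have := hk.diff.continuous
  fun_prop

theorem Ker.rho_cont (hk : Ker e k) : Continuous (fun x : E m × E m => rho k x.1 x.2) := by
  have := hk.deriv_cont
  unfold rho
  fun_prop

theorem Ker.rho_zero (hk : Ker e k) {z : E m} (w : E m) (hz : 1 ≤ ‖z‖) : rho k z w = 0 := by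
  unfold rho
  rw [hk.deriv_zero (one_le_sq hz)]
  simp

theorem Ker.test1 (hk : Ker e k) : Test (fun z w : E m => rho k z w) :=
  ⟨hk.rho_cont, fun _ w hz => hk.rho_zero w hz⟩

theorem Ker.test2 (hk : Ker e k) : Test (fun z w : E m => |rho k z w|) := by
  refine ⟨hk.rho_cont.abs, fun z w hz => ?_⟩
  rw [hk.rho_zero w hz, abs_zero]

theorem Ker.test3 (hk : Ker e k) : Test (fun z w : E m => rho k z w * ⟪z, w⟫) := by
  refine ⟨hk.rho_cont.mul (by fun_prop), fun z w hz => ?_⟩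
  rw [hk.rho_zero w hz, zero_mul]

variable {j : M → E m} {K : ℕ} {A : Fin K → E 4 → M}

/-- the good bounds at scale `r` -/
def Good (j : M → E m) (A : Fin K → E 4 → M) (k : ℝ → ℝ) (m₀ η r : ℝ) (v w : E m) : Prop :=
  0 < Q j A (fun z _ => k (‖z‖ ^ 2)) r v w ∧
  Q j A (fun z w => |rho k z w|) r v w ≤ (m₀ + η) * Q j A (fun z _ => k (‖z‖ ^ 2)) r v w ∧
  |Q j A (fun z w => rho k z w) r v w| ≤ η * Q j A (fun z _ => k (‖z‖ ^ 2)) r v w ∧
  (1 - η) * Q j A (fun z _ => k (‖z‖ ^ 2)) r v w ≤ Q j A (fun z w => rho k z w * ⟪z, w⟫) r v w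

theorem eventually_good [IsManifold (𝓡 4) ∞ M] (hj : Emb j) (hA : Atl A) (hk : Ker e k)
    (he1 : e < 1) {η : ℝ} (hη : 0 < η) (x₀ : M) (w₀ : E m) (hw : ‖w₀‖ = 1) (hwt : w₀ ∈ tang j x₀) :
    ∀ᶠ x : ℝ × M × E m in 𝓝[>] 0 ×ˢ (𝓝 x₀ ×ˢ 𝓝 w₀),
      Good j A k (16 / (3 * Real.pi * (1 - e) ^ 2)) η x.1 (j x.2.1) x.2.2 := by
  obtain ⟨L, D, hD, hL, hlim⟩ := tendsto_Q hj hA x₀
  obtain ⟨y, rfl⟩ := (hL w₀).1 hwt
  have hy : ‖y‖ = 1 := by rwa [L.norm_map] at hw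
  set I0 : ℝ := ∫ z : E 4, k (‖z‖ ^ 2) with hI0
  set I1 : ℝ := ∫ z : E 4, |-2 * deriv k (‖z‖ ^ 2) * ⟪z, y⟫| with hI1
  have hI0' := hk.integral_k_ge he1.le
  have hpi := Real.pi_pos
  have h1e : 0 < 1 - e := by linarith
  have hI0pos : 0 < I0 := lt_of_lt_of_le (by positivity) hI0'
  have hI1' : I1 ≤ 8 * Real.pi / 3 := hk.integral_abs hy
  have hratio : I1 ≤ 16 / (3 * Real.pi * (1 - e) ^ 2) * I0 := by
    refine hI1'.trans ?_
    have h2 : 16 / (3 * Real.pi * (1 - e) ^ 2) * (Real.pi ^ 2 / 2 * (1 - e) ^ 2) = 8 * Real.pi / 3 := by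
      field_simp
      ring
    rw [← h2]
    exact mul_le_mul_of_nonneg_left hI0' (by positivity)
  have t0 := hlim _ hk.test0 (L y)
  have t1 := hlim _ hk.test1 (L y)
  have t2 := hlim _ hk.test2 (L y)
  have t3 := hlim _ hk.test3 (L y)
  simp only [rho, L.norm_map, L.inner_map_map] at t0 t1 t2 t3
  rw [Ker.integral_odd, mul_zero] at t1
  rw [hk.integral_two hy] at t3
  rw [← hI0] at t0 t3
  rw [← hI1] at t2
  have er : ∀ᶠ x : ℝ × M × E m in 𝓝[>] 0 ×ˢ (𝓝 x₀ ×ˢ 𝓝 (L y)), 0 < x.1 :=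
    tendsto_fst.eventually eventually_mem_nhdsWithin
  have c0 := t0.eventually (lt_mem_nhds (show 0 < D * I0 from mul_pos hD hI0pos))
  have c2 : ∀ᶠ x : ℝ × M × E m in 𝓝[>] 0 ×ˢ (𝓝 x₀ ×ˢ 𝓝 (L y)), _ < _ :=
    (t2.sub (t0.const_mul (16 / (3 * Real.pi * (1 - e) ^ 2) + η))).eventually
      (gt_mem_nhds (show D * I1 - (16 / (3 * Real.pi * (1 - e) ^ 2) + η) * (D * I0) < 0 by
        have : 0 < D * (η * I0) := by positivity
        nlinarith))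
  have c1 : ∀ᶠ x : ℝ × M × E m in 𝓝[>] 0 ×ˢ (𝓝 x₀ ×ˢ 𝓝 (L y)), _ < _ :=
    (t1.abs.sub (t0.const_mul η)).eventually
      (gt_mem_nhds (show |(0:ℝ)| - η * (D * I0) < 0 by
        have : 0 < η * (D * I0) := by positivity
        simp only [abs_zero]
        linarith))
  have c3 : ∀ᶠ x : ℝ × M × E m in 𝓝[>] 0 ×ˢ (𝓝 x₀ ×ˢ 𝓝 (L y)), _ < _ :=
    (t3.sub (t0.const_mul (1 - η))).eventually
      (lt_mem_nhds (show 0 < D * I0 - (1 - η) * (D * I0) by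
        have : 0 < η * (D * I0) := by positivity
        linarith))
  filter_upwards [er, c0, c1, c2, c3] with x hr h0 h1 h2 h3
  have hr4 : 0 < x.1⁻¹ ^ 4 := by positivity
  have key : ∀ a b : ℝ, x.1⁻¹ ^ 4 * a ≤ x.1⁻¹ ^ 4 * b → a ≤ b := fun a b h =>
    le_of_mul_le_mul_left h hr4
  refine ⟨?_, ?_, ?_, ?_⟩
  · exact (mul_pos_iff_of_pos_left hr4).1 h0
  · apply key
    simp only [rho]
    linarith
  · apply key
    rw [abs_mul, abs_of_pos hr4] at h1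
    simp only [rho]
    linarith
  · apply key
    simp only [rho]
    linarith

theorem uniform_good [IsManifold (𝓡 4) ∞ M] (hj : Emb j) (hA : Atl A) (hk : Ker e k)
    (he1 : e < 1) {η : ℝ} (hη : 0 < η) :
    ∃ r₀ : ℝ, 0 < r₀ ∧ ∀ r, 0 < r → r < r₀ → ∀ i : Fin K, ∀ p : E 4, ‖p‖ ≤ 1 → ∀ w : E 4,
      ‖fderiv ℝ (fun q => j (A i q)) p w‖ = 1 →
      Good j A k (16 / (3 * Real.pi * (1 - e) ^ 2)) η r (j (A i p))
        (fderiv ℝ (fun q => j (A i q)) p w) := by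
  have h1 : ∀ i : Fin K, ∀ᶠ r : ℝ in 𝓝[>] 0, ∀ y ∈ closedBall (0 : E 4) 1 ×ˢ sphere (0 : E 4) 1,
      Good j A k (16 / (3 * Real.pi * (1 - e) ^ 2)) η r (j (A i y.1))
        (‖fderiv ℝ (fun q => j (A i q)) y.1 y.2‖⁻¹ • fderiv ℝ (fun q => j (A i q)) y.1 y.2) := by
    intro i
    have hK : IsCompact (closedBall (0 : E 4) 1 ×ˢ sphere (0 : E 4) 1) :=
      (isCompact_closedBall _ _).prod (isCompact_sphere _ _)
    have h2 : ∀ y ∈ closedBall (0 : E 4) 1 ×ˢ sphere (0 : E 4) 1,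
        ∀ᶠ x : ℝ × (E 4 × E 4) in 𝓝[>] 0 ×ˢ 𝓝 y,
        Good j A k (16 / (3 * Real.pi * (1 - e) ^ 2)) η x.1 (j (A i x.2.1))
        (‖fderiv ℝ (fun q => j (A i q)) x.2.1 x.2.2‖⁻¹ •
          fderiv ℝ (fun q => j (A i q)) x.2.1 x.2.2) := by
      rintro ⟨p₀, w₀⟩ ⟨hp, hw⟩
      simp only [mem_sphere_iff_norm, sub_zero] at hw
      set J := fderiv ℝ (fun q => j (A i q)) p₀ with hJ
      have hJ0 : J w₀ ≠ 0 := by
        intro h
        have h3 : w₀ = 0 := hj.fderiv_inj hA i p₀ (by rw [← hJ, h, map_zero])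
        rw [h3, norm_zero] at hw
        exact zero_ne_one hw
      have hJn : 0 < ‖J w₀‖ := norm_pos_iff.2 hJ0
      have h4 := eventually_good hj hA hk he1 hη (A i p₀) (‖J w₀‖⁻¹ • J w₀)
        (by rw [norm_smul, norm_inv, norm_norm, inv_mul_cancel₀ hJn.ne'])
        (Submodule.smul_mem _ _ (hj.fderiv_mem hA i p₀ w₀))
      have hcf : Continuous (fun x : E 4 × E 4 => fderiv ℝ (fun q => j (A i q)) x.1 x.2) :=
        ((hj.contDiff hA i).continuous_fderiv (by simp)).comp continuous_fst |>.clm_apply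
          continuous_snd
      have h5 : Tendsto (fun x : ℝ × (E 4 × E 4) => (x.1, (A i x.2.1,
          ‖fderiv ℝ (fun q => j (A i q)) x.2.1 x.2.2‖⁻¹ •
          fderiv ℝ (fun q => j (A i q)) x.2.1 x.2.2))) (𝓝[>] 0 ×ˢ 𝓝 (p₀, w₀))
          (𝓝[>] 0 ×ˢ (𝓝 (A i p₀) ×ˢ 𝓝 (‖J w₀‖⁻¹ • J w₀))) := by
        apply Tendsto.prodMk tendsto_fst
        apply Tendsto.prodMk
        · have h6 : ContinuousAt (A i) p₀ := (hA.ld i p₀).continuousAt
          have h7 : Tendsto (fun x : ℝ × (E 4 × E 4) => x.2.1) (𝓝[>] 0 ×ˢ 𝓝 (p₀, w₀)) (𝓝 p₀) :=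
            (continuous_fst.tendsto (p₀, w₀)).comp tendsto_snd
          exact h6.tendsto.comp h7
        · have h9 : Tendsto (fun x : ℝ × (E 4 × E 4) => fderiv ℝ (fun q => j (A i q)) x.2.1 x.2.2)
              (𝓝[>] 0 ×ˢ 𝓝 (p₀, w₀)) (𝓝 (J w₀)) :=
            (hcf.tendsto (p₀, w₀)).comp tendsto_snd
          have h10 : Tendsto (fun x : ℝ × (E 4 × E 4) =>
              ‖fderiv ℝ (fun q => j (A i q)) x.2.1 x.2.2‖⁻¹)
              (𝓝[>] 0 ×ˢ 𝓝 (p₀, w₀)) (𝓝 (‖J w₀‖⁻¹)) := h9.norm.inv₀ hJn.ne'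
          exact Filter.Tendsto.smul h10 h9
      exact h5.eventually h4
    exact (Eventually.curry (hK.mem_prod_nhdsSet_of_forall h2)).mono
      fun r hr => hr.self_of_nhdsSet
  have h3 : ∀ᶠ r : ℝ in 𝓝[>] 0, ∀ i : Fin K, ∀ y ∈ closedBall (0 : E 4) 1 ×ˢ sphere (0 : E 4) 1,
      Good j A k (16 / (3 * Real.pi * (1 - e) ^ 2)) η r (j (A i y.1))
        (‖fderiv ℝ (fun q => j (A i q)) y.1 y.2‖⁻¹ • fderiv ℝ (fun q => j (A i q)) y.1 y.2) :=
    eventually_all.2 h1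
  obtain ⟨r₀, hr₀, h4⟩ := (nhdsGT_basis (0:ℝ)).eventually_iff.1 h3
  refine ⟨r₀, hr₀, fun r hr hr' i p hp w hw => ?_⟩
  have hw0 : w ≠ 0 := by
    rintro rfl
    rw [map_zero, norm_zero] at hw
    exact zero_ne_one hw
  have hwn : 0 < ‖w‖ := norm_pos_iff.2 hw0
  have h5 := h4 ⟨hr, hr'⟩ i (p, ‖w‖⁻¹ • w) ⟨by simpa using hp, by
    simp only [mem_sphere_iff_norm, sub_zero]
    rw [norm_smul, norm_inv, norm_norm, inv_mul_cancel₀ hwn.ne']⟩
  simp only [map_smul, norm_smul, norm_inv, norm_norm, hw, mul_one, inv_inv, smul_smul,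
    mul_inv_cancel₀ hwn.ne', one_smul] at h5
  exact h5

end Pool.Agent.T2H18
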