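import Mathlib
import Pool.Agent.T2H18.Unif

/-!
# Smoothing by averaging with respect to a measure
-/

set_option autoImplicit false

open Set Filter Topology Metric Function MeasureTheory
open scoped ContDiff RealInnerProductSpace Manifold

noncomputable section

namespace Pool.Agent.T2H18

open Pool.Agent.Y522 (LD)

variable {e : ℝ} {k : ℝ → ℝ} {m : ℕ} {F : Type*} [NormedAddCommGroup F] [NormedSpace ℝ F]

omit [NormedSpace ℝ F] in
theorem int_cont {ν : Measure (E m)} [IsFiniteMeasure ν] {K : Set (E m)} (hK : IsCompact K)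
    (hνK : ∀ᵐ t ∂ν, t ∈ K) {f : E m → F} (hf : Continuous f) : Integrable f ν := by
  have h1 := hf.continuousOn.integrableOn_compact (μ := ν) hK
  rwa [IntegrableOn, Measure.restrict_eq_self_of_ae_mem hνK] at h1

/-- the unnormalised average -/
def av (ν : Measure (E m)) (k : ℝ → ℝ) (r : ℝ) (f : E m → F) (v : E m) : F :=
  ∫ t, k (‖r⁻¹ • (t - v)‖ ^ 2) • f t ∂ν

theorem Ker.deriv_bdd (hk : Ker e k) (r : ℝ) :
    ∃ C : ℝ, ∀ u : E m, ‖fderiv ℝ (fun u : E m => k (‖r⁻¹ • u‖ ^ 2)) u‖ ≤ C := by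
  by_cases hr : r = 0
  · subst hr
    refine ⟨0, fun u => ?_⟩
    simp
  have hr' : 0 < |r| := abs_pos.2 hr
  have hsm : ContDiff ℝ ∞ (fun u : E m => k (‖r⁻¹ • u‖ ^ 2)) :=
    hk.smooth.comp ((contDiff_const_smul r⁻¹).norm_sq ℝ)
  obtain ⟨C, hC⟩ := (isCompact_closedBall (0 : E m) |r|).exists_bound_of_continuousOn
    (hsm.continuous_fderiv (by simp)).continuousOn
  refine ⟨max C 0, fun u => ?_⟩
  rcases le_or_gt ‖u‖ |r| with hu | hu
  · exact (hC u (by simpa using hu)).trans (le_max_left _ _)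
  · have h1 : (fun u : E m => k (‖r⁻¹ • u‖ ^ 2)) =ᶠ[𝓝 u] fun _ => 0 := by
      have h2 : ∀ᶠ y : E m in 𝓝 u, |r| < ‖y‖ := continuous_norm.continuousAt.eventually (lt_mem_nhds hu)
      filter_upwards [h2] with y hy
      apply hk.zero
      apply one_le_sq
      rw [norm_smul, norm_inv, Real.norm_eq_abs, ← div_eq_inv_mul, le_div_iff₀ hr']
      linarith
    rw [h1.fderiv_eq]
    simp

theorem Ker.fderiv_kernel (hk : Ker e k) {r : ℝ} (hr : 0 < r) (u w : E m) :
    r * fderiv ℝ (fun u : E m => k (‖r⁻¹ • u‖ ^ 2)) u w = rho k (-(r⁻¹ • u)) w := by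
  have h1 : HasFDerivAt (fun u : E m => k (‖r⁻¹ • u‖ ^ 2))
      (((2 * deriv k (‖r⁻¹ • u‖ ^ 2)) • innerSL ℝ (r⁻¹ • u)).comp
        (r⁻¹ • ContinuousLinearMap.id ℝ (E m))) u := by
    have h2 : HasFDerivAt (fun u : E m => r⁻¹ • u) (r⁻¹ • ContinuousLinearMap.id ℝ (E m)) u :=
      (hasFDerivAt_id u).const_smul r⁻¹
    exact (hk.hasFDerivAt (r⁻¹ • u)).comp u h2
  rw [h1.fderiv]
  simp only [rho, norm_neg, inner_neg_left]
  simp only [ContinuousLinearMap.comp_apply, smul_apply, ContinuousLinearMap.id_apply,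
    innerSL_apply_apply, inner_smul_right, smul_eq_mul]
  field_simp

theorem av_contDiff [FiniteDimensional ℝ F] (hk : Ker e k) {ν : Measure (E m)} [IsFiniteMeasure ν]
    {K : Set (E m)} (hK : IsCompact K)
    (hνK : ∀ᵐ t ∂ν, t ∈ K) {f : E m → F} (hf : Continuous f) {r : ℝ} (hr : 0 < r) :
    ContDiff ℝ ∞ (av ν k r f) := by
  have hsm : ContDiff ℝ ∞ (fun u : E m => k (‖r⁻¹ • u‖ ^ 2)) :=
    hk.smooth.comp ((contDiff_const_smul r⁻¹).norm_sq ℝ)
  have hcs : HasCompactSupport (fun u : E m => k (‖r⁻¹ • u‖ ^ 2)) := by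
    apply HasCompactSupport.intro (isCompact_closedBall (0 : E m) r)
    intro u hu
    simp only [mem_closedBall, dist_zero_right, not_le] at hu
    apply hk.zero
    apply one_le_sq
    rw [norm_smul, norm_inv, Real.norm_eq_abs, abs_of_pos hr, ← div_eq_inv_mul, le_div_iff₀ hr]
    linarith
  have hli : LocallyIntegrable f ν := (int_cont hK hνK hf).locallyIntegrable
  have h1 := hcs.contDiff_convolution_right (n := ⊤) (ContinuousLinearMap.lsmul ℝ ℝ).flip hli hsm
  have h2 : (MeasureTheory.convolution f (fun u : E m => k (‖r⁻¹ • u‖ ^ 2))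
      (ContinuousLinearMap.lsmul ℝ ℝ (E := F)).flip ν) = av ν k r f := by
    funext v
    simp only [MeasureTheory.convolution, av]
    congr 1
    funext t
    have : ‖r⁻¹ • (v - t)‖ = ‖r⁻¹ • (t - v)‖ := by
      rw [← norm_neg (r⁻¹ • (v - t)), ← smul_neg, neg_sub]
    simp only [ContinuousLinearMap.flip_apply, ContinuousLinearMap.lsmul_apply, this]
  rw [h2] at h1
  exact h1

theorem av_fderiv [FiniteDimensional ℝ F] (hk : Ker e k) {ν : Measure (E m)} [IsFiniteMeasure ν]
    {K : Set (E m)} (hK : IsCompact K)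
    (hνK : ∀ᵐ t ∂ν, t ∈ K) {f : E m → F} (hf : Continuous f) {r : ℝ} (hr : 0 < r) (v w : E m) :
    r • fderiv ℝ (av ν k r f) v w = ∫ t, rho k (r⁻¹ • (t - v)) w • f t ∂ν := by
  have hsm : ContDiff ℝ ∞ (fun u : E m => k (‖r⁻¹ • u‖ ^ 2)) :=
    hk.smooth.comp ((contDiff_const_smul r⁻¹).norm_sq ℝ)
  have hfd : Continuous (fderiv ℝ (fun u : E m => k (‖r⁻¹ • u‖ ^ 2))) :=
    hsm.continuous_fderiv (by simp)
  obtain ⟨C, hC⟩ := hk.deriv_bdd (m := m) r
  have hkc := hk.diff.continuous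
  let F' : E m → E m → E m →L[ℝ] F := fun v t =>
    (fderiv ℝ (fun u : E m => k (‖r⁻¹ • u‖ ^ 2)) (v - t)).smulRight (f t)
  have hF'c : Continuous (F' v) := by
    have : Continuous (fun t => fderiv ℝ (fun u : E m => k (‖r⁻¹ • u‖ ^ 2)) (v - t)) :=
      hfd.comp (by fun_prop)
    exact ((ContinuousLinearMap.smulRightL ℝ (E m) F).continuous.comp this).clm_apply hf
  have h1 : HasFDerivAt (av ν k r f) (∫ t, F' v t ∂ν) v := by
    have h0 : ∀ v t : E m, ‖r⁻¹ • (t - v)‖ = ‖r⁻¹ • (v - t)‖ := fun v t => by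
      rw [← norm_neg (r⁻¹ • (v - t)), ← smul_neg, neg_sub]
    have hav : av ν k r f = fun v => ∫ t, k (‖r⁻¹ • (v - t)‖ ^ 2) • f t ∂ν := by
      funext v
      simp only [av, h0]
    rw [hav]
    apply hasFDerivAt_integral_of_dominated_of_fderiv_le (s := univ)
      (bound := fun t => C * ‖f t‖) univ_mem
    · refine Eventually.of_forall fun v => ?_
      exact (int_cont hK hνK (by fun_prop)).aestronglyMeasurable
    · exact int_cont hK hνK (by fun_prop)
    · exact (int_cont hK hνK hF'c).aestronglyMeasurable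
    · refine Eventually.of_forall fun t v _ => ?_
      simp only [F', ContinuousLinearMap.norm_smulRight_apply]
      exact mul_le_mul_of_nonneg_right (hC _) (norm_nonneg _)
    · exact int_cont hK hνK (by fun_prop)
    · refine Eventually.of_forall fun t v _ => ?_
      have h2 : HasFDerivAt (fun v : E m => k (‖r⁻¹ • (v - t)‖ ^ 2))
          (fderiv ℝ (fun u : E m => k (‖r⁻¹ • u‖ ^ 2)) (v - t)) v := by
        have h3 : HasFDerivAt (fun v : E m => v - t) (ContinuousLinearMap.id ℝ (E m)) v :=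
          (hasFDerivAt_id v).sub_const t
        exact ((hsm.differentiable (by simp) (v - t)).hasFDerivAt).comp v h3
      exact h2.smul_const (f t)
  rw [h1.fderiv, ContinuousLinearMap.integral_apply (int_cont hK hνK hF'c), ← integral_smul]
  congr 1
  funext t
  simp only [F', ContinuousLinearMap.smulRight_apply, smul_smul]
  rw [hk.fderiv_kernel hr]
  congr 2
  rw [← smul_neg, neg_sub]

end Pool.Agent.T2H18
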