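import Mathlib
import Pool.Agent.T2H18.Smooth

/-!
# The measure carried by an embedded manifold
-/

set_option autoImplicit false

open Set Filter Topology Metric Function MeasureTheory
open scoped ContDiff RealInnerProductSpace Manifold

noncomputable section

namespace Pool.Agent.T2H18

open Pool.Agent.Y522 (LD)

variable {M : Type*} [TopologicalSpace M] [ChartedSpace (E 4) M]
variable {e : ℝ} {k : ℝ → ℝ} {m : ℕ} {j : M → E m} {K : ℕ} {A : Fin K → E 4 → M}

/-- the weighted Lebesgue measure -/
def lam0 : Measure (E 4) := volume.withDensity (fun q => ENNReal.ofReal (wt q))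

theorem wt_integrable : Integrable wt := by
  apply wt_cont.integrable_of_hasCompactSupport
  apply HasCompactSupport.intro (isCompact_closedBall (0 : E 4) 2)
  intro x hx
  simp only [mem_closedBall, dist_zero_right, not_le] at hx
  exact wt_zero hx

instance : IsFiniteMeasure lam0 := isFiniteMeasure_withDensity_ofReal wt_integrable.2

theorem lam0_integral (f : E 4 → ℝ) : ∫ q, f q ∂lam0 = ∫ q, wt q * f q := by
  unfold lam0
  rw [integral_withDensity_eq_integral_toReal_smul]
  · congr 1
    funext q
    rw [ENNReal.toReal_ofReal (wt_nonneg q), smul_eq_mul]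
  · exact wt_cont.measurable.ennreal_ofReal
  · exact Eventually.of_forall fun q => ENNReal.ofReal_lt_top

/-- the measure on the ambient space -/
def nu (j : M → E m) (A : Fin K → E 4 → M) : Measure (E m) :=
  ∑ i, Measure.map (fun q => j (A i q)) lam0

instance : IsFiniteMeasure (nu j A) := by
  unfold nu
  infer_instance

theorem nu_supp [CompactSpace M] (hj : Emb j) (hA : Atl A) : ∀ᵐ t ∂(nu j A), t ∈ range j := by
  have hK : IsCompact (range j) := isCompact_range hj.smooth.continuous
  rw [ae_iff]
  have hm : MeasurableSet {a | a ∉ range j} := hK.isClosed.measurableSet.compl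
  unfold nu
  rw [Measure.finsetSum_apply]
  apply Finset.sum_eq_zero
  intro i _
  rw [Measure.map_apply (hj.contDiff hA i).continuous.measurable hm]
  have : (fun q => j (A i q)) ⁻¹' {a | a ∉ range j} = ∅ := by
    ext q
    simp
  rw [this, measure_empty]

theorem nu_integral [CompactSpace M] (hj : Emb j) (hA : Atl A) {f : E m → ℝ} (hf : Continuous f) :
    ∫ t, f t ∂(nu j A) = ∑ i, ∫ q : E 4, wt q * f (j (A i q)) := by
  have hK : IsCompact (range j) := isCompact_range hj.smooth.continuous
  unfold nu
  rw [integral_finsetSum_measure]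
  · congr 1
    funext i
    rw [integral_map (hj.contDiff hA i).continuous.measurable.aemeasurable
      hf.aestronglyMeasurable, lam0_integral]
  · intro i _
    apply int_cont hK _ hf
    exact (ae_map_iff (μ := lam0) (f := fun q => j (A i q)) (p := fun t => t ∈ range j)
      (hj.contDiff hA i).continuous.measurable.aemeasurable
      (hK.isClosed.measurableSet)).2 (Eventually.of_forall fun q => ⟨A i q, rfl⟩)

theorem Q_eq [CompactSpace M] (hj : Emb j) (hA : Atl A) {Ψ : E m → E m → ℝ} (hΨ : Test Ψ)
    (r : ℝ) (v w : E m) : Q j A Ψ r v w = ∫ t, Ψ (r⁻¹ • (t - v)) w ∂(nu j A) := by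
  rw [nu_integral hj hA]
  · rfl
  · have h1 := hΨ.cont
    have h2 : Continuous (fun t : E m => (r⁻¹ • (t - v), w)) := by fun_prop
    exact h1.comp h2

end Pool.Agent.T2H18
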