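import Mathlib
import Pool.Agent.T2H18.Nu
import Pool.Agent.T2H18.Core

/-!
# The smoothed map and its differential
-/

set_option autoImplicit false

open Set Filter Topology Metric Function MeasureTheory
open scoped ContDiff RealInnerProductSpace Manifold

noncomputable section

namespace Pool.Agent.T2H18

open Pool.Agent.Y522 (LD)

variable {M : Type*} [TopologicalSpace M] [ChartedSpace (E 4) M]
variable {e : ℝ} {k : ℝ → ℝ} {m n : ℕ} {j : M → E m} {K : ℕ} {A : Fin K → E 4 → M}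

theorem Ker.rho_cont' (hk : Ker e k) (r : ℝ) (v w : E m) :
    Continuous (fun t : E m => rho k (r⁻¹ • (t - v)) w) := by
  have := hk.deriv_cont
  unfold rho
  fun_prop

/-- the smoothed map -/
def sm (ν : Measure (E m)) (k : ℝ → ℝ) (r : ℝ) (f : E m → E n) (v : E m) : E n :=
  (av ν k r (fun _ => (1 : ℝ)) v)⁻¹ • av ν k r f v

theorem sm_contDiffAt (hk : Ker e k) {ν : Measure (E m)} [IsFiniteMeasure ν]
    {C : Set (E m)} (hC : IsCompact C) (hνC : ∀ᵐ t ∂ν, t ∈ C) {f : E m → E n} (hf : Continuous f)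
    {r : ℝ} (hr : 0 < r) {v : E m} (hS : 0 < av ν k r (fun _ => (1 : ℝ)) v) :
    ContDiffAt ℝ ∞ (sm ν k r f) v := by
  have h1 := (av_contDiff hk hC hνC (continuous_const (y := (1:ℝ))) hr).contDiffAt (x := v)
  have h2 := (av_contDiff hk hC hνC hf hr).contDiffAt (x := v)
  exact (h1.inv hS.ne').smul h2

theorem sm_fderiv (hk : Ker e k) {ν : Measure (E m)} [IsFiniteMeasure ν]
    {C : Set (E m)} (hC : IsCompact C) (hνC : ∀ᵐ t ∂ν, t ∈ C) {f : E m → E n} (hf : Continuous f)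
    {r : ℝ} (hr : 0 < r) {v : E m} (hS : 0 < av ν k r (fun _ => (1 : ℝ)) v) (w : E m) :
    (sm ν k r f v - f v = (av ν k r (fun _ => (1 : ℝ)) v)⁻¹ •
      ∫ t, k (‖r⁻¹ • (t - v)‖ ^ 2) • (f t - f v) ∂ν) ∧
    r • fderiv ℝ (sm ν k r f) v w = (av ν k r (fun _ => (1 : ℝ)) v)⁻¹ •
      (∫ t, rho k (r⁻¹ • (t - v)) w • (f t - f v) ∂ν - (∫ t, rho k (r⁻¹ • (t - v)) w ∂ν) •
        (av ν k r (fun _ => (1 : ℝ)) v)⁻¹ • ∫ t, k (‖r⁻¹ • (t - v)‖ ^ 2) • (f t - f v) ∂ν) := by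
  have hkc := hk.diff.continuous
  have hrc : Continuous (fun t : E m => rho k (r⁻¹ • (t - v)) w) := hk.rho_cont' r v w
  set S := av ν k r (fun _ => (1 : ℝ)) v with hSdef
  set R := ∫ t, rho k (r⁻¹ • (t - v)) w ∂ν with hR
  have hSeq : S = ∫ t, k (‖r⁻¹ • (t - v)‖ ^ 2) ∂ν := by
    rw [hSdef]
    simp [av]
  have hV : av ν k r f v = (∫ t, k (‖r⁻¹ • (t - v)‖ ^ 2) • (f t - f v) ∂ν) + S • f v := by
    rw [hSeq, ← integral_smul_const, ← integral_add]
    · simp only [av]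
      congr 1
      funext t
      rw [← smul_add, sub_add_cancel]
    · exact int_cont hC hνC (by fun_prop)
    · exact int_cont hC hνC (by fun_prop)
  have hW : ∫ t, rho k (r⁻¹ • (t - v)) w • f t ∂ν =
      (∫ t, rho k (r⁻¹ • (t - v)) w • (f t - f v) ∂ν) + R • f v := by
    rw [hR, ← integral_smul_const, ← integral_add]
    · congr 1
      funext t
      rw [← smul_add, sub_add_cancel]
    · exact int_cont hC hνC (by fun_prop)
    · exact int_cont hC hνC (by fun_prop)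
  constructor
  · unfold sm
    rw [hV, ← hSdef, smul_add, smul_smul, inv_mul_cancel₀ hS.ne', one_smul, add_sub_cancel_right]
  · have d1 : HasFDerivAt (av ν k r (fun _ => (1:ℝ))) (fderiv ℝ (av ν k r (fun _ => (1:ℝ))) v) v :=
      ((av_contDiff hk hC hνC (continuous_const (y := (1:ℝ))) hr).differentiable (by simp) v).hasFDerivAt
    have d2 : HasFDerivAt (av ν k r f) (fderiv ℝ (av ν k r f) v) v :=
      ((av_contDiff hk hC hνC hf hr).differentiable (by simp) v).hasFDerivAt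
    have d3 := ((hasDerivAt_inv hS.ne').comp_hasFDerivAt v d1).smul d2
    have d4 : fderiv ℝ (sm ν k r f) v = _ := d3.fderiv
    rw [d4]
    have a1 := av_fderiv hk hC hνC (continuous_const (y := (1:ℝ))) hr v w
    have a2 := av_fderiv hk hC hνC hf hr v w
    simp only [smul_eq_mul, mul_one] at a1
    rw [← hR] at a1
    rw [hW] at a2
    simp only [add_apply, smul_apply, ContinuousLinearMap.smulRight_apply, Function.comp_apply,
      ← hSdef, smul_eq_mul]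
    rw [smul_add, smul_comm r S⁻¹, a2, smul_smul r, hV]
    have e1 : r * (-(S ^ 2)⁻¹ * fderiv ℝ (av ν k r (fun _ => (1:ℝ))) v w) = -(S ^ 2)⁻¹ * R := by
      rw [← a1]
      ring
    rw [e1]
    simp only [smul_add, smul_sub, smul_smul, neg_mul, neg_smul]
    have e2 : (S ^ 2)⁻¹ * R * S = S⁻¹ * R := by field_simp
    have e3 : S⁻¹ * (R * S⁻¹) = (S ^ 2)⁻¹ * R := by field_simp
    rw [e2, e3]
    abel

theorem main_loc [CompactSpace M] (hj : Emb j) (hA : Atl A) (hk : Ker e k) {f : E m → E n}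
    (hf : Continuous f) {r s lam κ m₀ η : ℝ} (hr : 0 < r) (hs : 0 < s) (hlam : 1 ≤ lam) (hκ : 0 ≤ κ)
    (hη0 : 0 ≤ η) (hη1 : η ≤ 1) (x : M) (w : E m) (hw : ‖w‖ = 1)
    (hgood : Good j A k m₀ η r (j x) w)
    (hyp : ∀ y z : M, ‖j y - j x‖ ≤ r → ‖j z - j x‖ ≤ r →
      s * (r⁻¹ * ‖j y - j z‖ - κ) ≤ ‖f (j y) - f (j z)‖ ∧
      ‖f (j y) - f (j z)‖ ≤ s * (lam * (r⁻¹ * ‖j y - j z‖) + κ)) :
    0 < av (nu j A) k r (fun _ => (1:ℝ)) (j x) ∧
    ‖sm (nu j A) k r f (j x) - f (j x)‖ ≤ s * (lam + κ) ∧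
    (∀ (P : E n →L[ℝ] E n) (c : ℝ), 0 ≤ c →
      (∀ y, ‖j y - j x‖ ≤ r → ‖P (f (j y) - f (j x))‖ ≤ c) →
      ‖P (r • fderiv ℝ (sm (nu j A) k r f) (j x) w)‖ ≤ c * (m₀ + 2 * η)) ∧
    ∀ β : ℝ, 0 ≤ β → β ^ 2 ≤ Th lam κ m₀ η →
      s * (β - η * (lam + κ)) ≤ ‖r • fderiv ℝ (sm (nu j A) k r f) (j x) w‖ := by
  have hC : IsCompact (range j) := isCompact_range hj.smooth.continuous
  have hνC := nu_supp hj hA
  set ν := nu j A with hν
  set v := j x with hv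
  set B : Set (E m) := closedBall v r with hB
  have hBm : MeasurableSet B := measurableSet_closedBall
  have hkc := hk.diff.continuous
  have hrc : Continuous (fun t : E m => rho k (r⁻¹ • (t - v)) w) := hk.rho_cont' r v w
  have hbig : ∀ t, t ∉ B → 1 ≤ ‖r⁻¹ • (t - v)‖ := by
    intro t ht
    rw [hB, mem_closedBall, not_le, dist_eq_norm] at ht
    rw [norm_smul, norm_inv, Real.norm_eq_abs, abs_of_pos hr, ← div_eq_inv_mul, le_div_iff₀ hr]
    linarith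
  have hsmall : ∀ t, t ∈ B → ‖r⁻¹ • (t - v)‖ ≤ 1 := by
    intro t ht
    rw [hB, mem_closedBall, dist_eq_norm] at ht
    rw [norm_smul, norm_inv, Real.norm_eq_abs, abs_of_pos hr, ← div_eq_inv_mul, div_le_iff₀ hr]
    linarith
  have hr0 : ∀ t, t ∉ B → rho k (r⁻¹ • (t - v)) w = 0 := fun t ht => hk.rho_zero w (hbig t ht)
  have hk0 : ∀ t, t ∉ B → k (‖r⁻¹ • (t - v)‖ ^ 2) = 0 := fun t ht => hk.zero _ (one_le_sq (hbig t ht))
  -- restricted integrals
  have res : ∀ {F : Type} [NormedAddCommGroup F] [NormedSpace ℝ F] (g : E m → F),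
      (∀ t, t ∉ B → g t = 0) → ∫ t, g t ∂(ν.restrict B) = ∫ t, g t ∂ν := fun g hg =>
    setIntegral_eq_integral_of_forall_compl_eq_zero hg
  obtain ⟨g0, g1, g2, g3⟩ := hgood
  rw [Q_eq hj hA hk.test0, ← hν] at g0 g1 g2 g3
  rw [Q_eq hj hA hk.test2, ← hν] at g1
  rw [Q_eq hj hA hk.test1, ← hν] at g2
  rw [Q_eq hj hA hk.test3, ← hν] at g3
  set S := ∫ t, k (‖r⁻¹ • (t - v)‖ ^ 2) ∂ν with hS
  have hSav : av ν k r (fun _ => (1:ℝ)) v = S := by simp [av, hS]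
  have hG : ∀ᵐ t ∂(ν.restrict B), t ∈ range j ∩ B :=
    (ae_restrict_of_ae hνC).and (ae_restrict_mem hBm)
  set ν' := ν.restrict B with hν'
  have hνC' : ∀ᵐ t ∂ν', t ∈ range j := ae_restrict_of_ae hνC
  have ic : ∀ {F : Type} [NormedAddCommGroup F] {g : E m → F}, Continuous g → Integrable g ν' :=
    fun hg => int_cont hC hνC' hg
  have hpair : ∀ t ∈ range j ∩ B, ∀ t' ∈ range j ∩ B,
      s * (‖r⁻¹ • (t - v) - r⁻¹ • (t' - v)‖ - κ) ≤ ‖(f t - f v) - (f t' - f v)‖ ∧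
      ‖(f t - f v) - (f t' - f v)‖ ≤ s * (lam * ‖r⁻¹ • (t - v) - r⁻¹ • (t' - v)‖ + κ) := by
    rintro _ ⟨⟨y, rfl⟩, hy⟩ _ ⟨⟨z, rfl⟩, hz⟩
    rw [hB, mem_closedBall, dist_eq_norm] at hy hz
    have h1 := hyp y z hy hz
    rw [sub_sub_sub_cancel_right, ← smul_sub, sub_sub_sub_cancel_right, norm_smul, norm_inv,
      Real.norm_eq_abs, abs_of_pos hr]
    exact h1
  have hvG : v ∈ range j ∩ B := ⟨⟨x, rfl⟩, mem_closedBall_self hr.le⟩
  have hu : ∀ t ∈ range j ∩ B, ‖f t - f v‖ ≤ s * (lam + κ) := by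
    intro t ht
    have h1 := (hpair t ht v hvG).2
    rw [sub_self, sub_zero, sub_self, smul_zero, sub_zero] at h1
    refine h1.trans ?_
    have h2 := hsmall t ht.2
    have : lam * ‖r⁻¹ • (t - v)‖ ≤ lam * 1 := mul_le_mul_of_nonneg_left h2 (by linarith)
    apply mul_le_mul_of_nonneg_left _ hs.le
    linarith
  obtain ⟨f1, f2⟩ := sm_fderiv hk hC hνC hf hr (v := v) (by rw [hSav]; exact g0) w
  rw [hSav] at f1 f2
  rw [← res (fun t => k (‖r⁻¹ • (t - v)‖ ^ 2) • (f t - f v))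
    (fun t ht => by rw [hk0 t ht, zero_smul])] at f1 f2
  rw [← res (fun t => rho k (r⁻¹ • (t - v)) w • (f t - f v))
    (fun t ht => by rw [hr0 t ht, zero_smul]),
    ← res (fun t => rho k (r⁻¹ • (t - v)) w) hr0] at f2
  rw [← res (fun t => |rho k (r⁻¹ • (t - v)) w|)
    (fun t ht => by rw [hr0 t ht, abs_zero])] at g1
  rw [← res (fun t => rho k (r⁻¹ • (t - v)) w) hr0] at g2
  rw [← res (fun t => rho k (r⁻¹ • (t - v)) w * ⟪r⁻¹ • (t - v), w⟫)
    (fun t ht => by rw [hr0 t ht, zero_mul])] at g3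
  have hSr : ∫ t, k (‖r⁻¹ • (t - v)‖ ^ 2) ∂ν' = S := res _ hk0
  have cA := fun (P : E n →L[ℝ] E n) (c : ℝ) (hc : 0 ≤ c)
      (hP : ∀ t ∈ range j ∩ B, ‖P (f t - f v)‖ ≤ c) =>
    core_a ν' (m₀ := m₀) g0 hη0 (fun t => rho k (r⁻¹ • (t - v)) w)
      (fun t => k (‖r⁻¹ • (t - v)‖ ^ 2)) (fun t => f t - f v) (range j ∩ B) hG
      (fun t => hk.nonneg _) (ic (by fun_prop)) hSr (ic hrc) g1 g2 (ic (by fun_prop))
      (ic (by fun_prop)) P hc hP
  have hX : ∀ P : E n →L[ℝ] E n, ‖P (r • fderiv ℝ (sm ν k r f) v w)‖ = S⁻¹ *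
      ‖P (∫ t, rho k (r⁻¹ • (t - v)) w • (f t - f v) ∂ν' - (∫ t, rho k (r⁻¹ • (t - v)) w ∂ν') •
        S⁻¹ • ∫ t, k (‖r⁻¹ • (t - v)‖ ^ 2) • (f t - f v) ∂ν')‖ := by
    intro P
    rw [f2, map_smul, norm_smul, norm_inv, Real.norm_eq_abs, abs_of_pos g0]
  refine ⟨by rw [hSav]; exact g0, ?_, ?_, ?_⟩
  · rw [f1]
    have h1 := (cA (ContinuousLinearMap.id ℝ _) (s * (lam + κ)) (by positivity)
      (fun t ht => hu t ht)).1
    exact h1
  · intro P c hc hP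
    rw [hX, inv_mul_le_iff₀ g0]
    have h1 := (cA P c hc (by
      rintro _ ⟨⟨y, rfl⟩, hy⟩
      rw [hB, mem_closedBall, dist_eq_norm] at hy
      exact hP y hy)).2
    calc _ ≤ c * (m₀ + 2 * η) * S := h1
      _ = _ := by ring
  · intro β hβ hTh
    have hX' := hX (ContinuousLinearMap.id ℝ _)
    simp only [ContinuousLinearMap.id_apply] at hX'
    rw [hX', le_inv_mul_iff₀ g0]
    have h2 := core_b ν' hlam hκ hη0 hη1 g0 hs (fun t => rho k (r⁻¹ • (t - v)) w)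
      (fun t => r⁻¹ • (t - v)) (fun t => f t - f v) w hw (range j ∩ B) hG
      (fun t ht => hsmall t ht.2) hu hpair (ic hrc) (ic (by fun_prop)) (ic (by fun_prop))
      (ic (by fun_prop)) (ic (by fun_prop)) (ic (by fun_prop)) (ic (by fun_prop)) g1 g2 g3
    have h3 : s * S * β ≤ ‖∫ t, rho k (r⁻¹ • (t - v)) w • (f t - f v) ∂ν'‖ := by
      rw [← pow_le_pow_iff_left₀ (by positivity) (norm_nonneg _) two_ne_zero]
      refine le_trans ?_ h2
      rw [mul_pow, mul_pow]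
      exact mul_le_mul_of_nonneg_left hTh (by positivity)
    have h4 := (cA (ContinuousLinearMap.id ℝ _) (s * (lam + κ)) (by positivity)
      (fun t ht => hu t ht)).1
    simp only [ContinuousLinearMap.id_apply] at h4
    have h5 : ‖(∫ t, rho k (r⁻¹ • (t - v)) w ∂ν') •
        S⁻¹ • ∫ t, k (‖r⁻¹ • (t - v)‖ ^ 2) • (f t - f v) ∂ν'‖ ≤ (η * S) * (s * (lam + κ)) := by
      rw [norm_smul, Real.norm_eq_abs]
      exact mul_le_mul g2 h4 (norm_nonneg _) (by positivity)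
    have h6 := norm_sub_norm_le (∫ t, rho k (r⁻¹ • (t - v)) w • (f t - f v) ∂ν')
      ((∫ t, rho k (r⁻¹ • (t - v)) w ∂ν') •
        S⁻¹ • ∫ t, k (‖r⁻¹ • (t - v)‖ ^ 2) • (f t - f v) ∂ν')
    calc S * (s * (β - η * (lam + κ))) = s * S * β - (η * S) * (s * (lam + κ)) := by ring
      _ ≤ _ := by linarith

end Pool.Agent.T2H18
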