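import Mathlib
import Pool.Agent.T2H18.Glob

/-!
# A smooth retraction onto an embedded closed manifold
-/

set_option autoImplicit false

open Set Filter Topology Metric Function
open scoped ContDiff RealInnerProductSpace Manifold

noncomputable section

namespace Pool.Agent.T2H18

open Pool.Agent.Y522 (LD)

/-- the inverse function theorem with smoothness of the inverse near the point -/
theorem ift {F G : Type*} [NormedAddCommGroup F] [NormedSpace ℝ F] [CompleteSpace F]
    [NormedAddCommGroup G] [NormedSpace ℝ G] [CompleteSpace G] {f : F → G} (hf : ContDiff ℝ ∞ f)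
    (x : F) (B : F ≃L[ℝ] G) (hB : HasFDerivAt f (B : F →L[ℝ] G) x) :
    ∃ g : G → F, g (f x) = x ∧ (∀ᶠ y in 𝓝 x, g (f y) = y) ∧
      (∀ᶠ y in 𝓝 (f x), f (g y) = y) ∧ ∀ᶠ y in 𝓝 (f x), ContDiffAt ℝ ∞ g y := by
  have hn : (∞ : WithTop ℕ∞) ≠ 0 := by simp
  have hfx : ContDiffAt ℝ ∞ f x := hf.contDiffAt
  set Φ := hfx.toOpenPartialHomeomorph f hB hn with hΦ
  have hxs : x ∈ Φ.source := hfx.mem_toOpenPartialHomeomorph_source hB hn
  have hcoe : (Φ : F → G) = f := hfx.toOpenPartialHomeomorph_coe hB hn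
  have hfxt : f x ∈ Φ.target := by
    rw [← hcoe]
    exact Φ.map_source hxs
  have hgx : Φ.symm (f x) = x := by
    rw [← hcoe]
    exact Φ.left_inv hxs
  have hfd : fderiv ℝ f x = B := hB.fderiv
  have hcont : ContinuousAt (fderiv ℝ f) x := (hf.continuous_fderiv (by simp)).continuousAt
  have h2 : ∀ᶠ y in 𝓝 x, fderiv ℝ f y ∈ range ((↑) : (F ≃L[ℝ] G) → (F →L[ℝ] G)) := by
    apply hcont
    rw [hfd]
    exact ContinuousLinearEquiv.nhds B
  have hsc : ContinuousAt Φ.symm (f x) := Φ.continuousAt_symm hfxt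
  refine ⟨Φ.symm, hgx, ?_, ?_, ?_⟩
  · filter_upwards [Φ.open_source.mem_nhds hxs] with y hy
    rw [← hcoe]
    exact Φ.left_inv hy
  · filter_upwards [Φ.open_target.mem_nhds hfxt] with y hy
    rw [← hcoe]
    exact Φ.right_inv hy
  · have h3 : ∀ᶠ y in 𝓝 (f x), fderiv ℝ f (Φ.symm y) ∈
        range ((↑) : (F ≃L[ℝ] G) → (F →L[ℝ] G)) := by
      have h4 : Tendsto Φ.symm (𝓝 (f x)) (𝓝 x) := by
        have := hsc.tendsto
        rwa [hgx] at this
      exact h4.eventually h2
    filter_upwards [Φ.open_target.mem_nhds hfxt, h3] with y hy hy3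
    obtain ⟨C, hC⟩ := hy3
    apply Φ.contDiffAt_symm hy (f₀' := C)
    · rw [hcoe, hC]
      exact (hf.differentiable hn _).hasFDerivAt
    · rw [hcoe]
      exact hf.contDiffAt

variable {N : Type*} [TopologicalSpace N] [ChartedSpace (E 4) N]

theorem exists_retraction [IsManifold (𝓡 4) ∞ N] [T2Space N] [CompactSpace N] [Nonempty N]
    {m : ℕ} {j : N → E m} (hj : Emb j) :
    ∃ (π : E m → N) (U : Set (E m)), IsOpen U ∧ (∀ z, j z ∈ U) ∧
      (∀ y ∈ U, ContMDiffAt 𝓘(ℝ, E m) (𝓡 4) ∞ π y) ∧ (∀ z, π (j z) = z) ∧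
      ∀ z y, ‖j (π y) - j z‖ ≤ 2 * ‖y - j z‖ := by
  have hjc : Continuous j := hj.smooth.continuous
  have hex : ∀ y : E m, ∃ z : N, ∀ z', ‖y - j z‖ ≤ ‖y - j z'‖ := by
    intro y
    obtain ⟨z, -, hz⟩ := isCompact_univ.exists_isMinOn univ_nonempty
      (f := fun z : N => ‖y - j z‖) (by fun_prop)
    exact ⟨z, fun z' => hz (mem_univ z')⟩
  choose π hπ using hex
  have hπj : ∀ z, π (j z) = z := by
    intro z
    apply hj.inj
    have h1 := hπ (j z) z
    rw [sub_self, norm_zero, norm_le_zero_iff, sub_eq_zero] at h1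
    exact h1.symm
  have hclose : ∀ z y, ‖j (π y) - j z‖ ≤ 2 * ‖y - j z‖ := by
    intro z y
    have h1 := hπ y z
    have h2 : j (π y) - j z = (y - j z) - (y - j (π y)) := by abel
    rw [h2]
    refine (norm_sub_le _ _).trans ?_
    linarith
  have hemb : IsClosedEmbedding j := hjc.isClosedEmbedding hj.inj
  have hπc : ∀ z, Tendsto π (𝓝 (j z)) (𝓝 z) := by
    intro z
    rw [hemb.isInducing.nhds_eq_comap, tendsto_comap_iff]
    rw [tendsto_iff_norm_sub_tendsto_zero]
    refine squeeze_zero (fun y => norm_nonneg _) (fun y => hclose z y) ?_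
    have h1 : Tendsto (fun y : E m => 2 * ‖y - j z‖) (𝓝 (j z)) (𝓝 (2 * ‖j z - j z‖)) :=
      (Continuous.tendsto (by fun_prop) _)
    simpa using h1
  have key : ∀ z₀ : N, ∀ᶠ y in 𝓝 (j z₀), ContMDiffAt 𝓘(ℝ, E m) (𝓡 4) ∞ π y := by
    intro z₀
    obtain ⟨A, hAi, hAd, hA0⟩ := exists_param z₀
    set c : E 4 → E m := fun q => j (A q) with hc
    have hcs : ContDiff ℝ ∞ c := by
      have h1 : ContMDiff (𝓡 4) 𝓘(ℝ, E m) ∞ c := by
        intro q
        exact (hj.smooth (A q)).comp q (hAd q).contMDiffAt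
      exact h1.contDiff
    have hcinj : Injective (fderiv ℝ c 0) := by
      have h1 := mfderiv_comp (I := 𝓡 4) (I' := 𝓡 4) (I'' := 𝓘(ℝ, E m)) (0 : E 4)
        ((hj.smooth (A 0)).mdifferentiableAt (by simp))
        ((hAd 0).contMDiffAt.mdifferentiableAt (by simp))
      have h2 : mfderiv (𝓡 4) 𝓘(ℝ, E m) (j ∘ A) 0 = fderiv ℝ c 0 := mfderiv_eq_fderiv
      rw [h2] at h1
      rw [h1]
      exact (hj.imm _).comp (LD_mfderiv_injective (hAd 0))
    have hdc : ContDiff ℝ ∞ (fderiv ℝ c) := hcs.fderiv_right (by simp)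
    -- the map
    let adj : (E 4 →L[ℝ] E m) →L[ℝ] (E m →L[ℝ] E 4) :=
      (ContinuousLinearMap.adjoint (𝕜 := ℝ) (E := E 4) (F := E m)).toContinuousLinearEquiv.toContinuousLinearMap
    have hadj : ∀ T, adj T = ContinuousLinearMap.adjoint T := fun T => rfl
    set Φ : E 4 × E m → E 4 × E m := fun x => (adj (fderiv ℝ c x.1) (x.2 - c x.1), x.2) with hΦ
    have hΦs : ContDiff ℝ ∞ Φ := by
      apply ContDiff.prodMk _ contDiff_snd
      apply ContDiff.clm_apply
      · exact adj.contDiff.comp (hdc.comp contDiff_fst)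
      · exact contDiff_snd.sub (hcs.comp contDiff_fst)
    set J := fderiv ℝ c 0 with hJ
    let B : (E 4 × E m) →L[ℝ] (E 4 × E m) :=
      ((adj J).comp (ContinuousLinearMap.snd ℝ (E 4) (E m) - J.comp (ContinuousLinearMap.fst ℝ (E 4) (E m)))).prod
        (ContinuousLinearMap.snd ℝ (E 4) (E m))
    have hBd : HasFDerivAt Φ B (0, c 0) := by
      apply HasFDerivAt.prodMk _ hasFDerivAt_snd
      have h1 : HasFDerivAt (fun x : E 4 × E m => adj (fderiv ℝ c x.1))
          (fderiv ℝ (fun x : E 4 × E m => adj (fderiv ℝ c x.1)) (0, c 0)) (0, c 0) := by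
        apply DifferentiableAt.hasFDerivAt
        have : ContDiff ℝ ∞ (fun x : E 4 × E m => adj (fderiv ℝ c x.1)) :=
          adj.contDiff.comp (hdc.comp contDiff_fst)
        exact this.differentiable (by simp) _
      have h2 : HasFDerivAt (fun x : E 4 × E m => x.2 - c x.1)
          (ContinuousLinearMap.snd ℝ (E 4) (E m) - J.comp (ContinuousLinearMap.fst ℝ (E 4) (E m)))
          (0, c 0) := by
        have h20 : HasFDerivAt c J ((0 : E 4), c 0).1 :=
          (hcs.differentiable (by simp) 0).hasFDerivAt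
        have h21 : HasFDerivAt (fun x : E 4 × E m => x.1) (ContinuousLinearMap.fst ℝ (E 4) (E m))
          (0, c 0) := hasFDerivAt_fst
        exact hasFDerivAt_snd.sub (h20.comp (0, c 0) h21)
      have h3 := h1.clm_apply h2
      refine h3.congr_fderiv ?_
      ext x <;> simp [hJ]
    have hBinj : Injective B := by
      rw [injective_iff_map_eq_zero]
      rintro ⟨p, y⟩ hpy
      have h1 : y = 0 := by
        have := congrArg Prod.snd hpy
        simpa [B] using this
      subst h1
      have h2 : (adj J) (-(J p)) = 0 := by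
        have := congrArg Prod.fst hpy
        simpa [B] using this
      have h3 : J p = 0 := by
        rw [map_neg, neg_eq_zero, hadj] at h2
        have h4 : ⟪J p, J p⟫ = 0 := by
          rw [← ContinuousLinearMap.adjoint_inner_right, h2, inner_zero_right]
        exact inner_self_eq_zero.1 h4
      have h5 : p = 0 := hcinj (by rw [h3, map_zero])
      rw [h5]
      rfl
    let Be : (E 4 × E m) ≃L[ℝ] (E 4 × E m) :=
      (LinearEquiv.ofInjectiveEndo B.toLinearMap hBinj).toContinuousLinearEquiv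
    have hBe : (Be : (E 4 × E m) →L[ℝ] (E 4 × E m)) = B := by
      ext x <;> rfl
    obtain ⟨g, hg1, hg2, hg3, hg4⟩ := ift hΦs (0, c 0) Be (by rw [hBe]; exact hBd)
    have hΦ0 : Φ (0, c 0) = (0, c 0) := by simp [hΦ]
    rw [hΦ0] at hg1 hg3 hg4
    have hcz : c 0 = j z₀ := by simp only [hc, hA0]
    -- the local formula
    obtain ⟨s, hs1, hs2, hs3⟩ := LD_exists_inverse (hAd 0)
    rw [hA0] at hs1 hs2 hs3
    have hσ : ∀ᶠ y in 𝓝 (j z₀), π y = A (g (0, y)).1 := by
      have t1 : Tendsto (fun y => s (π y)) (𝓝 (j z₀)) (𝓝 0) := by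
        have := hs1.tendsto.comp (hπc z₀)
        rwa [hs2] at this
      have t2 : Tendsto (fun y => (s (π y), y)) (𝓝 (j z₀)) (𝓝 ((0 : E 4), c 0)) := by
        rw [hcz]
        exact t1.prodMk_nhds tendsto_id
      filter_upwards [t2.eventually hg2, (hπc z₀).eventually hs3] with y hy1 hy2
      have h6 : adj (fderiv ℝ c (s (π y))) (y - c (s (π y))) = 0 := by
        rw [hadj]
        have h7 : ∀ v, ⟪fderiv ℝ c (s (π y)) v, y - c (s (π y))⟫ = 0 := by
          intro v
          have hmin : IsLocalMin (fun q => ‖y - c q‖ ^ 2) (s (π y)) := by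
            refine Eventually.of_forall fun q => ?_
            have h8 := hπ y (A q)
            simp only [hc, hy2]
            gcongr
          have hder : HasFDerivAt (fun q => ‖y - c q‖ ^ 2)
              (2 • (innerSL ℝ (y - c (s (π y)))).comp (-(fderiv ℝ c (s (π y))))) (s (π y)) := by
            have h9 : HasFDerivAt (fun q => y - c q) (-(fderiv ℝ c (s (π y)))) (s (π y)) :=
              (hcs.differentiable (by simp) _).hasFDerivAt.const_sub y
            exact h9.norm_sq
          have h10 := hmin.hasFDerivAt_eq_zero hder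
          have h11 := DFunLike.congr_fun h10 v
          simp at h11
          rw [real_inner_comm, inner_sub_left]
          linarith
        have h12 := h7 (ContinuousLinearMap.adjoint (fderiv ℝ c (s (π y))) (y - c (s (π y))))
        rw [← ContinuousLinearMap.adjoint_inner_right] at h12
        exact inner_self_eq_zero.1 h12
      have h13 : Φ (s (π y), y) = (0, y) := by
        simp only [hΦ]
        rw [h6]
      rw [h13] at hy1
      rw [hy1, hy2]
    have hsm : ∀ᶠ y in 𝓝 (j z₀), ContMDiffAt 𝓘(ℝ, E m) (𝓡 4) ∞ (fun y => A (g (0, y)).1) y := by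
      have t3 : Tendsto (fun y : E m => ((0 : E 4), y)) (𝓝 (j z₀)) (𝓝 ((0 : E 4), c 0)) := by
        rw [hcz]
        exact Continuous.tendsto (by fun_prop) _
      filter_upwards [t3.eventually hg4] with y hy
      have h14 : ContDiffAt ℝ ∞ (fun y : E m => (g (0, y)).1) y := by
        have h15 : ContDiffAt ℝ ∞ (fun y : E m => g (0, y)) y :=
          ContDiffAt.comp y hy (contDiffAt_const.prodMk contDiffAt_id)
        exact h15.fst
      exact (hAd _).contMDiffAt.comp y h14.contMDiffAt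
    filter_upwards [hσ.eventually_nhds, hsm] with y hy1 hy2
    exact hy2.congr_of_eventuallyEq hy1
  refine ⟨π, {y | ∀ᶠ y' in 𝓝 y, ContMDiffAt 𝓘(ℝ, E m) (𝓡 4) ∞ π y'},
    isOpen_setOfPred_eventually_nhds, key, fun y hy => hy.self_of_nhds, hπj, hclose⟩

end Pool.Agent.T2H18
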