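import Mathlib
import Pool.Agent.T2H18.Retr

/-!
# Local diffeomorphisms onto simply connected manifolds
-/

set_option autoImplicit false

open Set Filter Topology Metric Function
open scoped ContDiff RealInnerProductSpace Manifold

noncomputable section

namespace Pool.Agent.T2H18

open Pool.Agent.Y522 (LD)

theorem bijective_of_LD {M N : Type*} [TopologicalSpace M] [T2Space M] [CompactSpace M]
    [ConnectedSpace M] [ChartedSpace (E 4) M] [TopologicalSpace N] [T2Space N]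
    [ChartedSpace (E 4) N] [SimplyConnectedSpace N] {G : M → N} (hG : ∀ x, LD 4 G x) :
    Bijective G := by
  have hloc : IsLocalHomeomorph G :=
    IsLocalDiffeomorph.isLocalHomeomorph (I := 𝓡 4) (J := 𝓡 4) (n := ∞) (f := G) hG
  have hcov : IsCoveringMap G := isLocalHomeomorph_iff_isCoveringMap.1 hloc
  have hlpc : LocallyPathConnectedSpace N := ChartedSpace.locallyPathConnectedSpace (E 4) N
  obtain ⟨x₀⟩ : Nonempty M := inferInstance
  obtain ⟨s, ⟨hs1, hs2⟩, -⟩ := hcov.existsUnique_continuousMap_lifts (ContinuousMap.id N) (G x₀) x₀ rfl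
  have h1 : ∀ y, G (s y) = y := fun y => congrFun hs2 y
  have h2 : (fun x => s (G x)) = fun x => x := by
    apply hcov.eq_of_comp_eq (s.continuous.comp hloc.continuous) continuous_id _ x₀ hs1
    funext x
    exact h1 (G x)
  exact ⟨fun a b hab => by
    have ha : s (G a) = a := congrFun h2 a
    have hb : s (G b) = b := congrFun h2 b
    rw [← ha, hab, hb], fun y => ⟨s y, h1 y⟩⟩

section retr

variable {N : Type*} [TopologicalSpace N] [ChartedSpace (E 4) N] {n : ℕ} {ι : N → E n}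
  {π : E n → N} {U : Set (E n)}

theorem Pi_contDiffAt (hι : Emb ι) (hπ : ∀ y ∈ U, ContMDiffAt 𝓘(ℝ, E n) (𝓡 4) ∞ π y)
    {y : E n} (hy : y ∈ U) : ContDiffAt ℝ ∞ (fun y => ι (π y)) y := by
  have h1 : ContMDiffAt 𝓘(ℝ, E n) 𝓘(ℝ, E n) ∞ (fun y => ι (π y)) y :=
    (hι.smooth (π y)).comp y (hπ y hy)
  exact h1.contDiffAt

theorem uniform_retr [CompactSpace N] (hι : Emb ι) (hU : IsOpen U) (hιU : ∀ z, ι z ∈ U)
    (hπ : ∀ y ∈ U, ContMDiffAt 𝓘(ℝ, E n) (𝓡 4) ∞ π y) {ε : ℝ} (hε : 0 < ε) :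
    ∃ δ : ℝ, 0 < δ ∧ ∀ z : N, ∀ y, ‖y - ι z‖ < δ → y ∈ U ∧
      ‖fderiv ℝ (fun y => ι (π y)) y - fderiv ℝ (fun y => ι (π y)) (ι z)‖ ≤ ε := by
  set D := fderiv ℝ (fun y => ι (π y)) with hD
  have hDc : ContinuousOn D U := by
    have h1 : ContDiffOn ℝ ∞ (fun y => ι (π y)) U := fun y hy =>
      (Pi_contDiffAt hι hπ hy).contDiffWithinAt
    exact h1.continuousOn_fderiv_of_isOpen hU (by simp)
  have h1 : ∀ z₀ : N, ∀ᶠ x : ℝ × N in 𝓝[>] 0 ×ˢ 𝓝 z₀, ∀ y, ‖y - ι x.2‖ < x.1 → y ∈ U ∧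
      ‖D y - D (ι x.2)‖ ≤ ε := by
    intro z₀
    have h2 : ∀ᶠ y in 𝓝 (ι z₀), y ∈ U ∧ ‖D y - D (ι z₀)‖ < ε / 2 := by
      have h3 : ContinuousAt D (ι z₀) := hDc.continuousAt (hU.mem_nhds (hιU z₀))
      have h4 : Tendsto (fun y => ‖D y - D (ι z₀)‖) (𝓝 (ι z₀)) (𝓝 0) := by
        have := (h3.tendsto.sub_const (D (ι z₀))).norm
        simpa using this
      have h5 : ∀ᶠ y in 𝓝 (ι z₀), y ∈ U := hU.mem_nhds (hιU z₀)
      exact h5.and (h4.eventually (gt_mem_nhds (half_pos hε)))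
    obtain ⟨ρ, hρ, h5⟩ := Metric.eventually_nhds_iff.1 h2
    have h6 : ∀ᶠ x : ℝ × N in 𝓝[>] 0 ×ˢ 𝓝 z₀, x.1 < ρ / 2 :=
      (tendsto_fst.mono_right nhdsWithin_le_nhds).eventually (gt_mem_nhds (half_pos hρ))
    have h7 : ∀ᶠ x : ℝ × N in 𝓝[>] 0 ×ˢ 𝓝 z₀, ι x.2 ∈ ball (ι z₀) (ρ / 2) :=
      ((hι.smooth.continuous.tendsto z₀).comp tendsto_snd).eventually
        (ball_mem_nhds _ (half_pos hρ))
    filter_upwards [h6, h7] with x hx1 hx2 y hy
    rw [mem_ball] at hx2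
    have h8 : dist y (ι z₀) < ρ := by
      calc dist y (ι z₀) ≤ dist y (ι x.2) + dist (ι x.2) (ι z₀) := dist_triangle _ _ _
        _ < ρ := by
          rw [dist_eq_norm y]
          linarith
    have h9 := h5 h8
    have h10 := h5 (show dist (ι x.2) (ι z₀) < ρ by linarith)
    refine ⟨h9.1, ?_⟩
    have h11 : D y - D (ι x.2) = (D y - D (ι z₀)) - (D (ι x.2) - D (ι z₀)) := by abel
    rw [h11]
    refine (norm_sub_le _ _).trans ?_
    linarith [h9.2, h10.2]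
  have h3 : ∀ᶠ r : ℝ in 𝓝[>] 0, ∀ z ∈ (univ : Set N), ∀ y, ‖y - ι z‖ < r → y ∈ U ∧
      ‖D y - D (ι z)‖ ≤ ε :=
    (Eventually.curry (isCompact_univ.mem_prod_nhdsSet_of_forall fun z _ => h1 z)).mono
      fun r hr => hr.self_of_nhdsSet
  have h4 : ∀ᶠ r : ℝ in 𝓝[>] 0, 0 < r := eventually_mem_nhdsWithin
  obtain ⟨δ, hδ, hδ'⟩ := (h4.and h3).exists
  exact ⟨δ, hδ, fun z y hy => hδ' z (mem_univ z) y hy⟩

/-- the differential of the retraction nearly fixes small chords -/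
theorem chord_retr (hι : Emb ι) (hπ : ∀ y ∈ U, ContMDiffAt 𝓘(ℝ, E n) (𝓡 4) ∞ π y)
    (hπι : ∀ z, π (ι z) = z) {ε δ : ℝ} (hδ : 0 < δ) {z : N}
    (h : ∀ y, ‖y - ι z‖ < δ → y ∈ U ∧
      ‖fderiv ℝ (fun y => ι (π y)) y - fderiv ℝ (fun y => ι (π y)) (ι z)‖ ≤ ε)
    {z' : N} (hz' : ‖ι z' - ι z‖ < δ) :
    ‖(ι z' - ι z) - fderiv ℝ (fun y => ι (π y)) (ι z) (ι z' - ι z)‖ ≤ ε * ‖ι z' - ι z‖ := by
  have h1 := (convex_ball (ι z) δ).norm_image_sub_le_of_norm_hasFDerivWithin_le'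
    (f := fun y => ι (π y)) (f' := fun y => fderiv ℝ (fun y => ι (π y)) y)
    (φ := fderiv ℝ (fun y => ι (π y)) (ι z)) (C := ε)
    (fun y hy => ((Pi_contDiffAt hι hπ (h y (by simpa [dist_eq_norm] using hy)).1).differentiableAt
      (by simp)).hasFDerivAt.hasFDerivWithinAt)
    (fun y hy => (h y (by simpa [dist_eq_norm] using hy)).2)
    (mem_ball_self hδ) (show ι z' ∈ ball (ι z) δ by simpa [dist_eq_norm] using hz')
  simp only [hπι] at h1
  exact h1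

end retr

section ld

variable {M : Type*} [TopologicalSpace M] [ChartedSpace (E 4) M]
variable {N : Type*} [TopologicalSpace N] [ChartedSpace (E 4) N] {m n : ℕ} {j : M → E m} {ι : N → E n}
  {π : E n → N} {U : Set (E n)}

theorem LD_exists_inverse' {f : E 4 → M} {x : E 4} (hf : LD 4 f x) :
    ∃ p : M → E 4, LD 4 p (f x) ∧ p (f x) = x ∧ ∀ᶠ z in 𝓝 (f x), f (p z) = z := by
  obtain ⟨Φ, hx, heq⟩ := hf
  have h0 : f x = Φ.toPartialEquiv x := heq hx
  have h1 : f x ∈ Φ.target := by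
    rw [h0]
    exact Φ.map_source hx
  refine ⟨Φ.symm, ⟨Φ.symm, h1, fun _ _ => rfl⟩, ?_, ?_⟩
  · rw [h0]
    exact Φ.left_inv hx
  · filter_upwards [Φ.open_target.mem_nhds h1] with z hz
    have h2 : Φ.symm z ∈ Φ.source := Φ.map_target hz
    rw [heq h2]
    exact Φ.right_inv hz

theorem LD_of_fderiv [IsManifold (𝓡 4) ∞ M] [IsManifold (𝓡 4) ∞ N]
    (hj : Emb j) (hι : Emb ι) (hU : IsOpen U)
    (hπ : ∀ y ∈ U, ContMDiffAt 𝓘(ℝ, E n) (𝓡 4) ∞ π y)
    {H : E m → E n} {A : E 4 → M} (hA : ∀ p, LD 4 A p) {p : E 4}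
    (hH : ∀ᶠ v in 𝓝 (j (A p)), ContDiffAt ℝ ∞ H v) (hHU : H (j (A p)) ∈ U)
    (hinj : ∀ w, w ≠ 0 → fderiv ℝ (fun q => ι (π (H (j (A q))))) p w ≠ 0) :
    LD 4 (fun x => π (H (j x))) (A p) := by
  set G : M → N := fun x => π (H (j x)) with hG
  have hAc : Continuous A := continuous_iff_continuousAt.2 fun q => (hA q).continuousAt
  have hjc : Continuous j := hj.smooth.continuous
  obtain ⟨B, hBi, hBd, hB0⟩ := exists_param (G (A p))
  obtain ⟨s, hs1, hs2, hs3⟩ := LD_exists_inverse' (hBd 0)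
  rw [hB0] at hs1 hs2 hs3
  have hcp : ContinuousAt (fun q => j (A q)) p := (hjc.comp hAc).continuousAt
  have hH' : ∀ᶠ q in 𝓝 p, ContDiffAt ℝ ∞ H (j (A q)) := hcp.eventually hH
  have hHp : ContinuousAt (fun q => H (j (A q))) p :=
    ContinuousAt.comp (f := fun q => j (A q)) (g := H) hH.self_of_nhds.continuousAt hcp
  have hU' : ∀ᶠ q in 𝓝 p, H (j (A q)) ∈ U := hHp.eventually (hU.mem_nhds hHU)
  have hGA : ∀ᶠ q in 𝓝 p, ContMDiffAt (𝓡 4) (𝓡 4) ∞ (fun q => G (A q)) q := by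
    filter_upwards [hH', hU'] with q hq1 hq2
    have h1 : ContMDiffAt (𝓡 4) 𝓘(ℝ, E m) ∞ (fun q => j (A q)) q :=
      (hj.smooth (A q)).comp q (hA q).contMDiffAt
    have h2 : ContMDiffAt (𝓡 4) 𝓘(ℝ, E n) ∞ (fun q => H (j (A q))) q :=
      ContMDiffAt.comp q hq1.contMDiffAt h1
    exact ContMDiffAt.comp q (hπ _ hq2) h2
  have hGAc : ContinuousAt (fun q => G (A q)) p := hGA.self_of_nhds.continuousAt
  set F : E 4 → E 4 := fun q => s (G (A q)) with hF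
  have hs4 : ∀ᶠ q in 𝓝 p, LD 4 s (G (A q)) := hGAc.eventually hs1.eventually
  have hFd : ∀ᶠ q in 𝓝 p, ContDiffAt ℝ ∞ F q := by
    filter_upwards [hGA, hs4] with q hq1 hq2
    have h1 : ContMDiffAt (𝓡 4) (𝓡 4) ∞ F q := ContMDiffAt.comp q hq2.contMDiffAt hq1
    exact h1.contDiffAt
  have hBF : ∀ᶠ q in 𝓝 p, B (F q) = G (A q) := hGAc.eventually hs3
  have hbs : ContDiff ℝ ∞ (fun q => ι (B q)) := by
    have h1 : ContMDiff (𝓡 4) 𝓘(ℝ, E n) ∞ (fun q => ι (B q)) := by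
      intro q
      exact (hι.smooth (B q)).comp q (hBd q).contMDiffAt
    exact h1.contDiff
  have hFdiff : HasFDerivAt F (fderiv ℝ F p) p :=
    (hFd.self_of_nhds.differentiableAt (by simp)).hasFDerivAt
  have hchain : fderiv ℝ (fun q => ι (π (H (j (A q))))) p =
      (fderiv ℝ (fun q => ι (B q)) (F p)).comp (fderiv ℝ F p) := by
    have h1 : (fun q => ι (π (H (j (A q))))) =ᶠ[𝓝 p] fun q => ι (B (F q)) := by
      filter_upwards [hBF] with q hq
      rw [hq]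
    rw [h1.fderiv_eq]
    have h2 : HasFDerivAt (fun q => ι (B q)) (fderiv ℝ (fun q => ι (B q)) (F p)) (F p) :=
      (hbs.differentiable (by simp) _).hasFDerivAt
    exact (h2.comp p hFdiff).fderiv
  have hFinj : Injective (fderiv ℝ F p) := by
    rw [injective_iff_map_eq_zero]
    intro w hw
    by_contra hw0
    apply hinj w hw0
    rw [hchain, ContinuousLinearMap.comp_apply, hw, map_zero]
  let Fe : E 4 ≃L[ℝ] E 4 :=
    (LinearEquiv.ofInjectiveEndo (fderiv ℝ F p).toLinearMap hFinj).toContinuousLinearEquiv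
  have hFe : (Fe : E 4 →L[ℝ] E 4) = fderiv ℝ F p := by
    ext x <;> rfl
  have hLDF : LD 4 F p := Pool.Agent.Y522.LD_of_contDiffAt hFd Fe (by rw [hFe]; exact hFdiff)
  obtain ⟨sA, ha1, ha2, ha3⟩ := LD_exists_inverse' (hA p)
  have h1 : LD 4 (fun y => F (sA y)) (A p) := Pool.Agent.Y522.LD.comp_fun (by rw [ha2]; exact hLDF) ha1
  have h2 : LD 4 (fun y => B (F (sA y))) (A p) := Pool.Agent.Y522.LD.comp_fun (hBd _) h1
  refine Pool.Agent.Y522.LD.congr h2 ?_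
  have h3 : Tendsto sA (𝓝 (A p)) (𝓝 p) := by
    have := ha1.continuousAt.tendsto
    rwa [ha2] at this
  filter_upwards [ha3, h3.eventually hBF] with y hy1 hy2
  rw [hy2, hy1]

end ld

end Pool.Agent.T2H18
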