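import Mathlib
import Pool.Agent.T2H18.Top
import Pool.Agent.T2H18.Loc

/-!
# Assembly
-/

set_option autoImplicit false

open Set Filter Topology Metric Function MeasureTheory
open scoped ContDiff RealInnerProductSpace Manifold

noncomputable section

namespace Pool.Agent.T2H18

open Pool.Agent.Y522 (LD)

/-- choice of the constants -/
theorem exists_const {lam : ℝ} (hlam : lam ^ 2 * (256 - 9 * Real.pi ^ 2) < 256 + 9 * Real.pi ^ 2) :
    ∃ κ e η₁ β : ℝ, 0 < κ ∧ 0 < e ∧ e < 1 ∧ 0 < η₁ ∧ η₁ ≤ 1 ∧ 0 < β ∧ ∀ η, 0 ≤ η → η ≤ η₁ →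
      β ^ 2 ≤ Th lam κ (16 / (3 * Real.pi * (1 - e) ^ 2)) η := by
  set f : ℝ × ℝ × ℝ → ℝ := fun x => Th lam x.1 (16 / (3 * Real.pi * (1 - x.2.1) ^ 2)) x.2.2 with hf
  have hpi := Real.pi_pos
  have hfc : ContinuousAt f (0, 0, 0) := by
    have h1 : ContinuousAt (fun x : ℝ × ℝ × ℝ => 16 / (3 * Real.pi * (1 - x.2.1) ^ 2)) (0, 0, 0) := by
      apply ContinuousAt.div continuousAt_const (by fun_prop)
      simp only [sub_zero]
      positivity
    simp only [hf, Th]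
    fun_prop
  have hf0 : 0 < f (0, 0, 0) := by
    have h2 : f (0, 0, 0) = (256 + 9 * Real.pi ^ 2 - lam ^ 2 * (256 - 9 * Real.pi ^ 2)) /
        (18 * Real.pi ^ 2) := by
      simp only [hf, Th]
      field_simp
      ring
    rw [h2]
    apply div_pos (by linarith) (by positivity)
  set β := √(f (0, 0, 0) / 2) with hβ
  have hβ0 : 0 < β := Real.sqrt_pos.2 (half_pos hf0)
  have hβ2 : β ^ 2 = f (0, 0, 0) / 2 := Real.sq_sqrt (half_pos hf0).le
  have h3 : ∀ᶠ x in 𝓝 ((0:ℝ), (0:ℝ), (0:ℝ)), f (0, 0, 0) / 2 < f x :=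
    hfc.eventually (lt_mem_nhds (half_lt_self hf0))
  obtain ⟨t, ht, h4⟩ := Metric.eventually_nhds_iff.1 h3
  set c := min (t / 2) (1 / 2) with hc
  have hc0 : 0 < c := lt_min (half_pos ht) (by norm_num)
  have hct : c < t := lt_of_le_of_lt (min_le_left _ _) (half_lt_self ht)
  have hc1 : c ≤ 1 / 2 := min_le_right _ _
  refine ⟨c, c, c, β, hc0, hc0, by linarith, hc0, by linarith, hβ0, fun η hη0 hη1 => ?_⟩
  rw [hβ2]
  have h5 : dist ((c, c, η) : ℝ × ℝ × ℝ) (0, 0, 0) < t := by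
    simp only [Prod.dist_eq, dist_zero_right, Real.norm_eq_abs, abs_of_pos hc0, abs_of_nonneg hη0]
    exact max_lt hct (max_lt hct (by linarith))
  exact (h4 h5).le

variable {M : Type*} [TopologicalSpace M] [T2Space M] [CompactSpace M] [ConnectedSpace M]
  [ChartedSpace (E 4) M] [IsManifold (𝓡 4) ∞ M]
variable {N : Type*} [TopologicalSpace N] [T2Space N] [CompactSpace N] [SimplyConnectedSpace N]
  [ChartedSpace (E 4) N] [IsManifold (𝓡 4) ∞ N]

omit [CompactSpace N] in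
/-- from a smooth ambient approximation to a diffeomorphism -/
theorem exists_diffeo {m n : ℕ} {j : M → E m} {ι : N → E n} (hj : Emb j) (hι : Emb ι)
    {K : ℕ} {A : Fin K → E 4 → M} (hA : Atl A)
    {π : E n → N} {U : Set (E n)} (hU : IsOpen U)
    (hπ : ∀ y ∈ U, ContMDiffAt 𝓘(ℝ, E n) (𝓡 4) ∞ π y) (hπι : ∀ z, π (ι z) = z)
    (hcl : ∀ z y, ‖ι (π y) - ι z‖ ≤ 2 * ‖y - ι z‖)
    {δ₁ : ℝ} (hUδ : ∀ z y, ‖y - ι z‖ < δ₁ → y ∈ U)
    (g : C(M, N)) (H : E m → E n) {c : ℝ} (hc : c < δ₁)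
    (hH : ∀ x, ∀ᶠ v in 𝓝 (j x), ContDiffAt ℝ ∞ H v)
    (hclose : ∀ x, ‖H (j x) - ι (g x)‖ ≤ c)
    (hinj : ∀ i p, ‖p‖ < 1 → ∀ w, w ≠ 0 →
      fderiv ℝ (fun q => ι (π (H (j (A i q))))) p w ≠ 0) :
    ∃ Φ : Diffeomorph (𝓡 4) (𝓡 4) M N ∞,
      ContinuousMap.Homotopic g ⟨Φ, Φ.continuous⟩ ∧ ∀ x, ‖ι (Φ x) - ι (g x)‖ ≤ 2 * c := by
  have hjc : Continuous j := hj.smooth.continuous
  have hιc : Continuous ι := hι.smooth.continuous
  set G : M → N := fun x => π (H (j x)) with hG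
  have hHU : ∀ x, H (j x) ∈ U := fun x => hUδ (g x) _ (lt_of_le_of_lt (hclose x) hc)
  have hLD : ∀ x, LD 4 G x := by
    intro x
    obtain ⟨i, p, hp, rfl⟩ := hA.cov x
    exact LD_of_fderiv hj hι hU hπ (hA.ld i) (hH _) (hHU _) (hinj i p hp)
  have hbij : Bijective G := bijective_of_LD hLD
  obtain ⟨Gi, hGi1, hGi2⟩ := bijective_iff_has_inverse.1 hbij
  have hGsm : ContMDiff (𝓡 4) (𝓡 4) ∞ G := fun x => (hLD x).contMDiffAt
  have hGism : ContMDiff (𝓡 4) (𝓡 4) ∞ Gi := fun y =>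
    (Pool.Agent.Y522.LD.inverse_bij hbij hLD hGi1 y).contMDiffAt
  let Φ : Diffeomorph (𝓡 4) (𝓡 4) M N ∞ :=
    { toFun := G
      invFun := Gi
      left_inv := hGi1
      right_inv := hGi2
      contMDiff_toFun := hGsm
      contMDiff_invFun := hGism }
  have hHj : Continuous (fun x => H (j x)) := by
    rw [continuous_iff_continuousAt]
    intro x
    exact ContinuousAt.comp (f := j) (g := H) (hH x).self_of_nhds.continuousAt hjc.continuousAt
  have hfc : Continuous (fun x : unitInterval × M =>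
      ι (g x.2) + (x.1 : ℝ) • (H (j x.2) - ι (g x.2))) := by
    have h1 : Continuous (fun x : unitInterval × M => ι (g x.2)) :=
      hιc.comp (g.continuous.comp continuous_snd)
    have h2 : Continuous (fun x : unitInterval × M => H (j x.2)) := hHj.comp continuous_snd
    have h3 : Continuous (fun x : unitInterval × M => (x.1 : ℝ)) :=
      continuous_subtype_val.comp continuous_fst
    exact h1.add (h3.smul (h2.sub h1))
  have hfU : ∀ x : unitInterval × M, ι (g x.2) + (x.1 : ℝ) • (H (j x.2) - ι (g x.2)) ∈ U := by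
    intro x
    apply hUδ (g x.2)
    rw [add_sub_cancel_left, norm_smul, Real.norm_eq_abs, abs_of_nonneg x.1.2.1]
    have h1 := hclose x.2
    have h2 := x.1.2.2
    have h3 : (x.1 : ℝ) * ‖H (j x.2) - ι (g x.2)‖ ≤ 1 * ‖H (j x.2) - ι (g x.2)‖ :=
      mul_le_mul_of_nonneg_right h2 (norm_nonneg _)
    linarith
  have hhc : Continuous (fun x : unitInterval × M =>
      π (ι (g x.2) + (x.1 : ℝ) • (H (j x.2) - ι (g x.2)))) := by
    rw [continuous_iff_continuousAt]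
    intro x
    exact ContinuousAt.comp (f := fun x : unitInterval × M =>
      ι (g x.2) + (x.1 : ℝ) • (H (j x.2) - ι (g x.2))) (g := π)
      (hπ _ (hfU x)).continuousAt hfc.continuousAt
  refine ⟨Φ, ⟨{ toFun := fun x => π (ι (g x.2) + (x.1 : ℝ) • (H (j x.2) - ι (g x.2)))
                continuous_toFun := hhc
                map_zero_left := ?_
                map_one_left := ?_ }⟩, fun x => ?_⟩
  · intro x
    simp [hπι]
  · intro x
    change π (ι (g x) + ((1 : unitInterval) : ℝ) • (H (j x) - ι (g x))) = π (H (j x))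
    rw [show ((1 : unitInterval) : ℝ) = 1 from rfl, one_smul, add_sub_cancel]
  · refine (hcl (g x) (H (j x))).trans ?_
    have := hclose x
    linarith

theorem exists_diffeo_of_ratio {lam κ e η₁ β : ℝ} (hlam : 1 ≤ lam) (hκ : 0 < κ) (he : 0 < e)
    (he1 : e < 1) (hη₁ : 0 < η₁) (hη₁1 : η₁ ≤ 1) (hβ : 0 < β)
    (hTh : ∀ η, 0 ≤ η → η ≤ η₁ → β ^ 2 ≤ Th lam κ (16 / (3 * Real.pi * (1 - e) ^ 2)) η)
    {m n : ℕ} {j : M → E m} {ι : N → E n} (hj : Emb j) (hι : Emb ι) {η₀ : ℝ} (hη₀ : 0 < η₀) :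
    ∃ δ : ℝ, 0 < δ ∧ ∀ r : ℝ, 0 < r → r ≤ δ → ∀ g : C(M, N),
      (∀ x, ∃ a : ℝ, 0 < a ∧ a * r ≤ δ ∧ ∀ y z, ‖j y - j x‖ ≤ r → ‖j z - j x‖ ≤ r →
        a * (‖j y - j z‖ - κ * r) ≤ ‖ι (g y) - ι (g z)‖ ∧
        ‖ι (g y) - ι (g z)‖ ≤ a * (lam * ‖j y - j z‖ + κ * r)) →
      ∃ Φ : Diffeomorph (𝓡 4) (𝓡 4) M N ∞,
        ContinuousMap.Homotopic g ⟨Φ, Φ.continuous⟩ ∧ ∀ x, ‖ι (Φ x) - ι (g x)‖ ≤ η₀ := by
  set m₀ := 16 / (3 * Real.pi * (1 - e) ^ 2) with hm₀
  have hpi := Real.pi_pos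
  have h1e : 0 < 1 - e := by linarith
  have hm₀0 : 0 < m₀ := by positivity
  obtain ⟨x₀⟩ : Nonempty N := inferInstance
  obtain ⟨K, A, hA⟩ := exists_atl (M := M)
  obtain ⟨k, hk⟩ := exists_ker he
  obtain ⟨π, U, hU, hιU, hπ, hπι, hcl⟩ := exists_retraction hι
  -- constants
  set L := lam + κ with hL
  have hL0 : 0 < L := by linarith
  set η := min η₁ (β / (4 * L)) with hη
  have hη0 : 0 < η := lt_min hη₁ (by positivity)
  have hηβ : η * L ≤ β / 4 := by
    have : η ≤ β / (4 * L) := min_le_right _ _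
    calc η * L ≤ β / (4 * L) * L := mul_le_mul_of_nonneg_right this hL0.le
      _ = β / 4 := by field_simp
  have hη1 : η ≤ 1 := (min_le_left _ _).trans hη₁1
  set Q₀ := L * (m₀ + 2 * η) with hQ₀
  have hQ₀0 : 0 < Q₀ := by positivity
  set ε := β / (8 * Q₀) with hε
  have hε0 : 0 < ε := by positivity
  have hεQ : ε * Q₀ = β / 8 := by
    rw [hε]
    field_simp
  obtain ⟨r₀, hr₀, hgood⟩ := uniform_good hj hA hk he1 hη0
  obtain ⟨δ₁, hδ₁, hret⟩ := uniform_retr hι hU hιU hπ hε0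
  set δ := min (r₀ / 2) (min (δ₁ / (2 * L)) (η₀ / (2 * L))) with hδ
  have hδ0 : 0 < δ := lt_min (half_pos hr₀) (lt_min (by positivity) (by positivity))
  have hδr : δ < r₀ := lt_of_le_of_lt (min_le_left _ _) (half_lt_self hr₀)
  have hδL : δ * L ≤ δ₁ / 2 := by
    have h1 : δ ≤ δ₁ / (2 * L) := (min_le_right _ _).trans (min_le_left _ _)
    calc δ * L ≤ δ₁ / (2 * L) * L := mul_le_mul_of_nonneg_right h1 hL0.le
      _ = δ₁ / 2 := by field_simp
  have hδη : 2 * (δ * L) ≤ η₀ := by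
    have h1 : δ ≤ η₀ / (2 * L) := (min_le_right _ _).trans (min_le_right _ _)
    have h2 : δ * L ≤ η₀ / (2 * L) * L := mul_le_mul_of_nonneg_right h1 hL0.le
    have h3 : η₀ / (2 * L) * L = η₀ / 2 := by field_simp
    linarith
  refine ⟨δ, hδ0, fun r hr hrδ g hg => ?_⟩
  -- the extension
  have hjc : Continuous j := hj.smooth.continuous
  have hιc : Continuous ι := hι.smooth.continuous
  have hje : IsClosedEmbedding j := hjc.isClosedEmbedding hj.inj
  obtain ⟨f, hf⟩ := ContinuousMap.exists_extension' hje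
    (⟨fun x => ι (g x), hιc.comp g.continuous⟩ : C(M, E n))
  have hfj : ∀ x, f (j x) = ι (g x) := fun x => congrFun hf x
  have hC : IsCompact (range j) := isCompact_range hjc
  have hνC := nu_supp hj hA
  -- local consequences
  have hloc : ∀ x : M, ∃ s : ℝ, 0 < s ∧ s ≤ δ ∧
      (∀ y, ‖j y - j x‖ ≤ r → ‖ι (g y) - ι (g x)‖ ≤ s * L) ∧
      ∀ i p, ‖p‖ ≤ 1 → A i p = x → ∀ w : E 4, ‖fderiv ℝ (fun q => j (A i q)) p w‖ = 1 →
      0 < av (nu j A) k r (fun _ => (1:ℝ)) (j x) ∧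
      ‖sm (nu j A) k r f (j x) - f (j x)‖ ≤ s * L ∧
      (∀ (P : E n →L[ℝ] E n) (c : ℝ), 0 ≤ c →
        (∀ y, ‖j y - j x‖ ≤ r → ‖P (f (j y) - f (j x))‖ ≤ c) →
        ‖P (r • fderiv ℝ (sm (nu j A) k r f) (j x) (fderiv ℝ (fun q => j (A i q)) p w))‖ ≤
          c * (m₀ + 2 * η)) ∧
      s * (β - η * L) ≤
        ‖r • fderiv ℝ (sm (nu j A) k r f) (j x) (fderiv ℝ (fun q => j (A i q)) p w)‖ := by
    intro x
    obtain ⟨a, ha, har, hyz⟩ := hg x
    have hpair : ∀ y z : M, ‖j y - j x‖ ≤ r → ‖j z - j x‖ ≤ r →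
      (a * r) * (r⁻¹ * ‖j y - j z‖ - κ) ≤ ‖f (j y) - f (j z)‖ ∧
      ‖f (j y) - f (j z)‖ ≤ (a * r) * (lam * (r⁻¹ * ‖j y - j z‖) + κ) := by
      intro y z hy hz
      rw [hfj, hfj]
      obtain ⟨h1, h2⟩ := hyz y z hy hz
      have e1 : (a * r) * (r⁻¹ * ‖j y - j z‖ - κ) = a * (‖j y - j z‖ - κ * r) := by
        field_simp
      have e2 : (a * r) * (lam * (r⁻¹ * ‖j y - j z‖) + κ) = a * (lam * ‖j y - j z‖ + κ * r) := by
        field_simp
      rw [e1, e2]
      exact ⟨h1, h2⟩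
    refine ⟨a * r, mul_pos ha hr, har, ?_, ?_⟩
    · intro y hy
      have h1 := (hpair y x hy (by simpa using hr.le)).2
      rw [hfj, hfj] at h1
      refine h1.trans ?_
      apply mul_le_mul_of_nonneg_left _ (mul_pos ha hr).le
      have h2 : r⁻¹ * ‖j y - j x‖ ≤ 1 := by
        rw [inv_mul_le_iff₀ hr]
        linarith
      have h3 : lam * (r⁻¹ * ‖j y - j x‖) ≤ lam * 1 := mul_le_mul_of_nonneg_left h2 (by linarith)
      rw [hL]
      linarith
    · intro i p hp hpx w hw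
      have hgd := hgood r hr (lt_of_le_of_lt hrδ hδr) i p hp w hw
      rw [hpx] at hgd
      obtain ⟨c1, c2, c3, c4⟩ := main_loc hj hA hk f.continuous hr (mul_pos ha hr) hlam hκ.le hη0.le
        hη1 x _ hw hgd hpair
      exact ⟨c1, c2, c3, c4 β hβ.le (hTh η hη0.le (min_le_left _ _))⟩
  -- existence of unit vectors
  have hunit : ∀ i p, ∀ w : E 4, w ≠ 0 → ∃ t : ℝ, 0 < t ∧
      ‖fderiv ℝ (fun q => j (A i q)) p (t • w)‖ = 1 := by
    intro i p w hw
    have h1 : fderiv ℝ (fun q => j (A i q)) p w ≠ 0 := by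
      intro h
      exact hw (hj.fderiv_inj hA i p (by rw [h, map_zero]))
    have h2 := norm_pos_iff.2 h1
    refine ⟨‖fderiv ℝ (fun q => j (A i q)) p w‖⁻¹, inv_pos.2 h2, ?_⟩
    rw [map_smul, norm_smul, norm_inv, norm_norm, inv_mul_cancel₀ h2.ne']
  have hav : ∀ x, 0 < av (nu j A) k r (fun _ => (1:ℝ)) (j x) ∧
      ‖sm (nu j A) k r f (j x) - f (j x)‖ ≤ δ * L := by
    intro x
    obtain ⟨s, hs, hsδ, -, h1⟩ := hloc x
    obtain ⟨i, p, hp, hpx⟩ := hA.cov x
    have hne : (EuclideanSpace.single 0 1 : E 4) ≠ 0 := by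
      intro h
      have := congrArg norm h
      simp at this
    obtain ⟨t, ht, hw⟩ := hunit i p _ hne
    obtain ⟨c1, c2, -, -⟩ := h1 i p hp.le hpx _ hw
    exact ⟨c1, c2.trans (mul_le_mul_of_nonneg_right hsδ hL0.le)⟩
  have hH : ∀ x, ∀ᶠ v in 𝓝 (j x), ContDiffAt ℝ ∞ (sm (nu j A) k r f) v := by
    intro x
    have h1 : ContinuousAt (av (nu j A) k r (fun _ => (1:ℝ))) (j x) :=
      (av_contDiff hk hC hνC (continuous_const (y := (1:ℝ))) hr).continuous.continuousAt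
    filter_upwards [h1.eventually (lt_mem_nhds (hav x).1)] with v hv
    exact sm_contDiffAt hk hC hνC f.continuous hr hv
  have hmain := exists_diffeo hj hι hA hU hπ hπι hcl (δ₁ := δ₁) (fun z y hy => (hret z y hy).1) g
    (sm (nu j A) k r f) (c := δ * L) (by linarith) hH
    (fun x => by
      have := (hav x).2
      rwa [hfj] at this) ?_
  · obtain ⟨Φ, h1, h2⟩ := hmain
    exact ⟨Φ, h1, fun x => (h2 x).trans hδη⟩
  · intro i p hp w hw hzero
    obtain ⟨t, ht, hu⟩ := hunit i p w hw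
    set x := A i p with hx
    obtain ⟨s, hs, hsδ, hyx, h1⟩ := hloc x
    obtain ⟨-, hcl1, hP, hlow⟩ := h1 i p hp.le rfl _ hu
    set H := sm (nu j A) k r f with hHdef
    set v := fderiv ℝ (fun q => j (A i q)) p (t • w) with hv
    set X := r • fderiv ℝ H (j x) v with hX
    rw [hfj] at hcl1
    have hsL : s * L ≤ δ₁ / 2 := (mul_le_mul_of_nonneg_right hsδ hL0.le).trans hδL
    obtain ⟨hHU, hDclose⟩ := hret (g x) (H (j x)) (by linarith)
    -- the differential of the composite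
    have hder : fderiv ℝ (fun y => ι (π y)) (H (j x)) X = 0 := by
      have d1 : HasFDerivAt (fun q => j (A i q)) (fderiv ℝ (fun q => j (A i q)) p) p :=
        ((hj.contDiff hA i).differentiable (by simp) p).hasFDerivAt
      have d2 : HasFDerivAt H (fderiv ℝ H (j x)) (j (A i p)) :=
        ((hH x).self_of_nhds.differentiableAt (by simp)).hasFDerivAt
      have d3 : HasFDerivAt (fun y => ι (π y)) (fderiv ℝ (fun y => ι (π y)) (H (j x)))
          (H (j (A i p))) :=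
        ((Pi_contDiffAt hι hπ hHU).differentiableAt (by simp)).hasFDerivAt
      have d4 := (d3.comp (j (A i p)) d2).comp p d1
      have d5 : fderiv ℝ (fun q => ι (π (H (j (A i q))))) p = _ := d4.fderiv
      rw [d5] at hzero
      simp only [ContinuousLinearMap.comp_apply] at hzero
      rw [hX, hv, map_smul, map_smul, map_smul, map_smul, hzero, smul_zero, smul_zero]
    have hXup : ‖X‖ ≤ s * L * (m₀ + 2 * η) := by
      have := hP (ContinuousLinearMap.id ℝ _) (s * L) (by positivity) (fun y hy => by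
        rw [hfj, hfj]
        exact hyx y hy)
      exact this
    have hX2 : ‖X - fderiv ℝ (fun y => ι (π y)) (ι (g x)) X‖ ≤ ε * (s * L) * (m₀ + 2 * η) := by
      have := hP (ContinuousLinearMap.id ℝ _ - fderiv ℝ (fun y => ι (π y)) (ι (g x))) (ε * (s * L))
        (by positivity) (fun y hy => by
          rw [hfj, hfj]
          have h2 := hyx y hy
          have h3 := chord_retr hι hπ hπι hδ₁ (hret (g x)) (z' := g y) (by linarith)
          simp only [sub_apply, ContinuousLinearMap.id_apply]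
          exact h3.trans (mul_le_mul_of_nonneg_left h2 hε0.le))
      exact this
    have hX3 : ‖fderiv ℝ (fun y => ι (π y)) (ι (g x)) X‖ ≤ ε * (s * L * (m₀ + 2 * η)) := by
      have h2 : fderiv ℝ (fun y => ι (π y)) (ι (g x)) X =
          -((fderiv ℝ (fun y => ι (π y)) (H (j x)) - fderiv ℝ (fun y => ι (π y)) (ι (g x))) X) := by
        rw [sub_apply, hder, zero_sub, neg_neg]
      rw [h2, norm_neg]
      refine (ContinuousLinearMap.le_opNorm _ _).trans ?_
      exact mul_le_mul hDclose hXup (norm_nonneg _) hε0.le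
    have hX4 : ‖X‖ ≤ ‖X - fderiv ℝ (fun y => ι (π y)) (ι (g x)) X‖ +
        ‖fderiv ℝ (fun y => ι (π y)) (ι (g x)) X‖ := by
      have := norm_add_le (X - fderiv ℝ (fun y => ι (π y)) (ι (g x)) X)
        (fderiv ℝ (fun y => ι (π y)) (ι (g x)) X)
      rwa [sub_add_cancel] at this
    have hX5 : s * (β - η * L) ≤ 2 * s * (ε * Q₀) := by
      calc s * (β - η * L) ≤ ‖X‖ := hlow
        _ ≤ ε * (s * L) * (m₀ + 2 * η) + ε * (s * L * (m₀ + 2 * η)) := by linarith
        _ = 2 * s * (ε * Q₀) := by rw [hQ₀]; ring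
    rw [hεQ] at hX5
    have hX6 : s * (β - β / 4) ≤ s * (β - η * L) := mul_le_mul_of_nonneg_left (by linarith) hs.le
    have hX7 : 0 < s * β := mul_pos hs hβ
    nlinarith

end Pool.Agent.T2H18
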