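import Mathlib
import Pool.Agent.T2H18.Loc
import Pool.Agent.T2H18.Top

/-!
# The smoothed map: base points, affine approximation, coarse maps
-/

set_option autoImplicit false

open Set Filter Topology Metric Function MeasureTheory
open scoped ContDiff RealInnerProductSpace Manifold

noncomputable section

namespace Pool.Agent.T2H18

open Pool.Agent.Y522 (LD)

/-- polarised form of the second moment integral -/
theorem Ker.integral_two' {e : ℝ} {k : ℝ → ℝ} (hk : Ker e k) (w w' : E 4) :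
    ∫ z : E 4, -2 * deriv k (‖z‖ ^ 2) * ⟪z, w⟫ * ⟪z, w'⟫ = ⟪w, w'⟫ * ∫ z : E 4, k (‖z‖ ^ 2) := by
  have h1 := integral_mul_fderiv_eq_neg_fderiv_mul_of_integrable (μ := (volume : Measure (E 4)))
    (f := fun z : E 4 => ⟪w', z⟫) (g := fun z : E 4 => k (‖z‖ ^ 2)) (v := w)
  have hf : ∀ z : E 4, fderiv ℝ (fun z : E 4 => ⟪w', z⟫) z w = ⟪w, w'⟫ := by
    intro z
    have : fderiv ℝ (fun z : E 4 => ⟪w', z⟫) z = innerSL ℝ w' := (innerSL ℝ w').fderiv
    rw [this, real_inner_comm]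
    simp
  have hg : ∀ z : E 4, fderiv ℝ (fun z : E 4 => k (‖z‖ ^ 2)) z w = 2 * deriv k (‖z‖ ^ 2) * ⟪z, w⟫ := by
    intro z
    rw [(hk.hasFDerivAt z).fderiv]
    simp
  have hdc := hk.deriv_cont
  have hkc := hk.diff.continuous
  specialize h1 ?_ ?_ ?_ ?_ ?_
  · simp only [hf]
    apply hk.integrable (by fun_prop)
    intro z hz
    rw [hk.zero _ (one_le_sq hz)]
    simp
  · simp only [hg]
    apply hk.integrable (by fun_prop)
    intro z hz
    rw [hk.deriv_zero (one_le_sq hz)]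
    simp
  · apply hk.integrable (by fun_prop)
    intro z hz
    rw [hk.zero _ (one_le_sq hz)]
    simp
  · intro z _
    exact (innerSL ℝ w').differentiableAt
  · intro z _
    exact (hk.hasFDerivAt z).differentiableAt
  simp only [hf, hg] at h1
  rw [integral_const_mul, ← neg_eq_iff_eq_neg] at h1
  rw [← h1, ← integral_neg]
  congr 1
  funext z
  rw [real_inner_comm w' z]
  ring

variable {M : Type*} [TopologicalSpace M] [ChartedSpace (E 4) M]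
variable {e : ℝ} {k : ℝ → ℝ} {m n : ℕ} {j : M → E m} {K : ℕ} {A : Fin K → E 4 → M}

theorem Ker.test4 (hk : Ker e k) (b : E m) : Test (fun z w : E m => rho k z w * ⟪z, b⟫) := by
  refine ⟨hk.rho_cont.mul (by fun_prop), fun z w hz => ?_⟩
  rw [hk.rho_zero w hz, zero_mul]

/-- the additional good bound at scale `r` -/
def Good' (j : M → E m) (A : Fin K → E 4 → M) (k : ℝ → ℝ) (η r : ℝ) (v w : E m) : Prop :=
  ∀ l : Fin m, |Q j A (fun z w => rho k z w * ⟪z, EuclideanSpace.single l 1⟫) r v w -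
    w l * Q j A (fun z _ => k (‖z‖ ^ 2)) r v w| ≤ η * Q j A (fun z _ => k (‖z‖ ^ 2)) r v w

theorem eventually_good' [IsManifold (𝓡 4) ∞ M] (hj : Emb j) (hA : Atl A) (hk : Ker e k)
    (he1 : e < 1) {η : ℝ} (hη : 0 < η) (x₀ : M) (w₀ : E m) (hwt : w₀ ∈ tang j x₀) :
    ∀ᶠ x : ℝ × M × E m in 𝓝[>] 0 ×ˢ (𝓝 x₀ ×ˢ 𝓝 w₀), Good' j A k η x.1 (j x.2.1) x.2.2 := by
  obtain ⟨L, D, hD, hL, hlim⟩ := tendsto_Q hj hA x₀
  obtain ⟨y, rfl⟩ := (hL w₀).1 hwt
  set I0 : ℝ := ∫ z : E 4, k (‖z‖ ^ 2) with hI0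
  have hI0' := hk.integral_k_ge he1.le
  have hpi := Real.pi_pos
  have h1e : 0 < 1 - e := by linarith
  have hI0pos : 0 < I0 := lt_of_lt_of_le (by positivity) hI0'
  have t0 := hlim _ hk.test0 (L y)
  simp only [L.norm_map] at t0
  rw [← hI0] at t0
  have er : ∀ᶠ x : ℝ × M × E m in 𝓝[>] 0 ×ˢ (𝓝 x₀ ×ˢ 𝓝 (L y)), 0 < x.1 :=
    tendsto_fst.eventually eventually_mem_nhdsWithin
  have main : ∀ l : Fin m, ∀ᶠ x : ℝ × M × E m in 𝓝[>] 0 ×ˢ (𝓝 x₀ ×ˢ 𝓝 (L y)),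
      |Q j A (fun z w => rho k z w * ⟪z, EuclideanSpace.single l 1⟫) x.1 (j x.2.1) x.2.2 -
    x.2.2 l * Q j A (fun z _ => k (‖z‖ ^ 2)) x.1 (j x.2.1) x.2.2| ≤
      η * Q j A (fun z _ => k (‖z‖ ^ 2)) x.1 (j x.2.1) x.2.2 := by
    intro l
    have t1 := hlim _ (hk.test4 (EuclideanSpace.single l 1)) (L y)
    have e1 : ∫ z : E 4, rho k (L z) (L y) * ⟪L z, EuclideanSpace.single l 1⟫ = (L y) l * I0 := by
      have e2 : ∀ z : E 4, ⟪L z, (EuclideanSpace.single l 1 : E m)⟫ =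
          ⟪z, L.toContinuousLinearMap.adjoint (EuclideanSpace.single l 1)⟫ := by
        intro z
        rw [ContinuousLinearMap.adjoint_inner_right]
        rfl
      have e3 : (L y) l = ⟪y, L.toContinuousLinearMap.adjoint (EuclideanSpace.single l 1)⟫ := by
        rw [← e2, EuclideanSpace.inner_single_right]
        simp
      rw [e3, hI0, ← hk.integral_two']
      congr 1
      funext z
      simp only [rho, L.norm_map, L.inner_map_map, e2]
    rw [e1] at t1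
    have tw : Tendsto (fun x : ℝ × M × E m => x.2.2 l) (𝓝[>] 0 ×ˢ (𝓝 x₀ ×ˢ 𝓝 (L y)))
        (𝓝 ((L y) l)) := by
      have h1 : Continuous (fun w : E m => w l) := by fun_prop
      exact (h1.tendsto (L y)).comp (tendsto_snd.comp tendsto_snd)
    have c1 : ∀ᶠ x : ℝ × M × E m in 𝓝[>] 0 ×ˢ (𝓝 x₀ ×ˢ 𝓝 (L y)), _ < _ :=
      ((t1.sub (tw.mul t0)).abs.sub (t0.const_mul η)).eventually
        (gt_mem_nhds (show |D * ((L y) l * I0) - (L y) l * (D * I0)| - η * (D * I0) < 0 by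
          have h2 : D * ((L y) l * I0) - (L y) l * (D * I0) = 0 := by ring
          rw [h2, abs_zero]
          have : 0 < η * (D * I0) := by positivity
          linarith))
    filter_upwards [er, c1] with x hr h1
    have hr4 : 0 < x.1⁻¹ ^ 4 := by positivity
    have key : ∀ a b : ℝ, x.1⁻¹ ^ 4 * a ≤ x.1⁻¹ ^ 4 * b → a ≤ b := fun a b h =>
      le_of_mul_le_mul_left h hr4
    apply key
    have h2 : ∀ a b c : ℝ, |x.1⁻¹ ^ 4 * a - c * (x.1⁻¹ ^ 4 * b)| = x.1⁻¹ ^ 4 * |a - c * b| := by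
      intro a b c
      have : x.1⁻¹ ^ 4 * a - c * (x.1⁻¹ ^ 4 * b) = x.1⁻¹ ^ 4 * (a - c * b) := by ring
      rw [this, abs_mul, abs_of_pos hr4]
    rw [h2] at h1
    linarith
  exact eventually_all.2 main

theorem uniform_good' [IsManifold (𝓡 4) ∞ M] (hj : Emb j) (hA : Atl A) (hk : Ker e k)
    (he1 : e < 1) {η : ℝ} (hη : 0 < η) :
    ∃ r₀ : ℝ, 0 < r₀ ∧ ∀ r, 0 < r → r < r₀ → ∀ i : Fin K, ∀ p : E 4, ‖p‖ ≤ 1 → ∀ w : E 4,
      ‖fderiv ℝ (fun q => j (A i q)) p w‖ = 1 →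
      Good' j A k η r (j (A i p)) (fderiv ℝ (fun q => j (A i q)) p w) := by
  have h1 : ∀ i : Fin K, ∀ᶠ r : ℝ in 𝓝[>] 0, ∀ y ∈ closedBall (0 : E 4) 1 ×ˢ sphere (0 : E 4) 1,
      Good' j A k η r (j (A i y.1))
        (‖fderiv ℝ (fun q => j (A i q)) y.1 y.2‖⁻¹ • fderiv ℝ (fun q => j (A i q)) y.1 y.2) := by
    intro i
    have hK : IsCompact (closedBall (0 : E 4) 1 ×ˢ sphere (0 : E 4) 1) :=
      (isCompact_closedBall _ _).prod (isCompact_sphere _ _)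
    have h2 : ∀ y ∈ closedBall (0 : E 4) 1 ×ˢ sphere (0 : E 4) 1,
        ∀ᶠ x : ℝ × (E 4 × E 4) in 𝓝[>] 0 ×ˢ 𝓝 y,
        Good' j A k η x.1 (j (A i x.2.1))
        (‖fderiv ℝ (fun q => j (A i q)) x.2.1 x.2.2‖⁻¹ •
          fderiv ℝ (fun q => j (A i q)) x.2.1 x.2.2) := by
      rintro ⟨p₀, w₀⟩ ⟨hp, hw⟩
      simp only [mem_sphere_iff_norm, sub_zero] at hw
      set J := fderiv ℝ (fun q => j (A i q)) p₀ with hJ
      have hJ0 : J w₀ ≠ 0 := by
        intro h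
        have h3 : w₀ = 0 := hj.fderiv_inj hA i p₀ (by rw [← hJ, h, map_zero])
        rw [h3, norm_zero] at hw
        exact zero_ne_one hw
      have hJn : 0 < ‖J w₀‖ := norm_pos_iff.2 hJ0
      have h4 := eventually_good' hj hA hk he1 hη (A i p₀) (‖J w₀‖⁻¹ • J w₀)
        (Submodule.smul_mem _ _ (hj.fderiv_mem hA i p₀ w₀))
      have hcf : Continuous (fun x : E 4 × E 4 => fderiv ℝ (fun q => j (A i q)) x.1 x.2) :=
        ((hj.contDiff hA i).continuous_fderiv (by simp)).comp continuous_fst |>.clm_apply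
          continuous_snd
      have h5 : Tendsto (fun x : ℝ × (E 4 × E 4) => (x.1, (A i x.2.1,
          ‖fderiv ℝ (fun q => j (A i q)) x.2.1 x.2.2‖⁻¹ •
          fderiv ℝ (fun q => j (A i q)) x.2.1 x.2.2))) (𝓝[>] 0 ×ˢ 𝓝 (p₀, w₀))
          (𝓝[>] 0 ×ˢ (𝓝 (A i p₀) ×ˢ 𝓝 (‖J w₀‖⁻¹ • J w₀))) := by
        apply Tendsto.prodMk tendsto_fst
        apply Tendsto.prodMk
        · have h6 : ContinuousAt (A i) p₀ := (hA.ld i p₀).continuousAt
          have h7 : Tendsto (fun x : ℝ × (E 4 × E 4) => x.2.1) (𝓝[>] 0 ×ˢ 𝓝 (p₀, w₀)) (𝓝 p₀) :=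
            (continuous_fst.tendsto (p₀, w₀)).comp tendsto_snd
          exact h6.tendsto.comp h7
        · have h9 : Tendsto (fun x : ℝ × (E 4 × E 4) => fderiv ℝ (fun q => j (A i q)) x.2.1 x.2.2)
              (𝓝[>] 0 ×ˢ 𝓝 (p₀, w₀)) (𝓝 (J w₀)) :=
            (hcf.tendsto (p₀, w₀)).comp tendsto_snd
          have h10 : Tendsto (fun x : ℝ × (E 4 × E 4) =>
              ‖fderiv ℝ (fun q => j (A i q)) x.2.1 x.2.2‖⁻¹)
              (𝓝[>] 0 ×ˢ 𝓝 (p₀, w₀)) (𝓝 (‖J w₀‖⁻¹)) := h9.norm.inv₀ hJn.ne'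
          exact Filter.Tendsto.smul h10 h9
      exact h5.eventually h4
    exact (Eventually.curry (hK.mem_prod_nhdsSet_of_forall h2)).mono
      fun r hr => hr.self_of_nhdsSet
  have h3 : ∀ᶠ r : ℝ in 𝓝[>] 0, ∀ i : Fin K, ∀ y ∈ closedBall (0 : E 4) 1 ×ˢ sphere (0 : E 4) 1,
      Good' j A k η r (j (A i y.1))
        (‖fderiv ℝ (fun q => j (A i q)) y.1 y.2‖⁻¹ • fderiv ℝ (fun q => j (A i q)) y.1 y.2) :=
    eventually_all.2 h1
  obtain ⟨r₀, hr₀, h4⟩ := (nhdsGT_basis (0:ℝ)).eventually_iff.1 h3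
  refine ⟨r₀, hr₀, fun r hr hr' i p hp w hw => ?_⟩
  have hw0 : w ≠ 0 := by
    rintro rfl
    rw [map_zero, norm_zero] at hw
    exact zero_ne_one hw
  have hwn : 0 < ‖w‖ := norm_pos_iff.2 hw0
  have h5 := h4 ⟨hr, hr'⟩ i (p, ‖w‖⁻¹ • w) ⟨by simpa using hp, by
    simp only [mem_sphere_iff_norm, sub_zero]
    rw [norm_smul, norm_inv, norm_norm, inv_mul_cancel₀ hwn.ne']⟩
  simp only [map_smul, norm_smul, norm_inv, norm_norm, hw, mul_one, inv_inv, smul_smul,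
    mul_inv_cancel₀ hwn.ne', one_smul] at h5
  exact h5

end Pool.Agent.T2H18
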