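import Mathlib
import Pool.Agent.T2H18.Loc2

/-!
# The differential of the smoothed map: base points and affine approximation
-/

set_option autoImplicit false

open Set Filter Topology Metric Function MeasureTheory
open scoped ContDiff RealInnerProductSpace Manifold

noncomputable section

namespace Pool.Agent.T2H18

open Pool.Agent.Y522 (LD)

variable {M : Type*} [TopologicalSpace M] [ChartedSpace (E 4) M]
variable {e : ℝ} {k : ℝ → ℝ} {m n : ℕ} {j : M → E m} {K : ℕ} {A : Fin K → E 4 → M}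

theorem sm_fderiv_base (hk : Ker e k) {ν : Measure (E m)} [IsFiniteMeasure ν]
    {C : Set (E m)} (hC : IsCompact C) (hνC : ∀ᵐ t ∂ν, t ∈ C) {f : E m → E n} (hf : Continuous f)
    {r : ℝ} (hr : 0 < r) {v : E m} (hS : 0 < av ν k r (fun _ => (1 : ℝ)) v) (w : E m) (b : E n) :
    (sm ν k r f v - b = (av ν k r (fun _ => (1 : ℝ)) v)⁻¹ •
      ∫ t, k (‖r⁻¹ • (t - v)‖ ^ 2) • (f t - b) ∂ν) ∧
    r • fderiv ℝ (sm ν k r f) v w = (av ν k r (fun _ => (1 : ℝ)) v)⁻¹ •
      (∫ t, rho k (r⁻¹ • (t - v)) w • (f t - b) ∂ν - (∫ t, rho k (r⁻¹ • (t - v)) w ∂ν) •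
        (av ν k r (fun _ => (1 : ℝ)) v)⁻¹ • ∫ t, k (‖r⁻¹ • (t - v)‖ ^ 2) • (f t - b) ∂ν) := by
  have hkc := hk.diff.continuous
  have hrc : Continuous (fun t : E m => rho k (r⁻¹ • (t - v)) w) := hk.rho_cont' r v w
  set S := av ν k r (fun _ => (1 : ℝ)) v with hSdef
  set R := ∫ t, rho k (r⁻¹ • (t - v)) w ∂ν with hR
  have hSeq : S = ∫ t, k (‖r⁻¹ • (t - v)‖ ^ 2) ∂ν := by
    rw [hSdef]
    simp [av]
  have hV : av ν k r f v = (∫ t, k (‖r⁻¹ • (t - v)‖ ^ 2) • (f t - b) ∂ν) + S • b := by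
    rw [hSeq, ← integral_smul_const, ← integral_add]
    · simp only [av]
      congr 1
      funext t
      rw [← smul_add, sub_add_cancel]
    · exact int_cont hC hνC (by fun_prop)
    · exact int_cont hC hνC (by fun_prop)
  have hW : ∫ t, rho k (r⁻¹ • (t - v)) w • f t ∂ν =
      (∫ t, rho k (r⁻¹ • (t - v)) w • (f t - b) ∂ν) + R • b := by
    rw [hR, ← integral_smul_const, ← integral_add]
    · congr 1
      funext t
      rw [← smul_add, sub_add_cancel]
    · exact int_cont hC hνC (by fun_prop)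
    · exact int_cont hC hνC (by fun_prop)
  constructor
  · unfold sm
    rw [hV, ← hSdef, smul_add, smul_smul, inv_mul_cancel₀ hS.ne', one_smul, add_sub_cancel_right]
  · have d1 : HasFDerivAt (av ν k r (fun _ => (1:ℝ))) (fderiv ℝ (av ν k r (fun _ => (1:ℝ))) v) v :=
      ((av_contDiff hk hC hνC (continuous_const (y := (1:ℝ))) hr).differentiable (by simp) v).hasFDerivAt
    have d2 : HasFDerivAt (av ν k r f) (fderiv ℝ (av ν k r f) v) v :=
      ((av_contDiff hk hC hνC hf hr).differentiable (by simp) v).hasFDerivAt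
    have d3 := ((hasDerivAt_inv hS.ne').comp_hasFDerivAt v d1).smul d2
    have d4 : fderiv ℝ (sm ν k r f) v = _ := d3.fderiv
    rw [d4]
    have a1 := av_fderiv hk hC hνC (continuous_const (y := (1:ℝ))) hr v w
    have a2 := av_fderiv hk hC hνC hf hr v w
    simp only [smul_eq_mul, mul_one] at a1
    rw [← hR] at a1
    rw [hW] at a2
    simp only [add_apply, smul_apply, ContinuousLinearMap.smulRight_apply, Function.comp_apply,
      ← hSdef, smul_eq_mul]
    rw [smul_add, smul_comm r S⁻¹, a2, smul_smul r, hV]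
    have e1 : r * (-(S ^ 2)⁻¹ * fderiv ℝ (av ν k r (fun _ => (1:ℝ))) v w) = -(S ^ 2)⁻¹ * R := by
      rw [← a1]
      ring
    rw [e1]
    simp only [smul_add, smul_sub, smul_smul, neg_mul, neg_smul]
    have e2 : (S ^ 2)⁻¹ * R * S = S⁻¹ * R := by field_simp
    have e3 : S⁻¹ * (R * S⁻¹) = (S ^ 2)⁻¹ * R := by field_simp
    rw [e2, e3]
    abel

theorem norm_le_of_coord {v : E m} {c : ℝ} (h : ∀ l, |v l| ≤ c) : ‖v‖ ≤ m * c := by
  have h1 := (EuclideanSpace.basisFun (Fin m) ℝ).sum_repr v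
  calc ‖v‖ = ‖∑ l, (EuclideanSpace.basisFun (Fin m) ℝ).repr v l •
        EuclideanSpace.basisFun (Fin m) ℝ l‖ := by rw [h1]
    _ ≤ ∑ l, ‖(EuclideanSpace.basisFun (Fin m) ℝ).repr v l •
        EuclideanSpace.basisFun (Fin m) ℝ l‖ := norm_sum_le _ _
    _ ≤ ∑ _l : Fin m, c := by
        apply Finset.sum_le_sum
        intro l _
        rw [norm_smul]
        simpa using h l
    _ = m * c := by simp

theorem loc_gen [CompactSpace M] (hj : Emb j) (hA : Atl A) (hk : Ker e k) {f : E m → E n}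
    (hf : Continuous f) {r m₀ η : ℝ} (hr : 0 < r)
    (hη0 : 0 ≤ η) (x : M) (w : E m)
    (hgood : Good j A k m₀ η r (j x) w) (b : E n) :
    0 < av (nu j A) k r (fun _ => (1:ℝ)) (j x) ∧
    (∀ (P : E n →L[ℝ] E n) (c : ℝ), 0 ≤ c →
      (∀ y, ‖j y - j x‖ ≤ r → ‖P (f (j y) - b)‖ ≤ c) →
      ‖P (sm (nu j A) k r f (j x) - b)‖ ≤ c ∧
      ‖P (r • fderiv ℝ (sm (nu j A) k r f) (j x) w)‖ ≤ c * (m₀ + 2 * η)) ∧
    ∀ (s C ε : ℝ), 0 < s → 0 ≤ C → 0 ≤ ε →
      ∀ T : E m →L[ℝ] E n, ‖T‖ ≤ C * s → s ≤ ‖T w‖ → ‖w‖ = 1 →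
      Good' j A k (η / (m + 1)) r (j x) w →
      (∀ y, ‖j y - j x‖ ≤ r → ‖f (j y) - b - T (r⁻¹ • (j y - j x))‖ ≤ ε * s) →
      s * (1 - C * η - ε * (m₀ + η) - η * (C + ε)) ≤
        ‖r • fderiv ℝ (sm (nu j A) k r f) (j x) w‖ := by
  have hC : IsCompact (range j) := isCompact_range hj.smooth.continuous
  have hνC := nu_supp hj hA
  set ν := nu j A with hν
  set v := j x with hv
  set B : Set (E m) := closedBall v r with hB
  have hBm : MeasurableSet B := measurableSet_closedBall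
  have hkc := hk.diff.continuous
  have hrc : Continuous (fun t : E m => rho k (r⁻¹ • (t - v)) w) := hk.rho_cont' r v w
  have hbig : ∀ t, t ∉ B → 1 ≤ ‖r⁻¹ • (t - v)‖ := by
    intro t ht
    rw [hB, mem_closedBall, not_le, dist_eq_norm] at ht
    rw [norm_smul, norm_inv, Real.norm_eq_abs, abs_of_pos hr, ← div_eq_inv_mul, le_div_iff₀ hr]
    linarith
  have hsmall : ∀ t, t ∈ B → ‖r⁻¹ • (t - v)‖ ≤ 1 := by
    intro t ht
    rw [hB, mem_closedBall, dist_eq_norm] at ht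
    rw [norm_smul, norm_inv, Real.norm_eq_abs, abs_of_pos hr, ← div_eq_inv_mul, div_le_iff₀ hr]
    linarith
  have hr0 : ∀ t, t ∉ B → rho k (r⁻¹ • (t - v)) w = 0 := fun t ht => hk.rho_zero w (hbig t ht)
  have hk0 : ∀ t, t ∉ B → k (‖r⁻¹ • (t - v)‖ ^ 2) = 0 := fun t ht => hk.zero _ (one_le_sq (hbig t ht))
  -- restricted integrals
  have res : ∀ {F : Type} [NormedAddCommGroup F] [NormedSpace ℝ F] (g : E m → F),
      (∀ t, t ∉ B → g t = 0) → ∫ t, g t ∂(ν.restrict B) = ∫ t, g t ∂ν := fun g hg =>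
    setIntegral_eq_integral_of_forall_compl_eq_zero hg
  obtain ⟨g0, g1, g2, -⟩ := hgood
  rw [Q_eq hj hA hk.test0, ← hν] at g0 g1 g2
  rw [Q_eq hj hA hk.test2, ← hν] at g1
  rw [Q_eq hj hA hk.test1, ← hν] at g2
  set S := ∫ t, k (‖r⁻¹ • (t - v)‖ ^ 2) ∂ν with hS
  have hSav : av ν k r (fun _ => (1:ℝ)) v = S := by simp [av, hS]
  have hG : ∀ᵐ t ∂(ν.restrict B), t ∈ range j ∩ B :=
    (ae_restrict_of_ae hνC).and (ae_restrict_mem hBm)
  set ν' := ν.restrict B with hν'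
  have hνC' : ∀ᵐ t ∂ν', t ∈ range j := ae_restrict_of_ae hνC
  have ic : ∀ {F : Type} [NormedAddCommGroup F] {g : E m → F}, Continuous g → Integrable g ν' :=
    fun hg => int_cont hC hνC' hg
  obtain ⟨f1, f2⟩ := sm_fderiv_base hk hC hνC hf hr (v := v) (by rw [hSav]; exact g0) w b
  rw [hSav] at f1 f2
  rw [← res (fun t => k (‖r⁻¹ • (t - v)‖ ^ 2) • (f t - b))
    (fun t ht => by rw [hk0 t ht, zero_smul])] at f1 f2
  rw [← res (fun t => rho k (r⁻¹ • (t - v)) w • (f t - b))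
    (fun t ht => by rw [hr0 t ht, zero_smul]),
    ← res (fun t => rho k (r⁻¹ • (t - v)) w) hr0] at f2
  rw [← res (fun t => |rho k (r⁻¹ • (t - v)) w|)
    (fun t ht => by rw [hr0 t ht, abs_zero])] at g1
  rw [← res (fun t => rho k (r⁻¹ • (t - v)) w) hr0] at g2
  have hSr : ∫ t, k (‖r⁻¹ • (t - v)‖ ^ 2) ∂ν' = S := res _ hk0
  have cA := fun (P : E n →L[ℝ] E n) (c : ℝ) (hc : 0 ≤ c)
      (hP : ∀ t ∈ range j ∩ B, ‖P (f t - b)‖ ≤ c) =>
    core_a ν' (m₀ := m₀) g0 hη0 (fun t => rho k (r⁻¹ • (t - v)) w)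
      (fun t => k (‖r⁻¹ • (t - v)‖ ^ 2)) (fun t => f t - b) (range j ∩ B) hG
      (fun t => hk.nonneg _) (ic (by fun_prop)) hSr (ic hrc) g1 g2 (ic (by fun_prop))
      (ic (by fun_prop)) P hc hP
  have hX : ∀ P : E n →L[ℝ] E n, ‖P (r • fderiv ℝ (sm ν k r f) v w)‖ = S⁻¹ *
      ‖P (∫ t, rho k (r⁻¹ • (t - v)) w • (f t - b) ∂ν' - (∫ t, rho k (r⁻¹ • (t - v)) w ∂ν') •
        S⁻¹ • ∫ t, k (‖r⁻¹ • (t - v)‖ ^ 2) • (f t - b) ∂ν')‖ := by
    intro P
    rw [f2, map_smul, norm_smul, norm_inv, Real.norm_eq_abs, abs_of_pos g0]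
  refine ⟨by rw [hSav]; exact g0, ?_, ?_⟩
  · intro P c hc hP
    have hP' : ∀ t ∈ range j ∩ B, ‖P (f t - b)‖ ≤ c := by
      rintro _ ⟨⟨y, rfl⟩, hy⟩
      rw [hB, mem_closedBall, dist_eq_norm] at hy
      exact hP y hy
    obtain ⟨c1, c2⟩ := cA P c hc hP'
    refine ⟨?_, ?_⟩
    · rw [f1]
      exact c1
    · rw [hX, inv_mul_le_iff₀ g0]
      calc _ ≤ c * (m₀ + 2 * η) * S := c2
        _ = _ := by ring
  · intro s C ε hs hCc hε T hT hTw hw hgood' hyp
    have hyp' : ∀ t ∈ range j ∩ B, ‖f t - b - T (r⁻¹ • (t - v))‖ ≤ ε * s := by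
      rintro _ ⟨⟨y, rfl⟩, hy⟩
      rw [hB, mem_closedBall, dist_eq_norm] at hy
      exact hyp y hy
    have hup : ∀ t ∈ range j ∩ B, ‖f t - b‖ ≤ s * (C + ε) := by
      intro t ht
      have h1 : f t - b = (f t - b - T (r⁻¹ • (t - v))) + T (r⁻¹ • (t - v)) := by abel
      rw [h1]
      refine (norm_add_le _ _).trans ?_
      have h2 : ‖T (r⁻¹ • (t - v))‖ ≤ C * s * 1 :=
        (T.le_opNorm _).trans (mul_le_mul hT (hsmall t ht.2) (norm_nonneg _) (by positivity))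
      have h3 := hyp' t ht
      linarith
    have hX' := hX (ContinuousLinearMap.id ℝ _)
    simp only [ContinuousLinearMap.id_apply] at hX'
    rw [hX', le_inv_mul_iff₀ g0]
    have h4 := (cA (ContinuousLinearMap.id ℝ _) (s * (C + ε)) (by positivity)
      (fun t ht => hup t ht)).1
    simp only [ContinuousLinearMap.id_apply] at h4
    have h5 : ‖(∫ t, rho k (r⁻¹ • (t - v)) w ∂ν') •
        S⁻¹ • ∫ t, k (‖r⁻¹ • (t - v)‖ ^ 2) • (f t - b) ∂ν'‖ ≤ (η * S) * (s * (C + ε)) := by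
      rw [norm_smul, Real.norm_eq_abs]
      exact mul_le_mul g2 h4 (norm_nonneg _) (by positivity)
    -- the first moment
    have i1 : Integrable (fun t => rho k (r⁻¹ • (t - v)) w • (r⁻¹ • (t - v))) ν' :=
      ic (by fun_prop)
    have hmom : ‖(∫ t, rho k (r⁻¹ • (t - v)) w • (r⁻¹ • (t - v)) ∂ν') - S • w‖ ≤ η * S := by
      have h6 : ∀ l, |((∫ t, rho k (r⁻¹ • (t - v)) w • (r⁻¹ • (t - v)) ∂ν') - S • w) l| ≤
          η / (m + 1) * S := by
        intro l
        have h7 := hgood' l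
        rw [Q_eq hj hA hk.test0, Q_eq hj hA (hk.test4 _), ← hν] at h7
        have h8 : ((∫ t, rho k (r⁻¹ • (t - v)) w • (r⁻¹ • (t - v)) ∂ν') - S • w) l =
            ∫ t, rho k (r⁻¹ • (t - v)) w * ⟪r⁻¹ • (t - v), EuclideanSpace.single l 1⟫ ∂ν -
              w l * S := by
          rw [← res (fun t => rho k (r⁻¹ • (t - v)) w * ⟪r⁻¹ • (t - v), EuclideanSpace.single l 1⟫)
            (fun t ht => by rw [hr0 t ht, zero_mul])]
          have h10 : ∀ u : E m, ⟪u, (EuclideanSpace.single l (1:ℝ) : E m)⟫ = u l := by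
            intro u
            rw [EuclideanSpace.inner_single_right]
            simp
          have h9 : ∫ t, rho k (r⁻¹ • (t - v)) w * ⟪r⁻¹ • (t - v), EuclideanSpace.single l 1⟫ ∂ν' =
              (∫ t, rho k (r⁻¹ • (t - v)) w • (r⁻¹ • (t - v)) ∂ν') l := by
            rw [← h10, ← (HI.inner' i1 (EuclideanSpace.single l (1:ℝ))).eq]
            congr 1
            funext t
            rw [real_inner_smul_left (r⁻¹ • (t - v))]
          rw [PiLp.sub_apply, PiLp.smul_apply, h9, smul_eq_mul, mul_comm S]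
        rw [h8]
        exact h7
      refine (norm_le_of_coord h6).trans ?_
      have h11 : (m : ℝ) * (η / (m + 1) * S) = (m / (m + 1)) * (η * S) := by ring
      rw [h11]
      have h12 : (m : ℝ) / (m + 1) ≤ 1 := by
        rw [div_le_one (by positivity)]
        linarith
      have h13 : 0 ≤ η * S := by positivity
      nlinarith
    have i2 : Integrable (fun t => rho k (r⁻¹ • (t - v)) w • (f t - b - T (r⁻¹ • (t - v)))) ν' :=
      ic (by fun_prop)
    have hsplit : ∫ t, rho k (r⁻¹ • (t - v)) w • (f t - b) ∂ν' =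
        T (S • w) + T ((∫ t, rho k (r⁻¹ • (t - v)) w • (r⁻¹ • (t - v)) ∂ν') - S • w) +
        ∫ t, rho k (r⁻¹ • (t - v)) w • (f t - b - T (r⁻¹ • (t - v))) ∂ν' := by
      rw [← map_add, add_sub_cancel, ← ContinuousLinearMap.integral_comp_comm _ i1,
        ← integral_add (T.integrable_comp i1) i2]
      congr 1
      funext t
      rw [map_smul, ← smul_add, add_sub_cancel]
    have h14 : ‖∫ t, rho k (r⁻¹ • (t - v)) w • (f t - b - T (r⁻¹ • (t - v))) ∂ν'‖ ≤
        (m₀ + η) * S * (ε * s) := by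
      have h15 : ‖∫ t, rho k (r⁻¹ • (t - v)) w • (f t - b - T (r⁻¹ • (t - v))) ∂ν'‖ ≤
          ∫ t, |rho k (r⁻¹ • (t - v)) w| * (ε * s) ∂ν' := by
        apply norm_integral_le_of_norm_le ((ic hrc).abs.mul_const _)
        filter_upwards [hG] with t ht
        rw [norm_smul, Real.norm_eq_abs]
        exact mul_le_mul_of_nonneg_left (hyp' t ht) (abs_nonneg _)
      rw [integral_mul_const] at h15
      exact h15.trans (mul_le_mul_of_nonneg_right g1 (by positivity))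
    have h16 : S * s ≤ ‖T (S • w)‖ := by
      rw [map_smul, norm_smul, Real.norm_eq_abs, abs_of_pos g0]
      exact mul_le_mul_of_nonneg_left hTw g0.le
    have h17 : ‖T ((∫ t, rho k (r⁻¹ • (t - v)) w • (r⁻¹ • (t - v)) ∂ν') - S • w)‖ ≤
        C * s * (η * S) :=
      (T.le_opNorm _).trans (mul_le_mul hT hmom (norm_nonneg _) (by positivity))
    have h18 : S * s - C * s * (η * S) - (m₀ + η) * S * (ε * s) ≤
        ‖∫ t, rho k (r⁻¹ • (t - v)) w • (f t - b) ∂ν'‖ := by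
      rw [hsplit]
      have h19 := norm_sub_norm_le (T (S • w))
        (-(T ((∫ t, rho k (r⁻¹ • (t - v)) w • (r⁻¹ • (t - v)) ∂ν') - S • w) +
        ∫ t, rho k (r⁻¹ • (t - v)) w • (f t - b - T (r⁻¹ • (t - v))) ∂ν'))
      rw [sub_neg_eq_add, norm_neg, ← add_assoc] at h19
      have h20 := norm_add_le (T ((∫ t, rho k (r⁻¹ • (t - v)) w • (r⁻¹ • (t - v)) ∂ν') - S • w))
        (∫ t, rho k (r⁻¹ • (t - v)) w • (f t - b - T (r⁻¹ • (t - v))) ∂ν')
      linarith
    have h6 := norm_sub_norm_le (∫ t, rho k (r⁻¹ • (t - v)) w • (f t - b) ∂ν')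
      ((∫ t, rho k (r⁻¹ • (t - v)) w ∂ν') •
        S⁻¹ • ∫ t, k (‖r⁻¹ • (t - v)‖ ^ 2) • (f t - b) ∂ν')
    calc S * (s * (1 - C * η - ε * (m₀ + η) - η * (C + ε))) =
        (S * s - C * s * (η * S) - (m₀ + η) * S * (ε * s)) - (η * S) * (s * (C + ε)) := by ring
      _ ≤ _ := by linarith

end Pool.Agent.T2H18
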