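import Mathlib
import Pool.Agent.T2H18.Fin
import Pool.Agent.T2H18.Loc3

/-!
# A general criterion, for possibly discontinuous maps
-/

set_option autoImplicit false

open Set Filter Topology Metric Function MeasureTheory
open scoped ContDiff RealInnerProductSpace Manifold

noncomputable section

namespace Pool.Agent.T2H18

open Pool.Agent.Y522 (LD)

variable {M : Type*} [TopologicalSpace M] [T2Space M] [CompactSpace M] [ConnectedSpace M]
  [ChartedSpace (E 4) M] [IsManifold (𝓡 4) ∞ M]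
variable {N : Type*} [TopologicalSpace N] [T2Space N] [CompactSpace N] [SimplyConnectedSpace N]
  [ChartedSpace (E 4) N] [IsManifold (𝓡 4) ∞ N]

omit [CompactSpace N] in
/-- from a smooth ambient approximation to a diffeomorphism -/
theorem exists_diffeo' {m n : ℕ} {j : M → E m} {ι : N → E n} (hj : Emb j) (hι : Emb ι)
    {K : ℕ} {A : Fin K → E 4 → M} (hA : Atl A)
    {π : E n → N} {U : Set (E n)} (hU : IsOpen U)
    (hπ : ∀ y ∈ U, ContMDiffAt 𝓘(ℝ, E n) (𝓡 4) ∞ π y) (hπι : ∀ z, π (ι z) = z)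
    (hcl : ∀ z y, ‖ι (π y) - ι z‖ ≤ 2 * ‖y - ι z‖)
    {δ₁ : ℝ} (hUδ : ∀ z y, ‖y - ι z‖ < δ₁ → y ∈ U)
    (g : M → N) (H : E m → E n) {c : ℝ} (hc : c < δ₁)
    (hH : ∀ x, ∀ᶠ v in 𝓝 (j x), ContDiffAt ℝ ∞ H v)
    (hclose : ∀ x, ‖H (j x) - ι (g x)‖ ≤ c)
    (hinj : ∀ i p, ‖p‖ < 1 → ∀ w, w ≠ 0 →
      fderiv ℝ (fun q => ι (π (H (j (A i q))))) p w ≠ 0) :
    ∃ Φ : Diffeomorph (𝓡 4) (𝓡 4) M N ∞,
      (∀ hg : Continuous g, ContinuousMap.Homotopic ⟨g, hg⟩ ⟨Φ, Φ.continuous⟩) ∧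
      ∀ x, ‖ι (Φ x) - ι (g x)‖ ≤ 2 * c := by
  have hjc : Continuous j := hj.smooth.continuous
  have hιc : Continuous ι := hι.smooth.continuous
  set G : M → N := fun x => π (H (j x)) with hG
  have hHU : ∀ x, H (j x) ∈ U := fun x => hUδ (g x) _ (lt_of_le_of_lt (hclose x) hc)
  have hLD : ∀ x, LD 4 G x := by
    intro x
    obtain ⟨i, p, hp, rfl⟩ := hA.cov x
    exact LD_of_fderiv hj hι hU hπ (hA.ld i) (hH _) (hHU _) (hinj i p hp)
  have hbij : Bijective G := bijective_of_LD hLD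
  obtain ⟨Gi, hGi1, hGi2⟩ := bijective_iff_has_inverse.1 hbij
  have hGsm : ContMDiff (𝓡 4) (𝓡 4) ∞ G := fun x => (hLD x).contMDiffAt
  have hGism : ContMDiff (𝓡 4) (𝓡 4) ∞ Gi := fun y =>
    (Pool.Agent.Y522.LD.inverse_bij hbij hLD hGi1 y).contMDiffAt
  let Φ : Diffeomorph (𝓡 4) (𝓡 4) M N ∞ :=
    { toFun := G
      invFun := Gi
      left_inv := hGi1
      right_inv := hGi2
      contMDiff_toFun := hGsm
      contMDiff_invFun := hGism }
  have hHj : Continuous (fun x => H (j x)) := by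
    rw [continuous_iff_continuousAt]
    intro x
    exact ContinuousAt.comp (f := j) (g := H) (hH x).self_of_nhds.continuousAt hjc.continuousAt
  refine ⟨Φ, fun hgc => ?_, fun x => ?_⟩
  · have hfc : Continuous (fun x : unitInterval × M =>
        ι (g x.2) + (x.1 : ℝ) • (H (j x.2) - ι (g x.2))) := by
      have h1 : Continuous (fun x : unitInterval × M => ι (g x.2)) :=
        hιc.comp (hgc.comp continuous_snd)
      have h2 : Continuous (fun x : unitInterval × M => H (j x.2)) := hHj.comp continuous_snd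
      have h3 : Continuous (fun x : unitInterval × M => (x.1 : ℝ)) :=
        continuous_subtype_val.comp continuous_fst
      exact h1.add (h3.smul (h2.sub h1))
    have hfU : ∀ x : unitInterval × M, ι (g x.2) + (x.1 : ℝ) • (H (j x.2) - ι (g x.2)) ∈ U := by
      intro x
      apply hUδ (g x.2)
      rw [add_sub_cancel_left, norm_smul, Real.norm_eq_abs, abs_of_nonneg x.1.2.1]
      have h1 := hclose x.2
      have h2 := x.1.2.2
      have h3 : (x.1 : ℝ) * ‖H (j x.2) - ι (g x.2)‖ ≤ 1 * ‖H (j x.2) - ι (g x.2)‖ :=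
        mul_le_mul_of_nonneg_right h2 (norm_nonneg _)
      linarith
    have hhc : Continuous (fun x : unitInterval × M =>
        π (ι (g x.2) + (x.1 : ℝ) • (H (j x.2) - ι (g x.2)))) := by
      rw [continuous_iff_continuousAt]
      intro x
      exact ContinuousAt.comp (f := fun x : unitInterval × M =>
        ι (g x.2) + (x.1 : ℝ) • (H (j x.2) - ι (g x.2))) (g := π)
        (hπ _ (hfU x)).continuousAt hfc.continuousAt
    refine ⟨{ toFun := fun x => π (ι (g x.2) + (x.1 : ℝ) • (H (j x.2) - ι (g x.2)))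
              continuous_toFun := hhc
              map_zero_left := ?_
              map_one_left := ?_ }⟩
    · intro x
      simp [hπι]
    · intro x
      change π (ι (g x) + ((1 : unitInterval) : ℝ) • (H (j x) - ι (g x))) = π (H (j x))
      rw [show ((1 : unitInterval) : ℝ) = 1 from rfl, one_smul, add_sub_cancel]
  · refine (hcl (g x) (H (j x))).trans ?_
    have := hclose x
    linarith

omit [CompactSpace N] in
/-- The criterion. -/
theorem crit {m n : ℕ} {j : M → E m} {ι : N → E n} (hj : Emb j) (hι : Emb ι)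
    {K : ℕ} {A : Fin K → E 4 → M} (hA : Atl A) {e : ℝ} {k : ℝ → ℝ} (hk : Ker e k)
    {π : E n → N} {U : Set (E n)} (hU : IsOpen U)
    (hπ : ∀ y ∈ U, ContMDiffAt 𝓘(ℝ, E n) (𝓡 4) ∞ π y) (hπι : ∀ z, π (ι z) = z)
    (hcl : ∀ z y, ‖ι (π y) - ι z‖ ≤ 2 * ‖y - ι z‖)
    {δ₁ ε : ℝ} (hδ₁ : 0 < δ₁) (hε : 0 < ε)
    (hret : ∀ z : N, ∀ y, ‖y - ι z‖ < δ₁ → y ∈ U ∧
      ‖fderiv ℝ (fun y => ι (π y)) y - fderiv ℝ (fun y => ι (π y)) (ι z)‖ ≤ ε)
    {r m₀ η L β₁ σ : ℝ} (hr : 0 < r) (hη : 0 ≤ η) (hL : 0 < L) (hσ : σ * L < δ₁)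
    (hconst : 2 * ε * L * (m₀ + 2 * η) < β₁)
    (f : C(E m, E n)) (g : M → N)
    (hyp : ∀ x, ∃ s, 0 < s ∧ s ≤ σ ∧
      (∀ y, ‖j y - j x‖ ≤ r → f (j y) ∈ convexHull ℝ (ι '' {z | ‖ι z - ι (g x)‖ ≤ s * L})) ∧
      ∀ i p, ‖p‖ ≤ 1 → A i p = x → ∀ w : E 4, ‖fderiv ℝ (fun q => j (A i q)) p w‖ = 1 →
        Good j A k m₀ η r (j x) (fderiv ℝ (fun q => j (A i q)) p w) ∧
        s * β₁ ≤ ‖r • fderiv ℝ (sm (nu j A) k r f) (j x) (fderiv ℝ (fun q => j (A i q)) p w)‖) :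
    ∃ Φ : Diffeomorph (𝓡 4) (𝓡 4) M N ∞,
      (∀ hg : Continuous g, ContinuousMap.Homotopic ⟨g, hg⟩ ⟨Φ, Φ.continuous⟩) ∧
      ∀ x, ‖ι (Φ x) - ι (g x)‖ ≤ 2 * (σ * L) := by
  have hjc : Continuous j := hj.smooth.continuous
  have hC : IsCompact (range j) := isCompact_range hjc
  have hνC := nu_supp hj hA
  -- hull consequences
  have hull : ∀ x s, 0 < s → s ≤ σ → ∀ y,
      y ∈ convexHull ℝ (ι '' {z | ‖ι z - ι (g x)‖ ≤ s * L}) →
      ‖y - ι (g x)‖ ≤ s * L ∧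
      ‖(y - ι (g x)) - fderiv ℝ (fun y => ι (π y)) (ι (g x)) (y - ι (g x))‖ ≤ ε * (s * L) := by
    intro x s hs hsσ y hy
    set P : E n →L[ℝ] E n := ContinuousLinearMap.id ℝ _ - fderiv ℝ (fun y => ι (π y)) (ι (g x)) with hP
    have hsL : s * L < δ₁ := lt_of_le_of_lt (mul_le_mul_of_nonneg_right hsσ hL.le) hσ
    have hconv : Convex ℝ {y : E n | ‖y - ι (g x)‖ ≤ s * L ∧ ‖P (y - ι (g x))‖ ≤ ε * (s * L)} := by
      intro a ha b hb t u ht hu htu
      have h1 : t • a + u • b - ι (g x) = t • (a - ι (g x)) + u • (b - ι (g x)) := by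
        have : ι (g x) = t • ι (g x) + u • ι (g x) := by rw [← add_smul, htu, one_smul]
        nth_rewrite 1 [this]
        rw [smul_sub, smul_sub]
        abel
      have h2 : ∀ (Q : E n →L[ℝ] E n) (R : ℝ), ‖Q (a - ι (g x))‖ ≤ R → ‖Q (b - ι (g x))‖ ≤ R →
          ‖Q (t • a + u • b - ι (g x))‖ ≤ R := by
        intro Q R hQa hQb
        rw [h1, map_add, map_smul, map_smul]
        refine (norm_add_le _ _).trans ?_
        rw [norm_smul, norm_smul, Real.norm_eq_abs, Real.norm_eq_abs, abs_of_nonneg ht,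
          abs_of_nonneg hu]
        calc t * ‖Q (a - ι (g x))‖ + u * ‖Q (b - ι (g x))‖ ≤ t * R + u * R := by gcongr
          _ = R := by rw [← add_mul, htu, one_mul]
      exact ⟨h2 (ContinuousLinearMap.id ℝ _) _ ha.1 hb.1, h2 P _ ha.2 hb.2⟩
    have hsub : ι '' {z | ‖ι z - ι (g x)‖ ≤ s * L} ⊆
        {y : E n | ‖y - ι (g x)‖ ≤ s * L ∧ ‖P (y - ι (g x))‖ ≤ ε * (s * L)} := by
      rintro _ ⟨z, hz, rfl⟩
      refine ⟨hz, ?_⟩
      have h3 := chord_retr hι hπ hπι hδ₁ (hret (g x)) (z' := z) (lt_of_le_of_lt hz hsL)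
      exact h3.trans (mul_le_mul_of_nonneg_left hz hε.le)
    exact convexHull_min hsub hconv hy
  -- existence of unit vectors
  have hunit : ∀ i p, ∀ w : E 4, w ≠ 0 → ∃ t : ℝ, 0 < t ∧
      ‖fderiv ℝ (fun q => j (A i q)) p (t • w)‖ = 1 := by
    intro i p w hw
    have h1 : fderiv ℝ (fun q => j (A i q)) p w ≠ 0 := by
      intro h
      exact hw (hj.fderiv_inj hA i p (by rw [h, map_zero]))
    have h2 := norm_pos_iff.2 h1
    refine ⟨‖fderiv ℝ (fun q => j (A i q)) p w‖⁻¹, inv_pos.2 h2, ?_⟩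
    rw [map_smul, norm_smul, norm_inv, norm_norm, inv_mul_cancel₀ h2.ne']
  have hloc : ∀ x : M, ∃ s : ℝ, 0 < s ∧ s ≤ σ ∧
      ∀ i p, ‖p‖ ≤ 1 → A i p = x → ∀ w : E 4, ‖fderiv ℝ (fun q => j (A i q)) p w‖ = 1 →
      0 < av (nu j A) k r (fun _ => (1:ℝ)) (j x) ∧
      ‖sm (nu j A) k r f (j x) - ι (g x)‖ ≤ s * L ∧
      ‖r • fderiv ℝ (sm (nu j A) k r f) (j x) (fderiv ℝ (fun q => j (A i q)) p w)‖ ≤
        s * L * (m₀ + 2 * η) ∧
      ‖(r • fderiv ℝ (sm (nu j A) k r f) (j x) (fderiv ℝ (fun q => j (A i q)) p w)) -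
        fderiv ℝ (fun y => ι (π y)) (ι (g x))
        (r • fderiv ℝ (sm (nu j A) k r f) (j x) (fderiv ℝ (fun q => j (A i q)) p w))‖ ≤
        ε * (s * L) * (m₀ + 2 * η) ∧
      s * β₁ ≤
        ‖r • fderiv ℝ (sm (nu j A) k r f) (j x) (fderiv ℝ (fun q => j (A i q)) p w)‖ := by
    intro x
    obtain ⟨s, hs, hsσ, hy, hw⟩ := hyp x
    refine ⟨s, hs, hsσ, fun i p hp hpx w hw1 => ?_⟩
    obtain ⟨hgd, hlow⟩ := hw i p hp hpx w hw1
    obtain ⟨c1, c2, -⟩ := loc_gen hj hA hk f.continuous hr hη x _ hgd (ι (g x))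
    obtain ⟨c3, c4⟩ := c2 (ContinuousLinearMap.id ℝ _) (s * L) (by positivity)
      (fun y hyr => by
        simp only [ContinuousLinearMap.id_apply]
        exact (hull x s hs hsσ _ (hy y hyr)).1)
    obtain ⟨-, c5⟩ := c2 (ContinuousLinearMap.id ℝ _ - fderiv ℝ (fun y => ι (π y)) (ι (g x)))
      (ε * (s * L)) (by positivity) (fun y hyr => by
        simp only [sub_apply, ContinuousLinearMap.id_apply]
        exact (hull x s hs hsσ _ (hy y hyr)).2)
    simp only [ContinuousLinearMap.id_apply] at c3 c4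
    simp only [sub_apply, ContinuousLinearMap.id_apply] at c5
    exact ⟨c1, c3, c4, c5, hlow⟩
  have hav : ∀ x, 0 < av (nu j A) k r (fun _ => (1:ℝ)) (j x) ∧
      ‖sm (nu j A) k r f (j x) - ι (g x)‖ ≤ σ * L := by
    intro x
    obtain ⟨s, hs, hsσ, h1⟩ := hloc x
    obtain ⟨i, p, hp, hpx⟩ := hA.cov x
    have hne : (EuclideanSpace.single 0 1 : E 4) ≠ 0 := by
      intro h
      have := congrArg norm h
      simp at this
    obtain ⟨t, ht, hw⟩ := hunit i p _ hne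
    obtain ⟨c1, c2, -⟩ := h1 i p hp.le hpx _ hw
    exact ⟨c1, c2.trans (mul_le_mul_of_nonneg_right hsσ hL.le)⟩
  have hH : ∀ x, ∀ᶠ v in 𝓝 (j x), ContDiffAt ℝ ∞ (sm (nu j A) k r f) v := by
    intro x
    have h1 : ContinuousAt (av (nu j A) k r (fun _ => (1:ℝ))) (j x) :=
      (av_contDiff hk hC hνC (continuous_const (y := (1:ℝ))) hr).continuous.continuousAt
    filter_upwards [h1.eventually (lt_mem_nhds (hav x).1)] with v hv
    exact sm_contDiffAt hk hC hνC f.continuous hr hv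
  refine exists_diffeo' hj hι hA hU hπ hπι hcl (δ₁ := δ₁) (fun z y hy => (hret z y hy).1) g
    (sm (nu j A) k r f) (c := σ * L) hσ hH (fun x => (hav x).2) ?_
  intro i p hp w hw hzero
  obtain ⟨t, ht, hu⟩ := hunit i p w hw
  set x := A i p with hx
  obtain ⟨s, hs, hsσ, h1⟩ := hloc x
  obtain ⟨-, hcl1, hXup, hX2, hlow⟩ := h1 i p hp.le rfl _ hu
  set H := sm (nu j A) k r f with hHdef
  set v := fderiv ℝ (fun q => j (A i q)) p (t • w) with hv
  set X := r • fderiv ℝ H (j x) v with hX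
  have hsL : s * L < δ₁ := lt_of_le_of_lt (mul_le_mul_of_nonneg_right hsσ hL.le) hσ
  obtain ⟨hHU, hDclose⟩ := hret (g x) (H (j x)) (lt_of_le_of_lt hcl1 hsL)
  -- the differential of the composite
  have hder : fderiv ℝ (fun y => ι (π y)) (H (j x)) X = 0 := by
    have d1 : HasFDerivAt (fun q => j (A i q)) (fderiv ℝ (fun q => j (A i q)) p) p :=
      ((hj.contDiff hA i).differentiable (by simp) p).hasFDerivAt
    have d2 : HasFDerivAt H (fderiv ℝ H (j x)) (j (A i p)) :=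
      ((hH x).self_of_nhds.differentiableAt (by simp)).hasFDerivAt
    have d3 : HasFDerivAt (fun y => ι (π y)) (fderiv ℝ (fun y => ι (π y)) (H (j x)))
        (H (j (A i p))) :=
      ((Pi_contDiffAt hι hπ hHU).differentiableAt (by simp)).hasFDerivAt
    have d4 := (d3.comp (j (A i p)) d2).comp p d1
    have d5 : fderiv ℝ (fun q => ι (π (H (j (A i q))))) p = _ := d4.fderiv
    rw [d5] at hzero
    simp only [ContinuousLinearMap.comp_apply] at hzero
    rw [hX, hv, map_smul, map_smul, map_smul, map_smul, hzero, smul_zero, smul_zero]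
  have hX3 : ‖fderiv ℝ (fun y => ι (π y)) (ι (g x)) X‖ ≤ ε * (s * L * (m₀ + 2 * η)) := by
    have h2 : fderiv ℝ (fun y => ι (π y)) (ι (g x)) X =
        -((fderiv ℝ (fun y => ι (π y)) (H (j x)) - fderiv ℝ (fun y => ι (π y)) (ι (g x))) X) := by
      rw [sub_apply, hder, zero_sub, neg_neg]
    rw [h2, norm_neg]
    refine (ContinuousLinearMap.le_opNorm _ _).trans ?_
    exact mul_le_mul hDclose hXup (norm_nonneg _) hε.le
  have hX4 : ‖X‖ ≤ ‖X - fderiv ℝ (fun y => ι (π y)) (ι (g x)) X‖ +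
      ‖fderiv ℝ (fun y => ι (π y)) (ι (g x)) X‖ := by
    have := norm_add_le (X - fderiv ℝ (fun y => ι (π y)) (ι (g x)) X)
      (fderiv ℝ (fun y => ι (π y)) (ι (g x)) X)
    rwa [sub_add_cancel] at this
  have hX5 : s * β₁ ≤ s * (2 * ε * L * (m₀ + 2 * η)) := by
    calc s * β₁ ≤ ‖X‖ := hlow
      _ ≤ ε * (s * L) * (m₀ + 2 * η) + ε * (s * L * (m₀ + 2 * η)) := by linarith
      _ = s * (2 * ε * L * (m₀ + 2 * η)) := by ring
  have hX6 := le_of_mul_le_mul_left hX5 hs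
  linarith

end Pool.Agent.T2H18
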