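import Mathlib
import Pool.Agent.T2H18.Fin2

/-!
# The ratio theorem and the affine theorem for possibly discontinuous maps
-/

set_option autoImplicit false

open Set Filter Topology Metric Function MeasureTheory
open scoped ContDiff RealInnerProductSpace Manifold

noncomputable section

namespace Pool.Agent.T2H18

open Pool.Agent.Y522 (LD)

/-- continuous extension of a coarse map -/
theorem exists_coarse {M : Type*} [TopologicalSpace M] [T2Space M] [CompactSpace M] {m n : ℕ}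
    {j : M → E m} (hjc : Continuous j) (hji : Injective j) (F : M → E n) {h : ℝ} (hh : 0 < h) :
    ∃ f : C(E m, E n), ∀ x, f (j x) ∈ convexHull ℝ (F '' {z | ‖j z - j x‖ ≤ h}) := by
  obtain ⟨F', hF'⟩ := exists_continuous_forall_mem_convex_of_local_const
    (t := fun x : M => convexHull ℝ (F '' {z | ‖j z - j x‖ ≤ h})) (fun x => convex_convexHull ℝ _)
    (fun x => ⟨F x, by
      have h1 : ContinuousAt (fun y => ‖j x - j y‖) x := by fun_prop
      have h2 : ∀ᶠ y in 𝓝 x, ‖j x - j y‖ < h :=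
        h1.eventually (gt_mem_nhds (by simpa using hh))
      filter_upwards [h2] with y hy
      exact subset_convexHull ℝ _ ⟨x, hy.le, rfl⟩⟩)
  obtain ⟨f, hf⟩ := ContinuousMap.exists_extension' (hjc.isClosedEmbedding hji) F'
  refine ⟨f, fun x => ?_⟩
  have h1 : f (j x) = F' x := congrFun hf x
  rw [h1]
  exact hF' x

/-- membership in a ball passes to the hull -/
theorem hull_ball {n : ℕ} {S : Set (E n)} {b : E n} {R : ℝ} (h : ∀ y ∈ S, ‖y - b‖ ≤ R) {y : E n}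
    (hy : y ∈ convexHull ℝ S) : ‖y - b‖ ≤ R := by
  have h1 : convexHull ℝ S ⊆ closedBall b R :=
    convexHull_min (fun y hy => by simpa [dist_eq_norm] using h y hy) (convex_closedBall b R)
  simpa [dist_eq_norm] using h1 hy

variable {M : Type*} [TopologicalSpace M] [T2Space M] [CompactSpace M] [ConnectedSpace M]
  [ChartedSpace (E 4) M] [IsManifold (𝓡 4) ∞ M]
variable {N : Type*} [TopologicalSpace N] [T2Space N] [CompactSpace N] [SimplyConnectedSpace N]
  [ChartedSpace (E 4) N] [IsManifold (𝓡 4) ∞ N]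

theorem ratio_coarse {lam κ κ₁ κ₂ e η₁ β : ℝ} (hlam : 1 ≤ lam) (hκ : 0 < κ) (hκ₁ : 0 < κ₁)
    (hκ₁' : κ₁ ≤ 1 / 2) (hκ₂ : 0 < κ₂) (hκs : 3 * κ + 2 * lam * κ₁ ≤ κ₂ / 2) (he : 0 < e)
    (he1 : e < 1) (hη₁ : 0 < η₁) (hη₁1 : η₁ ≤ 1) (hβ : 0 < β)
    (hTh : ∀ η, 0 ≤ η → η ≤ η₁ → β ^ 2 ≤ Th lam κ₂ (16 / (3 * Real.pi * (1 - e) ^ 2)) η)
    {m n : ℕ} {j : M → E m} {ι : N → E n} (hj : Emb j) (hι : Emb ι) {η₀ : ℝ} (hη₀ : 0 < η₀) :
    ∃ δ : ℝ, 0 < δ ∧ ∀ r : ℝ, 0 < r → r ≤ δ → ∀ g : M → N,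
      (∀ x, ∃ a : ℝ, 0 < a ∧ a * r ≤ δ ∧ ∀ y z, ‖j y - j x‖ ≤ r → ‖j z - j x‖ ≤ r →
        a * (‖j y - j z‖ - κ * r) ≤ ‖ι (g y) - ι (g z)‖ ∧
        ‖ι (g y) - ι (g z)‖ ≤ a * (lam * ‖j y - j z‖ + κ * r)) →
      ∃ Φ : Diffeomorph (𝓡 4) (𝓡 4) M N ∞,
        (∀ hg : Continuous g, ContinuousMap.Homotopic ⟨g, hg⟩ ⟨Φ, Φ.continuous⟩) ∧
        ∀ x, ‖ι (Φ x) - ι (g x)‖ ≤ η₀ := by
  set m₀ := 16 / (3 * Real.pi * (1 - e) ^ 2) with hm₀
  have hpi := Real.pi_pos
  have h1e : 0 < 1 - e := by linarith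
  have hm₀0 : 0 < m₀ := by positivity
  obtain ⟨x₀⟩ : Nonempty N := inferInstance
  obtain ⟨K, A, hA⟩ := exists_atl (M := M)
  obtain ⟨k, hk⟩ := exists_ker he
  obtain ⟨π, U, hU, hιU, hπ, hπι, hcl⟩ := exists_retraction hι
  -- constants
  set L' := lam + κ₂ with hL'
  have hL'0 : 0 < L' := by linarith
  set L := 2 * L' with hL
  have hL0 : 0 < L := by linarith
  set η := min η₁ (β / (4 * L')) with hη
  have hη0 : 0 < η := lt_min hη₁ (by positivity)
  have hηβ : η * L' ≤ β / 4 := by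
    have : η ≤ β / (4 * L') := min_le_right _ _
    calc η * L' ≤ β / (4 * L') * L' := mul_le_mul_of_nonneg_right this hL'0.le
      _ = β / 4 := by field_simp
  have hη1 : η ≤ 1 := (min_le_left _ _).trans hη₁1
  set Q₀ := L * (m₀ + 2 * η) with hQ₀
  have hQ₀0 : 0 < Q₀ := by positivity
  set ε := β / (8 * Q₀) with hε
  have hε0 : 0 < ε := by positivity
  have hεQ : ε * Q₀ = β / 8 := by
    rw [hε]
    field_simp
  obtain ⟨r₀, hr₀, hgood⟩ := uniform_good hj hA hk he1 hη0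
  obtain ⟨δ₁, hδ₁, hret⟩ := uniform_retr hι hU hιU hπ hε0
  set δ := min (r₀ / 2) (min (δ₁ / (2 * L)) (η₀ / (2 * L))) with hδ
  have hδ0 : 0 < δ := lt_min (half_pos hr₀) (lt_min (by positivity) (by positivity))
  have hδr : δ < r₀ := lt_of_le_of_lt (min_le_left _ _) (half_lt_self hr₀)
  have hδL : δ * L ≤ δ₁ / 2 := by
    have h1 : δ ≤ δ₁ / (2 * L) := (min_le_right _ _).trans (min_le_left _ _)
    calc δ * L ≤ δ₁ / (2 * L) * L := mul_le_mul_of_nonneg_right h1 hL0.le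
      _ = δ₁ / 2 := by field_simp
  have hδη : 2 * (δ * L) ≤ η₀ := by
    have h1 : δ ≤ η₀ / (2 * L) := (min_le_right _ _).trans (min_le_right _ _)
    have h2 : δ * L ≤ η₀ / (2 * L) * L := mul_le_mul_of_nonneg_right h1 hL0.le
    have h3 : η₀ / (2 * L) * L = η₀ / 2 := by field_simp
    linarith
  refine ⟨δ, hδ0, fun r hr hrδ g hg => ?_⟩
  set r₁ := (1 - κ₁) * r with hr₁
  have hr₁0 : 0 < r₁ := mul_pos (by linarith) hr
  have hr₁r : r₁ + κ₁ * r = r := by rw [hr₁]; ring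
  have hκr : 0 < κ₁ * r := mul_pos hκ₁ hr
  have hr₁h : r / 2 ≤ r₁ := by
    rw [hr₁]
    nlinarith
  obtain ⟨f, hf⟩ := exists_coarse hj.smooth.continuous hj.inj (fun x => ι (g x)) hκr
  have hmain := crit hj hι hA hk hU hπ hπι hcl hδ₁ hε0 hret (r := r₁) (m₀ := m₀) (η := η) (L := L)
    (β₁ := β - η * L') (σ := δ) hr₁0 hη0.le hL0 (by linarith)
    (by
      have h1 : 2 * ε * L * (m₀ + 2 * η) = 2 * (ε * Q₀) := by rw [hQ₀]; ring
      rw [h1, hεQ]
      linarith) f g ?_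
  · obtain ⟨Φ, h1, h2⟩ := hmain
    exact ⟨Φ, h1, fun x => (h2 x).trans hδη⟩
  intro x
  obtain ⟨a, ha, har, hyz⟩ := hg x
  have hs0 : 0 < a * r₁ := mul_pos ha hr₁0
  refine ⟨a * r₁, hs0, (mul_le_mul_of_nonneg_left (by linarith) ha.le).trans har, ?_, ?_⟩
  · intro y hy
    apply convexHull_mono _ (hf y)
    rintro _ ⟨z, hz, rfl⟩
    refine ⟨g z, ?_, rfl⟩
    have hzx : ‖j z - j x‖ ≤ r := by
      have h1 : j z - j x = (j z - j y) + (j y - j x) := by abel
      rw [h1]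
      refine (norm_add_le _ _).trans ?_
      have h2 : ‖j z - j y‖ ≤ κ₁ * r := hz
      linarith
    have h3 := (hyz z x hzx (by simpa using hr.le)).2
    show ‖ι (g z) - ι (g x)‖ ≤ a * r₁ * L
    refine h3.trans ?_
    have h4 : lam * ‖j z - j x‖ ≤ lam * r := mul_le_mul_of_nonneg_left hzx (by linarith)
    have h5 : κ ≤ κ₂ := by
      have : 0 ≤ lam * κ₁ := mul_nonneg (by linarith) hκ₁.le
      linarith
    have h6 : lam * r + κ * r ≤ L' * r := by
      rw [hL']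
      have := mul_le_mul_of_nonneg_right h5 hr.le
      linarith
    have h7 : L' * r ≤ r₁ * L := by
      rw [hL]
      have := mul_le_mul_of_nonneg_right hr₁h hL'0.le
      linarith
    calc a * (lam * ‖j z - j x‖ + κ * r) ≤ a * (r₁ * L) :=
          mul_le_mul_of_nonneg_left (by linarith) ha.le
      _ = a * r₁ * L := by ring
  · intro i p hp hpx w hw
    have hgd := hgood r₁ hr₁0 (by linarith) i p hp w hw
    rw [hpx] at hgd
    -- comparison of `f` and `g`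
    have hfg : ∀ y, ‖j y - j x‖ ≤ r₁ → ‖f (j y) - ι (g y)‖ ≤ a * ((lam * κ₁ + κ) * r) := by
      intro y hy
      apply hull_ball _ (hf y)
      rintro _ ⟨z, hz, rfl⟩
      have hzy : ‖j z - j y‖ ≤ κ₁ * r := hz
      have hzx : ‖j z - j x‖ ≤ r := by
        have h1 : j z - j x = (j z - j y) + (j y - j x) := by abel
        rw [h1]
        refine (norm_add_le _ _).trans ?_
        linarith
      have h3 := (hyz z y hzx (by linarith)).2
      refine h3.trans ?_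
      apply mul_le_mul_of_nonneg_left _ ha.le
      have h4 : lam * ‖j z - j y‖ ≤ lam * (κ₁ * r) := mul_le_mul_of_nonneg_left hzy (by linarith)
      linarith
    have hpair : ∀ y z : M, ‖j y - j x‖ ≤ r₁ → ‖j z - j x‖ ≤ r₁ →
        (a * r₁) * (r₁⁻¹ * ‖j y - j z‖ - κ₂) ≤ ‖f (j y) - f (j z)‖ ∧
        ‖f (j y) - f (j z)‖ ≤ (a * r₁) * (lam * (r₁⁻¹ * ‖j y - j z‖) + κ₂) := by
      intro y z hy hz
      obtain ⟨h1, h2⟩ := hyz y z (by linarith) (by linarith)
      have e1 : (a * r₁) * (r₁⁻¹ * ‖j y - j z‖ - κ₂) = a * (‖j y - j z‖ - κ₂ * r₁) := by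
        field_simp
      have e2 : (a * r₁) * (lam * (r₁⁻¹ * ‖j y - j z‖) + κ₂) = a * (lam * ‖j y - j z‖ + κ₂ * r₁) := by
        field_simp
      rw [e1, e2]
      have h3 := hfg y hy
      have h4 := hfg z hz
      have h5 : 3 * κ * r + 2 * lam * κ₁ * r ≤ κ₂ * r₁ := by
        have h6 : (3 * κ + 2 * lam * κ₁) * r ≤ κ₂ / 2 * r := mul_le_mul_of_nonneg_right hκs hr.le
        have h7 : κ₂ * (r / 2) ≤ κ₂ * r₁ := mul_le_mul_of_nonneg_left hr₁h hκ₂.le
        linarith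
      have h6 : a * (3 * κ * r + 2 * lam * κ₁ * r) ≤ a * (κ₂ * r₁) :=
        mul_le_mul_of_nonneg_left h5 ha.le
      have h7 : ‖ι (g y) - ι (g z)‖ ≤ ‖f (j y) - ι (g y)‖ + ‖f (j y) - f (j z)‖ +
          ‖f (j z) - ι (g z)‖ := by
        have : ι (g y) - ι (g z) = -(f (j y) - ι (g y)) + (f (j y) - f (j z)) +
          (f (j z) - ι (g z)) := by abel
        rw [this]
        refine (norm_add₃_le).trans ?_
        rw [norm_neg]
      have h8 : ‖f (j y) - f (j z)‖ ≤ ‖f (j y) - ι (g y)‖ + ‖ι (g y) - ι (g z)‖ +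
          ‖f (j z) - ι (g z)‖ := by
        have : f (j y) - f (j z) = (f (j y) - ι (g y)) + (ι (g y) - ι (g z)) +
          (-(f (j z) - ι (g z))) := by abel
        rw [this]
        refine (norm_add₃_le).trans ?_
        rw [norm_neg]
      constructor
      · linarith
      · linarith
    obtain ⟨-, -, -, c4⟩ := main_loc hj hA hk f.continuous hr₁0 hs0 hlam hκ₂.le hη0.le
      hη1 x _ hw hgd hpair
    exact ⟨hgd, c4 β hβ.le (hTh η hη0.le (min_le_left _ _))⟩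

end Pool.Agent.T2H18
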