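import Mathlib
import Pool.Agent.T2H18.Coarse

/-!
# The affine theorem for possibly discontinuous maps
-/

set_option autoImplicit false

open Set Filter Topology Metric Function MeasureTheory
open scoped ContDiff RealInnerProductSpace Manifold

noncomputable section

namespace Pool.Agent.T2H18

open Pool.Agent.Y522 (LD)

theorem exists_const_affine {ε₀ : ℝ} (hε₀ : ε₀ < 3 * Real.pi / 16) (C : ℝ) :
    ∃ e κ₁ : ℝ, 0 < e ∧ e < 1 ∧ 0 < κ₁ ∧ κ₁ ≤ 1 / 2 ∧
      (ε₀ + C * κ₁) / (1 - κ₁) * (16 / (3 * Real.pi * (1 - e) ^ 2)) < 1 := by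
  have hpi := Real.pi_pos
  set f : ℝ × ℝ → ℝ := fun x => (ε₀ + C * x.2) / (1 - x.2) * (16 / (3 * Real.pi * (1 - x.1) ^ 2)) with hf
  have hfc : ContinuousAt f (0, 0) := by
    simp only [hf]
    apply ContinuousAt.mul
    · apply ContinuousAt.div (by fun_prop) (by fun_prop)
      simp
    · apply ContinuousAt.div (by fun_prop) (by fun_prop)
      simp only [sub_zero]
      positivity
  have hf0 : f (0, 0) < 1 := by
    have h1 : f (0, 0) = ε₀ * 16 / (3 * Real.pi) := by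
      simp only [hf]
      field_simp
      ring
    rw [h1, div_lt_one (by positivity)]
    linarith
  obtain ⟨t, ht, h4⟩ := Metric.eventually_nhds_iff.1 (hfc.eventually (gt_mem_nhds hf0))
  set c := min (t / 2) (1 / 2) with hc
  have hc0 : 0 < c := lt_min (half_pos ht) (by norm_num)
  have hct : c < t := lt_of_le_of_lt (min_le_left _ _) (half_lt_self ht)
  have hc1 : c ≤ 1 / 2 := min_le_right _ _
  refine ⟨c, c, hc0, by linarith, hc0, hc1, ?_⟩
  have h5 : dist ((c, c) : ℝ × ℝ) (0, 0) < t := by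
    simp only [Prod.dist_eq, dist_zero_right, Real.norm_eq_abs, abs_of_pos hc0]
    exact max_lt hct hct
  exact h4 h5

variable {M : Type*} [TopologicalSpace M] [T2Space M] [CompactSpace M] [ConnectedSpace M]
  [ChartedSpace (E 4) M] [IsManifold (𝓡 4) ∞ M]
variable {N : Type*} [TopologicalSpace N] [T2Space N] [CompactSpace N] [SimplyConnectedSpace N]
  [ChartedSpace (E 4) N] [IsManifold (𝓡 4) ∞ N]

theorem affine_coarse {ε₀ C κ₁ e : ℝ} (hε₀ : 0 ≤ ε₀) (hC : 0 ≤ C) (hκ₁ : 0 < κ₁)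
    (hκ₁' : κ₁ ≤ 1 / 2) (he : 0 < e) (he1 : e < 1)
    (hconst : (ε₀ + C * κ₁) / (1 - κ₁) * (16 / (3 * Real.pi * (1 - e) ^ 2)) < 1)
    {m n : ℕ} {j : M → E m} {ι : N → E n} (hj : Emb j) (hι : Emb ι) {η₀ : ℝ} (hη₀ : 0 < η₀) :
    ∃ δ : ℝ, 0 < δ ∧ ∀ r : ℝ, 0 < r → r ≤ δ → ∀ g : M → N,
      (∀ x, ∃ a : ℝ, 0 < a ∧ a * r ≤ δ ∧ ∃ (T : E m →L[ℝ] E n) (b : E n), ‖T‖ ≤ C * a ∧
        (∀ v ∈ tang j x, a * ‖v‖ ≤ ‖T v‖) ∧
        ∀ y, ‖j y - j x‖ ≤ r → ‖ι (g y) - b - T (j y - j x)‖ ≤ ε₀ * a * r) →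
      ∃ Φ : Diffeomorph (𝓡 4) (𝓡 4) M N ∞,
        (∀ hg : Continuous g, ContinuousMap.Homotopic ⟨g, hg⟩ ⟨Φ, Φ.continuous⟩) ∧
        ∀ x, ‖ι (Φ x) - ι (g x)‖ ≤ η₀ := by
  set m₀ := 16 / (3 * Real.pi * (1 - e) ^ 2) with hm₀
  set ε₁ := (ε₀ + C * κ₁) / (1 - κ₁) with hε₁
  have hpi := Real.pi_pos
  have h1e : 0 < 1 - e := by linarith
  have h1κ : 0 < 1 - κ₁ := by linarith
  have hm₀0 : 0 < m₀ := by positivity
  have hε₁0 : 0 ≤ ε₁ := by positivity
  obtain ⟨x₀⟩ : Nonempty N := inferInstance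
  obtain ⟨K, A, hA⟩ := exists_atl (M := M)
  obtain ⟨k, hk⟩ := exists_ker he
  obtain ⟨π, U, hU, hιU, hπ, hπι, hcl⟩ := exists_retraction hι
  -- constants
  set L := 2 * (2 * ε₀ + C) + 1 with hL
  have hL0 : 0 < L := by positivity
  set γ := 1 - ε₁ * m₀ with hγ
  have hγ0 : 0 < γ := by linarith
  set D := 2 * (C + ε₁) + 1 with hD
  have hD0 : 0 < D := by positivity
  set η := min 1 (γ / (2 * D)) with hη
  have hη0 : 0 < η := lt_min one_pos (by positivity)
  have hηD : η * D ≤ γ / 2 := by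
    have : η ≤ γ / (2 * D) := min_le_right _ _
    calc η * D ≤ γ / (2 * D) * D := mul_le_mul_of_nonneg_right this hD0.le
      _ = γ / 2 := by field_simp
  set Q₀ := L * (m₀ + 2 * η) with hQ₀
  have hQ₀0 : 0 < Q₀ := by positivity
  set ε := γ / (8 * Q₀) with hε
  have hεp : 0 < ε := by positivity
  have hεQ : ε * Q₀ = γ / 8 := by
    rw [hε]
    field_simp
  set β₁ := 1 - C * η - ε₁ * (m₀ + η) - η * (C + ε₁) with hβ₁
  have hβ₁γ : γ / 2 ≤ β₁ := by
    have h1 : β₁ = γ - η * (2 * (C + ε₁)) := by rw [hβ₁, hγ]; ring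
    rw [h1]
    have h2 : η * (2 * (C + ε₁)) ≤ η * D := mul_le_mul_of_nonneg_left (by linarith) hη0.le
    linarith
  obtain ⟨r₀, hr₀, hgood⟩ := uniform_good hj hA hk he1 hη0
  obtain ⟨r₀', hr₀', hgood'⟩ := uniform_good' hj hA hk he1 (η := η / (m + 1)) (by positivity)
  obtain ⟨δ₁, hδ₁, hret⟩ := uniform_retr hι hU hιU hπ hεp
  set δ := min (min (r₀ / 2) (r₀' / 2)) (min (δ₁ / (2 * L)) (η₀ / (2 * L))) with hδ
  have hδ0 : 0 < δ := lt_min (lt_min (half_pos hr₀) (half_pos hr₀')) (lt_min (by positivity) (by positivity))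
  have hδr : δ < r₀ := lt_of_le_of_lt ((min_le_left _ _).trans (min_le_left _ _)) (half_lt_self hr₀)
  have hδr' : δ < r₀' := lt_of_le_of_lt ((min_le_left _ _).trans (min_le_right _ _)) (half_lt_self hr₀')
  have hδL : δ * L ≤ δ₁ / 2 := by
    have h1 : δ ≤ δ₁ / (2 * L) := (min_le_right _ _).trans (min_le_left _ _)
    calc δ * L ≤ δ₁ / (2 * L) * L := mul_le_mul_of_nonneg_right h1 hL0.le
      _ = δ₁ / 2 := by field_simp
  have hδη : 2 * (δ * L) ≤ η₀ := by
    have h1 : δ ≤ η₀ / (2 * L) := (min_le_right _ _).trans (min_le_right _ _)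
    have h2 : δ * L ≤ η₀ / (2 * L) * L := mul_le_mul_of_nonneg_right h1 hL0.le
    have h3 : η₀ / (2 * L) * L = η₀ / 2 := by field_simp
    linarith
  refine ⟨δ, hδ0, fun r hr hrδ g hg => ?_⟩
  set r₁ := (1 - κ₁) * r with hr₁
  have hr₁0 : 0 < r₁ := mul_pos (by linarith) hr
  have hr₁r : r₁ + κ₁ * r = r := by rw [hr₁]; ring
  have hκr : 0 < κ₁ * r := mul_pos hκ₁ hr
  have hr₁h : r / 2 ≤ r₁ := by
    have := mul_le_mul_of_nonneg_right hκ₁' hr.le
    linarith
  obtain ⟨f, hf⟩ := exists_coarse hj.smooth.continuous hj.inj (fun x => ι (g x)) hκr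
  have hmain := crit hj hι hA hk hU hπ hπι hcl hδ₁ hεp hret (r := r₁) (m₀ := m₀) (η := η) (L := L)
    (β₁ := β₁) (σ := δ) hr₁0 hη0.le hL0 (by linarith)
    (by
      have h1 : 2 * ε * L * (m₀ + 2 * η) = 2 * (ε * Q₀) := by rw [hQ₀]; ring
      rw [h1, hεQ]
      linarith) f g ?_
  · obtain ⟨Φ, h1, h2⟩ := hmain
    exact ⟨Φ, h1, fun x => (h2 x).trans hδη⟩
  intro x
  obtain ⟨a, ha, har, T, b, hT, hTx, hyz⟩ := hg x
  have hs0 : 0 < a * r₁ := mul_pos ha hr₁0
  refine ⟨a * r₁, hs0, (mul_le_mul_of_nonneg_left (by linarith) ha.le).trans har, ?_, ?_⟩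
  · intro y hy
    apply convexHull_mono _ (hf y)
    rintro _ ⟨z, hz, rfl⟩
    refine ⟨g z, ?_, rfl⟩
    have hzx : ‖j z - j x‖ ≤ r := by
      have h1 : j z - j x = (j z - j y) + (j y - j x) := by abel
      rw [h1]
      refine (norm_add_le _ _).trans ?_
      have h2 : ‖j z - j y‖ ≤ κ₁ * r := hz
      linarith
    show ‖ι (g z) - ι (g x)‖ ≤ a * r₁ * L
    have h3 := hyz z hzx
    have h4 := hyz x (by simpa using hr.le)
    rw [sub_self, map_zero, sub_zero] at h4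
    have h5 : ‖T (j z - j x)‖ ≤ C * a * r :=
      (T.le_opNorm _).trans (mul_le_mul hT hzx (norm_nonneg _) (by positivity))
    have h6 : ι (g z) - ι (g x) = (ι (g z) - b - T (j z - j x)) + T (j z - j x) +
        -(ι (g x) - b) := by abel
    rw [h6]
    refine (norm_add₃_le).trans ?_
    rw [norm_neg]
    have h7 : (2 * ε₀ + C) * (a * r) ≤ a * r₁ * L := by
      have h8 : a * (r / 2) ≤ a * r₁ := mul_le_mul_of_nonneg_left hr₁h ha.le
      have h9 : a * (r / 2) * L ≤ a * r₁ * L := mul_le_mul_of_nonneg_right h8 hL0.le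
      have h10 : 0 < a * (r / 2) := by positivity
      have h11 : a * (r / 2) * L = (2 * ε₀ + C) * (a * r) + a * (r / 2) := by rw [hL]; ring
      linarith
    linarith
  · intro i p hp hpx w hw
    have hgd := hgood r₁ hr₁0 (by linarith) i p hp w hw
    have hgd' := hgood' r₁ hr₁0 (by linarith) i p hp w hw
    have hwt : fderiv ℝ (fun q => j (A i q)) p w ∈ tang j x := by
      rw [← hpx]
      exact hj.fderiv_mem hA i p w
    rw [hpx] at hgd hgd'
    obtain ⟨-, -, c3⟩ := loc_gen hj hA hk f.continuous hr₁0 hη0.le x _ hgd b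
    refine ⟨hgd, c3 (a * r₁) C ε₁ hs0 hC hε₁0 (r₁ • T) ?_ ?_ hw hgd' ?_⟩
    · rw [norm_smul, Real.norm_eq_abs, abs_of_pos hr₁0]
      calc r₁ * ‖T‖ ≤ r₁ * (C * a) := mul_le_mul_of_nonneg_left hT hr₁0.le
        _ = C * (a * r₁) := by ring
    · have h1 := hTx _ hwt
      rw [hw, mul_one] at h1
      rw [smul_apply, norm_smul, Real.norm_eq_abs, abs_of_pos hr₁0, mul_comm a]
      exact mul_le_mul_of_nonneg_left h1 hr₁0.le
    · intro y hy
      have h1 : (r₁ • T) (r₁⁻¹ • (j y - j x)) = T (j y - j x) := by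
        rw [smul_apply, map_smul, smul_smul, mul_inv_cancel₀ hr₁0.ne', one_smul]
      rw [h1]
      have h2 : f (j y) - b - T (j y - j x) = f (j y) - (b + T (j y - j x)) := by abel
      rw [h2]
      apply hull_ball _ (hf y)
      rintro _ ⟨z, hz, rfl⟩
      have hzy : ‖j z - j y‖ ≤ κ₁ * r := hz
      have hzx : ‖j z - j x‖ ≤ r := by
        have h1 : j z - j x = (j z - j y) + (j y - j x) := by abel
        rw [h1]
        refine (norm_add_le _ _).trans ?_
        linarith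
      have h3 := hyz z hzx
      have h4 : ι (g z) - (b + T (j y - j x)) = (ι (g z) - b - T (j z - j x)) + T (j z - j y) := by
        have : T (j z - j y) = T (j z - j x) - T (j y - j x) := by
          rw [← map_sub]
          congr 1
          abel
        rw [this]
        abel
      simp only
      rw [h4]
      have h5 : ‖T (j z - j y)‖ ≤ C * a * (κ₁ * r) :=
        (T.le_opNorm _).trans (mul_le_mul hT hzy (norm_nonneg _) (by positivity))
      have h6 : ε₁ * (a * r₁) = (ε₀ + C * κ₁) * (a * r) := by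
        rw [hε₁, hr₁]
        field_simp
      rw [h6]
      refine (norm_add_le _ _).trans ?_
      linarith

end Pool.Agent.T2H18
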