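import Mathlib
import Pool.Agent.T2H18.Nu

/-!
# The weighted measure in an arbitrary local parametrisation
-/

set_option autoImplicit false

open Set Filter Topology Metric Function MeasureTheory
open scoped ContDiff RealInnerProductSpace Manifold

noncomputable section

namespace Pool.Agent.T2H18

open Pool.Agent.Y522 (LD)

variable {M : Type*} [TopologicalSpace M] [ChartedSpace (E 4) M]
variable {m : ℕ} {j : M → E m} {K : ℕ} {A : Fin K → E 4 → M}

theorem density_one [T2Space M] (hA : Atl A) (i : Fin K) {B : E 4 → M} (hB : LD 4 B 0) :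
    ∃ R : ℝ, 0 < R ∧ InjOn B (ball 0 R) ∧ ∃ D : E 4 → ℝ, ContinuousOn D (ball 0 R) ∧
      (∀ q, 0 ≤ D q) ∧ ((∃ p, ‖p‖ < 2 ∧ A i p = B 0) → 0 < D 0) ∧
      ∀ F : M → ℝ, (∀ x, x ∉ B '' ball 0 R → F x = 0) →
        ∫ q : E 4, wt q * F (A i q) = ∫ q in ball (0 : E 4) R, D q * F (B q) := by
  by_cases hp : ∃ p₀, A i p₀ = B 0
  · obtain ⟨p₀, hp₀⟩ := hp
    set s : M → E 4 := invFun (A i) with hs
    have hsA : ∀ q, s (A i q) = q := leftInverse_invFun (hA.inj i)
    have hsLD : ∀ q, LD 4 s (A i q) := fun q =>
      LD.inverse isOpen_univ (fun x _ => hA.ld i x) (fun x _ => hsA x) (mem_univ q)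
    have hopen : IsOpen (range (A i)) := by
      rw [← image_univ]
      exact Pool.Agent.Y522.isOpen_image_of_LD isOpen_univ fun x _ => hA.ld i x
    have hAs : ∀ x ∈ range (A i), A i (s x) = x := by
      rintro _ ⟨q, rfl⟩
      rw [hsA]
    have h0r : B 0 ∈ range (A i) := ⟨p₀, hp₀⟩
    obtain ⟨u, hu, hinj⟩ := hB.eventually_injOn
    obtain ⟨R, hR, hball⟩ := Metric.eventually_nhds_iff_ball.1
      ((hB.eventually.and (hB.continuousAt.eventually (hopen.mem_nhds h0r))).and hu)
    have hLD : ∀ q ∈ ball (0 : E 4) R, LD 4 (fun q => s (B q)) q := by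
      intro q hq
      obtain ⟨⟨h1, ⟨q', h2⟩⟩, -⟩ := hball q hq
      refine LD.comp_fun ?_ h1
      rw [← h2]
      exact hsLD q'
    have hinj' : InjOn (fun q => s (B q)) (ball (0 : E 4) R) := by
      intro a ha b hb hab
      simp only at hab
      have h1 := congrArg (A i) hab
      rw [hAs _ (hball a ha).1.2, hAs _ (hball b hb).1.2] at h1
      exact hinj (hball a ha).2 (hball b hb).2 h1
    refine ⟨R, hR, fun a ha b hb hab => hinj (hball a ha).2 (hball b hb).2 hab,
      fun q => |(fderiv ℝ (fun q => s (B q)) q).det| * wt (s (B q)), ?_, ?_, ?_, ?_⟩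
    · intro q hq
      have h1 := (hLD q hq).contDiffAt
      have h2 : ContinuousAt (fderiv ℝ (fun q => s (B q))) q :=
        (h1.fderiv_right (m := 0) (by simp)).continuousAt
      have h3 : ContinuousAt (fun q => wt (s (B q))) q :=
        ContinuousAt.comp (g := wt) (f := fun q => s (B q)) wt_cont.continuousAt h1.continuousAt
      have h4 : ContinuousAt (fun q => |(fderiv ℝ (fun q => s (B q)) q).det|) q := by
        have h5 : ContinuousAt (fun q => (fderiv ℝ (fun q => s (B q)) q).det) q :=
          ContinuousAt.comp (g := ContinuousLinearMap.det)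
            ContinuousLinearMap.continuous_det.continuousAt h2
        exact h5.abs
      exact (h4.mul h3).continuousWithinAt
    · intro q
      exact mul_nonneg (abs_nonneg _) (wt_nonneg _)
    · rintro ⟨p, hp, hpe⟩
      have h1 : s (B 0) = p := by rw [← hpe, hsA]
      have h2 : 0 < wt (s (B 0)) := by rw [h1]; exact wt_pos hp
      obtain ⟨L, hL⟩ := (hLD 0 (mem_ball_self hR)).exists_equiv
      have h3 : (fderiv ℝ (fun q => s (B q)) 0).det ≠ 0 := by
        rw [hL.fderiv]
        exact (LinearEquiv.isUnit_det' L.toLinearEquiv).ne_zero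
      positivity
    · intro F hF
      have h1 := integral_image_eq_integral_abs_det_fderiv_smul (volume : Measure (E 4))
        (measurableSet_ball (x := (0 : E 4)) (ε := R)) (f := fun q => s (B q))
        (f' := fderiv ℝ (fun q => s (B q)))
        (fun q hq => ((hLD q hq).contDiffAt.differentiableAt (by simp)).hasFDerivAt.hasFDerivWithinAt)
        hinj' (fun q => wt q * F (A i q))
      have h2 : ∫ q in (fun q => s (B q)) '' ball (0 : E 4) R, wt q * F (A i q) =
          ∫ q, wt q * F (A i q) := by
        apply setIntegral_eq_integral_of_forall_compl_eq_zero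
        intro q hq
        rw [hF, mul_zero]
        rintro ⟨q', hq', he⟩
        apply hq
        refine ⟨q', hq', ?_⟩
        simp only [he, hsA]
      rw [← h2, h1]
      apply setIntegral_congr_fun measurableSet_ball
      intro q hq
      simp only [smul_eq_mul]
      rw [hAs _ (hball q hq).1.2, mul_assoc]
  · -- the image of the closed ball of radius two is compact and misses `B 0`
    have hK : IsCompact (A i '' closedBall 0 2) :=
      (isCompact_closedBall _ _).image_of_continuousOn fun q _ =>
        (hA.ld i q).continuousAt.continuousWithinAt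
    have h0 : B 0 ∈ (A i '' closedBall 0 2)ᶜ := by
      rintro ⟨p, -, hpe⟩
      exact hp ⟨p, hpe⟩
    obtain ⟨u, hu, hinj⟩ := hB.eventually_injOn
    obtain ⟨R, hR, hball'⟩ := Metric.eventually_nhds_iff_ball.1
      ((hB.continuousAt.eventually (hK.isClosed.isOpen_compl.mem_nhds h0)).and hu)
    have hball := fun q hq => (hball' q hq).1
    refine ⟨R, hR, fun a ha b hb hab => hinj (hball' a ha).2 (hball' b hb).2 hab, fun _ => 0, continuousOn_const, fun _ => le_rfl, ?_, ?_⟩
    · rintro ⟨p, -, hpe⟩
      exact absurd ⟨p, hpe⟩ hp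
    · intro F hF
      simp only [zero_mul, integral_zero]
      have h1 : ∀ q : E 4, wt q * F (A i q) = 0 := by
        intro q
        rcases le_or_gt ‖q‖ 2 with hq | hq
        · rw [hF, mul_zero]
          rintro ⟨q', hq', he⟩
          exact hball q' hq' ⟨q, by simpa using hq, he.symm⟩
        · rw [wt_zero hq, zero_mul]
      simp [h1]

/-- the measure `nu` in an arbitrary local parametrisation -/
theorem density [T2Space M] [CompactSpace M] (hj : Emb j) (hA : Atl A) {B : E 4 → M}
    (hB : LD 4 B 0) :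
    ∃ R : ℝ, 0 < R ∧ (∀ q ∈ closedBall (0 : E 4) R, LD 4 B q) ∧ InjOn B (closedBall 0 R) ∧
      ∃ D : E 4 → ℝ, ContinuousOn D (closedBall 0 R) ∧ (∀ q, 0 ≤ D q) ∧ 0 < D 0 ∧
      ∀ r ≤ R, ∀ F : E m → ℝ, Continuous F → (∀ x, x ∉ B '' ball 0 r → F (j x) = 0) →
        ∫ t, F t ∂(nu j A) = ∫ q in ball (0 : E 4) r, D q * F (j (B q)) := by
  choose R hR hinj D hDc hD0 hDp hF using fun i => density_one hA i hB
  obtain ⟨u, hu, hinj'⟩ := hB.eventually_injOn
  obtain ⟨R', hR', hball⟩ := Metric.eventually_nhds_iff_ball.1 (hB.eventually.and hu)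
  -- a common radius
  obtain ⟨R₀, hR₀, hle⟩ : ∃ R₀ : ℝ, 0 < R₀ ∧ R₀ < R' ∧ ∀ i, R₀ < R i := by
    rcases isEmpty_or_nonempty (Fin K) with h | h
    · exact ⟨R' / 2, half_pos hR', half_lt_self hR', fun i => (h.false i).elim⟩
    · have h0 : 0 < min R' (Finset.univ.inf' Finset.univ_nonempty R) := by
        apply lt_min hR'
        rw [Finset.lt_inf'_iff]
        exact fun i _ => hR i
      refine ⟨min R' (Finset.univ.inf' Finset.univ_nonempty R) / 2, half_pos h0,
        (half_lt_self h0).trans_le (min_le_left _ _), fun i => ?_⟩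
      exact (half_lt_self h0).trans_le ((min_le_right _ _).trans
        (Finset.inf'_le _ (Finset.mem_univ i)))
  have hsub : closedBall (0 : E 4) R₀ ⊆ ball 0 R' := closedBall_subset_ball hle.1
  have hsub' : ∀ i, closedBall (0 : E 4) R₀ ⊆ ball 0 (R i) := fun i =>
    closedBall_subset_ball (hle.2 i)
  refine ⟨R₀, hR₀, fun q hq => (hball q (hsub hq)).1,
    fun a ha b hb hab => hinj' (hball a (hsub ha)).2
      (hball b (hsub hb)).2 hab, fun q => ∑ i, D i q, ?_, ?_, ?_, ?_⟩
  · exact continuousOn_finsetSum _ fun i _ => (hDc i).mono (hsub' i)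
  · exact fun q => Finset.sum_nonneg fun i _ => hD0 i q
  · obtain ⟨i, p, hp, hpx⟩ := hA.cov (B 0)
    apply Finset.sum_pos' (fun i _ => hD0 i 0)
    exact ⟨i, Finset.mem_univ _, hDp i ⟨p, by linarith, hpx⟩⟩
  · intro r hr F hFc hFz
    have hsr : ball (0 : E 4) r ⊆ closedBall 0 R₀ := (ball_subset_ball hr).trans ball_subset_closedBall
    rw [nu_integral hj hA hFc]
    have h1 : ∀ i, ∫ q : E 4, wt q * F (j (A i q)) =
        ∫ q in ball (0 : E 4) r, D i q * F (j (B q)) := by
      intro i
      rw [hF i (fun x => F (j x)) (fun x hx => hFz x fun h => hx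
        (image_mono (hsr.trans (hsub' i)) h))]
      apply setIntegral_eq_of_subset_of_forall_sdiff_eq_zero measurableSet_ball
        (hsr.trans (hsub' i))
      intro q hq
      rw [hFz, mul_zero]
      rintro ⟨q', hq', he⟩
      apply hq.2
      rw [← hinj i (hsub' i (hsr hq')) hq.1 he]
      exact hq'
    simp only [h1, Finset.sum_mul]
    rw [integral_finsetSum]
    intro i _
    have h2 : ContinuousOn (fun q => D i q * F (j (B q))) (closedBall 0 R₀) := by
      apply ((hDc i).mono (hsub' i)).mul
      have h3 : Continuous (fun x => F (j x)) := hFc.comp hj.smooth.continuous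
      exact h3.comp_continuousOn fun q hq => (hball q (hsub hq)).1.continuousAt.continuousWithinAt
    exact (h2.integrableOn_compact (isCompact_closedBall _ _)).mono_set hsr

end Pool.Agent.T2H18
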