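import Mathlib
import Pool.Agent.T2H18.Dens

/-!
# Small scale integrals over the manifold against flat integrals
-/

set_option autoImplicit false

open Set Filter Topology Metric Function MeasureTheory
open scoped ContDiff RealInnerProductSpace Manifold

noncomputable section

namespace Pool.Agent.T2H18

open Pool.Agent.Y522 (LD)

/-- uniform strict differentiability -/
theorem unif_strict {n : ℕ} {c : E 4 → E n} {R : ℝ}
    (hc : ∀ q ∈ closedBall (0 : E 4) R, ContDiffAt ℝ ∞ c q) {τ : ℝ} (hτ : 0 < τ) :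
    ∃ ρ : ℝ, 0 < ρ ∧ ∀ p ∈ closedBall (0 : E 4) R, ∀ q ∈ closedBall (0 : E 4) R, ‖q - p‖ ≤ ρ →
      ‖c q - c p - fderiv ℝ c p (q - p)‖ ≤ τ * ‖q - p‖ := by
  have h1 : ContinuousOn (fderiv ℝ c) (closedBall (0 : E 4) R) := fun q hq =>
    ((hc q hq).fderiv_right (m := 0) (by simp)).continuousAt.continuousWithinAt
  have h2 := (isCompact_closedBall (0 : E 4) R).uniformContinuousOn_of_continuous h1
  rw [Metric.uniformContinuousOn_iff] at h2
  obtain ⟨ρ, hρ, h3⟩ := h2 τ hτ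
  refine ⟨ρ / 2, half_pos hρ, fun p hp q hq hqp => ?_⟩
  have hconv : Convex ℝ (closedBall (0 : E 4) R ∩ closedBall p (ρ / 2)) :=
    (convex_closedBall _ _).inter (convex_closedBall _ _)
  have hρ2 : 0 ≤ ρ / 2 := by positivity
  apply hconv.norm_image_sub_le_of_norm_hasFDerivWithin_le'
    (f' := fderiv ℝ c) (fun x hx => ?_) (fun x hx => ?_) ⟨hp, mem_closedBall_self hρ2⟩
    ⟨hq, by simpa [dist_eq_norm] using hqp⟩
  · exact ((hc x hx.1).differentiableAt (by simp)).hasFDerivAt.hasFDerivWithinAt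
  · have h4 := h3 x hx.1 p hp (by
      have := hx.2
      rw [mem_closedBall] at this
      linarith)
    rw [dist_eq_norm] at h4
    exact h4.le

variable {M : Type*} [TopologicalSpace M] [ChartedSpace (E 4) M]
variable {m : ℕ} {j : M → E m} {K : ℕ} {A : Fin K → E 4 → M}

theorem vol_ball_le (p : E 4) {r : ℝ} (hr : 0 < r) : volume.real (ball p r) ≤ 5 * r ^ 4 := by
  have h1 : volume.real (ball p r) = Real.pi ^ 2 / 2 * r ^ 4 := by
    rw [Measure.real,
      InnerProductSpace.volume_ball_of_dim_even (E := E 4) (k := 2) (by simp) p r]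
    simp only [finrank_euclideanSpace, Fintype.card_fin]
    rw [← ENNReal.ofReal_pow hr.le, ← ENNReal.ofReal_mul (by positivity),
      ENNReal.toReal_ofReal (by positivity)]
    norm_num [Nat.factorial]
    ring
  rw [h1]
  have h2 := Real.pi_lt_d2
  have h3 := Real.pi_pos
  have h4 : Real.pi ^ 2 / 2 ≤ 5 := by nlinarith
  exact mul_le_mul_of_nonneg_right h4 (by positivity)

/-- the geometry of a normalised parametrisation near its centre -/
structure Nice (j : M → E m) (B : E 4 → M) (τ₀ R : ℝ) : Prop where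
  ld : ∀ q ∈ closedBall (0 : E 4) R, LD 4 B q
  inj : InjOn B (closedBall 0 R)
  low : ∀ p ∈ closedBall (0 : E 4) R, ∀ v, (1 - τ₀) * ‖v‖ ≤ ‖fderiv ℝ (fun q => j (B q)) p v‖
  up : ∀ p ∈ closedBall (0 : E 4) R, ∀ v, ‖fderiv ℝ (fun q => j (B q)) p v‖ ≤ (1 + τ₀) * ‖v‖
  low' : ∀ p ∈ closedBall (0 : E 4) R, ∀ q ∈ closedBall (0 : E 4) R,
    (1 - τ₀) * ‖q - p‖ ≤ ‖j (B q) - j (B p)‖
  up' : ∀ p ∈ closedBall (0 : E 4) R, ∀ q ∈ closedBall (0 : E 4) R,
    ‖j (B q) - j (B p)‖ ≤ (1 + τ₀) * ‖q - p‖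

theorem cd_of_LD (hj : Emb j) {B : E 4 → M} {q : E 4} (h : LD 4 B q) :
    ContDiffAt ℝ ∞ (fun q => j (B q)) q :=
  contMDiffAt_iff_contDiffAt.1 ((hj.smooth (B q)).comp q h.contMDiffAt)

theorem exists_nice (hj : Emb j) {B : E 4 → M} (hB : LD 4 B 0)
    (hiso : ∀ v, ‖fderiv ℝ (fun q => j (B q)) 0 v‖ = ‖v‖) {τ₀ R₁ : ℝ} (hτ₀ : 0 < τ₀)
    (hR₁ : 0 < R₁) : ∃ R : ℝ, 0 < R ∧ R ≤ R₁ ∧ ∀ R', 0 < R' → R' ≤ R → Nice j B τ₀ R' := by
  obtain ⟨u, hu, hinj⟩ := hB.eventually_injOn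
  set c : E 4 → E m := fun q => j (B q) with hc
  have hcd : ContDiffAt ℝ ∞ c 0 := cd_of_LD hj hB
  have h1 : ContinuousAt (fderiv ℝ c) 0 := (hcd.fderiv_right (m := 0) (by simp)).continuousAt
  have h2 : ∀ᶠ q in 𝓝 (0 : E 4), ‖fderiv ℝ c q - fderiv ℝ c 0‖ < τ₀ := by
    have h3 : Tendsto (fun q => ‖fderiv ℝ c q - fderiv ℝ c 0‖) (𝓝 0) (𝓝 0) := by
      have := (h1.tendsto.sub_const (fderiv ℝ c 0)).norm
      simpa using this
    exact h3.eventually (gt_mem_nhds hτ₀)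
  obtain ⟨R', hR', hball⟩ := Metric.eventually_nhds_iff_ball.1 ((hB.eventually.and hu).and h2)
  refine ⟨min (R' / 2) R₁, lt_min (half_pos hR') hR₁, min_le_right _ _, fun R hR hRR => ?_⟩
  have hsub : closedBall (0 : E 4) R ⊆ ball 0 R' := closedBall_subset_ball
    (lt_of_le_of_lt (hRR.trans (min_le_left _ _)) (half_lt_self hR'))
  have hd : ∀ p ∈ closedBall (0 : E 4) R, ∀ v, ‖fderiv ℝ c p v - fderiv ℝ c 0 v‖ ≤ τ₀ * ‖v‖ := by
    intro p hp v
    rw [← sub_apply]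
    exact (ContinuousLinearMap.le_opNorm _ _).trans
      (mul_le_mul_of_nonneg_right (hball p (hsub hp)).2.le (norm_nonneg _))
  have hd' : ∀ p ∈ closedBall (0 : E 4) R, ∀ q ∈ closedBall (0 : E 4) R,
      ‖c q - c p - fderiv ℝ c 0 (q - p)‖ ≤ τ₀ * ‖q - p‖ := by
    intro p hp q hq
    apply (convex_closedBall (0 : E 4) R).norm_image_sub_le_of_norm_hasFDerivWithin_le'
      (f' := fderiv ℝ c) (fun x hx => ?_) (fun x hx => ?_) hp hq
    · exact ((cd_of_LD hj (hball x (hsub hx)).1.1).differentiableAt (by simp)).hasFDerivAt.hasFDerivWithinAt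
    · exact (hball x (hsub hx)).2.le
  refine ⟨fun q hq => (hball q (hsub hq)).1.1, fun a ha b hb hab => hinj (hball a (hsub ha)).1.2
    (hball b (hsub hb)).1.2 hab, fun p hp v => ?_, fun p hp v => ?_, fun p hp q hq => ?_,
    fun p hp q hq => ?_⟩
  · have h3 := hd p hp v
    have h4 := norm_sub_norm_le (fderiv ℝ c 0 v) (fderiv ℝ c p v)
    rw [hiso, norm_sub_rev] at h4
    linarith
  · have h3 := hd p hp v
    have h4 := norm_sub_norm_le (fderiv ℝ c p v) (fderiv ℝ c 0 v)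
    rw [hiso] at h4
    linarith
  · have h3 := hd' p hp q hq
    have h4 := norm_sub_norm_le (fderiv ℝ c 0 (q - p)) (c q - c p)
    rw [hiso, norm_sub_rev _ (c q - c p)] at h4
    change _ ≤ ‖c q - c p‖
    linarith
  · have h3 := hd' p hp q hq
    have h4 := norm_sub_norm_le (c q - c p) (fderiv ℝ c 0 (q - p))
    rw [hiso] at h4
    change ‖c q - c p‖ ≤ _
    linarith

theorem Nice.far [CompactSpace M] (hj : Emb j) {B : E 4 → M} {τ₀ R : ℝ} (hN : Nice j B τ₀ R)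
    (hR0 : 0 < R) : ∃ β : ℝ, 0 < β ∧ ∀ p ∈ closedBall (0 : E 4) (R / 2), ∀ x,
      x ∉ B '' ball (0 : E 4) R → β ≤ ‖j x - j (B p)‖ := by
  set c : E 4 → E m := fun q => j (B q) with hc
  have hop : IsOpen (B '' ball (0 : E 4) R) :=
    Pool.Agent.Y522.isOpen_image_of_LD isOpen_ball fun x hx => hN.ld x (ball_subset_closedBall hx)
  have hsub2 : closedBall (0 : E 4) (R / 2) ⊆ closedBall 0 R :=
    closedBall_subset_closedBall (by linarith)
  have hcp : ContinuousOn c (closedBall (0 : E 4) (R / 2)) := fun q hq =>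
    (cd_of_LD hj (hN.ld q (hsub2 hq))).continuousAt.continuousWithinAt
  have hK1 : IsCompact ((B '' ball (0 : E 4) R)ᶜ ×ˢ closedBall (0 : E 4) (R / 2)) :=
    hop.isClosed_compl.isCompact.prod (isCompact_closedBall _ _)
  have hfc : ContinuousOn (fun y : M × E 4 => ‖j y.1 - c y.2‖)
      ((B '' ball (0 : E 4) R)ᶜ ×ˢ closedBall (0 : E 4) (R / 2)) := by
    apply ContinuousOn.norm
    apply ContinuousOn.sub
    · exact (hj.smooth.continuous.comp continuous_fst).continuousOn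
    · exact hcp.comp continuousOn_snd fun y hy => hy.2
  rcases ((B '' ball (0 : E 4) R)ᶜ ×ˢ closedBall (0 : E 4) (R / 2)).eq_empty_or_nonempty with h | h
  · refine ⟨1, one_pos, fun p hp x hx => ?_⟩
    exfalso
    have : (x, p) ∈ (B '' ball (0 : E 4) R)ᶜ ×ˢ closedBall (0 : E 4) (R / 2) := ⟨hx, hp⟩
    rw [h] at this
    exact this
  · obtain ⟨y₁, hy₁, hmin⟩ := hK1.exists_isMinOn h hfc
    refine ⟨‖j y₁.1 - c y₁.2‖, ?_, fun p hp x hx =>
      isMinOn_iff.1 hmin (x, p) (mem_prod.2 ⟨hx, hp⟩)⟩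
    rw [norm_pos_iff, sub_ne_zero]
    intro h2
    apply hy₁.1
    have h3 := hj.inj h2
    refine ⟨y₁.2, ?_, h3.symm⟩
    have h4 := hy₁.2
    rw [mem_closedBall] at h4
    rw [mem_ball]
    linarith

/-- comparison of small scale integrals -/
theorem compare [T2Space M] [CompactSpace M] (hj : Emb j) (hA : Atl A) {B : E 4 → M}
    (hB : LD 4 B 0) (hiso : ∀ v, ‖fderiv ℝ (fun q => j (B q)) 0 v‖ = ‖v‖) {τ₀ R₁ : ℝ}
    (hτ₀ : 0 < τ₀) (hτ1 : τ₀ ≤ 1 / 2) (hR₁ : 0 < R₁) :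
    ∃ R : ℝ, 0 < R ∧ R ≤ R₁ ∧ Nice j B τ₀ R ∧
      ∃ D : E 4 → ℝ, (∀ q ∈ closedBall (0 : E 4) R, 0 < D q) ∧
      ∀ Ψ : E m → E m → ℝ, Test Ψ → ∀ τ : ℝ, 0 < τ → ∀ᶠ r in 𝓝[>] (0:ℝ),
        ∀ p ∈ closedBall (0 : E 4) (R / 2), ∀ w : E 4, ‖w‖ ≤ 2 →
        ∀ F₀ : E m → ℝ, Continuous F₀ → ∀ Ω : ℝ, 0 ≤ Ω →
          (∀ q ∈ ball p (2 * r), |F₀ (j (B q))| ≤ Ω) →
        |∫ t, Ψ (r⁻¹ • (t - j (B p))) (fderiv ℝ (fun q => j (B q)) p w) * F₀ t ∂(nu j A) -
          D p * ∫ q in ball p (2 * r), Ψ (r⁻¹ • fderiv ℝ (fun q => j (B q)) p (q - p))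
            (fderiv ℝ (fun q => j (B q)) p w) * F₀ (j (B q))| ≤ τ * D p * r ^ 4 * Ω := by
  obtain ⟨Ra, hRa, hLDa, hinja, D, hDc, hD0, hDp, hdens⟩ := density hj hA hB
  obtain ⟨Rb, hRb, hRb1, hnice⟩ := exists_nice hj hB hiso hτ₀ hR₁
  -- positivity of the density
  obtain ⟨Rc, hRc, hDpos⟩ : ∃ Rc : ℝ, 0 < Rc ∧ ∀ q ∈ ball (0 : E 4) Rc, 0 < D q := by
    have h1 : ContinuousAt D 0 := hDc.continuousAt (closedBall_mem_nhds _ hRa)
    obtain ⟨Rc, hRc, h2⟩ := Metric.eventually_nhds_iff_ball.1 (h1.eventually (lt_mem_nhds hDp))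
    exact ⟨Rc, hRc, h2⟩
  set R := min (min Ra Rb) (Rc / 2) with hR
  have hR0 : 0 < R := lt_min (lt_min hRa hRb) (half_pos hRc)
  have hRRa : R ≤ Ra := (min_le_left _ _).trans (min_le_left _ _)
  have hRRb : R ≤ Rb := (min_le_left _ _).trans (min_le_right _ _)
  have hRRc : R < Rc := lt_of_le_of_lt (min_le_right _ _) (half_lt_self hRc)
  have hN := hnice R hR0 hRRb
  have hDpos' : ∀ q ∈ closedBall (0 : E 4) R, 0 < D q := fun q hq =>
    hDpos q (closedBall_subset_ball hRRc hq)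
  refine ⟨R, hR0, hRRb.trans hRb1, hN, D, hDpos', ?_⟩
  intro Ψ hΨ τ hτ
  set c : E 4 → E m := fun q => j (B q) with hc
  have hDcR : ContinuousOn D (closedBall (0 : E 4) R) := hDc.mono (closedBall_subset_closedBall hRRa)
  have hcomp : IsCompact (closedBall (0 : E 4) R) := isCompact_closedBall _ _
  have hne : (closedBall (0 : E 4) R).Nonempty := ⟨0, mem_closedBall_self hR0.le⟩
  -- bounds
  obtain ⟨D₁, hD₁⟩ := hcomp.exists_bound_of_continuousOn hDcR
  obtain ⟨q₁, hq₁, hqmin⟩ := hcomp.exists_isMinOn hne hDcR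
  set D₀ := D q₁ with hD₀
  have hD₀pos : 0 < D₀ := hDpos' q₁ hq₁
  have hD₀le : ∀ q ∈ closedBall (0 : E 4) R, D₀ ≤ D q := fun q hq => hqmin hq
  have hKK : IsCompact (closedBall (0 : E m) 4 ×ˢ closedBall (0 : E m) 4) :=
    (isCompact_closedBall _ _).prod (isCompact_closedBall _ _)
  obtain ⟨C, hC⟩ := hKK.exists_bound_of_continuousOn hΨ.cont.continuousOn
  have hC0 : 0 ≤ C := (norm_nonneg _).trans (hC (0, 0) ⟨by simp, by simp⟩)
  have hD10 : 0 < D₁ := hD₀pos.trans_le ((le_abs_self _).trans (hD₁ q₁ hq₁))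
  -- moduli
  have hτ' : 0 < τ * D₀ / 80 := by positivity
  set τ₁ := τ * D₀ / 80 / (2 * (C + 1)) with hτ₁
  set τ₂ := τ * D₀ / 80 / (2 * D₁) with hτ₂
  have hτ₁0 : 0 < τ₁ := by positivity
  have hτ₂0 : 0 < τ₂ := by positivity
  have hDu := hcomp.uniformContinuousOn_of_continuous hDcR
  rw [Metric.uniformContinuousOn_iff] at hDu
  obtain ⟨ρ₁, hρ₁, hD⟩ := hDu τ₁ hτ₁0
  have hΨu := hKK.uniformContinuousOn_of_continuous hΨ.cont.continuousOn
  rw [Metric.uniformContinuousOn_iff] at hΨu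
  obtain ⟨σ, hσ, hΨ'⟩ := hΨu τ₂ hτ₂0
  obtain ⟨ρ₂, hρ₂, hstr⟩ := unif_strict (c := c) (R := R) (fun q hq => cd_of_LD hj (hN.ld q hq))
    (show 0 < σ / 4 by positivity)
  -- far points
  obtain ⟨β, hβ, hfar⟩ := hN.far hj hR0
  -- the scale
  have hscale : 0 < min (min (ρ₁ / 2) (ρ₂ / 2)) (min β (R / 4)) := by positivity
  filter_upwards [Ioo_mem_nhdsGT hscale] with r hr p hp w hw F₀ hF₀ Ω hΩ hbd
  have hr0 : 0 < r := hr.1
  have hr1 : r < ρ₁ / 2 := hr.2.trans_le ((min_le_left _ _).trans (min_le_left _ _))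
  have hr2 : r < ρ₂ / 2 := hr.2.trans_le ((min_le_left _ _).trans (min_le_right _ _))
  have hr3 : r < β := hr.2.trans_le ((min_le_right _ _).trans (min_le_left _ _))
  have hr4 : r < R / 4 := hr.2.trans_le ((min_le_right _ _).trans (min_le_right _ _))
  have hsub2 : closedBall (0 : E 4) (R / 2) ⊆ closedBall 0 R :=
    closedBall_subset_closedBall (by linarith)
  have hpR := hsub2 hp
  have hballsub : ball p (2 * r) ⊆ ball (0 : E 4) R := by
    intro q hq
    rw [mem_ball] at hq ⊢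
    rw [mem_closedBall] at hp
    linarith [dist_triangle q p 0]
  set W := fderiv ℝ c p w with hW
  have hWn : ‖W‖ ≤ 4 := by
    have := hN.up p hpR w
    have h5 : (1 + τ₀) * ‖w‖ ≤ (1 + 1/2) * 2 := by gcongr
    refine this.trans ?_
    linarith
  have hFc : Continuous (fun t : E m => Ψ (r⁻¹ • (t - c p)) W * F₀ t) := by
    have h1 := hΨ.cont
    have h2 : Continuous (fun t : E m => (r⁻¹ • (t - c p), W)) := by fun_prop
    exact (h1.comp h2).mul hF₀
  have e1 := hdens R hRRa (fun t => Ψ (r⁻¹ • (t - c p)) W * F₀ t) hFc (fun x hx => by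
    have h1 := hfar p hp x hx
    rw [hΨ.supp, zero_mul]
    rw [norm_smul, norm_inv, Real.norm_eq_abs, abs_of_pos hr0, ← div_eq_inv_mul,
      le_div_iff₀ hr0]
    linarith)
  have e2 : ∫ q in ball (0 : E 4) R, D q * (Ψ (r⁻¹ • (j (B q) - c p)) W * F₀ (j (B q))) =
      ∫ q in ball p (2 * r), D q * (Ψ (r⁻¹ • (j (B q) - c p)) W * F₀ (j (B q))) := by
    apply setIntegral_eq_of_subset_of_forall_sdiff_eq_zero measurableSet_ball hballsub
    intro q hq
    rw [hΨ.supp, zero_mul, mul_zero]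
    have h1 := hN.low' p hpR q (ball_subset_closedBall hq.1)
    have h2 : 2 * r ≤ ‖q - p‖ := by
      have := hq.2
      rwa [mem_ball, not_lt, dist_eq_norm] at this
    rw [norm_smul, norm_inv, Real.norm_eq_abs, abs_of_pos hr0, ← div_eq_inv_mul,
      le_div_iff₀ hr0]
    have h3 : (1 - 1/2) * (2 * r) ≤ (1 - τ₀) * ‖q - p‖ := by
      apply mul_le_mul (by linarith) h2 (by positivity) (by linarith)
    change 1 * r ≤ ‖j (B q) - j (B p)‖
    linarith
  rw [e1, e2, ← integral_const_mul]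
  have hcb : ContinuousOn c (closedBall (0 : E 4) R) := fun q hq =>
    (cd_of_LD hj (hN.ld q hq)).continuousAt.continuousWithinAt
  have hcl : closedBall p (2 * r) ⊆ closedBall (0 : E 4) R := by
    intro q hq
    rw [mem_closedBall] at hq ⊢
    rw [mem_closedBall] at hp
    linarith [dist_triangle q p 0]
  have i1 : IntegrableOn (fun q => D q * (Ψ (r⁻¹ • (j (B q) - c p)) W * F₀ (j (B q))))
      (ball p (2 * r)) := by
    have h1 : ContinuousOn (fun q => D q * (Ψ (r⁻¹ • (c q - c p)) W * F₀ (c q)))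
        (closedBall p (2 * r)) := by
      apply (hDcR.mono hcl).mul
      exact hFc.comp_continuousOn (hcb.mono hcl)
    exact (h1.integrableOn_compact (isCompact_closedBall _ _)).mono_set ball_subset_closedBall
  have i2 : IntegrableOn (fun q => D p * (Ψ (r⁻¹ • fderiv ℝ c p (q - p)) W * F₀ (j (B q))))
      (ball p (2 * r)) := by
    have h1 : ContinuousOn (fun q => D p * (Ψ (r⁻¹ • fderiv ℝ c p (q - p)) W * F₀ (c q)))
        (closedBall p (2 * r)) := by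
      apply continuousOn_const.mul
      apply ContinuousOn.mul
      · have h2 : Continuous (fun q : E 4 => (r⁻¹ • fderiv ℝ c p (q - p), W)) := by fun_prop
        exact (hΨ.cont.comp h2).continuousOn
      · exact hF₀.comp_continuousOn (hcb.mono hcl)
    exact (h1.integrableOn_compact (isCompact_closedBall _ _)).mono_set ball_subset_closedBall
  rw [← integral_sub i1 i2]
  have hpt : ∀ q ∈ ball p (2 * r), ‖D q * (Ψ (r⁻¹ • (j (B q) - c p)) W * F₀ (j (B q))) -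
      D p * (Ψ (r⁻¹ • fderiv ℝ c p (q - p)) W * F₀ (j (B q)))‖ ≤ τ * D₀ / 80 * Ω := by
    intro q hq
    have hqR : q ∈ closedBall (0 : E 4) R := ball_subset_closedBall (hballsub hq)
    have hqp : ‖q - p‖ < 2 * r := by rwa [mem_ball, dist_eq_norm] at hq
    have h1 : D q * (Ψ (r⁻¹ • (j (B q) - c p)) W * F₀ (j (B q))) -
      D p * (Ψ (r⁻¹ • fderiv ℝ c p (q - p)) W * F₀ (j (B q))) =
      ((D q - D p) * Ψ (r⁻¹ • (c q - c p)) W + D p * (Ψ (r⁻¹ • (c q - c p)) W -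
        Ψ (r⁻¹ • fderiv ℝ c p (q - p)) W)) * F₀ (j (B q)) := by
      ring
    rw [h1, norm_mul]
    have hz1 : ‖r⁻¹ • (c q - c p)‖ ≤ 4 := by
      rw [norm_smul, norm_inv, Real.norm_eq_abs, abs_of_pos hr0, ← div_eq_inv_mul,
        div_le_iff₀ hr0]
      have h2 := hN.up' p hpR q hqR
      have h3 : (1 + τ₀) * ‖q - p‖ ≤ (1 + 1/2) * (2 * r) := by gcongr
      change ‖j (B q) - j (B p)‖ ≤ _
      linarith
    have hz2 : ‖r⁻¹ • fderiv ℝ c p (q - p)‖ ≤ 4 := by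
      rw [norm_smul, norm_inv, Real.norm_eq_abs, abs_of_pos hr0, ← div_eq_inv_mul,
        div_le_iff₀ hr0]
      have h2 := hN.up p hpR (q - p)
      have h3 : (1 + τ₀) * ‖q - p‖ ≤ (1 + 1/2) * (2 * r) := by gcongr
      linarith
    have hz3 : ‖r⁻¹ • (c q - c p) - r⁻¹ • fderiv ℝ c p (q - p)‖ < σ := by
      rw [← smul_sub, norm_smul, norm_inv, Real.norm_eq_abs, abs_of_pos hr0, ← div_eq_inv_mul,
        div_lt_iff₀ hr0]
      have h2 := hstr p hpR q hqR (by linarith)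
      have h3 : σ / 4 * ‖q - p‖ ≤ σ / 4 * (2 * r) := by gcongr
      have : 0 < σ * r := by positivity
      linarith
    have hb1 : |D q - D p| ≤ τ₁ := by
      have h2 := hD q hqR p hpR (by rw [dist_eq_norm]; linarith)
      rw [Real.dist_eq] at h2
      exact h2.le
    have hb2 : |Ψ (r⁻¹ • (c q - c p)) W| ≤ C := hC (_, _) ⟨by simpa using hz1, by simpa using hWn⟩
    have hb3 : |Ψ (r⁻¹ • (c q - c p)) W - Ψ (r⁻¹ • fderiv ℝ c p (q - p)) W| ≤ τ₂ := by
      have h2 := hΨ' (r⁻¹ • (c q - c p), W) ⟨by simpa using hz1, by simpa using hWn⟩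
        (r⁻¹ • fderiv ℝ c p (q - p), W) ⟨by simpa using hz2, by simpa using hWn⟩ (by
          rw [Prod.dist_eq, dist_self, max_eq_left dist_nonneg, dist_eq_norm]
          exact hz3)
      rw [Real.dist_eq] at h2
      exact h2.le
    have hb4 : |D p| ≤ D₁ := hD₁ p hpR
    apply mul_le_mul _ (hbd q hq) (abs_nonneg _) hτ'.le
    rw [Real.norm_eq_abs]
    refine (abs_add_le _ _).trans ?_
    rw [abs_mul, abs_mul]
    have h5 : |D q - D p| * |Ψ (r⁻¹ • (c q - c p)) W| ≤ τ₁ * (C + 1) :=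
      mul_le_mul hb1 (by linarith) (abs_nonneg _) hτ₁0.le
    have h6 : |D p| * |Ψ (r⁻¹ • (c q - c p)) W - Ψ (r⁻¹ • fderiv ℝ c p (q - p)) W| ≤ D₁ * τ₂ :=
      mul_le_mul hb4 hb3 (abs_nonneg _) hD10.le
    have h7 : τ₁ * (C + 1) = τ * D₀ / 80 / 2 := by
      rw [hτ₁]
      field_simp
    have h8 : D₁ * τ₂ = τ * D₀ / 80 / 2 := by
      rw [hτ₂]
      field_simp
    linarith
  have hvol := vol_ball_le p (show 0 < 2 * r by positivity)
  calc |∫ q in ball p (2 * r), (D q * (Ψ (r⁻¹ • (j (B q) - c p)) W * F₀ (j (B q))) -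
      D p * (Ψ (r⁻¹ • fderiv ℝ c p (q - p)) W * F₀ (j (B q))))| ≤
      τ * D₀ / 80 * Ω * volume.real (ball p (2 * r)) := by
        rw [← Real.norm_eq_abs]
        exact norm_setIntegral_le_of_norm_le_const measure_ball_lt_top hpt
    _ ≤ τ * D₀ / 80 * Ω * (5 * (2 * r) ^ 4) := by gcongr
    _ = τ * D₀ * r ^ 4 * Ω := by ring
    _ ≤ τ * D p * r ^ 4 * Ω := by
        have := hD₀le p hpR
        gcongr

end Pool.Agent.T2H18
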