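import Mathlib
import Pool.Agent.T2H18.Cmp
import Pool.Agent.T2H18.Unif

/-!
# Integration by parts for the flat kernel against a Lipschitz map
-/

set_option autoImplicit false

open Set Filter Topology Metric Function MeasureTheory
open scoped ContDiff RealInnerProductSpace NNReal

noncomputable section

namespace Pool.Agent.T2H18

variable {e : ℝ} {k : ℝ → ℝ} {m n : ℕ}

/-- the flat kernel pulled back by a linear map -/
theorem flat_kernel (hk : Ker e k) {r α : ℝ} (hr : 0 < r) (hα : 0 < α) {J : E 4 →L[ℝ] E m}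
    (hJ : ∀ v, α * ‖v‖ ≤ ‖J v‖) (p : E 4) :
    ContDiff ℝ ∞ (fun q => k (‖r⁻¹ • J (q - p)‖ ^ 2)) ∧
    HasCompactSupport (fun q => k (‖r⁻¹ • J (q - p)‖ ^ 2)) ∧
    ∀ q w, lineDeriv ℝ (fun q => k (‖r⁻¹ • J (q - p)‖ ^ 2)) q w =
      -(r⁻¹ * rho k (r⁻¹ • J (q - p)) (J w)) := by
  refine ⟨?_, ?_, fun q w => ?_⟩
  · have h1 : ContDiff ℝ ∞ (fun q : E 4 => r⁻¹ • J (q - p)) :=
      (J.contDiff.comp (contDiff_id.sub contDiff_const)).const_smul r⁻¹
    exact hk.smooth.comp (h1.norm_sq ℝ)
  · apply HasCompactSupport.intro (isCompact_closedBall p (r / α))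
    intro q hq
    rw [mem_closedBall, not_le, dist_eq_norm, div_lt_iff₀ hα] at hq
    apply hk.zero
    apply one_le_sq
    rw [norm_smul, norm_inv, Real.norm_eq_abs, abs_of_pos hr, ← div_eq_inv_mul, le_div_iff₀ hr]
    have := hJ (q - p)
    linarith
  · have h1 : HasFDerivAt (fun q : E 4 => r⁻¹ • J (q - p)) (r⁻¹ • J) q := by
      have h2 : HasFDerivAt (fun q : E 4 => q - p) (ContinuousLinearMap.id ℝ (E 4)) q :=
        (hasFDerivAt_id q).sub_const p
      have h3 := (J.hasFDerivAt.comp q h2).const_smul r⁻¹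
      exact h3
    have h4 := (hk.hasFDerivAt (r⁻¹ • J (q - p))).comp q h1
    have h5 : HasFDerivAt (fun q => k (‖r⁻¹ • J (q - p)‖ ^ 2)) _ q := h4
    rw [h5.differentiableAt.lineDeriv_eq_fderiv, h5.fderiv]
    simp only [rho, ContinuousLinearMap.comp_apply, smul_apply, innerSL_apply_apply,
      inner_smul_right, smul_eq_mul]
    ring

/-- integration by parts -/
theorem ibp_scalar (hk : Ker e k) {r α : ℝ} (hr : 0 < r) (hα : 0 < α) {J : E 4 →L[ℝ] E m}
    (hJ : ∀ v, α * ‖v‖ ≤ ‖J v‖) (p w : E 4) {φ : E 4 → ℝ} {L : ℝ≥0} (hφ : LipschitzWith L φ) :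
    ∫ q, rho k (r⁻¹ • J (q - p)) (J w) * φ q =
      r * ∫ q, k (‖r⁻¹ • J (q - p)‖ ^ 2) * fderiv ℝ φ q w := by
  obtain ⟨h1, h2, h3⟩ := flat_kernel hk hr hα hJ p
  obtain ⟨D, hD⟩ := ContDiff.lipschitzWith_of_hasCompactSupport h2 h1 (by simp)
  have h4 := hφ.integral_lineDeriv_mul_eq (μ := volume) hD h2 w
  have hae : ∀ᵐ t : E 4, DifferentiableAt ℝ φ t := hφ.ae_differentiableAt
  have h5 : ∫ t, lineDeriv ℝ φ t w * k (‖r⁻¹ • J (t - p)‖ ^ 2) =
      ∫ q, k (‖r⁻¹ • J (q - p)‖ ^ 2) * fderiv ℝ φ q w := by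
    apply integral_congr_ae
    filter_upwards [hae] with t ht
    rw [ht.lineDeriv_eq_fderiv, mul_comm]
  rw [← h5, h4, ← integral_const_mul]
  congr 1
  funext q
  rw [h3, map_neg]
  have h6 : ∀ z w : E m, rho k z (-w) = -rho k z w := by
    intro z w
    simp only [rho, inner_neg_right]
    ring
  rw [h6]
  field_simp

theorem vol_ball_eq (p : E 4) {r : ℝ} (hr : 0 ≤ r) :
    volume.real (ball p r) = Real.pi ^ 2 / 2 * r ^ 4 := by
  rw [Measure.real,
    InnerProductSpace.volume_ball_of_dim_even (E := E 4) (k := 2) (by simp) p r]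
  simp only [finrank_euclideanSpace, Fintype.card_fin]
  rw [← ENNReal.ofReal_pow hr, ← ENNReal.ofReal_mul (by positivity),
    ENNReal.toReal_ofReal (by positivity)]
  norm_num [Nat.factorial]
  ring

/-- The flat kernel integral of a Lipschitz map is close to the integral of the derivative over the
ball. -/
theorem flat_est {s : ℝ} (hk : Ker e k) (hs : 0 < s) (hs1 : s ≤ 1) (he : e ≤ s / 4)
    {r : ℝ} (hr : 0 < r) {J : E 4 →L[ℝ] E m} (hJ : ∀ v, (1 - s / 4) * ‖v‖ ≤ ‖J v‖)
    (hJ' : ∀ v, ‖J v‖ ≤ (1 + s / 4) * ‖v‖) (p w : E 4) {f : E 4 → E n} {L : ℝ≥0}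
    (hf : LipschitzOnWith L f (ball p (2 * r))) (u : E n) (hu : ‖u‖ = 1) (b : E n) :
    |(∫ q in ball p (2 * r), rho k (r⁻¹ • J (q - p)) (J w) * ⟪u, f q - b⟫) -
      r * ⟪u, ∫ q in ball p r, fderiv ℝ f q w⟫| ≤ r * (L * ‖w‖ * (80 * s * r ^ 4)) := by
  have hα : 0 < 1 - s / 4 := by linarith
  -- the scalar function
  have huL : LipschitzOnWith L (fun q => ⟪u, f q - b⟫) (ball p (2 * r)) := by
    apply LipschitzOnWith.of_dist_le_mul
    intro x hx y hy
    rw [Real.dist_eq, ← inner_sub_right]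
    have h1 : f x - b - (f y - b) = f x - f y := by abel
    rw [h1]
    refine (abs_real_inner_le_norm _ _).trans ?_
    rw [hu, one_mul, ← dist_eq_norm]
    exact hf.dist_le_mul x hx y hy
  obtain ⟨φ, hφ, hEq⟩ := huL.extend_real
  have e0 : ∀ q, q ∉ ball p (2 * r) → rho k (r⁻¹ • J (q - p)) (J w) = 0 := by
    intro q hq
    rw [mem_ball, not_lt, dist_eq_norm] at hq
    apply hk.rho_zero
    rw [norm_smul, norm_inv, Real.norm_eq_abs, abs_of_pos hr, ← div_eq_inv_mul, le_div_iff₀ hr]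
    have h1 := hJ (q - p)
    have h2 : (1 - s / 4) * (2 * r) ≤ (1 - s / 4) * ‖q - p‖ :=
      mul_le_mul_of_nonneg_left hq hα.le
    nlinarith
  have e1 : ∫ q in ball p (2 * r), rho k (r⁻¹ • J (q - p)) (J w) * ⟪u, f q - b⟫ =
      ∫ q, rho k (r⁻¹ • J (q - p)) (J w) * φ q := by
    have h1 : ∫ q in ball p (2 * r), rho k (r⁻¹ • J (q - p)) (J w) * ⟪u, f q - b⟫ =
        ∫ q in ball p (2 * r), rho k (r⁻¹ • J (q - p)) (J w) * φ q := by
      apply setIntegral_congr_fun measurableSet_ball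
      intro q hq
      simp only
      rw [show ⟪u, f q - b⟫ = φ q from hEq hq]
    rw [h1]
    apply setIntegral_eq_integral_of_forall_compl_eq_zero
    intro q hq
    rw [e0 q hq, zero_mul]
  have hsub : ball p r ⊆ ball p (2 * r) := ball_subset_ball (by linarith)
  have hdiff : ∀ᵐ q : E 4, q ∈ ball p (2 * r) → DifferentiableAt ℝ f q := by
    filter_upwards [hf.ae_differentiableWithinAt_of_mem] with q hq hqb
    exact (hq hqb).differentiableAt (isOpen_ball.mem_nhds hqb)
  have hfb : ∀ q ∈ ball p (2 * r), ‖fderiv ℝ f q‖ ≤ L := by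
    intro q hq
    exact norm_fderiv_le_of_lipschitzOn ℝ (isOpen_ball.mem_nhds hq) hf
  have hint : IntegrableOn (fun q => fderiv ℝ f q w) (ball p r) := by
    apply Integrable.mono' (g := fun _ => (L : ℝ) * ‖w‖)
      (integrableOn_const (measure_ball_lt_top.ne))
      (measurable_fderiv_apply_const ℝ f w).aestronglyMeasurable
    filter_upwards [ae_restrict_mem measurableSet_ball] with q hq
    exact (ContinuousLinearMap.le_opNorm _ _).trans
      (mul_le_mul_of_nonneg_right (hfb q (hsub hq)) (norm_nonneg _))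
  have e2 : ⟪u, ∫ q in ball p r, fderiv ℝ f q w⟫ = ∫ q in ball p r, fderiv ℝ φ q w := by
    rw [← integral_inner hint]
    apply setIntegral_congr_ae measurableSet_ball
    filter_upwards [hdiff] with q hq hqb
    have h1 := (hq (hsub hqb)).hasFDerivAt
    have h2 : HasFDerivAt (fun q => ⟪u, f q - b⟫) ((innerSL ℝ u).comp (fderiv ℝ f q)) q :=
      (innerSL ℝ u).hasFDerivAt.comp q (h1.sub_const b)
    have h3 : φ =ᶠ[𝓝 q] fun q => ⟪u, f q - b⟫ := by
      filter_upwards [isOpen_ball.mem_nhds (hsub hqb)] with y hy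
      exact (hEq hy).symm
    rw [(h2.congr_of_eventuallyEq h3).fderiv]
    rfl
  rw [e1, e2, ibp_scalar hk hr hα hJ p w hφ, ← mul_sub, abs_mul, abs_of_pos hr]
  apply mul_le_mul_of_nonneg_left _ hr.le
  -- the shell
  have hkc := hk.diff.continuous
  obtain ⟨k1, k2, -⟩ := flat_kernel hk hr hα hJ p
  have hφb : ∀ q, ‖fderiv ℝ φ q w‖ ≤ L * ‖w‖ := fun q =>
    (ContinuousLinearMap.le_opNorm _ _).trans
      (mul_le_mul_of_nonneg_right (norm_fderiv_le_of_lipschitz ℝ hφ) (norm_nonneg _))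
  have hφm : AEStronglyMeasurable (fun q => fderiv ℝ φ q w) volume :=
    (measurable_fderiv_apply_const ℝ φ w).aestronglyMeasurable
  have ik : Integrable (fun q => k (‖r⁻¹ • J (q - p)‖ ^ 2) * fderiv ℝ φ q w) := by
    apply Integrable.mono' (g := fun q => k (‖r⁻¹ • J (q - p)‖ ^ 2) * (L * ‖w‖))
      ((k1.continuous.integrable_of_hasCompactSupport k2).mul_const _)
      (k1.continuous.aestronglyMeasurable.mul hφm)
    refine Eventually.of_forall fun q => ?_
    simp only [Pi.mul_apply]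
    rw [norm_mul, Real.norm_eq_abs, abs_of_nonneg (hk.nonneg _)]
    exact mul_le_mul_of_nonneg_left (hφb q) (hk.nonneg _)
  have ib : Integrable (fun q => (ball p r).indicator (fun q => fderiv ℝ φ q w) q) := by
    apply (integrable_indicator_iff measurableSet_ball).2
    apply Integrable.mono' (g := fun _ => (L : ℝ) * ‖w‖)
      (integrableOn_const (measure_ball_lt_top.ne)) hφm.restrict
    exact Eventually.of_forall fun q => hφb q
  rw [← integral_indicator measurableSet_ball, ← integral_sub ik ib]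
  have hs1' : ∀ t : ℝ, Integrable (fun q : E 4 => (ball p t).indicator (fun _ => (1:ℝ)) q) := by
    intro t
    apply (integrable_indicator_iff measurableSet_ball).2
    exact integrableOn_const (measure_ball_lt_top.ne)
  have hbig : ‖∫ q, (k (‖r⁻¹ • J (q - p)‖ ^ 2) * fderiv ℝ φ q w -
      (ball p r).indicator (fun q => fderiv ℝ φ q w) q)‖ ≤
      ∫ q, (L * ‖w‖) * ((ball p ((1 + s) * r)).indicator (fun _ => (1:ℝ)) q -
        (ball p ((1 - s) * r)).indicator (fun _ => (1:ℝ)) q) := by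
    apply norm_integral_le_of_norm_le (((hs1' _).sub (hs1' _)).const_mul _)
    refine Eventually.of_forall fun q => ?_
    simp only [Pi.sub_apply]
    have hLw : 0 ≤ L * ‖w‖ := by positivity
    rcases lt_or_ge ‖q - p‖ ((1 - s) * r) with h1 | h1
    · -- inside
      have hr1 : (1 - s) * r ≤ r := by nlinarith
      have m1 : q ∈ ball p ((1 - s) * r) := by simpa [dist_eq_norm] using h1
      have m2 : q ∈ ball p r := by
        rw [mem_ball, dist_eq_norm]
        linarith
      have m3 : q ∈ ball p ((1 + s) * r) := by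
        rw [mem_ball, dist_eq_norm]
        nlinarith
      have hk1 : k (‖r⁻¹ • J (q - p)‖ ^ 2) = 1 := by
        apply hk.one
        rw [norm_smul, norm_inv, Real.norm_eq_abs, abs_of_pos hr]
        have h2 := hJ' (q - p)
        have h3 : (1 + s / 4) * ‖q - p‖ ≤ (1 + s / 4) * ((1 - s) * r) := by gcongr
        have h4 : r⁻¹ * ‖J (q - p)‖ ≤ (1 + s / 4) * (1 - s) := by
          rw [inv_mul_le_iff₀ hr]
          linarith
        have h5 : (1 + s / 4) * (1 - s) ≤ 1 - 3 * s / 4 := by nlinarith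
        have h6 : r⁻¹ * ‖J (q - p)‖ ≤ 1 - 3 * s / 4 := h4.trans h5
        have h7 : 0 ≤ r⁻¹ * ‖J (q - p)‖ := by positivity
        have h8 : (r⁻¹ * ‖J (q - p)‖) ^ 2 ≤ (1 - 3 * s / 4) ^ 2 := pow_le_pow_left₀ h7 h6 2
        nlinarith
      rw [hk1, indicator_of_mem m1, indicator_of_mem m2, indicator_of_mem m3]
      simp
    · rcases lt_or_ge ‖q - p‖ ((1 + s) * r) with h2 | h2
      · have m1 : q ∉ ball p ((1 - s) * r) := by
          rw [mem_ball, dist_eq_norm]
          exact not_lt.2 h1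
        have m3 : q ∈ ball p ((1 + s) * r) := by
          rw [mem_ball, dist_eq_norm]
          exact h2
        rw [indicator_of_notMem m1, indicator_of_mem m3, sub_zero, mul_one]
        by_cases m2 : q ∈ ball p r
        · rw [indicator_of_mem m2]
          have h3 : k (‖r⁻¹ • J (q - p)‖ ^ 2) * fderiv ℝ φ q w - fderiv ℝ φ q w =
              -((1 - k (‖r⁻¹ • J (q - p)‖ ^ 2)) * fderiv ℝ φ q w) := by ring
          rw [h3, norm_neg, norm_mul, Real.norm_eq_abs, abs_of_nonneg (by linarith [hk.le_one (‖r⁻¹ • J (q - p)‖ ^ 2)])]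
          have h4 := hk.nonneg (‖r⁻¹ • J (q - p)‖ ^ 2)
          have h5 := hk.le_one (‖r⁻¹ • J (q - p)‖ ^ 2)
          calc _ ≤ 1 * (L * ‖w‖) := mul_le_mul (by linarith) (hφb q) (norm_nonneg _) zero_le_one
            _ = _ := one_mul _
        · rw [indicator_of_notMem m2, sub_zero, norm_mul, Real.norm_eq_abs,
            abs_of_nonneg (hk.nonneg _)]
          calc _ ≤ 1 * (L * ‖w‖) :=
              mul_le_mul (hk.le_one _) (hφb q) (norm_nonneg _) zero_le_one
            _ = _ := one_mul _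
      · have m1 : q ∉ ball p ((1 - s) * r) := by
          rw [mem_ball, dist_eq_norm]
          exact not_lt.2 h1
        have m2 : q ∉ ball p r := by
          rw [mem_ball, dist_eq_norm]
          nlinarith
        have m3 : q ∉ ball p ((1 + s) * r) := by
          rw [mem_ball, dist_eq_norm]
          exact not_lt.2 h2
        have hk0 : k (‖r⁻¹ • J (q - p)‖ ^ 2) = 0 := by
          apply hk.zero
          apply one_le_sq
          rw [norm_smul, norm_inv, Real.norm_eq_abs, abs_of_pos hr, ← div_eq_inv_mul,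
            le_div_iff₀ hr]
          have h3 := hJ (q - p)
          have h4 : (1 - s / 4) * ((1 + s) * r) ≤ (1 - s / 4) * ‖q - p‖ :=
            mul_le_mul_of_nonneg_left h2 hα.le
          have h5 : 1 ≤ (1 - s / 4) * (1 + s) := by nlinarith
          have h6 : 1 * r ≤ (1 - s / 4) * (1 + s) * r := mul_le_mul_of_nonneg_right h5 hr.le
          linarith
        rw [hk0, indicator_of_notMem m1, indicator_of_notMem m2, indicator_of_notMem m3]
        simp
  rw [← Real.norm_eq_abs]
  refine hbig.trans ?_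
  rw [integral_const_mul, integral_sub (hs1' _) (hs1' _), integral_indicator measurableSet_ball,
    integral_indicator measurableSet_ball]
  simp only [integral_const, measureReal_restrict_apply, MeasurableSet.univ, univ_inter,
    smul_eq_mul, mul_one]
  apply mul_le_mul_of_nonneg_left _ (by positivity)
  rw [vol_ball_eq p (show 0 ≤ (1 + s) * r by positivity),
    vol_ball_eq p (mul_nonneg (by linarith) hr.le)]
  have h2 := Real.pi_lt_d2
  have h3 := Real.pi_pos
  have h4 : Real.pi ^ 2 / 2 ≤ 5 := by nlinarith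
  have h5 : (1 + s) ^ 4 - (1 - s) ^ 4 = 8 * s + 8 * s ^ 3 := by ring
  have h6 : s ^ 3 ≤ s := by nlinarith [mul_nonneg hs.le (sub_nonneg.2 hs1), mul_nonneg (mul_nonneg hs.le hs.le) (sub_nonneg.2 hs1)]
  calc Real.pi ^ 2 / 2 * ((1 + s) * r) ^ 4 - Real.pi ^ 2 / 2 * ((1 - s) * r) ^ 4 =
      Real.pi ^ 2 / 2 * (((1 + s) ^ 4 - (1 - s) ^ 4) * r ^ 4) := by ring
    _ ≤ 5 * (16 * s * r ^ 4) := by
        rw [h5]
        have : (8 * s + 8 * s ^ 3) * r ^ 4 ≤ 16 * s * r ^ 4 :=
          mul_le_mul_of_nonneg_right (by linarith) (by positivity)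
        exact mul_le_mul h4 this (by positivity) (by norm_num)
    _ = 80 * s * r ^ 4 := by ring

end Pool.Agent.T2H18
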