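import Mathlib
import Pool.Agent.T2H18.Ibp
import Pool.Agent.T2H18.Fin2

/-!
# Lipschitz maps with non-degenerate mean derivative over small balls
-/

set_option autoImplicit false

open Set Filter Topology Metric Function MeasureTheory
open scoped ContDiff RealInnerProductSpace Manifold NNReal

noncomputable section

namespace Pool.Agent.T2H18

open Pool.Agent.Y522 (LD)

section loc

variable {M : Type*} [TopologicalSpace M] [ChartedSpace (E 4) M]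
variable {e : ℝ} {k : ℝ → ℝ} {m n : ℕ} {j : M → E m} {K : ℕ} {A : Fin K → E 4 → M}

/-- tangent vectors come from a parametrisation -/
theorem tang_le_range' [IsManifold (𝓡 4) ∞ M] (hj : Emb j) {B : E 4 → M}
    {p : E 4} (hB : LD 4 B p) {v : E m} (hv : v ∈ tang j (B p)) :
    ∃ w, fderiv ℝ (fun q => j (B q)) p w = v := by
  obtain ⟨u, hu⟩ := hv
  have h1 := mfderiv_comp (I := 𝓡 4) (I' := 𝓡 4) (I'' := 𝓘(ℝ, E m)) p
    ((hj.smooth (B p)).mdifferentiableAt (by simp))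
    (hB.contMDiffAt.mdifferentiableAt (by simp))
  have h2 : mfderiv (𝓡 4) 𝓘(ℝ, E m) (j ∘ B) p = fderiv ℝ (fun q => j (B q)) p :=
    mfderiv_eq_fderiv
  rw [h2] at h1
  have h3 := hB.mfderivToContinuousLinearEquiv_coe (by simp)
  obtain ⟨w, hw⟩ := (hB.mfderivToContinuousLinearEquiv (by simp)).surjective u
  refine ⟨w, ?_⟩
  rw [h1, ← hu, ← hw]
  change (mfderiv (𝓡 4) 𝓘(ℝ, E m) j (B p)) ((mfderiv (𝓡 4) (𝓡 4) B p) w) = _
  rw [← h3]
  rfl

/-- the local data of the mean derivative criterion -/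
structure MeanD (j : M → E m) (F : M → E n) (x : M) (B : E 4 → M) (c₀ : ℝ) (L : ℝ≥0)
    (ρ₀ : ℝ) : Prop where
  ld : LD 4 B 0
  base : B 0 = x
  iso : ∀ v, ‖fderiv ℝ (fun q => j (B q)) 0 v‖ = ‖v‖
  lip : LipschitzOnWith L (fun q => F (B q)) (ball 0 ρ₀)
  mean : ∀ p ∈ ball (0 : E 4) ρ₀, ∀ r, 0 < r → r < ρ₀ → ∀ w : E 4,
    c₀ * r ^ 4 * ‖w‖ ≤ ‖∫ q in ball p r, fderiv ℝ (fun q => F (B q)) q w‖

theorem local_mean [T2Space M] [CompactSpace M] [IsManifold (𝓡 4) ∞ M] (hj : Emb j) (hA : Atl A)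
    {F : M → E n} {x₀ : M} {B : E 4 → M} {c₀ ρ₀ : ℝ} {L : ℝ≥0} (hc₀ : 0 < c₀) (hρ₀ : 0 < ρ₀)
    (h : MeanD j F x₀ B c₀ L ρ₀) :
    ∃ U ∈ 𝓝 x₀, ∃ e₀ : ℝ, 0 < e₀ ∧ e₀ < 1 ∧ ∃ β : ℝ, 0 < β ∧ ∃ Λ : ℝ, 0 < Λ ∧
      ∀ e ≤ e₀, ∀ k, Ker e k → ∀ᶠ r in 𝓝[>] (0:ℝ), ∀ x ∈ U,
        (∀ y, ‖j y - j x‖ ≤ r → ‖F y - F x‖ ≤ Λ * r) ∧
        ∀ f : E m → E n, Continuous f → (∀ y, f (j y) = F y) → ∀ w ∈ tang j x, ‖w‖ = 1 →
          ∀ m₀ η : ℝ, 0 ≤ η → Good j A k m₀ η r (j x) w →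
          r * (β - η * Λ) ≤ ‖r • fderiv ℝ (sm (nu j A) k r f) (j x) w‖ := by
  set s : ℝ := min 1 (c₀ / (160 * (L + 1))) with hs
  have hL0 : (0:ℝ) ≤ L := L.2
  have hs0 : 0 < s := lt_min one_pos (by positivity)
  have hs1 : s ≤ 1 := min_le_left _ _
  have hsL : 80 * s * L ≤ c₀ / 2 := by
    have h1 : s ≤ c₀ / (160 * (L + 1)) := min_le_right _ _
    have h2 : s * (160 * (L + 1)) ≤ c₀ := by
      rwa [le_div_iff₀ (by positivity)] at h1
    nlinarith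
  set τ : ℝ := c₀ / (16 * (L + 1)) with hτ
  have hτ0 : 0 < τ := by positivity
  have hτL : 2 * τ * L ≤ c₀ / 8 := by
    have h1 : τ * (16 * (L + 1)) = c₀ := by
      rw [hτ]
      field_simp
    nlinarith
  obtain ⟨R, hR, hR1, hN, D, hD, hcmp⟩ := compare hj hA h.ld h.iso (τ₀ := s / 4)
    (R₁ := ρ₀ / 2) (by positivity) (by linarith) (by positivity)
  obtain ⟨β₀, hβ₀, hfar⟩ := hN.far hj hR
  set c : E 4 → E m := fun q => j (B q) with hc
  have hU : B '' ball (0 : E 4) (R / 2) ∈ 𝓝 x₀ := by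
    have := h.ld.image_mem_nhds (ball_mem_nhds (0 : E 4) (half_pos hR))
    rwa [h.base] at this
  refine ⟨_, hU, s / 4, by positivity, by linarith, c₀ / 648, by positivity, 2 * L + 1,
    by positivity, ?_⟩
  intro e he k hk
  have hscale : 0 < min (min β₀ (R / 4)) (ρ₀ / 4) := by positivity
  filter_upwards [hcmp _ hk.test0 1 one_pos, hcmp _ hk.test1 τ hτ0, Ioo_mem_nhdsGT hscale] with
    r hr0' hr1' hr
  have hr0 : 0 < r := hr.1
  have hr1 : r < β₀ := hr.2.trans_le ((min_le_left _ _).trans (min_le_left _ _))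
  have hr2 : r < R / 4 := hr.2.trans_le ((min_le_left _ _).trans (min_le_right _ _))
  have hr3 : r < ρ₀ / 4 := hr.2.trans_le (min_le_right _ _)
  rintro _ ⟨p, hp, rfl⟩
  have hp2 : p ∈ closedBall (0 : E 4) (R / 2) := ball_subset_closedBall hp
  have hpR : p ∈ closedBall (0 : E 4) R := closedBall_subset_closedBall (by linarith) hp2
  have hpρ : p ∈ ball (0 : E 4) ρ₀ := ball_subset_ball (by linarith) hp
  have hballρ : ball p (2 * r) ⊆ ball (0 : E 4) ρ₀ := by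
    intro q hq
    rw [mem_ball] at hq hp ⊢
    linarith [dist_triangle q p 0]
  have hlipF : ∀ q ∈ ball (0 : E 4) ρ₀, ∀ q' ∈ ball (0 : E 4) ρ₀,
      ‖F (B q) - F (B q')‖ ≤ L * ‖q - q'‖ := by
    intro q hq q' hq'
    have := h.lip.dist_le_mul q hq q' hq'
    rwa [dist_eq_norm, dist_eq_norm] at this
  have hlipr : ∀ y, ‖j y - j (B p)‖ ≤ r → ‖F y - F (B p)‖ ≤ (2 * L + 1) * r := by
    intro y hy
    have h1 : y ∈ B '' ball (0 : E 4) R := by
      by_contra h1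
      have := hfar p hp2 y h1
      linarith
    obtain ⟨q, hq, rfl⟩ := h1
    have h2 := hN.low' p hpR q (ball_subset_closedBall hq)
    have h3 : ‖q - p‖ ≤ 2 * r := by
      have h4 : (1 / 2) * ‖q - p‖ ≤ (1 - s / 4) * ‖q - p‖ :=
        mul_le_mul_of_nonneg_right (by linarith) (norm_nonneg _)
      linarith
    have h4 : q ∈ ball (0 : E 4) ρ₀ := ball_subset_ball (by linarith) hq
    refine (hlipF q h4 p hpρ).trans ?_
    have h5 : L * ‖q - p‖ ≤ L * (2 * r) := mul_le_mul_of_nonneg_left h3 hL0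
    linarith
  refine ⟨hlipr, ?_⟩
  intro f hfc hfj w hw hw1 m₀ η hη hgood
  obtain ⟨w', hw'⟩ := tang_le_range' hj (hN.ld p hpR) hw
  have hlow := hN.low p hpR w'
  have hup := hN.up p hpR w'
  rw [hw', hw1] at hlow hup
  have hw'2 : ‖w'‖ ≤ 2 := by
    have h4 : (1 / 2) * ‖w'‖ ≤ (1 - s / 4) * ‖w'‖ :=
      mul_le_mul_of_nonneg_right (by linarith) (norm_nonneg _)
    linarith
  have hw'h : 1 / 2 ≤ ‖w'‖ := by
    have h4 : (1 + s / 4) * ‖w'‖ ≤ 2 * ‖w'‖ :=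
      mul_le_mul_of_nonneg_right (by linarith) (norm_nonneg _)
    linarith
  -- the mean derivative
  set V := ∫ q in ball p r, fderiv ℝ (fun q => F (B q)) q w' with hV
  have hVn := h.mean p hpρ r hr0 (by linarith) w'
  rw [← hV] at hVn
  have hVpos : 0 < ‖V‖ := lt_of_lt_of_le (by positivity) hVn
  set u : E n := ‖V‖⁻¹ • V with hu
  have hun : ‖u‖ = 1 := by rw [hu, norm_smul, norm_inv, norm_norm, inv_mul_cancel₀ hVpos.ne']
  have huV : ⟪u, V⟫ = ‖V‖ := by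
    rw [hu, real_inner_smul_left, real_inner_self_eq_norm_sq]
    field_simp
  have hflat := flat_est hk hs0 hs1 he hr0 (J := fderiv ℝ c p) (hN.low p hpR) (hN.up p hpR) p w'
    (f := fun q => F (B q)) (h.lip.mono hballρ) u hun (F (B p))
  rw [← hV, huV] at hflat
  -- comparison
  set ν := nu j A with hν
  set b := F (B p) with hb
  have hF0c : Continuous (fun t => ⟪u, f t - b⟫) := by fun_prop
  have hcm := hr1' p hp2 w' hw'2 (fun t => ⟪u, f t - b⟫) hF0c (2 * L * r) (by positivity)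
    (fun q hq => by
      simp only [hfj]
      refine (abs_real_inner_le_norm _ _).trans ?_
      rw [hun, one_mul]
      have hq' : ‖q - p‖ ≤ 2 * r := by
        rw [mem_ball, dist_eq_norm] at hq
        exact hq.le
      have h5 := hlipF q (hballρ hq) p hpρ
      have h6 : L * ‖q - p‖ ≤ L * (2 * r) := mul_le_mul_of_nonneg_left hq' hL0
      linarith)
  simp only [hfj] at hcm
  change |∫ t, rho k (r⁻¹ • (t - j (B p))) (fderiv ℝ c p w') * ⟪u, f t - b⟫ ∂ν -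
    D p * ∫ q in ball p (2 * r), rho k (r⁻¹ • fderiv ℝ c p (q - p)) (fderiv ℝ c p w') *
      ⟪u, F (B q) - b⟫| ≤ _ at hcm
  rw [hw'] at hcm hflat
  have hDp : 0 < D p := hD p hpR
  set I1 := ∫ q in ball p (2 * r), rho k (r⁻¹ • fderiv ℝ c p (q - p)) w *
      ⟪u, F (B q) - b⟫ with hI1
  set N1 := ∫ t, rho k (r⁻¹ • (t - j (B p))) w * ⟪u, f t - b⟫ ∂ν with hN1
  have hN1low : D p * (r ^ 5 * (c₀ / 8)) ≤ N1 := by
    have h1 : r * ‖V‖ - r * (L * ‖w'‖ * (80 * s * r ^ 4)) ≤ I1 := by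
      have := abs_le.1 hflat
      linarith [this.1]
    have h2 : D p * I1 - τ * D p * r ^ 4 * (2 * L * r) ≤ N1 := by
      have := abs_le.1 hcm
      linarith [this.1]
    have h3 : r * (c₀ * r ^ 4 * ‖w'‖) ≤ r * ‖V‖ := mul_le_mul_of_nonneg_left hVn hr0.le
    have h4 : r * (L * ‖w'‖ * (80 * s * r ^ 4)) = r ^ 5 * (‖w'‖ * (80 * s * L)) := by ring
    have h5 : r ^ 5 * (‖w'‖ * (80 * s * L)) ≤ r ^ 5 * (‖w'‖ * (c₀ / 2)) := by gcongr
    have h6 : r ^ 5 * (c₀ / 4) ≤ I1 := by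
      have h7 : r ^ 5 * (c₀ / 4) ≤ r ^ 5 * (‖w'‖ * (c₀ / 2)) := by
        apply mul_le_mul_of_nonneg_left _ (by positivity)
        nlinarith
      have h8 : r * (c₀ * r ^ 4 * ‖w'‖) = r ^ 5 * (‖w'‖ * c₀) := by ring
      have h9 : r ^ 5 * (‖w'‖ * c₀) = 2 * (r ^ 5 * (‖w'‖ * (c₀ / 2))) := by ring
      linarith
    have h7 : τ * D p * r ^ 4 * (2 * L * r) = D p * (r ^ 5 * (2 * τ * L)) := by ring
    have h8 : D p * (r ^ 5 * (2 * τ * L)) ≤ D p * (r ^ 5 * (c₀ / 8)) := by gcongr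
    have h9 : D p * (r ^ 5 * (c₀ / 4)) ≤ D p * I1 := mul_le_mul_of_nonneg_left h6 hDp.le
    have h10 : D p * (r ^ 5 * (c₀ / 4)) = D p * (r ^ 5 * (c₀ / 8)) + D p * (r ^ 5 * (c₀ / 8)) := by
      ring
    linarith
  -- the total mass
  obtain ⟨g0, g1, g2, -⟩ := id hgood
  rw [Q_eq hj hA hk.test0, ← hν] at g0 g1 g2
  rw [Q_eq hj hA hk.test1, ← hν] at g2
  set S := ∫ t, k (‖r⁻¹ • (t - j (B p))‖ ^ 2) ∂ν with hS
  have hSup : S ≤ D p * (81 * r ^ 4) := by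
    have h1 := hr0' p hp2 w' hw'2 (fun _ => 1) continuous_const 1 zero_le_one
      (fun q _ => by simp)
    simp only [mul_one] at h1
    change |S - D p * ∫ q in ball p (2 * r), k (‖r⁻¹ • fderiv ℝ c p (q - p)‖ ^ 2)| ≤ _ at h1
    have h2 : ∫ q in ball p (2 * r), k (‖r⁻¹ • fderiv ℝ c p (q - p)‖ ^ 2) ≤ 80 * r ^ 4 := by
      have h3 : ‖∫ q in ball p (2 * r), k (‖r⁻¹ • fderiv ℝ c p (q - p)‖ ^ 2)‖ ≤
          1 * volume.real (ball p (2 * r)) := by
        apply norm_setIntegral_le_of_norm_le_const measure_ball_lt_top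
        intro q _
        rw [Real.norm_eq_abs, abs_of_nonneg (hk.nonneg _)]
        exact hk.le_one _
      have h4 := vol_ball_le p (show 0 < 2 * r by positivity)
      have h5 := (le_abs_self _).trans h3
      calc _ ≤ _ := h5
        _ ≤ 1 * (5 * (2 * r) ^ 4) := by linarith
        _ = 80 * r ^ 4 := by ring
    have h3 := (abs_le.1 h1).2
    have h4 := mul_le_mul_of_nonneg_left h2 hDp.le
    linarith
  obtain ⟨-, c2, -⟩ := loc_gen hj hA hk hfc hr0 hη (B p) w hgood b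
  obtain ⟨c3, -⟩ := c2 (ContinuousLinearMap.id ℝ _) ((2 * L + 1) * r) (by positivity)
    (fun y hy => by
      simp only [ContinuousLinearMap.id_apply, hfj]
      exact hlipr y hy)
  simp only [ContinuousLinearMap.id_apply] at c3
  have hC : IsCompact (range j) := isCompact_range hj.smooth.continuous
  have hνC := nu_supp hj hA
  have hSav : av ν k r (fun _ => (1:ℝ)) (j (B p)) = S := by simp [av, hS]
  obtain ⟨f1, f2⟩ := sm_fderiv_base hk hC hνC hfc hr0 (v := j (B p))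
    (by rw [← hν, hSav]; exact g0) w b
  rw [← hν, hSav] at f1 f2
  rw [← f1] at f2
  set Y := sm ν k r f (j (B p)) - b with hY
  have hrc : Continuous (fun t : E m => rho k (r⁻¹ • (t - j (B p))) w) :=
    hk.rho_cont' r (j (B p)) w
  have hint : Integrable (fun t => rho k (r⁻¹ • (t - j (B p))) w • (f t - b)) ν :=
    int_cont hC hνC (by fun_prop)
  have hin : ⟪u, r • fderiv ℝ (sm ν k r f) (j (B p)) w⟫ = S⁻¹ * (N1 -
      (∫ t, rho k (r⁻¹ • (t - j (B p))) w ∂ν) * ⟪u, Y⟫) := by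
    rw [f2, real_inner_smul_right, inner_sub_right, real_inner_smul_right, ← integral_inner hint]
    congr 3
    funext t
    rw [real_inner_smul_right]
  have hfin : r * (c₀ / 648 - η * (2 * L + 1)) ≤ ⟪u, r • fderiv ℝ (sm ν k r f) (j (B p)) w⟫ := by
    rw [hin, le_inv_mul_iff₀ g0]
    have h1 : |(∫ t, rho k (r⁻¹ • (t - j (B p))) w ∂ν) * ⟪u, Y⟫| ≤ (η * S) * ((2 * L + 1) * r) := by
      rw [abs_mul]
      apply mul_le_mul g2 _ (abs_nonneg _) (by positivity)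
      refine (abs_real_inner_le_norm _ _).trans ?_
      rw [hun, one_mul]
      exact c3
    have h2 := (abs_le.1 h1).2
    have h3 : S * (r * (c₀ / 648)) ≤ D p * (81 * r ^ 4) * (r * (c₀ / 648)) :=
      mul_le_mul_of_nonneg_right hSup (by positivity)
    have h4 : D p * (81 * r ^ 4) * (r * (c₀ / 648)) = D p * (r ^ 5 * (c₀ / 8)) := by ring
    have h5 : S * (r * (c₀ / 648 - η * (2 * L + 1))) =
      S * (r * (c₀ / 648)) - (η * S) * ((2 * L + 1) * r) := by ring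
    linarith
  calc _ ≤ _ := hfin
    _ ≤ ‖u‖ * ‖r • fderiv ℝ (sm ν k r f) (j (B p)) w‖ := real_inner_le_norm _ _
    _ = _ := by rw [hun, one_mul]

end loc

section glob

variable {M : Type*} [TopologicalSpace M] [T2Space M] [CompactSpace M] [ConnectedSpace M]
  [ChartedSpace (E 4) M] [IsManifold (𝓡 4) ∞ M]
variable {N : Type*} [TopologicalSpace N] [T2Space N] [CompactSpace N] [SimplyConnectedSpace N]
  [ChartedSpace (E 4) N] [IsManifold (𝓡 4) ∞ N]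

theorem mean_crit {m n : ℕ} {j : M → E m} {ι : N → E n} (hj : Emb j) (hι : Emb ι) (g : M → N)
    (hg : ∀ x, ∃ (B : E 4 → M) (c₀ : ℝ) (L : ℝ≥0) (ρ₀ : ℝ), 0 < c₀ ∧ 0 < ρ₀ ∧
      MeanD j (fun x => ι (g x)) x B c₀ L ρ₀) {η₀ : ℝ} (hη₀ : 0 < η₀) :
    ∃ Φ : Diffeomorph (𝓡 4) (𝓡 4) M N ∞,
      (∀ hg : Continuous g, ContinuousMap.Homotopic ⟨g, hg⟩ ⟨Φ, Φ.continuous⟩) ∧
      ∀ x, ‖ι (Φ x) - ι (g x)‖ ≤ η₀ := by
  obtain ⟨K, A, hA⟩ := exists_atl (M := M)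
  obtain ⟨y₀⟩ : Nonempty N := inferInstance
  obtain ⟨π, V, hV, hιV, hπ, hπι, hcl⟩ := exists_retraction hι
  choose B c₀ L ρ₀ hc₀ hρ₀ hmean using hg
  choose U hU e₀ he₀ he₁ β hβ Λ hΛ hloc using fun x =>
    local_mean hj hA (hc₀ x) (hρ₀ x) (hmean x)
  obtain ⟨t, -, ht⟩ := (isCompact_univ (X := M)).elim_nhds_subcover U (fun x _ => hU x)
  have htne : t.Nonempty := by
    obtain ⟨x₁⟩ : Nonempty M := inferInstance
    have h1 := ht (mem_univ x₁)
    rw [mem_iUnion₂] at h1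
    obtain ⟨y, hy, -⟩ := h1
    exact ⟨y, hy⟩
  set e := t.inf' htne e₀ with he
  have hepos : 0 < e := by
    rw [he, Finset.lt_inf'_iff]
    exact fun x _ => he₀ x
  have hele : ∀ x ∈ t, e ≤ e₀ x := fun x hx => Finset.inf'_le _ hx
  have he1 : e < 1 := by
    obtain ⟨x, hx⟩ := htne
    exact (hele x hx).trans_lt (he₁ x)
  set β' := t.inf' htne β with hβ'
  have hβ'pos : 0 < β' := by
    rw [hβ', Finset.lt_inf'_iff]
    exact fun x _ => hβ x
  have hβ'le : ∀ x ∈ t, β' ≤ β x := fun x hx => Finset.inf'_le _ hx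
  set Λ' := t.sup' htne Λ with hΛ'
  have hΛ'le : ∀ x ∈ t, Λ x ≤ Λ' := fun x hx => Finset.le_sup' Λ hx
  have hΛ'pos : 0 < Λ' := by
    obtain ⟨x, hx⟩ := htne
    exact (hΛ x).trans_le (hΛ'le x hx)
  obtain ⟨k, hk⟩ := exists_ker hepos
  have hev : ∀ᶠ r in 𝓝[>] (0:ℝ), ∀ x,
        (∀ y, ‖j y - j x‖ ≤ r → ‖ι (g y) - ι (g x)‖ ≤ Λ' * r) ∧
        ∀ f : E m → E n, Continuous f → (∀ y, f (j y) = ι (g y)) → ∀ w ∈ tang j x, ‖w‖ = 1 →
          ∀ m₀ η : ℝ, 0 ≤ η → Good j A k m₀ η r (j x) w →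
          r * (β' - η * Λ') ≤ ‖r • fderiv ℝ (sm (nu j A) k r f) (j x) w‖ := by
    have h1 : ∀ᶠ r in 𝓝[>] (0:ℝ), ∀ x₁ ∈ t, ∀ x ∈ U x₁,
        (∀ y, ‖j y - j x‖ ≤ r → ‖ι (g y) - ι (g x)‖ ≤ Λ x₁ * r) ∧
        ∀ f : E m → E n, Continuous f → (∀ y, f (j y) = ι (g y)) → ∀ w ∈ tang j x, ‖w‖ = 1 →
          ∀ m₀ η : ℝ, 0 ≤ η → Good j A k m₀ η r (j x) w →
          r * (β x₁ - η * Λ x₁) ≤ ‖r • fderiv ℝ (sm (nu j A) k r f) (j x) w‖ :=
      (Filter.eventually_all_finset t).2 fun x₁ hx₁ => hloc x₁ e (hele x₁ hx₁) k hk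
    have h2 : ∀ᶠ r in 𝓝[>] (0:ℝ), 0 < r := eventually_mem_nhdsWithin
    filter_upwards [h1, h2] with r hr hr0 x
    have h3 := ht (mem_univ x)
    rw [mem_iUnion₂] at h3
    obtain ⟨x₁, hx₁, hxU⟩ := h3
    obtain ⟨a1, a2⟩ := hr x₁ hx₁ x hxU
    refine ⟨fun y hy => (a1 y hy).trans (mul_le_mul_of_nonneg_right (hΛ'le x₁ hx₁) hr0.le),
      fun f hf hfj w hw hw1 m₀ η hη hgd => le_trans ?_ (a2 f hf hfj w hw hw1 m₀ η hη hgd)⟩
    apply mul_le_mul_of_nonneg_left _ hr0.le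
    have h4 := mul_le_mul_of_nonneg_left (hΛ'le x₁ hx₁) hη
    linarith [hβ'le x₁ hx₁]
  -- continuity
  have hjc : Continuous j := hj.smooth.continuous
  have hgc : Continuous (fun x => ι (g x)) := by
    rw [continuous_iff_continuousAt]
    intro x
    rw [Metric.continuousAt_iff']
    intro ε hε
    have h1 : ∀ᶠ r in 𝓝[>] (0:ℝ), r < ε / Λ' :=
      nhdsWithin_le_nhds (gt_mem_nhds (by positivity))
    have h2 : ∀ᶠ r in 𝓝[>] (0:ℝ), 0 < r := eventually_mem_nhdsWithin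
    obtain ⟨r, hr1, hr2, hr3⟩ := (hev.and (h1.and h2)).exists
    have h3 : ∀ᶠ y in 𝓝 x, ‖j y - j x‖ < r := by
      have h4 : ContinuousAt (fun y => ‖j y - j x‖) x := by fun_prop
      exact h4.eventually (gt_mem_nhds (by simpa using hr3))
    filter_upwards [h3] with y hy
    rw [dist_eq_norm]
    refine lt_of_le_of_lt ((hr1 x).1 y hy.le) ?_
    rw [lt_div_iff₀ hΛ'pos] at hr2
    linarith
  have hje : IsClosedEmbedding j := hjc.isClosedEmbedding hj.inj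
  obtain ⟨f, hf⟩ := ContinuousMap.exists_extension' hje (⟨fun x => ι (g x), hgc⟩ : C(M, E n))
  have hfj : ∀ x, f (j x) = ι (g x) := fun x => congrFun hf x
  -- constants
  set m₀ := 16 / (3 * Real.pi * (1 - e) ^ 2) with hm₀
  have hpi := Real.pi_pos
  have h1e : 0 < 1 - e := by linarith
  have hm₀0 : 0 < m₀ := by positivity
  set η := β' / (2 * Λ') with hη
  have hηpos : 0 < η := by positivity
  have hηΛ : η * Λ' = β' / 2 := by
    rw [hη]
    field_simp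
  set ε := β' / 2 / (4 * Λ' * (m₀ + 2 * η)) with hε
  have hε0 : 0 < ε := by positivity
  have hεe : 2 * ε * Λ' * (m₀ + 2 * η) < β' / 2 := by
    have : 2 * ε * Λ' * (m₀ + 2 * η) = β' / 2 / 2 := by
      rw [hε]
      field_simp
      norm_num
    rw [this]
    linarith
  obtain ⟨r₀, hr₀, hgood⟩ := uniform_good hj hA hk he1 hηpos
  obtain ⟨δ₁, hδ₁, hret⟩ := uniform_retr hι hV hιV hπ hε0
  have hlast : 0 < min r₀ (min (δ₁ / (2 * Λ')) (η₀ / (2 * Λ'))) := by positivity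
  obtain ⟨r, hr1, hr2⟩ := (hev.and (Ioo_mem_nhdsGT hlast)).exists
  have hr0 : 0 < r := hr2.1
  have hrr : r < r₀ := hr2.2.trans_le (min_le_left _ _)
  have hrδ : r < δ₁ / (2 * Λ') := hr2.2.trans_le ((min_le_right _ _).trans (min_le_left _ _))
  have hrη : r < η₀ / (2 * Λ') := hr2.2.trans_le ((min_le_right _ _).trans (min_le_right _ _))
  rw [lt_div_iff₀ (by positivity)] at hrδ hrη
  have hmain := crit hj hι hA hk hV hπ hπι hcl hδ₁ hε0 hret (r := r) (m₀ := m₀) (η := η)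
    (L := Λ') (β₁ := β' / 2) (σ := r) hr0 hηpos.le hΛ'pos (by linarith) hεe f g ?_
  · obtain ⟨Φ, h1, h2⟩ := hmain
    exact ⟨Φ, h1, fun x => (h2 x).trans (by linarith)⟩
  · intro x
    obtain ⟨a1, a2⟩ := hr1 x
    refine ⟨r, hr0, le_rfl, fun y hy => ?_, ?_⟩
    · rw [hfj]
      apply subset_convexHull
      refine ⟨g y, ?_, rfl⟩
      have := a1 y hy
      change ‖ι (g y) - ι (g x)‖ ≤ r * Λ'
      linarith
    · rintro i p hp rfl w hw
      have hgd := hgood r hr0 hrr i p hp w hw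
      refine ⟨hgd, ?_⟩
      have h3 := a2 f f.continuous hfj _ (hj.fderiv_mem hA i p w) hw m₀ η hηpos.le hgd
      rw [hηΛ] at h3
      have h4 : β' - β' / 2 = β' / 2 := by ring
      rw [h4] at h3
      exact h3

end glob

end Pool.Agent.T2H18
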