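import Mathlib
import Pool.Agent.T2H18.Mean

/-!
# Small mean oscillation of the derivative gives a non-degenerate mean derivative
-/

set_option autoImplicit false

open Set Filter Topology Metric Function MeasureTheory
open scoped ContDiff RealInnerProductSpace Manifold NNReal

noncomputable section

namespace Pool.Agent.T2H18

theorem vol_ball_ge (p : E 4) {r : ℝ} (hr : 0 < r) : 4 * r ^ 4 ≤ volume.real (ball p r) := by
  rw [vol_ball_eq p hr.le]
  have h2 := Real.pi_gt_three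
  have h4 : 4 ≤ Real.pi ^ 2 / 2 := by nlinarith
  exact mul_le_mul_of_nonneg_right h4 (by positivity)

/-- from averages to integrals -/
theorem mean_of_avg {n : ℕ} {f : E 4 → E n} {p : E 4} {r c : ℝ} (hr : 0 < r) (hc : 0 ≤ c)
    {w : E 4} (h : c * ‖w‖ ≤ ‖⨍ q in ball p r, fderiv ℝ f q w‖) :
    c * r ^ 4 * ‖w‖ ≤ ‖∫ q in ball p r, fderiv ℝ f q w‖ := by
  have h1 := vol_ball_ge p hr
  have h2 : 0 < volume.real (ball p r) := lt_of_lt_of_le (by positivity) h1
  rw [setAverage_eq, norm_smul, norm_inv, Real.norm_eq_abs, abs_of_pos h2,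
    le_inv_mul_iff₀ h2] at h
  refine le_trans ?_ h
  have h3 : r ^ 4 * (c * ‖w‖) ≤ volume.real (ball p r) * (c * ‖w‖) := by
    apply mul_le_mul_of_nonneg_right _ (by positivity)
    have : 0 < r ^ 4 := by positivity
    linarith
  calc c * r ^ 4 * ‖w‖ = r ^ 4 * (c * ‖w‖) := by ring
    _ ≤ _ := h3

/-- small mean oscillation -/
theorem avg_of_osc {n : ℕ} {f : E 4 → E n} {L : ℝ≥0} {p : E 4} {r a θ : ℝ} (hr : 0 < r)
    (hf : LipschitzOnWith L f (ball p r))
    (hlow : ∀ᵐ q : E 4, q ∈ ball p r → ∀ w, a * ‖w‖ ≤ ‖fderiv ℝ f q w‖)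
    (hosc : ⨍ q in ball p r, ‖fderiv ℝ f q - ⨍ t in ball p r, fderiv ℝ f t‖ ≤ θ * a) (w : E 4) :
    (a - θ * a) * ‖w‖ ≤ ‖⨍ q in ball p r, fderiv ℝ f q w‖ := by
  have h1 := vol_ball_ge p hr
  have h2 : 0 < volume.real (ball p r) := lt_of_lt_of_le (by positivity) h1
  have hfb : ∀ q ∈ ball p r, ‖fderiv ℝ f q‖ ≤ L := fun q hq =>
    norm_fderiv_le_of_lipschitzOn ℝ (isOpen_ball.mem_nhds hq) hf
  have hmeas : Measurable (fderiv ℝ f) := measurable_fderiv ℝ f
  have hint : IntegrableOn (fderiv ℝ f) (ball p r) := by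
    apply Integrable.mono' (g := fun _ => (L : ℝ))
      (integrableOn_const (measure_ball_lt_top.ne)) hmeas.aestronglyMeasurable
    filter_upwards [ae_restrict_mem measurableSet_ball] with q hq
    exact hfb q hq
  set D := ⨍ t in ball p r, fderiv ℝ f t with hD
  have hint2 : IntegrableOn (fun q => ‖fderiv ℝ f q - D‖) (ball p r) :=
    (Integrable.sub hint (integrableOn_const (measure_ball_lt_top.ne))).norm
  have hpos := measure_le_setAverage_pos (μ := (volume : Measure (E 4))) (s := ball p r)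
    (measure_ball_pos volume p hr).ne' measure_ball_lt_top.ne hint2
  have hae : ∀ᵐ q : E 4, q ∈ ball p r → ∀ w, a * ‖w‖ ≤ ‖fderiv ℝ f q w‖ := hlow
  rw [ae_iff] at hae
  rw [← measure_sdiff_null hae] at hpos
  obtain ⟨q, ⟨hq1, hq2⟩, hq3⟩ := nonempty_of_measure_ne_zero hpos.ne'
  simp only [mem_setOf_eq, not_not] at hq3
  have hq4 := hq3 hq1 w
  have hDw : ⨍ q in ball p r, fderiv ℝ f q w = D w := by
    rw [hD, setAverage_eq, setAverage_eq, smul_apply, ContinuousLinearMap.integral_apply hint]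
  rw [hDw]
  have h3 : ‖(fderiv ℝ f q - D) w‖ ≤ θ * a * ‖w‖ :=
    (ContinuousLinearMap.le_opNorm _ _).trans
      (mul_le_mul_of_nonneg_right (hq2.trans hosc) (norm_nonneg _))
  have h4 := norm_sub_norm_le (fderiv ℝ f q w) (D w)
  rw [← sub_apply] at h4
  linarith

end Pool.Agent.T2H18
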