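import Mathlib
import Pool.Agent.T2H18.Mean

/-!
# Smoothing with general measures, kernels and measurable maps
-/

set_option autoImplicit false

open Set Filter Topology Metric Function MeasureTheory
open scoped ContDiff RealInnerProductSpace Manifold

noncomputable section

namespace Pool.Agent.T2H18

open Pool.Agent.Y522 (LD)

/-- general nonincreasing smooth profiles -/
structure Kg (k : ℝ → ℝ) : Prop where
  smooth : ContDiff ℝ ∞ k
  zero : ∀ t, 1 ≤ t → k t = 0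
  anti : Antitone k
  pos : 0 < k 0

variable {k : ℝ → ℝ}

theorem Kg.nonneg (hk : Kg k) (t : ℝ) : 0 ≤ k t := by
  rcases le_total t 1 with h | h
  · rw [← hk.zero 1 le_rfl]
    exact hk.anti h
  · rw [hk.zero t h]

theorem Kg.le_zero (hk : Kg k) {t : ℝ} (ht : 0 ≤ t) : k t ≤ k 0 := hk.anti ht

theorem Kg.diff (hk : Kg k) : Differentiable ℝ k := hk.smooth.differentiable (by simp)

theorem Kg.deriv_cont (hk : Kg k) : Continuous (deriv k) :=
  hk.smooth.continuous_deriv (by simp)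

theorem Kg.deriv_zero (hk : Kg k) {t : ℝ} (ht : 1 ≤ t) : deriv k t = 0 := by
  have h1 : closure (Ioi (1:ℝ)) ⊆ {t | deriv k t = 0} := by
    apply closure_minimal _ (isClosed_eq hk.deriv_cont continuous_const)
    intro s hs
    have h2 : k =ᶠ[𝓝 s] fun _ => 0 := by
      filter_upwards [isOpen_Ioi.mem_nhds hs] with u hu
      exact hk.zero u (le_of_lt hu)
    simpa using h2.deriv_eq
  rw [closure_Ioi] at h1
  exact h1 ht

theorem Kg.hasFDerivAt (hk : Kg k) {n : ℕ} (z : E n) :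
    HasFDerivAt (fun z : E n => k (‖z‖ ^ 2)) ((2 * deriv k (‖z‖ ^ 2)) • innerSL ℝ z) z := by
  have h1 : HasFDerivAt (fun z : E n => ‖z‖ ^ 2) (2 • innerSL ℝ z) z :=
    (hasStrictFDerivAt_norm_sq z).hasFDerivAt
  have h2 := (hk.diff (‖z‖ ^ 2)).hasDerivAt.comp_hasFDerivAt z h1
  refine h2.congr_fderiv ?_
  ext w
  simp [two_smul]
  ring

theorem Kg.rho_zero (hk : Kg k) {m : ℕ} {z : E m} (w : E m) (hz : 1 ≤ ‖z‖) : rho k z w = 0 := by
  unfold rho
  rw [hk.deriv_zero (one_le_sq hz)]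
  simp

theorem Kg.rho_cont (hk : Kg k) {m : ℕ} : Continuous (fun x : E m × E m => rho k x.1 x.2) := by
  have := hk.deriv_cont
  unfold rho
  fun_prop

theorem Kg.test0 (hk : Kg k) {m : ℕ} : Test (fun z _ : E m => k (‖z‖ ^ 2)) := by
  refine ⟨?_, fun z w hz => hk.zero _ (one_le_sq hz)⟩
  have := hk.diff.continuous
  fun_prop

theorem Kg.test1 (hk : Kg k) {m : ℕ} : Test (fun z w : E m => rho k z w) :=
  ⟨hk.rho_cont, fun _ w hz => hk.rho_zero w hz⟩

theorem Kg.test2 (hk : Kg k) {m : ℕ} : Test (fun z w : E m => |rho k z w|) := by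
  refine ⟨hk.rho_cont.abs, fun z w hz => ?_⟩
  rw [hk.rho_zero w hz, abs_zero]

theorem Kg.integral_pos (hk : Kg k) : 0 < ∫ z : E 4, k (‖z‖ ^ 2) := by
  have hkc := hk.diff.continuous
  apply Continuous.integral_pos_of_hasCompactSupport_nonneg_nonzero (x := 0)
  · fun_prop
  · apply HasCompactSupport.intro (isCompact_closedBall (0 : E 4) 1)
    intro x hx
    simp only [mem_closedBall, dist_zero_right, not_le] at hx
    exact hk.zero _ (one_le_sq hx.le)
  · exact fun z => hk.nonneg _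
  · simpa using hk.pos.ne'

variable {m n : ℕ} {F : Type*} [NormedAddCommGroup F] [NormedSpace ℝ F]

theorem Kg.kernel_smooth (hk : Kg k) (r : ℝ) : ContDiff ℝ ∞ (fun u : E m => k (‖r⁻¹ • u‖ ^ 2)) :=
  hk.smooth.comp ((contDiff_const_smul r⁻¹).norm_sq ℝ)

theorem Kg.kernel_zero (hk : Kg k) {r : ℝ} (hr : 0 < r) {u : E m} (hu : r ≤ ‖u‖) :
    k (‖r⁻¹ • u‖ ^ 2) = 0 := by
  apply hk.zero
  apply one_le_sq
  rw [norm_smul, norm_inv, Real.norm_eq_abs, abs_of_pos hr, ← div_eq_inv_mul, le_div_iff₀ hr]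
  linarith

theorem Kg.deriv_bdd (hk : Kg k) {r : ℝ} (hr : 0 < r) :
    ∃ C : ℝ, ∀ u : E m, ‖fderiv ℝ (fun u : E m => k (‖r⁻¹ • u‖ ^ 2)) u‖ ≤ C := by
  obtain ⟨C, hC⟩ := (isCompact_closedBall (0 : E m) r).exists_bound_of_continuousOn
    ((hk.kernel_smooth r).continuous_fderiv (by simp)).continuousOn
  refine ⟨max C 0, fun u => ?_⟩
  rcases le_or_gt ‖u‖ r with hu | hu
  · exact (hC u (by simpa using hu)).trans (le_max_left _ _)
  · have h1 : (fun u : E m => k (‖r⁻¹ • u‖ ^ 2)) =ᶠ[𝓝 u] fun _ => 0 := by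
      have h2 : ∀ᶠ y : E m in 𝓝 u, r < ‖y‖ := continuous_norm.continuousAt.eventually (lt_mem_nhds hu)
      filter_upwards [h2] with y hy
      exact hk.kernel_zero hr hy.le
    rw [h1.fderiv_eq]
    simp

theorem Kg.fderiv_kernel (hk : Kg k) {r : ℝ} (hr : 0 < r) (u w : E m) :
    r * fderiv ℝ (fun u : E m => k (‖r⁻¹ • u‖ ^ 2)) u w = rho k (-(r⁻¹ • u)) w := by
  have h1 : HasFDerivAt (fun u : E m => k (‖r⁻¹ • u‖ ^ 2))
      (((2 * deriv k (‖r⁻¹ • u‖ ^ 2)) • innerSL ℝ (r⁻¹ • u)).comp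
        (r⁻¹ • ContinuousLinearMap.id ℝ (E m))) u := by
    have h2 : HasFDerivAt (fun u : E m => r⁻¹ • u) (r⁻¹ • ContinuousLinearMap.id ℝ (E m)) u :=
      (hasFDerivAt_id u).const_smul r⁻¹
    exact (hk.hasFDerivAt (r⁻¹ • u)).comp u h2
  rw [h1.fderiv]
  simp only [rho, norm_neg, inner_neg_left]
  simp only [ContinuousLinearMap.comp_apply, smul_apply, ContinuousLinearMap.id_apply,
    innerSL_apply_apply, inner_smul_right, smul_eq_mul]
  field_simp

theorem Kg.k_bdd (hk : Kg k) (z : E m) : |k (‖z‖ ^ 2)| ≤ k 0 := by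
  rw [abs_of_nonneg (hk.nonneg _)]
  exact hk.le_zero (by positivity)

theorem Kg.rho_bdd (hk : Kg k) (w : E m) : ∃ C : ℝ, ∀ z : E m, |rho k z w| ≤ C := by
  obtain ⟨C, -, hC⟩ := hk.test1.bdd w
  exact ⟨C, fun z => hC w (mem_closedBall_self zero_le_one) z⟩

theorem Kg.int_k (hk : Kg k) {ν : Measure (E m)} {f : E m → F}
    (hf : Integrable f ν) (r : ℝ) (v : E m) :
    Integrable (fun t => k (‖r⁻¹ • (t - v)‖ ^ 2) • f t) ν := by
  have hkc := hk.diff.continuous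
  have h1 : Continuous (fun t : E m => k (‖r⁻¹ • (t - v)‖ ^ 2)) := by fun_prop
  apply Integrable.mono' (g := fun t => k 0 * ‖f t‖) (hf.norm.const_mul _)
    (h1.aestronglyMeasurable.smul hf.aestronglyMeasurable)
  refine Eventually.of_forall fun t => ?_
  simp only [Pi.smul_apply']
  rw [norm_smul, Real.norm_eq_abs]
  exact mul_le_mul_of_nonneg_right (hk.k_bdd _) (norm_nonneg _)

theorem Kg.int_rho (hk : Kg k) {ν : Measure (E m)} {f : E m → F}
    (hf : Integrable f ν) (r : ℝ) (v w : E m) :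
    Integrable (fun t => rho k (r⁻¹ • (t - v)) w • f t) ν := by
  obtain ⟨C, hC⟩ := hk.rho_bdd w
  have h1 : Continuous (fun t : E m => rho k (r⁻¹ • (t - v)) w) := by
    have := hk.deriv_cont
    unfold rho
    fun_prop
  apply Integrable.mono' (g := fun t => C * ‖f t‖) (hf.norm.const_mul _)
    (h1.aestronglyMeasurable.smul hf.aestronglyMeasurable)
  refine Eventually.of_forall fun t => ?_
  simp only [Pi.smul_apply']
  rw [norm_smul, Real.norm_eq_abs]
  exact mul_le_mul_of_nonneg_right (hC _) (norm_nonneg _)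

theorem av_contDiff' [FiniteDimensional ℝ F] (hk : Kg k) {ν : Measure (E m)} {f : E m → F}
    (hf : Integrable f ν) {r : ℝ} (hr : 0 < r) : ContDiff ℝ ∞ (av ν k r f) := by
  have hsm := hk.kernel_smooth (m := m) r
  have hcs : HasCompactSupport (fun u : E m => k (‖r⁻¹ • u‖ ^ 2)) := by
    apply HasCompactSupport.intro (isCompact_closedBall (0 : E m) r)
    intro u hu
    simp only [mem_closedBall, dist_zero_right, not_le] at hu
    exact hk.kernel_zero hr hu.le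
  have h1 := hcs.contDiff_convolution_right (n := ⊤) (ContinuousLinearMap.lsmul ℝ ℝ).flip
    hf.locallyIntegrable hsm
  have h2 : (MeasureTheory.convolution f (fun u : E m => k (‖r⁻¹ • u‖ ^ 2))
      (ContinuousLinearMap.lsmul ℝ ℝ (E := F)).flip ν) = av ν k r f := by
    funext v
    simp only [MeasureTheory.convolution, av]
    congr 1
    funext t
    have : ‖r⁻¹ • (v - t)‖ = ‖r⁻¹ • (t - v)‖ := by
      rw [← norm_neg (r⁻¹ • (v - t)), ← smul_neg, neg_sub]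
    simp only [ContinuousLinearMap.flip_apply, ContinuousLinearMap.lsmul_apply, this]
  rw [h2] at h1
  exact h1

theorem av_fderiv' [FiniteDimensional ℝ F] (hk : Kg k) {ν : Measure (E m)} {f : E m → F}
    (hf : Integrable f ν) {r : ℝ} (hr : 0 < r) (v w : E m) :
    r • fderiv ℝ (av ν k r f) v w = ∫ t, rho k (r⁻¹ • (t - v)) w • f t ∂ν := by
  have hsm := hk.kernel_smooth (m := m) r
  have hfd : Continuous (fderiv ℝ (fun u : E m => k (‖r⁻¹ • u‖ ^ 2))) :=
    hsm.continuous_fderiv (by simp)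
  obtain ⟨C, hC⟩ := hk.deriv_bdd (m := m) hr
  let F' : E m → E m → E m →L[ℝ] F := fun v t =>
    (fderiv ℝ (fun u : E m => k (‖r⁻¹ • u‖ ^ 2)) (v - t)).smulRight (f t)
  have hF'm : AEStronglyMeasurable (F' v) ν := by
    have h1 : Continuous (fun t => fderiv ℝ (fun u : E m => k (‖r⁻¹ • u‖ ^ 2)) (v - t)) :=
      hfd.comp (by fun_prop)
    have h2 : Continuous (fun y : (E m →L[ℝ] ℝ) × F => y.1.smulRight y.2) :=
      ((ContinuousLinearMap.smulRightL ℝ (E m) F).continuous.comp continuous_fst).clm_apply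
        continuous_snd
    exact h2.comp_aestronglyMeasurable
      (h1.aestronglyMeasurable.prodMk hf.aestronglyMeasurable)
  have h1 : HasFDerivAt (av ν k r f) (∫ t, F' v t ∂ν) v := by
    have h0 : ∀ v t : E m, ‖r⁻¹ • (t - v)‖ = ‖r⁻¹ • (v - t)‖ := fun v t => by
      rw [← norm_neg (r⁻¹ • (v - t)), ← smul_neg, neg_sub]
    have hav : av ν k r f = fun v => ∫ t, k (‖r⁻¹ • (v - t)‖ ^ 2) • f t ∂ν := by
      funext v
      simp only [av, h0]
    have hi : ∀ v, Integrable (fun t => k (‖r⁻¹ • (v - t)‖ ^ 2) • f t) ν := by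
      intro v
      have := hk.int_k hf r v
      simpa only [h0] using this
    rw [hav]
    apply hasFDerivAt_integral_of_dominated_of_fderiv_le (s := univ)
      (bound := fun t => C * ‖f t‖) univ_mem
    · exact Eventually.of_forall fun v => (hi v).aestronglyMeasurable
    · exact hi v
    · exact hF'm
    · refine Eventually.of_forall fun t v _ => ?_
      simp only [F', ContinuousLinearMap.norm_smulRight_apply]
      exact mul_le_mul_of_nonneg_right (hC _) (norm_nonneg _)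
    · exact hf.norm.const_mul C
    · refine Eventually.of_forall fun t v _ => ?_
      have h2 : HasFDerivAt (fun v : E m => k (‖r⁻¹ • (v - t)‖ ^ 2))
          (fderiv ℝ (fun u : E m => k (‖r⁻¹ • u‖ ^ 2)) (v - t)) v := by
        have h3 : HasFDerivAt (fun v : E m => v - t) (ContinuousLinearMap.id ℝ (E m)) v :=
          (hasFDerivAt_id v).sub_const t
        exact ((hsm.differentiable (by simp) (v - t)).hasFDerivAt).comp v h3
      exact h2.smul_const (f t)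
  have hF'i : Integrable (F' v) ν := by
    apply Integrable.mono' (g := fun t => C * ‖f t‖) (hf.norm.const_mul C) hF'm
    refine Eventually.of_forall fun t => ?_
    simp only [F', ContinuousLinearMap.norm_smulRight_apply]
    exact mul_le_mul_of_nonneg_right (hC _) (norm_nonneg _)
  rw [h1.fderiv, ContinuousLinearMap.integral_apply hF'i, ← integral_smul]
  congr 1
  funext t
  simp only [F', ContinuousLinearMap.smulRight_apply, smul_smul]
  rw [hk.fderiv_kernel hr]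
  congr 2
  rw [← smul_neg, neg_sub]

theorem sm_contDiffAt' (hk : Kg k) {ν : Measure (E m)} [IsFiniteMeasure ν] {f : E m → E n}
    (hf : Integrable f ν) {r : ℝ} (hr : 0 < r) {v : E m}
    (hS : 0 < av ν k r (fun _ => (1 : ℝ)) v) : ContDiffAt ℝ ∞ (sm ν k r f) v := by
  have h1 := (av_contDiff' hk (integrable_const (μ := ν) (1:ℝ)) hr).contDiffAt (x := v)
  have h2 := (av_contDiff' hk hf hr).contDiffAt (x := v)
  exact (h1.inv hS.ne').smul h2

theorem sm_fderiv_base' (hk : Kg k) {ν : Measure (E m)} [IsFiniteMeasure ν] {f : E m → E n}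
    (hf : Integrable f ν) {r : ℝ} (hr : 0 < r) {v : E m}
    (hS : 0 < av ν k r (fun _ => (1 : ℝ)) v) (w : E m) (b : E n) :
    (sm ν k r f v - b = (av ν k r (fun _ => (1 : ℝ)) v)⁻¹ •
      ∫ t, k (‖r⁻¹ • (t - v)‖ ^ 2) • (f t - b) ∂ν) ∧
    r • fderiv ℝ (sm ν k r f) v w = (av ν k r (fun _ => (1 : ℝ)) v)⁻¹ •
      (∫ t, rho k (r⁻¹ • (t - v)) w • (f t - b) ∂ν - (∫ t, rho k (r⁻¹ • (t - v)) w ∂ν) •
        (av ν k r (fun _ => (1 : ℝ)) v)⁻¹ • ∫ t, k (‖r⁻¹ • (t - v)‖ ^ 2) • (f t - b) ∂ν) := by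
  have hfb : Integrable (fun t => f t - b) ν := hf.sub (integrable_const b)
  have hbb : Integrable (fun _ : E m => b) ν := integrable_const b
  set S := av ν k r (fun _ => (1 : ℝ)) v with hSdef
  set R := ∫ t, rho k (r⁻¹ • (t - v)) w ∂ν with hR
  have hSeq : S = ∫ t, k (‖r⁻¹ • (t - v)‖ ^ 2) ∂ν := by
    rw [hSdef]
    simp [av]
  have hV : av ν k r f v = (∫ t, k (‖r⁻¹ • (t - v)‖ ^ 2) • (f t - b) ∂ν) + S • b := by
    rw [hSeq, ← integral_smul_const, ← integral_add (hk.int_k hfb r v) (hk.int_k hbb r v)]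
    simp only [av]
    congr 1
    funext t
    rw [← smul_add, sub_add_cancel]
  have hW : ∫ t, rho k (r⁻¹ • (t - v)) w • f t ∂ν =
      (∫ t, rho k (r⁻¹ • (t - v)) w • (f t - b) ∂ν) + R • b := by
    rw [hR, ← integral_smul_const, ← integral_add (hk.int_rho hfb r v w) (hk.int_rho hbb r v w)]
    congr 1
    funext t
    rw [← smul_add, sub_add_cancel]
  constructor
  · unfold sm
    rw [hV, ← hSdef, smul_add, smul_smul, inv_mul_cancel₀ hS.ne', one_smul, add_sub_cancel_right]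
  · have i1 : Integrable (fun _ : E m => (1:ℝ)) ν := integrable_const 1
    have d1 : HasFDerivAt (av ν k r (fun _ => (1:ℝ))) (fderiv ℝ (av ν k r (fun _ => (1:ℝ))) v) v :=
      ((av_contDiff' hk i1 hr).differentiable (by simp) v).hasFDerivAt
    have d2 : HasFDerivAt (av ν k r f) (fderiv ℝ (av ν k r f) v) v :=
      ((av_contDiff' hk hf hr).differentiable (by simp) v).hasFDerivAt
    have d3 := ((hasDerivAt_inv hS.ne').comp_hasFDerivAt v d1).smul d2
    have d4 : fderiv ℝ (sm ν k r f) v = _ := d3.fderiv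
    rw [d4]
    have a1 := av_fderiv' hk i1 hr v w
    have a2 := av_fderiv' hk hf hr v w
    simp only [smul_eq_mul, mul_one] at a1
    rw [← hR] at a1
    rw [hW] at a2
    simp only [add_apply, smul_apply, ContinuousLinearMap.smulRight_apply, Function.comp_apply,
      ← hSdef, smul_eq_mul]
    rw [smul_add, smul_comm r S⁻¹, a2, smul_smul r, hV]
    have e1 : r * (-(S ^ 2)⁻¹ * fderiv ℝ (av ν k r (fun _ => (1:ℝ))) v w) = -(S ^ 2)⁻¹ * R := by
      rw [← a1]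
      ring
    rw [e1]
    simp only [smul_add, smul_sub, smul_smul, neg_mul, neg_smul]
    have e2 : (S ^ 2)⁻¹ * R * S = S⁻¹ * R := by field_simp
    have e3 : S⁻¹ * (R * S⁻¹) = (S ^ 2)⁻¹ * R := by field_simp
    rw [e2, e3]
    abel

/-- local estimates -/
theorem loc_reg (hk : Kg k) {ν : Measure (E m)} [IsFiniteMeasure ν] {C : Set (E m)}
    (hνC : ∀ᵐ t ∂ν, t ∈ C) {f : E m → E n} (hf : Integrable f ν) {r m₀ η : ℝ} (hr : 0 < r)
    (hη0 : 0 ≤ η) (v w : E m)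
    (g0 : 0 < ∫ t, k (‖r⁻¹ • (t - v)‖ ^ 2) ∂ν)
    (g1 : ∫ t, |rho k (r⁻¹ • (t - v)) w| ∂ν ≤ (m₀ + η) * ∫ t, k (‖r⁻¹ • (t - v)‖ ^ 2) ∂ν)
    (g2 : |∫ t, rho k (r⁻¹ • (t - v)) w ∂ν| ≤ η * ∫ t, k (‖r⁻¹ • (t - v)‖ ^ 2) ∂ν) (b : E n) :
    0 < av ν k r (fun _ => (1:ℝ)) v ∧
    (∀ (P : E n →L[ℝ] E n) (c : ℝ), 0 ≤ c →
      (∀ t ∈ C, ‖t - v‖ ≤ r → ‖P (f t - b)‖ ≤ c) →
      ‖P (sm ν k r f v - b)‖ ≤ c ∧
      ‖P (r • fderiv ℝ (sm ν k r f) v w)‖ ≤ c * (m₀ + 2 * η)) ∧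
    ∀ (u : E n) (Ω : ℝ), ‖u‖ = 1 → 0 ≤ Ω → (∀ t ∈ C, ‖t - v‖ ≤ r → ‖f t - b‖ ≤ Ω) →
      (∫ t, k (‖r⁻¹ • (t - v)‖ ^ 2) ∂ν)⁻¹ * (∫ t, rho k (r⁻¹ • (t - v)) w * ⟪u, f t - b⟫ ∂ν) -
        η * Ω ≤ ‖r • fderiv ℝ (sm ν k r f) v w‖ := by
  set B : Set (E m) := closedBall v r with hB
  have hBm : MeasurableSet B := measurableSet_closedBall
  have hbig : ∀ t, t ∉ B → r ≤ ‖t - v‖ := by
    intro t ht
    rw [hB, mem_closedBall, not_le, dist_eq_norm] at ht
    exact ht.le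
  have hr0 : ∀ t, t ∉ B → rho k (r⁻¹ • (t - v)) w = 0 := by
    intro t ht
    apply hk.rho_zero
    rw [norm_smul, norm_inv, Real.norm_eq_abs, abs_of_pos hr, ← div_eq_inv_mul, le_div_iff₀ hr]
    linarith [hbig t ht]
  have hk0 : ∀ t, t ∉ B → k (‖r⁻¹ • (t - v)‖ ^ 2) = 0 := fun t ht => hk.kernel_zero hr (hbig t ht)
  have res : ∀ {F : Type} [NormedAddCommGroup F] [NormedSpace ℝ F] (g : E m → F),
      (∀ t, t ∉ B → g t = 0) → ∫ t, g t ∂(ν.restrict B) = ∫ t, g t ∂ν := fun g hg =>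
    setIntegral_eq_integral_of_forall_compl_eq_zero hg
  set S := ∫ t, k (‖r⁻¹ • (t - v)‖ ^ 2) ∂ν with hS
  have hSav : av ν k r (fun _ => (1:ℝ)) v = S := by simp [av, hS]
  have hG : ∀ᵐ t ∂(ν.restrict B), t ∈ C ∩ B :=
    (ae_restrict_of_ae hνC).and (ae_restrict_mem hBm)
  set ν' := ν.restrict B with hν'
  have i1' : Integrable (fun _ : E m => (1:ℝ)) ν' := integrable_const 1
  have hfb : Integrable (fun t => f t - b) ν := hf.sub (integrable_const b)
  have hfb' : Integrable (fun t => f t - b) ν' := hfb.restrict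
  obtain ⟨f1, f2⟩ := sm_fderiv_base' hk hf hr (v := v) (by rw [hSav]; exact g0) w b
  rw [hSav] at f1 f2
  rw [← res (fun t => k (‖r⁻¹ • (t - v)‖ ^ 2) • (f t - b))
    (fun t ht => by rw [hk0 t ht, zero_smul])] at f1 f2
  rw [← res (fun t => rho k (r⁻¹ • (t - v)) w • (f t - b))
    (fun t ht => by rw [hr0 t ht, zero_smul]),
    ← res (fun t => rho k (r⁻¹ • (t - v)) w) hr0] at f2
  rw [← res (fun t => |rho k (r⁻¹ • (t - v)) w|)
    (fun t ht => by rw [hr0 t ht, abs_zero])] at g1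
  rw [← res (fun t => rho k (r⁻¹ • (t - v)) w) hr0] at g2
  have hSr : ∫ t, k (‖r⁻¹ • (t - v)‖ ^ 2) ∂ν' = S := res _ hk0
  have ik : Integrable (fun t => k (‖r⁻¹ • (t - v)‖ ^ 2)) ν' := by
    simpa using hk.int_k i1' r v
  have iρ : Integrable (fun t => rho k (r⁻¹ • (t - v)) w) ν' := by
    simpa using hk.int_rho i1' r v w
  have cA := fun (P : E n →L[ℝ] E n) (c : ℝ) (hc : 0 ≤ c)
      (hP : ∀ t ∈ C ∩ B, ‖P (f t - b)‖ ≤ c) =>
    core_a ν' (m₀ := m₀) g0 hη0 (fun t => rho k (r⁻¹ • (t - v)) w)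
      (fun t => k (‖r⁻¹ • (t - v)‖ ^ 2)) (fun t => f t - b) (C ∩ B) hG
      (fun t => hk.nonneg _) ik hSr iρ g1 g2 (hk.int_rho hfb' r v w)
      (hk.int_k hfb' r v) P hc hP
  have hX : ∀ P : E n →L[ℝ] E n, ‖P (r • fderiv ℝ (sm ν k r f) v w)‖ = S⁻¹ *
      ‖P (∫ t, rho k (r⁻¹ • (t - v)) w • (f t - b) ∂ν' - (∫ t, rho k (r⁻¹ • (t - v)) w ∂ν') •
        S⁻¹ • ∫ t, k (‖r⁻¹ • (t - v)‖ ^ 2) • (f t - b) ∂ν')‖ := by
    intro P
    rw [f2, map_smul, norm_smul, norm_inv, Real.norm_eq_abs, abs_of_pos g0]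
  refine ⟨by rw [hSav]; exact g0, ?_, ?_⟩
  · intro P c hc hP
    have hP' : ∀ t ∈ C ∩ B, ‖P (f t - b)‖ ≤ c := by
      rintro t ⟨ht, hy⟩
      rw [hB, mem_closedBall, dist_eq_norm] at hy
      exact hP t ht hy
    obtain ⟨c1, c2⟩ := cA P c hc hP'
    refine ⟨?_, ?_⟩
    · rw [f1]
      exact c1
    · rw [hX, inv_mul_le_iff₀ g0]
      calc _ ≤ c * (m₀ + 2 * η) * S := c2
        _ = _ := by ring
  · intro u Ω hu hΩ hΩb
    have hP' : ∀ t ∈ C ∩ B, ‖(ContinuousLinearMap.id ℝ (E n)) (f t - b)‖ ≤ Ω := by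
      rintro t ⟨ht, hy⟩
      rw [hB, mem_closedBall, dist_eq_norm] at hy
      exact hΩb t ht hy
    obtain ⟨c1, -⟩ := cA _ Ω hΩ hP'
    simp only [ContinuousLinearMap.id_apply] at c1
    set Y := S⁻¹ • ∫ t, k (‖r⁻¹ • (t - v)‖ ^ 2) • (f t - b) ∂ν' with hY
    have hin : ⟪u, r • fderiv ℝ (sm ν k r f) v w⟫ = S⁻¹ *
        ((∫ t, rho k (r⁻¹ • (t - v)) w * ⟪u, f t - b⟫ ∂ν) -
        (∫ t, rho k (r⁻¹ • (t - v)) w ∂ν') * ⟪u, Y⟫) := by
      have e0 : ∫ t, rho k (r⁻¹ • (t - v)) w * ⟪u, f t - b⟫ ∂ν =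
          ∫ t, ⟪u, rho k (r⁻¹ • (t - v)) w • (f t - b)⟫ ∂ν' := by
        rw [← res (fun t => rho k (r⁻¹ • (t - v)) w * ⟪u, f t - b⟫)
          (fun t ht => by rw [hr0 t ht, zero_mul])]
        congr 1
        funext t
        rw [real_inner_smul_right]
      rw [e0, f2, real_inner_smul_right, inner_sub_right, real_inner_smul_right,
        integral_inner (hk.int_rho hfb' r v w)]
    have h1 : |(∫ t, rho k (r⁻¹ • (t - v)) w ∂ν') * ⟪u, Y⟫| ≤ (η * S) * Ω := by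
      rw [abs_mul]
      apply mul_le_mul g2 _ (abs_nonneg _) (by positivity)
      refine (abs_real_inner_le_norm _ _).trans ?_
      rw [hu, one_mul]
      exact c1
    have h2 : ⟪u, r • fderiv ℝ (sm ν k r f) v w⟫ ≤ ‖r • fderiv ℝ (sm ν k r f) v w‖ := by
      have := real_inner_le_norm u (r • fderiv ℝ (sm ν k r f) v w)
      rwa [hu, one_mul] at this
    refine le_trans ?_ h2
    rw [hin, mul_sub]
    have h3 : S⁻¹ * ((∫ t, rho k (r⁻¹ • (t - v)) w ∂ν') * ⟪u, Y⟫) ≤ η * Ω := by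
      rw [inv_mul_le_iff₀ g0]
      have := (abs_le.1 h1).2
      linarith
    linarith

end Pool.Agent.T2H18
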