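import Mathlib
import Pool.Agent.T2H18.RegA

/-!
# The criterion for general measures; asymptotics of smooth measures
-/

set_option autoImplicit false

open Set Filter Topology Metric Function MeasureTheory
open scoped ContDiff RealInnerProductSpace Manifold

noncomputable section

namespace Pool.Agent.T2H18

open Pool.Agent.Y522 (LD)

section crit

variable {M : Type*} [TopologicalSpace M] [T2Space M] [CompactSpace M] [ConnectedSpace M]
  [ChartedSpace (E 4) M] [IsManifold (𝓡 4) ∞ M]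
variable {N : Type*} [TopologicalSpace N] [T2Space N] [CompactSpace N] [SimplyConnectedSpace N]
  [ChartedSpace (E 4) N] [IsManifold (𝓡 4) ∞ N]

omit [CompactSpace N] in
/-- The criterion. -/
theorem crit_reg {m n : ℕ} {j : M → E m} {ι : N → E n} (hj : Emb j) (hι : Emb ι)
    {K : ℕ} {A : Fin K → E 4 → M} (hA : Atl A) {k : ℝ → ℝ} (hk : Kg k)
    {π : E n → N} {U : Set (E n)} (hU : IsOpen U)
    (hπ : ∀ y ∈ U, ContMDiffAt 𝓘(ℝ, E n) (𝓡 4) ∞ π y) (hπι : ∀ z, π (ι z) = z)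
    (hcl : ∀ z y, ‖ι (π y) - ι z‖ ≤ 2 * ‖y - ι z‖)
    {δ₁ ε : ℝ} (hδ₁ : 0 < δ₁) (hε : 0 < ε)
    (hret : ∀ z : N, ∀ y, ‖y - ι z‖ < δ₁ → y ∈ U ∧
      ‖fderiv ℝ (fun y => ι (π y)) y - fderiv ℝ (fun y => ι (π y)) (ι z)‖ ≤ ε)
    {ν : Measure (E m)} [IsFiniteMeasure ν] (hνC : ∀ᵐ t ∂ν, t ∈ range j)
    {f : E m → E n} (hf : Integrable f ν) (g : M → N) (hfg : ∀ x, f (j x) = ι (g x))
    {r m₀ η β₁ σ : ℝ} (hr : 0 < r) (hη : 0 ≤ η) (hσ : σ < δ₁)
    (hconst : 2 * ε * (m₀ + 2 * η) < β₁)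
    (hyp : ∀ x, ∃ s, 0 < s ∧ s ≤ σ ∧
      (∀ y, ‖j y - j x‖ ≤ r → ‖ι (g y) - ι (g x)‖ ≤ s) ∧
      ∀ w ∈ tang j x, ‖w‖ = 1 →
        0 < ∫ t, k (‖r⁻¹ • (t - j x)‖ ^ 2) ∂ν ∧
        ∫ t, |rho k (r⁻¹ • (t - j x)) w| ∂ν ≤ (m₀ + η) * ∫ t, k (‖r⁻¹ • (t - j x)‖ ^ 2) ∂ν ∧
        |∫ t, rho k (r⁻¹ • (t - j x)) w ∂ν| ≤ η * ∫ t, k (‖r⁻¹ • (t - j x)‖ ^ 2) ∂ν ∧
        s * β₁ ≤ ‖r • fderiv ℝ (sm ν k r f) (j x) w‖) :
    ∃ Φ : Diffeomorph (𝓡 4) (𝓡 4) M N ∞,
      (∀ hg : Continuous g, ContinuousMap.Homotopic ⟨g, hg⟩ ⟨Φ, Φ.continuous⟩) ∧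
      ∀ x, ‖ι (Φ x) - ι (g x)‖ ≤ 2 * σ := by
  -- existence of unit vectors
  have hunit : ∀ i p, ∀ w : E 4, w ≠ 0 → ∃ t : ℝ, 0 < t ∧
      ‖fderiv ℝ (fun q => j (A i q)) p (t • w)‖ = 1 := by
    intro i p w hw
    have h1 : fderiv ℝ (fun q => j (A i q)) p w ≠ 0 := by
      intro h
      exact hw (hj.fderiv_inj hA i p (by rw [h, map_zero]))
    have h2 := norm_pos_iff.2 h1
    refine ⟨‖fderiv ℝ (fun q => j (A i q)) p w‖⁻¹, inv_pos.2 h2, ?_⟩
    rw [map_smul, norm_smul, norm_inv, norm_norm, inv_mul_cancel₀ h2.ne']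
  have hloc : ∀ x : M, ∃ s : ℝ, 0 < s ∧ s ≤ σ ∧ ∀ w ∈ tang j x, ‖w‖ = 1 →
      0 < av ν k r (fun _ => (1:ℝ)) (j x) ∧
      ‖sm ν k r f (j x) - ι (g x)‖ ≤ s ∧
      ‖r • fderiv ℝ (sm ν k r f) (j x) w‖ ≤ s * (m₀ + 2 * η) ∧
      ‖(r • fderiv ℝ (sm ν k r f) (j x) w) - fderiv ℝ (fun y => ι (π y)) (ι (g x))
        (r • fderiv ℝ (sm ν k r f) (j x) w)‖ ≤ ε * s * (m₀ + 2 * η) ∧
      s * β₁ ≤ ‖r • fderiv ℝ (sm ν k r f) (j x) w‖ := by
    intro x
    obtain ⟨s, hs, hsσ, hy, hw⟩ := hyp x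
    refine ⟨s, hs, hsσ, fun w hwt hw1 => ?_⟩
    obtain ⟨g0, g1, g2, hlow⟩ := hw w hwt hw1
    obtain ⟨c1, c2, -⟩ := loc_reg hk hνC hf hr hη (j x) w g0 g1 g2 (ι (g x))
    obtain ⟨c3, c4⟩ := c2 (ContinuousLinearMap.id ℝ _) s hs.le
      (fun t ht htr => by
        obtain ⟨y, rfl⟩ := ht
        simp only [ContinuousLinearMap.id_apply, hfg]
        exact hy y htr)
    obtain ⟨-, c5⟩ := c2 (ContinuousLinearMap.id ℝ _ - fderiv ℝ (fun y => ι (π y)) (ι (g x)))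
      (ε * s) (by positivity) (fun t ht htr => by
        obtain ⟨y, rfl⟩ := ht
        simp only [sub_apply, ContinuousLinearMap.id_apply, hfg]
        have h3 := chord_retr hι hπ hπι hδ₁ (hret (g x)) (z' := g y)
          (lt_of_le_of_lt (hy y htr) (lt_of_le_of_lt hsσ hσ))
        exact h3.trans (mul_le_mul_of_nonneg_left (hy y htr) hε.le))
    simp only [ContinuousLinearMap.id_apply] at c3 c4
    simp only [sub_apply, ContinuousLinearMap.id_apply] at c5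
    exact ⟨c1, c3, c4, c5, hlow⟩
  have hav : ∀ x, 0 < av ν k r (fun _ => (1:ℝ)) (j x) ∧ ‖sm ν k r f (j x) - ι (g x)‖ ≤ σ := by
    intro x
    obtain ⟨s, hs, hsσ, h1⟩ := hloc x
    obtain ⟨i, p, hp, hpx⟩ := hA.cov x
    have hne : (EuclideanSpace.single 0 1 : E 4) ≠ 0 := by
      intro h
      have := congrArg norm h
      simp at this
    obtain ⟨t, ht, hw⟩ := hunit i p _ hne
    obtain ⟨c1, c2, -⟩ := h1 _ (by rw [← hpx]; exact hj.fderiv_mem hA i p _) hw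
    exact ⟨c1, c2.trans hsσ⟩
  have hH : ∀ x, ∀ᶠ v in 𝓝 (j x), ContDiffAt ℝ ∞ (sm ν k r f) v := by
    intro x
    have h1 : ContinuousAt (av ν k r (fun _ => (1:ℝ))) (j x) :=
      (av_contDiff' hk (integrable_const (μ := ν) (1:ℝ)) hr).continuous.continuousAt
    filter_upwards [h1.eventually (lt_mem_nhds (hav x).1)] with v hv
    exact sm_contDiffAt' hk hf hr hv
  refine exists_diffeo' hj hι hA hU hπ hπι hcl (δ₁ := δ₁) (fun z y hy => (hret z y hy).1) g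
    (sm ν k r f) (c := σ) hσ hH (fun x => (hav x).2) ?_
  intro i p hp w hw hzero
  obtain ⟨t, ht, hu⟩ := hunit i p w hw
  set x := A i p with hx
  obtain ⟨s, hs, hsσ, h1⟩ := hloc x
  obtain ⟨-, hcl1, hXup, hX2, hlow⟩ := h1 _ (hj.fderiv_mem hA i p (t • w)) hu
  set H := sm ν k r f with hHdef
  set v := fderiv ℝ (fun q => j (A i q)) p (t • w) with hv
  set X := r • fderiv ℝ H (j x) v with hX
  obtain ⟨hHU, hDclose⟩ := hret (g x) (H (j x)) (lt_of_le_of_lt hcl1 (lt_of_le_of_lt hsσ hσ))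
  -- the differential of the composite
  have hder : fderiv ℝ (fun y => ι (π y)) (H (j x)) X = 0 := by
    have d1 : HasFDerivAt (fun q => j (A i q)) (fderiv ℝ (fun q => j (A i q)) p) p :=
      ((hj.contDiff hA i).differentiable (by simp) p).hasFDerivAt
    have d2 : HasFDerivAt H (fderiv ℝ H (j x)) (j (A i p)) :=
      ((hH x).self_of_nhds.differentiableAt (by simp)).hasFDerivAt
    have d3 : HasFDerivAt (fun y => ι (π y)) (fderiv ℝ (fun y => ι (π y)) (H (j x)))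
        (H (j (A i p))) :=
      ((Pi_contDiffAt hι hπ hHU).differentiableAt (by simp)).hasFDerivAt
    have d4 := (d3.comp (j (A i p)) d2).comp p d1
    have d5 : fderiv ℝ (fun q => ι (π (H (j (A i q))))) p = _ := d4.fderiv
    rw [d5] at hzero
    simp only [ContinuousLinearMap.comp_apply] at hzero
    rw [hX, hv, map_smul, map_smul, map_smul, map_smul, hzero, smul_zero, smul_zero]
  have hX3 : ‖fderiv ℝ (fun y => ι (π y)) (ι (g x)) X‖ ≤ ε * (s * (m₀ + 2 * η)) := by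
    have h2 : fderiv ℝ (fun y => ι (π y)) (ι (g x)) X =
        -((fderiv ℝ (fun y => ι (π y)) (H (j x)) - fderiv ℝ (fun y => ι (π y)) (ι (g x))) X) := by
      rw [sub_apply, hder, zero_sub, neg_neg]
    rw [h2, norm_neg]
    refine (ContinuousLinearMap.le_opNorm _ _).trans ?_
    exact mul_le_mul hDclose hXup (norm_nonneg _) hε.le
  have hX4 : ‖X‖ ≤ ‖X - fderiv ℝ (fun y => ι (π y)) (ι (g x)) X‖ +
      ‖fderiv ℝ (fun y => ι (π y)) (ι (g x)) X‖ := by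
    have := norm_add_le (X - fderiv ℝ (fun y => ι (π y)) (ι (g x)) X)
      (fderiv ℝ (fun y => ι (π y)) (ι (g x)) X)
    rwa [sub_add_cancel] at this
  have hX5 : s * β₁ ≤ s * (2 * ε * (m₀ + 2 * η)) := by
    calc s * β₁ ≤ ‖X‖ := hlow
      _ ≤ ε * s * (m₀ + 2 * η) + ε * (s * (m₀ + 2 * η)) := by linarith
      _ = s * (2 * ε * (m₀ + 2 * η)) := by ring
  have hX6 := le_of_mul_le_mul_left hX5 hs
  linarith

end crit

section asym

variable {M : Type*} [TopologicalSpace M] [ChartedSpace (E 4) M] [MeasurableSpace M]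
variable {m : ℕ} {j : M → E m} {K : ℕ} {A : Fin K → E 4 → M}

/-- measures with continuous positive densities in all global parametrisations -/
def SmoothMeas (μ : Measure M) : Prop :=
  ∀ B : E 4 → M, Injective B → (∀ q, LD 4 B q) → ∃ D : E 4 → ℝ, Continuous D ∧
    (∀ q, 0 < D q) ∧ ∀ S, MeasurableSet S → μ (B '' S) = ∫⁻ q in S, ENNReal.ofReal (D q)

theorem param_emb [BorelSpace M] {B : E 4 → M} (hinj : Injective B) (hB : ∀ q, LD 4 B q) :
    MeasurableEmbedding B := by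
  have h1 : IsOpenEmbedding B := by
    apply IsOpenEmbedding.of_continuous_injective_isOpenMap
    · rw [continuous_iff_continuousAt]
      exact fun q => (hB q).continuousAt
    · exact hinj
    · intro s hs
      exact Pool.Agent.Y522.isOpen_image_of_LD hs fun x _ => hB x
  exact h1.measurableEmbedding

/-- the cut-off function -/
def cut (q : E 4) : ℝ := max 0 (min 1 (4 - 2 * ‖q‖))

theorem cut_cont : Continuous cut := by
  unfold cut
  fun_prop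

theorem cut_one {q : E 4} (hq : ‖q‖ ≤ 3 / 2) : cut q = 1 := by
  unfold cut
  rw [min_eq_left (by linarith), max_eq_right zero_le_one]

theorem cut_zero {q : E 4} (hq : 2 < ‖q‖) : cut q = 0 := by
  unfold cut
  rw [max_eq_left]
  exact (min_le_right _ _).trans (by linarith)

theorem mu_integral [BorelSpace M] {μ : Measure M} {B : E 4 → M}
    (hinj : Injective B) (hB : ∀ q, LD 4 B q) {D : E 4 → ℝ} (hDc : Continuous D)
    (hD0 : ∀ q, 0 < D q)
    (hD : ∀ S, MeasurableSet S → μ (B '' S) = ∫⁻ q in S, ENNReal.ofReal (D q))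
    {Φ : M → ℝ} (hΦ : ∀ y, y ∉ B '' ball 0 (3 / 2) → Φ y = 0) :
    ∫ y, Φ y ∂μ = ∫ q : E 4, (D q * cut q) * Φ (B q) := by
  have he := param_emb hinj hB
  have h1 : μ.comap B = volume.withDensity (fun q => ENNReal.ofReal (D q)) := by
    ext S hS
    rw [he.comap_apply, hD S hS, withDensity_apply _ hS]
  have h2 : ∫ y, Φ y ∂μ = ∫ y in range B, Φ y ∂μ := by
    symm
    apply setIntegral_eq_integral_of_forall_compl_eq_zero
    intro y hy
    apply hΦ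
    intro h
    exact hy (image_subset_range _ _ h)
  rw [h2, ← he.map_comap, he.integral_map, h1,
    integral_withDensity_eq_integral_toReal_smul hDc.measurable.ennreal_ofReal
      (Eventually.of_forall fun q => ENNReal.ofReal_lt_top)]
  congr 1
  funext q
  rw [ENNReal.toReal_ofReal (hD0 q).le, smul_eq_mul]
  rcases lt_or_ge ‖q‖ (3 / 2) with hq | hq
  · rw [cut_one hq.le, mul_one]
  · have : Φ (B q) = 0 := by
      apply hΦ
      rintro ⟨q', hq', hqe⟩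
      rw [hinj hqe] at hq'
      rw [mem_ball, dist_zero_right] at hq'
      linarith
    rw [this, mul_zero, mul_zero]

theorem asym_mu [BorelSpace M] [T2Space M] [CompactSpace M] [IsManifold (𝓡 4) ∞ M] (hj : Emb j)
    (hA : Atl A) {μ : Measure M} (hμ : SmoothMeas μ) (i : Fin K) {p₀ : E 4} (hp₀ : ‖p₀‖ ≤ 1) :
    ∃ (L : E 4 →ₗᵢ[ℝ] E m) (D : ℝ), 0 < D ∧ (∀ v, v ∈ tang j (A i p₀) ↔ ∃ y, L y = v) ∧
      ∀ Ψ : E m → E m → ℝ, Test Ψ → ∀ w₀ : E m,
        Tendsto (fun x : ℝ × E 4 × E m => x.1⁻¹ ^ 4 *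
          ∫ y, Ψ (x.1⁻¹ • (j y - j (A i x.2.1))) x.2.2 ∂μ)
          (𝓝[>] 0 ×ˢ (𝓝 p₀ ×ˢ 𝓝 w₀)) (𝓝 (D * ∫ z : E 4, Ψ (L z) w₀)) := by
  obtain ⟨L, hL⟩ := hj.exists_isom (A i p₀)
  obtain ⟨D, hDc, hD0, hD⟩ := hμ (A i) (hA.inj i) (hA.ld i)
  have hcd := hj.contDiff hA i
  obtain ⟨d, hd, hscale⟩ := exists_scale (hj.fderiv_inj hA i p₀) L
    (fun z => (hL _).1 (hj.fderiv_mem hA i p₀ z))
  refine ⟨L, D p₀ * d, mul_pos (hD0 _) hd, hL, ?_⟩
  intro Ψ hΨ w₀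
  have h1 := tendsto_piece (c := fun q => j (A i q)) hcd.continuous
    (hcd.contDiffAt.hasStrictFDerivAt (by simp)) (hj.fderiv_inj hA i p₀)
    (fun q _ h => hA.inj i (hj.inj h)) (θ := fun q => D q * cut q) (hDc.mul cut_cont)
    (fun q hq => by rw [cut_zero hq, mul_zero]) hΨ w₀
  rw [integral_const_mul, hscale (fun v => Ψ v w₀), ← mul_assoc, cut_one (by linarith),
    mul_one] at h1
  -- far points
  obtain ⟨β, hβ, hfar⟩ : ∃ β : ℝ, 0 < β ∧ ∀ y, y ∉ A i '' ball 0 (3 / 2) →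
      β ≤ ‖j y - j (A i p₀)‖ := by
    have hop : IsOpen (A i '' ball (0 : E 4) (3 / 2)) :=
      Pool.Agent.Y522.isOpen_image_of_LD isOpen_ball fun x _ => hA.ld i x
    have hK : IsCompact ((A i '' ball (0 : E 4) (3 / 2))ᶜ) := hop.isClosed_compl.isCompact
    have hjc : Continuous j := hj.smooth.continuous
    rcases ((A i '' ball (0 : E 4) (3 / 2))ᶜ).eq_empty_or_nonempty with h | h
    · refine ⟨1, one_pos, fun y hy => ?_⟩
      exfalso
      have : y ∈ (A i '' ball (0 : E 4) (3 / 2))ᶜ := hy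
      rw [h] at this
      exact this
    · obtain ⟨y₁, hy₁, hmin⟩ := hK.exists_isMinOn h (f := fun y => ‖j y - j (A i p₀)‖)
        (by fun_prop)
      refine ⟨‖j y₁ - j (A i p₀)‖, ?_, fun y hy => isMinOn_iff.1 hmin y hy⟩
      rw [norm_pos_iff, sub_ne_zero]
      intro h2
      apply hy₁
      refine ⟨p₀, ?_, (hj.inj h2).symm⟩
      rw [mem_ball, dist_zero_right]
      linarith
  set F : Filter (ℝ × E 4 × E m) := 𝓝[>] 0 ×ˢ (𝓝 p₀ ×ˢ 𝓝 w₀) with hF
  have tr : Tendsto (fun x : ℝ × E 4 × E m => x.1) F (𝓝[>] 0) := tendsto_fst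
  have tr0 : Tendsto (fun x : ℝ × E 4 × E m => x.1) F (𝓝 0) := tr.mono_right nhdsWithin_le_nhds
  have tp : Tendsto (fun x : ℝ × E 4 × E m => x.2.1) F (𝓝 p₀) := tendsto_fst.comp tendsto_snd
  have er : ∀ᶠ x in F, 0 < x.1 := tr.eventually eventually_mem_nhdsWithin
  have er1 : ∀ᶠ x in F, x.1 < β / 2 := tr0.eventually (gt_mem_nhds (half_pos hβ))
  have ep2 : ∀ᶠ x in F, ‖j (A i x.2.1) - j (A i p₀)‖ < β / 2 := by
    have h1 : Tendsto (fun x : ℝ × E 4 × E m => ‖j (A i x.2.1) - j (A i p₀)‖) F (𝓝 0) := by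
      have h2 : Tendsto (fun x : ℝ × E 4 × E m => ‖j (A i x.2.1) - j (A i p₀)‖) F
          (𝓝 ‖j (A i p₀) - j (A i p₀)‖) :=
        (((hcd.continuous.tendsto p₀).comp tp).sub_const _).norm
      simpa using h2
    exact h1.eventually (gt_mem_nhds (half_pos hβ))
  refine h1.congr' ?_
  filter_upwards [er, er1, ep2] with x hr hr1 hp2
  rw [mu_integral (hA.inj i) (hA.ld i) hDc hD0 hD (Φ := fun y =>
    Ψ (x.1⁻¹ • (j y - j (A i x.2.1))) x.2.2)]
  · rw [integral_subst (fun q => (D q * cut q) * Ψ (x.1⁻¹ • (j (A i q) - j (A i x.2.1))) x.2.2)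
      x.2.1 hr]
  · intro y hy
    apply hΨ.supp
    have h3 := hfar y hy
    have h4 : ‖j y - j (A i p₀)‖ ≤ ‖j y - j (A i x.2.1)‖ + ‖j (A i x.2.1) - j (A i p₀)‖ := by
      have : j y - j (A i p₀) = (j y - j (A i x.2.1)) + (j (A i x.2.1) - j (A i p₀)) := by abel
      rw [this]
      exact norm_add_le _ _
    rw [norm_smul, norm_inv, Real.norm_eq_abs, abs_of_pos hr, ← div_eq_inv_mul, le_div_iff₀ hr]
    linarith

end asym

end Pool.Agent.T2H18
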