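import Mathlib
import Pool.Agent.T2H18.RegB

/-!
# The regression kernel
-/

set_option autoImplicit false

open Set Filter Topology Metric Function MeasureTheory
open scoped ContDiff RealInnerProductSpace Manifold Interval

noncomputable section

namespace Pool.Agent.T2H18

open Pool.Agent.Y522 (LD)

/-- the primitive of a cut-off profile -/
def prim (κ : ℝ → ℝ) (s : ℝ) : ℝ := -(1 / 2) * ∫ u in (1:ℝ)..s, κ u

variable {e : ℝ} {κ : ℝ → ℝ}

theorem prim_deriv (hκ : Ker e κ) (s : ℝ) : HasDerivAt (prim κ) (-(1 / 2) * κ s) s := by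
  have hc := hκ.diff.continuous
  exact (intervalIntegral.integral_hasDerivAt_right (hc.intervalIntegrable _ _)
    (hc.stronglyMeasurableAtFilter _ _) hc.continuousAt).const_mul _

theorem prim_deriv' (hκ : Ker e κ) : deriv (prim κ) = fun s => -(1 / 2) * κ s :=
  funext fun s => (prim_deriv hκ s).deriv

theorem prim_rho (hκ : Ker e κ) {m : ℕ} (z w : E m) :
    rho (prim κ) z w = κ (‖z‖ ^ 2) * ⟪z, w⟫ := by
  rw [rho, prim_deriv' hκ]
  ring

theorem prim_zero (hκ : Ker e κ) {s : ℝ} (hs : 1 ≤ s) : prim κ s = 0 := by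
  unfold prim
  have : ∫ u in (1:ℝ)..s, κ u = 0 := by
    rw [intervalIntegral.integral_zero_ae]
    refine Eventually.of_forall fun u hu => ?_
    rw [uIoc_of_le hs] at hu
    exact hκ.zero u hu.1.le
  rw [this, mul_zero]

theorem prim_anti (hκ : Ker e κ) : Antitone (prim κ) := by
  apply antitone_of_deriv_nonpos
  · exact fun s => (prim_deriv hκ s).differentiableAt
  · intro s
    rw [prim_deriv' hκ]
    have := hκ.nonneg s
    linarith

/-- lower bounds of the primitive -/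
theorem prim_lower (hκ : Ker e κ) {s : ℝ} (hs : s ≤ 1 - e) (he : 0 ≤ e) :
    (1 - e - s) / 2 ≤ prim κ s := by
  unfold prim
  rw [intervalIntegral.integral_symm]
  have hc := hκ.diff.continuous
  have h1 : ∫ u in s..(1:ℝ), κ u = (∫ u in s..(1 - e), κ u) + ∫ u in (1 - e)..1, κ u :=
    (intervalIntegral.integral_add_adjacent_intervals (hc.intervalIntegrable _ _)
      (hc.intervalIntegrable _ _)).symm
  have h2 : ∫ u in s..(1 - e), κ u = 1 - e - s := by
    have : ∫ u in s..(1 - e), κ u = ∫ u in s..(1 - e), (1:ℝ) := by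
      apply intervalIntegral.integral_congr
      intro u hu
      rw [uIcc_of_le hs] at hu
      exact hκ.one u hu.2
    rw [this]
    simp
  have h3 : 0 ≤ ∫ u in (1 - e)..1, κ u :=
    intervalIntegral.integral_nonneg (by linarith) fun u _ => hκ.nonneg u
  linarith

theorem prim_upper (hκ : Ker e κ) {s : ℝ} (hs0 : 0 ≤ s) : prim κ s ≤ 1 / 2 := by
  have h0 : prim κ s ≤ prim κ 0 := prim_anti hκ hs0
  refine h0.trans ?_
  unfold prim
  rw [intervalIntegral.integral_symm]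
  have hc := hκ.diff.continuous
  have h1 : ∫ u in (0:ℝ)..1, κ u ≤ ∫ u in (0:ℝ)..1, (1:ℝ) :=
    intervalIntegral.integral_mono_on zero_le_one (hc.intervalIntegrable _ _)
      (continuous_const.intervalIntegrable _ _) fun u _ => hκ.le_one u
  simp at h1
  linarith

theorem prim_kg (hκ : Ker e κ) (he0 : 0 ≤ e) (he1 : e < 1) : Kg (prim κ) := by
  refine ⟨?_, fun t ht => prim_zero hκ ht, prim_anti hκ, ?_⟩
  · rw [contDiff_infty_iff_deriv]
    refine ⟨fun s => (prim_deriv hκ s).differentiableAt, ?_⟩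
    rw [prim_deriv' hκ]
    exact contDiff_const.mul hκ.smooth
  · have := prim_lower hκ (s := 0) (by linarith) he0
    linarith

theorem int_prim_ge (hκ : Ker e κ) (he0 : 0 ≤ e) (he1 : e ≤ 1 / 4) :
    1 / 16 ≤ ∫ z : E 4, prim κ (‖z‖ ^ 2) := by
  have hk := prim_kg hκ he0 (by linarith)
  have hkc := hk.diff.continuous
  have hint : Integrable (fun z : E 4 => prim κ (‖z‖ ^ 2)) := by
    apply Continuous.integrable_of_hasCompactSupport (by fun_prop)
    apply HasCompactSupport.intro (isCompact_closedBall (0 : E 4) 1)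
    intro x hx
    simp only [mem_closedBall, dist_zero_right, not_le] at hx
    exact hk.zero _ (one_le_sq hx.le)
  have h1 : ∫ z in ball (0 : E 4) (1 / 2), (1 / 4 : ℝ) ≤ ∫ z in ball (0 : E 4) (1 / 2),
      prim κ (‖z‖ ^ 2) := by
    apply setIntegral_mono_on (integrableOn_const (measure_ball_lt_top.ne)) hint.integrableOn
      measurableSet_ball
    intro z hz
    rw [mem_ball, dist_zero_right] at hz
    have h2 : ‖z‖ ^ 2 ≤ 1 / 4 := by nlinarith [norm_nonneg z]
    have h3 := prim_lower hκ (s := ‖z‖ ^ 2) (by linarith) he0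
    linarith
  have h2 : ∫ z in ball (0 : E 4) (1 / 2), prim κ (‖z‖ ^ 2) ≤ ∫ z : E 4, prim κ (‖z‖ ^ 2) :=
    setIntegral_le_integral hint (Eventually.of_forall fun z => hk.nonneg _)
  rw [setIntegral_const, smul_eq_mul, vol_ball_eq 0 (by norm_num : (0:ℝ) ≤ 1 / 2)] at h1
  have h3 := Real.pi_gt_three
  have h4 : 4 ≤ Real.pi ^ 2 / 2 := by nlinarith
  nlinarith

/-- the shell function -/
def shell (e s : ℝ) : ℝ := max 0 (min 1 (2 - |4 * s - 1| / e))

theorem shell_cont (e : ℝ) : Continuous (shell e) := by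
  unfold shell
  fun_prop

theorem shell_nonneg (e s : ℝ) : 0 ≤ shell e s := le_max_left _ _

theorem shell_le_one (e s : ℝ) : shell e s ≤ 1 := max_le zero_le_one (min_le_left _ _)

theorem shell_one {e s : ℝ} (he : 0 < e) (h : |4 * s - 1| ≤ e) : shell e s = 1 := by
  unfold shell
  have h1 : |4 * s - 1| / e ≤ 1 := by rwa [div_le_one he]
  rw [min_eq_left (by linarith), max_eq_right zero_le_one]

theorem shell_zero {e s : ℝ} (he : 0 < e) (h : 2 * e ≤ |4 * s - 1|) : shell e s = 0 := by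
  unfold shell
  have h1 : 2 ≤ |4 * s - 1| / e := by rwa [le_div_iff₀ he]
  rw [max_eq_left]
  exact (min_le_right _ _).trans (by linarith)

theorem shell_test {e : ℝ} (he : 0 < e) (he1 : e ≤ 1 / 4) {m : ℕ} :
    Test (fun z _ : E m => shell e (‖z‖ ^ 2)) := by
  refine ⟨?_, fun z w hz => ?_⟩
  · have := shell_cont e
    fun_prop
  · apply shell_zero he
    have := one_le_sq hz
    rw [abs_of_nonneg (by linarith)]
    linarith

theorem int_shell_le {e : ℝ} (he : 0 < e) (he1 : e ≤ 1 / 4) :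
    ∫ z : E 4, shell e (‖z‖ ^ 2) ≤ 3 * e := by
  set R₂ := Real.sqrt ((1 + 2 * e) / 4) with hR₂
  set R₁ := Real.sqrt ((1 - 2 * e) / 4) with hR₁
  have h2 : R₂ ^ 2 = (1 + 2 * e) / 4 := Real.sq_sqrt (by linarith)
  have h1 : R₁ ^ 2 = (1 - 2 * e) / 4 := Real.sq_sqrt (by linarith)
  have h2' : 0 ≤ R₂ := Real.sqrt_nonneg _
  have h1' : 0 ≤ R₁ := Real.sqrt_nonneg _
  have hs1' : ∀ t : ℝ, Integrable (fun q : E 4 => (ball (0 : E 4) t).indicator (fun _ => (1:ℝ)) q) := by
    intro t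
    apply (integrable_indicator_iff measurableSet_ball).2
    exact integrableOn_const (measure_ball_lt_top.ne)
  have hle : ∫ z : E 4, shell e (‖z‖ ^ 2) ≤ ∫ z : E 4,
      ((ball (0 : E 4) R₂).indicator (fun _ => (1:ℝ)) z -
        (ball (0 : E 4) R₁).indicator (fun _ => (1:ℝ)) z) := by
    apply integral_mono_of_nonneg
    · exact Eventually.of_forall fun z => shell_nonneg _ _
    · exact (hs1' _).sub (hs1' _)
    · refine Eventually.of_forall fun z => ?_
      simp only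
      have hz0 := norm_nonneg z
      by_cases hz : ‖z‖ < R₁
      · have hz2 : ‖z‖ < R₂ := by
          apply lt_of_lt_of_le hz
          apply Real.sqrt_le_sqrt
          linarith
        have m1 : z ∈ ball (0 : E 4) R₁ := by simpa using hz
        have m2 : z ∈ ball (0 : E 4) R₂ := by simpa using hz2
        rw [indicator_of_mem m1, indicator_of_mem m2, sub_self]
        apply le_of_eq
        apply shell_zero he
        have h3 : ‖z‖ ^ 2 < R₁ ^ 2 := by nlinarith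
        rw [h1] at h3
        rw [abs_of_nonpos (by linarith)]
        linarith
      · have m1 : z ∉ ball (0 : E 4) R₁ := by simpa using hz
        rw [indicator_of_notMem m1, sub_zero]
        by_cases hz2 : ‖z‖ < R₂
        · have m2 : z ∈ ball (0 : E 4) R₂ := by simpa using hz2
          rw [indicator_of_mem m2]
          exact shell_le_one _ _
        · have m2 : z ∉ ball (0 : E 4) R₂ := by simpa using hz2
          rw [indicator_of_notMem m2]
          apply le_of_eq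
          apply shell_zero he
          push Not at hz2
          have h3 : R₂ ^ 2 ≤ ‖z‖ ^ 2 := by nlinarith
          rw [h2] at h3
          rw [abs_of_nonneg (by linarith)]
          linarith
  refine hle.trans ?_
  rw [integral_sub (hs1' _) (hs1' _), integral_indicator measurableSet_ball,
    integral_indicator measurableSet_ball]
  simp only [integral_const, measureReal_restrict_apply, MeasurableSet.univ, univ_inter,
    smul_eq_mul, mul_one]
  rw [vol_ball_eq _ h2', vol_ball_eq _ h1']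
  have h3 : R₂ ^ 4 = ((1 + 2 * e) / 4) ^ 2 := by rw [← h2]; ring
  have h4 : R₁ ^ 4 = ((1 - 2 * e) / 4) ^ 2 := by rw [← h1]; ring
  rw [h3, h4]
  have h5 := Real.pi_lt_d2
  have h6 := Real.pi_pos
  have h7 : Real.pi ^ 2 ≤ 10 := by nlinarith
  have h8 : Real.pi ^ 2 / 2 * ((1 + 2 * e) / 4) ^ 2 - Real.pi ^ 2 / 2 * ((1 - 2 * e) / 4) ^ 2 =
      Real.pi ^ 2 * e / 4 := by ring
  rw [h8]
  nlinarith

theorem int_abs_rho_le (hκ : Ker e κ) {y : E 4} (hy : ‖y‖ = 1) :
    ∫ z : E 4, |κ (‖z‖ ^ 2) * ⟪z, y⟫| ≤ 5 := by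
  have hs1' : Integrable (fun q : E 4 => (closedBall (0 : E 4) 1).indicator (fun _ => (1:ℝ)) q) := by
    apply (integrable_indicator_iff measurableSet_closedBall).2
    exact integrableOn_const (measure_closedBall_lt_top.ne)
  have hle : ∫ z : E 4, |κ (‖z‖ ^ 2) * ⟪z, y⟫| ≤ ∫ z : E 4,
      (closedBall (0 : E 4) 1).indicator (fun _ => (1:ℝ)) z := by
    apply integral_mono_of_nonneg
    · exact Eventually.of_forall fun z => abs_nonneg _
    · exact hs1'
    · refine Eventually.of_forall fun z => ?_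
      simp only
      by_cases hz : ‖z‖ ≤ 1
      · rw [indicator_of_mem (by simpa using hz), abs_mul, abs_of_nonneg (hκ.nonneg _)]
        have h1 := abs_real_inner_le_norm z y
        rw [hy, mul_one] at h1
        calc κ (‖z‖ ^ 2) * |⟪z, y⟫| ≤ 1 * 1 :=
            mul_le_mul (hκ.le_one _) (h1.trans hz) (abs_nonneg _) zero_le_one
          _ = 1 := one_mul 1
      · rw [indicator_of_notMem (by simpa using hz), hκ.zero _ (one_le_sq (not_le.1 hz).le)]
        simp
  refine hle.trans ?_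
  rw [integral_indicator measurableSet_closedBall]
  simp only [integral_const, measureReal_restrict_apply, MeasurableSet.univ, univ_inter,
    smul_eq_mul, mul_one]
  rw [Measure.real, Measure.addHaar_closedBall_eq_addHaar_ball, ← Measure.real,
    vol_ball_eq _ zero_le_one]
  have h5 := Real.pi_lt_d2
  have h6 := Real.pi_pos
  nlinarith

section unif

variable {M : Type*} [TopologicalSpace M] [ChartedSpace (E 4) M] [MeasurableSpace M]
variable {m : ℕ} {j : M → E m} {K : ℕ} {A : Fin K → E 4 → M}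

/-- the good bounds -/
def GoodR (μ : Measure M) (j : M → E m) (κ : ℝ → ℝ) (e c η r : ℝ) (x : M) (w : E m) : Prop :=
  0 < ∫ y, prim κ (‖r⁻¹ • (j y - j x)‖ ^ 2) ∂μ ∧
  ∫ y, |rho (prim κ) (r⁻¹ • (j y - j x)) w| ∂μ ≤
    (80 + η) * ∫ y, prim κ (‖r⁻¹ • (j y - j x)‖ ^ 2) ∂μ ∧
  |∫ y, rho (prim κ) (r⁻¹ • (j y - j x)) w ∂μ| ≤
    η * ∫ y, prim κ (‖r⁻¹ • (j y - j x)‖ ^ 2) ∂μ ∧
  ∫ y, shell e (‖(2 * r)⁻¹ • (j y - j x)‖ ^ 2) ∂μ ≤
    c * ∫ y, prim κ (‖r⁻¹ • (j y - j x)‖ ^ 2) ∂μ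

theorem eventually_goodR [BorelSpace M] [T2Space M] [CompactSpace M] [IsManifold (𝓡 4) ∞ M]
    (hj : Emb j) (hA : Atl A) {μ : Measure M} (hμ : SmoothMeas μ) (hκ : Ker e κ) (he : 0 < e)
    (he1 : e ≤ 1 / 4) {c η : ℝ} (hη : 0 < η) (hc : 0 < c) (hec : 1000 * e ≤ c) (i : Fin K)
    {p₀ : E 4} (hp₀ : ‖p₀‖ ≤ 1) (w₀ : E m) (hw : ‖w₀‖ = 1) (hwt : w₀ ∈ tang j (A i p₀)) :
    ∀ᶠ x : ℝ × E 4 × E m in 𝓝[>] 0 ×ˢ (𝓝 p₀ ×ˢ 𝓝 w₀),
      GoodR μ j κ e c η x.1 (A i x.2.1) x.2.2 := by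
  obtain ⟨L, D, hD, hL, hlim⟩ := asym_mu hj hA hμ i hp₀
  obtain ⟨y, rfl⟩ := (hL w₀).1 hwt
  have hy : ‖y‖ = 1 := by rwa [L.norm_map] at hw
  have hk := prim_kg hκ he.le (by linarith)
  set I0 : ℝ := ∫ z : E 4, prim κ (‖z‖ ^ 2) with hI0
  have hI0' : 1 / 16 ≤ I0 := int_prim_ge hκ he.le he1
  have hI0pos : 0 < I0 := by linarith
  set I1 : ℝ := ∫ z : E 4, |κ (‖z‖ ^ 2) * ⟪z, y⟫| with hI1
  have hI1' : I1 ≤ 80 * I0 := (int_abs_rho_le hκ hy).trans (by linarith)
  set I2 : ℝ := ∫ z : E 4, shell e (‖z‖ ^ 2) with hI2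
  have hI2' : I2 ≤ 3 * e := int_shell_le he he1
  have hodd : ∫ z : E 4, κ (‖z‖ ^ 2) * ⟪z, y⟫ = 0 := by
    have h1 := integral_neg_eq_self (fun z : E 4 => κ (‖z‖ ^ 2) * ⟪z, y⟫) volume
    have h2 : (fun z : E 4 => κ (‖-z‖ ^ 2) * ⟪-z, y⟫) = fun z => - (κ (‖z‖ ^ 2) * ⟪z, y⟫) := by
      funext z
      rw [norm_neg, inner_neg_left]
      ring
    rw [h2, integral_neg] at h1
    linarith
  have t0 := hlim _ hk.test0 (L y)
  have t1 := hlim _ hk.test1 (L y)
  have t2 := hlim _ hk.test2 (L y)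
  have t3 := hlim _ (shell_test he he1) (L y)
  simp only [prim_rho hκ, L.norm_map, L.inner_map_map] at t0 t1 t2 t3
  rw [hodd, mul_zero] at t1
  rw [← hI0] at t0
  rw [← hI1] at t2
  rw [← hI2] at t3
  set F : Filter (ℝ × E 4 × E m) := 𝓝[>] 0 ×ˢ (𝓝 p₀ ×ˢ 𝓝 (L y)) with hF
  have t3' : Tendsto (fun x : ℝ × E 4 × E m => x.1⁻¹ ^ 4 *
      ∫ y, shell e (‖(2 * x.1)⁻¹ • (j y - j (A i x.2.1))‖ ^ 2) ∂μ) F (𝓝 (16 * (D * I2))) := by
    have h1 : Tendsto (fun x : ℝ × E 4 × E m => (2 * x.1, x.2)) F F := by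
      apply Tendsto.prodMk _ tendsto_snd
      have h2 : Tendsto (fun r : ℝ => 2 * r) (𝓝[>] 0) (𝓝[>] 0) := by
        apply tendsto_nhdsWithin_of_tendsto_nhds_of_eventually_within
        · have : Tendsto (fun r : ℝ => 2 * r) (𝓝 0) (𝓝 (2 * 0)) :=
            (continuous_const.mul continuous_id).tendsto 0
          rw [mul_zero] at this
          exact this.mono_left nhdsWithin_le_nhds
        · filter_upwards [self_mem_nhdsWithin] with r hr
          simp only [mem_Ioi] at hr ⊢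
          linarith
      exact h2.comp tendsto_fst
    have h2 := (t3.comp h1).const_mul 16
    refine h2.congr fun x => ?_
    simp only [Function.comp_apply]
    have h3 : (2 * x.1)⁻¹ ^ 4 * 16 = x.1⁻¹ ^ 4 := by
      rw [mul_inv, mul_pow]
      ring
    rw [← h3]
    ring
  have er : ∀ᶠ x : ℝ × E 4 × E m in F, 0 < x.1 :=
    tendsto_fst.eventually eventually_mem_nhdsWithin
  have c0 := t0.eventually (lt_mem_nhds (show 0 < D * I0 from mul_pos hD hI0pos))
  have c2 : ∀ᶠ x : ℝ × E 4 × E m in F, _ < _ :=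
    (t2.sub (t0.const_mul (80 + η))).eventually
      (gt_mem_nhds (show D * I1 - (80 + η) * (D * I0) < 0 by
        have : 0 < D * (η * I0) := by positivity
        nlinarith))
  have c1 : ∀ᶠ x : ℝ × E 4 × E m in F, _ < _ :=
    (t1.abs.sub (t0.const_mul η)).eventually
      (gt_mem_nhds (show |(0:ℝ)| - η * (D * I0) < 0 by
        have : 0 < η * (D * I0) := by positivity
        simp only [abs_zero]
        linarith))
  have c3 : ∀ᶠ x : ℝ × E 4 × E m in F, _ < _ :=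
    (t3'.sub (t0.const_mul c)).eventually
      (gt_mem_nhds (show 16 * (D * I2) - c * (D * I0) < 0 by
        have h1 : 16 * I2 < c * I0 := by
          have h2 : 16 * I2 ≤ 48 * e := by linarith
          have h3 : c * (1 / 16) ≤ c * I0 := mul_le_mul_of_nonneg_left hI0' hc.le
          linarith
        nlinarith))
  filter_upwards [er, c0, c1, c2, c3] with x hr h0 h1 h2 h3
  have hr4 : 0 < x.1⁻¹ ^ 4 := by positivity
  have key : ∀ a b : ℝ, x.1⁻¹ ^ 4 * a ≤ x.1⁻¹ ^ 4 * b → a ≤ b := fun a b h =>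
    le_of_mul_le_mul_left h hr4
  refine ⟨?_, ?_, ?_, ?_⟩
  · exact (mul_pos_iff_of_pos_left hr4).1 h0
  · apply key
    simp only [prim_rho hκ]
    linarith
  · apply key
    rw [abs_mul, abs_of_pos hr4] at h1
    simp only [prim_rho hκ]
    linarith
  · apply key
    linarith

theorem uniform_goodR [BorelSpace M] [T2Space M] [CompactSpace M] [IsManifold (𝓡 4) ∞ M]
    (hj : Emb j) (hA : Atl A) {μ : Measure M} (hμ : SmoothMeas μ) (hκ : Ker e κ) (he : 0 < e)
    (he1 : e ≤ 1 / 4) {c η : ℝ} (hη : 0 < η) (hc : 0 < c) (hec : 1000 * e ≤ c) :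
    ∃ r₀ : ℝ, 0 < r₀ ∧ ∀ r, 0 < r → r < r₀ → ∀ x, ∀ w ∈ tang j x, ‖w‖ = 1 →
      GoodR μ j κ e c η r x w := by
  have h1 : ∀ i : Fin K, ∀ᶠ r : ℝ in 𝓝[>] 0, ∀ y ∈ closedBall (0 : E 4) 1 ×ˢ sphere (0 : E 4) 1,
      GoodR μ j κ e c η r (A i y.1)
        (‖fderiv ℝ (fun q => j (A i q)) y.1 y.2‖⁻¹ • fderiv ℝ (fun q => j (A i q)) y.1 y.2) := by
    intro i
    have hK : IsCompact (closedBall (0 : E 4) 1 ×ˢ sphere (0 : E 4) 1) :=
      (isCompact_closedBall _ _).prod (isCompact_sphere _ _)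
    have h2 : ∀ y ∈ closedBall (0 : E 4) 1 ×ˢ sphere (0 : E 4) 1,
        ∀ᶠ x : ℝ × (E 4 × E 4) in 𝓝[>] 0 ×ˢ 𝓝 y,
        GoodR μ j κ e c η x.1 (A i x.2.1)
        (‖fderiv ℝ (fun q => j (A i q)) x.2.1 x.2.2‖⁻¹ •
          fderiv ℝ (fun q => j (A i q)) x.2.1 x.2.2) := by
      rintro ⟨p₀, w₀⟩ ⟨hp, hw⟩
      simp only [mem_sphere_iff_norm, sub_zero] at hw
      set J := fderiv ℝ (fun q => j (A i q)) p₀ with hJ
      have hJ0 : J w₀ ≠ 0 := by
        intro h
        have h3 : w₀ = 0 := hj.fderiv_inj hA i p₀ (by rw [← hJ, h, map_zero])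
        rw [h3, norm_zero] at hw
        exact zero_ne_one hw
      have hJn : 0 < ‖J w₀‖ := norm_pos_iff.2 hJ0
      have h4 := eventually_goodR hj hA hμ hκ he he1 hη hc hec i (p₀ := p₀) (by simpa using hp)
        (‖J w₀‖⁻¹ • J w₀)
        (by rw [norm_smul, norm_inv, norm_norm, inv_mul_cancel₀ hJn.ne'])
        (Submodule.smul_mem _ _ (hj.fderiv_mem hA i p₀ w₀))
      have hcf : Continuous (fun x : E 4 × E 4 => fderiv ℝ (fun q => j (A i q)) x.1 x.2) :=
        ((hj.contDiff hA i).continuous_fderiv (by simp)).comp continuous_fst |>.clm_apply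
          continuous_snd
      have h5 : Tendsto (fun x : ℝ × (E 4 × E 4) => (x.1, (x.2.1,
          ‖fderiv ℝ (fun q => j (A i q)) x.2.1 x.2.2‖⁻¹ •
          fderiv ℝ (fun q => j (A i q)) x.2.1 x.2.2))) (𝓝[>] 0 ×ˢ 𝓝 (p₀, w₀))
          (𝓝[>] 0 ×ˢ (𝓝 p₀ ×ˢ 𝓝 (‖J w₀‖⁻¹ • J w₀))) := by
        apply Tendsto.prodMk tendsto_fst
        apply Tendsto.prodMk
        · exact (continuous_fst.tendsto (p₀, w₀)).comp tendsto_snd
        · have h9 : Tendsto (fun x : ℝ × (E 4 × E 4) => fderiv ℝ (fun q => j (A i q)) x.2.1 x.2.2)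
              (𝓝[>] 0 ×ˢ 𝓝 (p₀, w₀)) (𝓝 (J w₀)) :=
            (hcf.tendsto (p₀, w₀)).comp tendsto_snd
          have h10 : Tendsto (fun x : ℝ × (E 4 × E 4) =>
              ‖fderiv ℝ (fun q => j (A i q)) x.2.1 x.2.2‖⁻¹)
              (𝓝[>] 0 ×ˢ 𝓝 (p₀, w₀)) (𝓝 (‖J w₀‖⁻¹)) := h9.norm.inv₀ hJn.ne'
          exact Filter.Tendsto.smul h10 h9
      exact h5.eventually h4
    exact (Eventually.curry (hK.mem_prod_nhdsSet_of_forall h2)).mono
      fun r hr => hr.self_of_nhdsSet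
  have h3 : ∀ᶠ r : ℝ in 𝓝[>] 0, ∀ i : Fin K, ∀ y ∈ closedBall (0 : E 4) 1 ×ˢ sphere (0 : E 4) 1,
      GoodR μ j κ e c η r (A i y.1)
        (‖fderiv ℝ (fun q => j (A i q)) y.1 y.2‖⁻¹ • fderiv ℝ (fun q => j (A i q)) y.1 y.2) :=
    eventually_all.2 h1
  obtain ⟨r₀, hr₀, h4⟩ := (nhdsGT_basis (0:ℝ)).eventually_iff.1 h3
  refine ⟨r₀, hr₀, fun r hr hr' x v hv hvn => ?_⟩
  obtain ⟨i, p, hp, rfl⟩ := hA.cov x
  obtain ⟨w, rfl⟩ := tang_le_range' hj (hA.ld i p) hv
  have hw0 : w ≠ 0 := by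
    rintro rfl
    rw [map_zero, norm_zero] at hvn
    exact zero_ne_one hvn
  have hwn : 0 < ‖w‖ := norm_pos_iff.2 hw0
  have h5 := h4 ⟨hr, hr'⟩ i (p, ‖w‖⁻¹ • w) ⟨by simpa using hp.le, by
    simp only [mem_sphere_iff_norm, sub_zero]
    rw [norm_smul, norm_inv, norm_norm, inv_mul_cancel₀ hwn.ne']⟩
  simp only [map_smul, norm_smul, norm_inv, norm_norm, hvn, mul_one, inv_inv, smul_smul,
    mul_inv_cancel₀ hwn.ne', one_smul] at h5
  exact h5

end unif

end Pool.Agent.T2H18
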