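import Mathlib
import Pool.Agent.T2H18.RegC

/-!
# The regression criterion
-/

set_option autoImplicit false

open Set Filter Topology Metric Function MeasureTheory
open scoped ContDiff RealInnerProductSpace Manifold

noncomputable section

namespace Pool.Agent.T2H18

open Pool.Agent.Y522 (LD)

theorem SmoothMeas.finite {M : Type*} [TopologicalSpace M] [ChartedSpace (E 4) M]
    [MeasurableSpace M] {μ : Measure M} (hμ : SmoothMeas μ) {K : ℕ} {A : Fin K → E 4 → M}
    (hA : Atl A) : IsFiniteMeasure μ := by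
  constructor
  have h1 : (univ : Set M) ⊆ ⋃ i, A i '' closedBall 0 1 := by
    intro x _
    obtain ⟨i, p, hp, rfl⟩ := hA.cov x
    rw [mem_iUnion]
    exact ⟨i, p, by simpa using hp.le, rfl⟩
  refine lt_of_le_of_lt ((measure_mono h1).trans (measure_iUnion_fintype_le μ _)) ?_
  rw [ENNReal.sum_lt_top]
  intro i _
  obtain ⟨D, hDc, hD0, hD⟩ := hμ (A i) (hA.inj i) (hA.ld i)
  rw [hD _ measurableSet_closedBall]
  exact (hDc.continuousOn.integrableOn_compact (isCompact_closedBall _ _)).setLIntegral_lt_top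

variable {M : Type*} [TopologicalSpace M] [T2Space M] [CompactSpace M] [ConnectedSpace M]
  [ChartedSpace (E 4) M] [IsManifold (𝓡 4) ∞ M] [MeasurableSpace M] [BorelSpace M]
variable {N : Type*} [TopologicalSpace N] [T2Space N] [CompactSpace N] [SimplyConnectedSpace N]
  [ChartedSpace (E 4) N] [IsManifold (𝓡 4) ∞ N]

/-- the comparison of the kernel with the sharp regression weight -/
theorem reg_lower {κ : ℝ → ℝ} {e c η : ℝ} (hκ : Ker e κ) (he : 0 < e) (he1 : e ≤ 1 / 4)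
    (hc : 0 < c) {m n : ℕ} {j : M → E m} (hjc : Continuous j) {μ : Measure M} [IsFiniteMeasure μ]
    {r : ℝ} (hr : 0 < r) {x : M} {w : E m} (hw : ‖w‖ = 1) (hgood : GoodR μ j κ e c η r x w)
    {F : M → E n} (hF : Integrable F μ) {Ω : ℝ} (hΩ : 0 < Ω)
    (hΩF : ∀ y, ‖j y - j x‖ ≤ r → ‖F y - F x‖ ≤ Ω)
    (hlow : c * r * μ.real {y | ‖j y - j x‖ ≤ r} * Ω ≤
      ‖∫ y in {y | ‖j y - j x‖ ≤ r}, ⟪j y - j x, w⟫ • (F y - F x) ∂μ‖) :
    ∃ u : E n, ‖u‖ = 1 ∧ c * Ω * ∫ y, prim κ (‖r⁻¹ • (j y - j x)‖ ^ 2) ∂μ ≤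
      ∫ y, rho (prim κ) (r⁻¹ • (j y - j x)) w * ⟪u, F y - F x⟫ ∂μ := by
  obtain ⟨g0, -, -, g3⟩ := hgood
  have hk := prim_kg hκ he.le (by linarith)
  set B : Set M := {y | ‖j y - j x‖ ≤ r} with hB
  have hBm : MeasurableSet B := by
    apply IsClosed.measurableSet
    exact isClosed_le (by fun_prop) continuous_const
  set S := ∫ y, prim κ (‖r⁻¹ • (j y - j x)‖ ^ 2) ∂μ with hS
  set mB := μ.real B with hmB
  have hzn : ∀ y, ‖r⁻¹ • (j y - j x)‖ = r⁻¹ * ‖j y - j x‖ := fun y => by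
    rw [norm_smul, norm_inv, Real.norm_eq_abs, abs_of_pos hr]
  -- the mass of the ball
  have hSB : S ≤ 1 / 2 * mB := by
    have h1 : S = ∫ y in B, prim κ (‖r⁻¹ • (j y - j x)‖ ^ 2) ∂μ := by
      symm
      apply setIntegral_eq_integral_of_forall_compl_eq_zero
      intro y hy
      have hy' : r < ‖j y - j x‖ := not_le.1 hy
      exact hk.kernel_zero hr hy'.le
    have h2 : ‖∫ y in B, prim κ (‖r⁻¹ • (j y - j x)‖ ^ 2) ∂μ‖ ≤ 1 / 2 * mB := by
      apply norm_setIntegral_le_of_norm_le_const (measure_lt_top _ _)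
      intro y _
      rw [Real.norm_eq_abs, abs_of_nonneg (hk.nonneg _)]
      exact prim_upper hκ (by positivity)
    rw [h1]
    exact (le_abs_self _).trans h2
  have hmBpos : 0 < mB := by linarith
  set V := ∫ y in B, ⟪j y - j x, w⟫ • (F y - F x) ∂μ with hV
  have hVpos : 0 < ‖V‖ := lt_of_lt_of_le (by positivity) hlow
  set u : E n := ‖V‖⁻¹ • V with hu
  have hun : ‖u‖ = 1 := by rw [hu, norm_smul, norm_inv, norm_norm, inv_mul_cancel₀ hVpos.ne']
  have huV : ⟪u, V⟫ = ‖V‖ := by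
    rw [hu, real_inner_smul_left, real_inner_self_eq_norm_sq]
    field_simp
  refine ⟨u, hun, ?_⟩
  -- integrability
  have hFx : Integrable (fun y => F y - F x) μ := hF.sub (integrable_const _)
  have hjb : ∃ C : ℝ, ∀ y, ‖j y - j x‖ ≤ C := by
    obtain ⟨C, hC⟩ := (isCompact_univ (X := M)).exists_bound_of_continuousOn
      (f := fun y => j y - j x) (by fun_prop)
    exact ⟨C, fun y => hC y (mem_univ y)⟩
  obtain ⟨C, hC⟩ := hjb
  have i1 : Integrable (fun y => ⟪j y - j x, w⟫ • (F y - F x)) μ := by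
    apply Integrable.mono' (g := fun y => C * ‖F y - F x‖) (hFx.norm.const_mul _)
    · have h1 : Continuous (fun y => ⟪j y - j x, w⟫) := by fun_prop
      exact h1.aestronglyMeasurable.smul hFx.aestronglyMeasurable
    · refine Eventually.of_forall fun y => ?_
      rw [norm_smul, Real.norm_eq_abs]
      apply mul_le_mul_of_nonneg_right _ (norm_nonneg _)
      have h2 := abs_real_inner_le_norm (j y - j x) w
      rw [hw, mul_one] at h2
      exact h2.trans (hC y)
  have huV' : ⟪u, V⟫ = ∫ y, B.indicator (fun y => ⟪j y - j x, w⟫ * ⟪u, F y - F x⟫) y ∂μ := by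
    rw [hV, ← integral_inner i1.integrableOn, integral_indicator hBm]
    congr 1
    funext y
    rw [real_inner_smul_right]
  have hκc := hκ.diff.continuous
  have iu : Integrable (fun y => ⟪u, F y - F x⟫) μ := hFx.const_inner u
  have i2 : Integrable (fun y => B.indicator (fun y => ⟪j y - j x, w⟫ * ⟪u, F y - F x⟫) y) μ := by
    apply Integrable.indicator _ hBm
    have := i1.const_inner (𝕜 := ℝ) u
    simpa only [real_inner_smul_right] using this
  have i3 : Integrable (fun y => rho (prim κ) (r⁻¹ • (j y - j x)) w * ⟪u, F y - F x⟫) μ := by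
    obtain ⟨C', hC'⟩ := hk.rho_bdd w
    apply Integrable.mono' (g := fun y => C' * ‖⟪u, F y - F x⟫‖) (iu.norm.const_mul _)
    · have h1 : Continuous (fun y => rho (prim κ) (r⁻¹ • (j y - j x)) w) := by
        simp only [prim_rho hκ]
        fun_prop
      exact h1.aestronglyMeasurable.mul iu.aestronglyMeasurable
    · refine Eventually.of_forall fun y => ?_
      rw [norm_mul, Real.norm_eq_abs]
      exact mul_le_mul_of_nonneg_right (hC' _) (norm_nonneg _)
  have i4 : Integrable (fun y => shell e (‖(2 * r)⁻¹ • (j y - j x)‖ ^ 2)) μ := by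
    have h1 : Continuous (fun y => shell e (‖(2 * r)⁻¹ • (j y - j x)‖ ^ 2)) := by
      have := shell_cont e
      fun_prop
    apply Integrable.mono' (g := fun _ => (1:ℝ)) (integrable_const _) h1.aestronglyMeasurable
    refine Eventually.of_forall fun y => ?_
    rw [Real.norm_eq_abs, abs_of_nonneg (shell_nonneg _ _)]
    exact shell_le_one _ _
  have hdiff : ‖∫ y, (r⁻¹ * B.indicator (fun y => ⟪j y - j x, w⟫ * ⟪u, F y - F x⟫) y -
      rho (prim κ) (r⁻¹ • (j y - j x)) w * ⟪u, F y - F x⟫) ∂μ‖ ≤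
      ∫ y, Ω * shell e (‖(2 * r)⁻¹ • (j y - j x)‖ ^ 2) ∂μ := by
    apply norm_integral_le_of_norm_le (i4.const_mul _)
    refine Eventually.of_forall fun y => ?_
    rw [prim_rho hκ]
    have hsn := shell_nonneg e (‖(2 * r)⁻¹ • (j y - j x)‖ ^ 2)
    by_cases hy : y ∈ B
    · have hy' : ‖j y - j x‖ ≤ r := hy
      rw [indicator_of_mem hy]
      have h1 : r⁻¹ * (⟪j y - j x, w⟫ * ⟪u, F y - F x⟫) -
          κ (‖r⁻¹ • (j y - j x)‖ ^ 2) * ⟪r⁻¹ • (j y - j x), w⟫ * ⟪u, F y - F x⟫ =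
          (1 - κ (‖r⁻¹ • (j y - j x)‖ ^ 2)) * ⟪r⁻¹ • (j y - j x), w⟫ * ⟪u, F y - F x⟫ := by
        rw [show ⟪r⁻¹ • (j y - j x), w⟫ = r⁻¹ * ⟪j y - j x, w⟫ from real_inner_smul_left _ _ _]
        ring
      rw [h1]
      have hz1 : ‖r⁻¹ • (j y - j x)‖ ≤ 1 := by
        rw [hzn, inv_mul_le_iff₀ hr]
        linarith
      rcases le_or_gt (‖r⁻¹ • (j y - j x)‖ ^ 2) (1 - e) with h2 | h2
      · rw [hκ.one _ h2]
        simp only [sub_self, zero_mul, norm_zero]
        positivity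
      · have h3 : shell e (‖(2 * r)⁻¹ • (j y - j x)‖ ^ 2) = 1 := by
          apply shell_one he
          have h4 : ‖(2 * r)⁻¹ • (j y - j x)‖ ^ 2 = ‖r⁻¹ • (j y - j x)‖ ^ 2 / 4 := by
            rw [mul_inv, mul_smul, norm_smul]
            norm_num
            ring
          rw [h4, abs_le]
          have h5 : ‖r⁻¹ • (j y - j x)‖ ^ 2 ≤ 1 := by
            have := norm_nonneg (r⁻¹ • (j y - j x))
            nlinarith
          constructor
          · linarith
          · linarith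
        rw [h3, mul_one, norm_mul, norm_mul, Real.norm_eq_abs, Real.norm_eq_abs,
          Real.norm_eq_abs]
        have h4 : |1 - κ (‖r⁻¹ • (j y - j x)‖ ^ 2)| ≤ 1 := by
          rw [abs_le]
          have := hκ.nonneg (‖r⁻¹ • (j y - j x)‖ ^ 2)
          have := hκ.le_one (‖r⁻¹ • (j y - j x)‖ ^ 2)
          constructor <;> linarith
        have h5 : |⟪r⁻¹ • (j y - j x), w⟫| ≤ 1 := by
          have := abs_real_inner_le_norm (r⁻¹ • (j y - j x)) w
          rw [hw, mul_one] at this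
          exact this.trans hz1
        have h6 : |⟪u, F y - F x⟫| ≤ Ω := by
          have := abs_real_inner_le_norm u (F y - F x)
          rw [hun, one_mul] at this
          exact this.trans (hΩF y hy')
        calc _ ≤ 1 * 1 * Ω := by gcongr
          _ = Ω := by ring
    · have hy' : r < ‖j y - j x‖ := not_le.1 hy
      rw [indicator_of_notMem hy]
      have h1 : κ (‖r⁻¹ • (j y - j x)‖ ^ 2) = 0 := by
        apply hκ.zero
        apply one_le_sq
        rw [hzn, ← div_eq_inv_mul, le_div_iff₀ hr]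
        linarith
      rw [h1]
      simp only [mul_zero, zero_mul, sub_zero, norm_zero]
      positivity
  rw [integral_sub (i2.const_mul _) i3, integral_const_mul, integral_const_mul, ← huV', huV,
    Real.norm_eq_abs] at hdiff
  have h1 := (abs_le.1 hdiff).2
  have h2 : Ω * ∫ y, shell e (‖(2 * r)⁻¹ • (j y - j x)‖ ^ 2) ∂μ ≤ Ω * (c * S) :=
    mul_le_mul_of_nonneg_left g3 hΩ.le
  have h3 : c * mB * Ω ≤ r⁻¹ * ‖V‖ := by
    rw [le_inv_mul_iff₀ hr]
    calc r * (c * mB * Ω) = c * r * mB * Ω := by ring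
      _ ≤ _ := hlow
  have h4 : c * (2 * S) * Ω ≤ c * mB * Ω := by
    apply mul_le_mul_of_nonneg_right _ hΩ.le
    apply mul_le_mul_of_nonneg_left _ hc.le
    linarith
  have h5 : c * (2 * S) * Ω = c * Ω * S + Ω * (c * S) := by ring
  linarith

theorem reg_diffeo {c : ℝ} (hc : 0 < c) {m n : ℕ} {j : M → E m} {ι : N → E n} (hj : Emb j)
    (hι : Emb ι) {μ : Measure M} (hμ : SmoothMeas μ) {η₀ : ℝ} (hη₀ : 0 < η₀) :
    ∃ δ : ℝ, 0 < δ ∧ ∀ r : ℝ, 0 < r → r ≤ δ → ∀ g : M → N, Measurable (fun x => ι (g x)) →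
      (∀ x, ∃ Ω : ℝ, 0 < Ω ∧ Ω ≤ δ ∧ (∀ y, ‖j y - j x‖ ≤ r → ‖ι (g y) - ι (g x)‖ ≤ Ω) ∧
        ∀ w ∈ tang j x, c * r * μ.real {y | ‖j y - j x‖ ≤ r} * Ω * ‖w‖ ≤
          ‖∫ y in {y | ‖j y - j x‖ ≤ r}, ⟪j y - j x, w⟫ • (ι (g y) - ι (g x)) ∂μ‖) →
      ∃ Φ : Diffeomorph (𝓡 4) (𝓡 4) M N ∞,
        (∀ hg : Continuous g, ContinuousMap.Homotopic ⟨g, hg⟩ ⟨Φ, Φ.continuous⟩) ∧
        ∀ x, ‖ι (Φ x) - ι (g x)‖ ≤ η₀ := by
  obtain ⟨K, A, hA⟩ := exists_atl (M := M)
  obtain ⟨y₀⟩ : Nonempty N := inferInstance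
  obtain ⟨π, U, hU, hιU, hπ, hπι, hcl⟩ := exists_retraction hι
  have : IsFiniteMeasure μ := hμ.finite hA
  set e : ℝ := min (1 / 4) (c / 1000) with he
  have he0 : 0 < e := lt_min (by norm_num) (by positivity)
  have he1 : e ≤ 1 / 4 := min_le_left _ _
  have hec : 1000 * e ≤ c := by
    have : e ≤ c / 1000 := min_le_right _ _
    linarith
  obtain ⟨κ, hκ⟩ := exists_ker he0
  have hk := prim_kg hκ he0.le (by linarith)
  set η := c / 4 with hη
  have hη0 : 0 < η := by positivity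
  obtain ⟨r₀, hr₀, hgood⟩ := uniform_goodR hj hA hμ hκ he0 he1 hη0 hc hec
  set ε := c / 2 / (4 * (80 + 2 * η)) with hε
  have hε0 : 0 < ε := by positivity
  have hεe : 2 * ε * (80 + 2 * η) < c / 2 := by
    have : 2 * ε * (80 + 2 * η) = c / 2 / 2 := by
      rw [hε]
      field_simp
      norm_num
    rw [this]
    linarith
  obtain ⟨δ₁, hδ₁, hret⟩ := uniform_retr hι hU hιU hπ hε0
  refine ⟨min (r₀ / 2) (min (δ₁ / 2) (η₀ / 2)), by positivity, ?_⟩
  set δ := min (r₀ / 2) (min (δ₁ / 2) (η₀ / 2)) with hδ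
  have hδr : δ < r₀ := lt_of_le_of_lt (min_le_left _ _) (half_lt_self hr₀)
  have hδδ : δ < δ₁ := lt_of_le_of_lt ((min_le_right _ _).trans (min_le_left _ _))
    (half_lt_self hδ₁)
  have hδη : 2 * δ ≤ η₀ := by
    have : δ ≤ η₀ / 2 := (min_le_right _ _).trans (min_le_right _ _)
    linarith
  intro r hr hrδ g hgm hg
  have hjc : Continuous j := hj.smooth.continuous
  have hιc : Continuous ι := hι.smooth.continuous
  have hje : MeasurableEmbedding j := (hjc.isClosedEmbedding hj.inj).measurableEmbedding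
  -- the extension
  set F : M → E n := fun x => ι (g x) with hF
  set f : E m → E n := Function.extend j F 0 with hf
  have hfj : ∀ x, f (j x) = F x := fun x => hj.inj.extend_apply _ _ _
  have hFint : Integrable F μ := by
    obtain ⟨C, hC⟩ := (isCompact_univ (X := N)).exists_bound_of_continuousOn
      (f := ι) hιc.continuousOn
    apply Integrable.mono' (g := fun _ => C) (integrable_const _) hgm.aestronglyMeasurable
    exact Eventually.of_forall fun x => hC _ (mem_univ _)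
  set ν := μ.map j with hν
  have hfint : Integrable f ν := by
    rw [hν, hje.integrable_map_iff]
    have : f ∘ j = F := funext hfj
    rw [this]
    exact hFint
  have hνC : ∀ᵐ t ∂ν, t ∈ range j := by
    exact (ae_map_iff (p := fun t => t ∈ range j) hjc.measurable.aemeasurable
      (isCompact_range hjc).isClosed.measurableSet).2
      (Eventually.of_forall fun x => mem_range_self x)
  have hmap : ∀ Φ : E m → ℝ, ∫ t, Φ t ∂ν = ∫ y, Φ (j y) ∂μ := fun Φ => hje.integral_map Φ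
  have hmain := crit_reg hj hι hA hk hU hπ hπι hcl hδ₁ hε0 hret (ν := ν) hνC hfint g hfj
    (r := r) (m₀ := 80) (η := η) (β₁ := c / 2) (σ := δ) hr hη0.le hδδ hεe ?_
  · obtain ⟨Φ, h1, h2⟩ := hmain
    exact ⟨Φ, h1, fun x => (h2 x).trans hδη⟩
  · intro x
    obtain ⟨Ω, hΩ, hΩδ, hΩF, hlow⟩ := hg x
    refine ⟨Ω, hΩ, hΩδ, hΩF, fun w hw hw1 => ?_⟩
    have hgd := hgood r hr (lt_of_le_of_lt hrδ hδr) x w hw hw1
    obtain ⟨g0, g1, g2, -⟩ := id hgd
    have hlow' := hlow w hw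
    rw [hw1, mul_one] at hlow'
    obtain ⟨u, hu, hlu⟩ := reg_lower hκ he0 he1 hc hjc hr hw1 hgd hFint hΩ hΩF hlow'
    simp only [hmap]
    refine ⟨g0, g1, g2, ?_⟩
    obtain ⟨-, -, c3⟩ := loc_reg hk hνC hfint hr hη0.le (j x) w (m₀ := 80)
      (by rw [hmap]; exact g0) (by rw [hmap, hmap]; exact g1) (by rw [hmap, hmap]; exact g2) (F x)
    have h1 := c3 u Ω hu hΩ.le (fun t ht htr => by
      obtain ⟨y, rfl⟩ := ht
      rw [hfj]
      exact hΩF y htr)
    rw [hmap, hmap] at h1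
    simp only [hfj] at h1
    refine le_trans ?_ h1
    have h2 : c * Ω ≤ (∫ y, prim κ (‖r⁻¹ • (j y - j x)‖ ^ 2) ∂μ)⁻¹ *
        ∫ y, rho (prim κ) (r⁻¹ • (j y - j x)) w * ⟪u, F y - F x⟫ ∂μ := by
      rw [le_inv_mul_iff₀ g0]
      linarith
    have h3 : Ω * (c / 2) ≤ c * Ω - η * Ω := by
      rw [hη]
      nlinarith
    linarith

end Pool.Agent.T2H18
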